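import Pool.Agent.Run7.h941.Comb

/-!
Subspaces of a finite dimensional commutative algebra with two distinguished elements.
-/

set_option autoImplicit false

open Module

namespace Run7.H941

/-- For a complex `E → F → G`, a dimension inequality (copy). -/
theorem complex_ineq' {k E F G : Type*} [Field k] [AddCommGroup E] [Module k E]
    [AddCommGroup F] [Module k F] [AddCommGroup G] [Module k G]
    [FiniteDimensional k E] [FiniteDimensional k F]
    (ψ : E →ₗ[k] F) (φ : F →ₗ[k] G) (h : ∀ e, φ (ψ e) = 0) :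
    finrank k (LinearMap.range φ) + finrank k E ≤ finrank k F + finrank k (LinearMap.ker ψ) :=
  complex_ineq ψ φ h

variable {k Λ : Type*} [Field k] [CommRing Λ] [Algebra k Λ]

/-- `W + x W + y W` -/
def nx (x y : Λ) (W : Submodule k Λ) : Submodule k Λ :=
  W ⊔ W.map (LinearMap.mulLeft k x) ⊔ W.map (LinearMap.mulLeft k y)

/-- `{n ∈ W | x n ∈ W, y n ∈ W}` -/
def pv (x y : Λ) (W : Submodule k Λ) : Submodule k Λ :=
  W ⊓ W.comap (LinearMap.mulLeft k x) ⊓ W.comap (LinearMap.mulLeft k y)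

variable {x y : Λ}

theorem mem_pv {W : Submodule k Λ} {n : Λ} :
    n ∈ pv x y W ↔ n ∈ W ∧ x * n ∈ W ∧ y * n ∈ W := by
  simp [pv, Submodule.mem_inf, and_assoc]

theorem le_nx (W : Submodule k Λ) : W ≤ nx x y W := le_sup_left.trans le_sup_left

theorem x_mem_nx {W : Submodule k Λ} {n : Λ} (h : n ∈ W) : x * n ∈ nx x y W :=
  Submodule.mem_sup_left (Submodule.mem_sup_right ⟨n, h, rfl⟩)

theorem y_mem_nx {W : Submodule k Λ} {n : Λ} (h : n ∈ W) : y * n ∈ nx x y W :=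
  Submodule.mem_sup_right ⟨n, h, rfl⟩

theorem nx_le {W U : Submodule k Λ} : nx x y W ≤ U ↔
    W ≤ U ∧ ∀ n ∈ W, x * n ∈ U ∧ y * n ∈ U := by
  constructor
  · intro h
    exact ⟨(le_nx W).trans h, fun n hn => ⟨h (x_mem_nx hn), h (y_mem_nx hn)⟩⟩
  · rintro ⟨h1, h2⟩
    refine sup_le (sup_le h1 ?_) ?_
    · rintro _ ⟨n, hn, rfl⟩
      exact (h2 n hn).1
    · rintro _ ⟨n, hn, rfl⟩
      exact (h2 n hn).2

theorem nx_mono {V W : Submodule k Λ} (h : V ≤ W) : nx x y V ≤ nx x y W :=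
  nx_le.mpr ⟨h.trans (le_nx W), fun _ hn => ⟨x_mem_nx (h hn), y_mem_nx (h hn)⟩⟩

theorem nx_le_iff_pv {V U : Submodule k Λ} (h : V ≤ U) (hx : ∀ n ∈ V, x * n ∈ U)
    (hy : ∀ n ∈ V, y * n ∈ U) : V ≤ pv x y U := fun n hn => mem_pv.mpr ⟨h hn, hx n hn, hy n hn⟩

theorem pv_le (W : Submodule k Λ) : pv x y W ≤ W := fun _ hn => (mem_pv.mp hn).1

theorem nx_pv_le (W : Submodule k Λ) : nx x y (pv x y W) ≤ W :=
  nx_le.mpr ⟨pv_le W, fun _ hn => (mem_pv.mp hn).2⟩

theorem pv_mono {V W : Submodule k Λ} (h : V ≤ W) : pv x y V ≤ pv x y W := by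
  intro n hn
  rw [mem_pv] at hn ⊢
  exact ⟨h hn.1, h hn.2.1, h hn.2.2⟩

theorem le_pv_iff {V U : Submodule k Λ} : V ≤ pv x y U ↔ nx x y V ≤ U := by
  rw [nx_le]
  constructor
  · intro h
    exact ⟨fun n hn => (mem_pv.mp (h hn)).1, fun n hn => (mem_pv.mp (h hn)).2⟩
  · rintro ⟨h1, h2⟩ n hn
    exact mem_pv.mpr ⟨h1 hn, h2 n hn⟩

variable [FiniteDimensional k Λ]

/-- the basic dimension inequality -/
theorem cx_ineq (x y : Λ) (A N0 N1 Z0 Z : Submodule k Λ)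
    (hA : ∀ n ∈ A, x * n ∈ N1 ∧ y * n ∈ N1) (hN : N0 ≤ N1)
    (hZ0 : ∀ n ∈ N0, x * n ∈ Z0 ∧ y * n ∈ Z0) (hZZ : Z0 ≤ Z)
    (hZ : ∀ w ∈ Z, ∃ p ∈ N1, ∃ q ∈ N1, w - (x * p + y * q) ∈ Z0)
    (hZ1 : ∀ n ∈ N1, x * n ∈ Z ∧ y * n ∈ Z) :
    finrank k Z + finrank k A + 2 * finrank k N0 ≤ finrank k Z0 + 2 * finrank k N1 +
      finrank k (A ⊓ N0.comap (LinearMap.mulLeft k x) ⊓ N0.comap (LinearMap.mulLeft k y) :
        Submodule k Λ) := by
  -- N1 / N0
  let N0' : Submodule k N1 := N0.comap N1.subtype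
  let Q := N1 ⧸ N0'
  have hN0' : finrank k N0' = finrank k N0 := by
    exact (Submodule.comapSubtypeEquivOfLe hN).finrank_eq
  have hQ : finrank k Q + finrank k N0 = finrank k N1 := by
    rw [← hN0']; exact Submodule.finrank_quotient_add_finrank N0'
  let mxA : A →ₗ[k] N1 := (LinearMap.mulLeft k x).restrict (p := A) (q := N1)
    (fun n hn => (hA n hn).1)
  let myA : A →ₗ[k] N1 := (LinearMap.mulLeft k y).restrict (p := A) (q := N1)
    (fun n hn => (hA n hn).2)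
  let ψ : A →ₗ[k] (Q × Q) := LinearMap.prod (N0'.mkQ.comp myA) (-(N0'.mkQ.comp mxA))
  let fx : Q →ₗ[k] (Λ ⧸ Z0) := N0'.mapQ Z0 ((LinearMap.mulLeft k x).comp N1.subtype) (by
    intro n hn
    exact (hZ0 n hn).1)
  let fy : Q →ₗ[k] (Λ ⧸ Z0) := N0'.mapQ Z0 ((LinearMap.mulLeft k y).comp N1.subtype) (by
    intro n hn
    exact (hZ0 n hn).2)
  let φ : (Q × Q) →ₗ[k] (Λ ⧸ Z0) := fx.comp (LinearMap.fst k Q Q) + fy.comp (LinearMap.snd k Q Q)
  have hcomp : ∀ e, φ (ψ e) = 0 := by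
    intro e
    change fx (N0'.mkQ (myA e)) + fy (-(N0'.mkQ (mxA e))) = 0
    rw [map_neg]
    change Z0.mkQ (x * (y * (e : Λ))) + -(Z0.mkQ (y * (x * (e : Λ)))) = 0
    rw [← map_neg, ← map_add]
    have : x * (y * (e : Λ)) + -(y * (x * (e : Λ))) = 0 := by ring
    rw [this, map_zero]
  have key := complex_ineq' ψ φ hcomp
  have hrange : LinearMap.range φ = Z.map Z0.mkQ := by
    ext w
    constructor
    · rintro ⟨⟨p, q⟩, rfl⟩
      obtain ⟨p', rfl⟩ := N0'.mkQ_surjective p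
      obtain ⟨q', rfl⟩ := N0'.mkQ_surjective q
      refine ⟨x * (p' : Λ) + y * (q' : Λ), ?_, ?_⟩
      · exact add_mem (hZ1 _ p'.2).1 (hZ1 _ q'.2).2
      · rw [map_add]; rfl
    · rintro ⟨w, hw, rfl⟩
      obtain ⟨p, hp, q, hq, hpq⟩ := hZ w hw
      refine ⟨(N0'.mkQ ⟨p, hp⟩, N0'.mkQ ⟨q, hq⟩), ?_⟩
      change Z0.mkQ (x * p) + Z0.mkQ (y * q) = Z0.mkQ w
      rw [← map_add, Submodule.mkQ_apply, Submodule.mkQ_apply, eq_comm, Submodule.Quotient.eq]
      exact hpq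
  have hZmap : finrank k (Z.map Z0.mkQ) + finrank k Z0 = finrank k Z := by
    have h1 := LinearMap.finrank_range_add_finrank_ker (Z0.mkQ.domRestrict Z)
    have h2 : LinearMap.range (Z0.mkQ.domRestrict Z) = Z.map Z0.mkQ := by
      rw [LinearMap.range_domRestrict]
    have h3 : finrank k (LinearMap.ker (Z0.mkQ.domRestrict Z)) = finrank k Z0 := by
      rw [LinearMap.ker_domRestrict, Submodule.ker_mkQ]
      exact (Submodule.comapSubtypeEquivOfLe hZZ).finrank_eq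
    rw [h2, h3] at h1
    exact h1
  have hker : finrank k (LinearMap.ker ψ) ≤
      finrank k (A ⊓ N0.comap (LinearMap.mulLeft k x) ⊓ N0.comap (LinearMap.mulLeft k y) :
        Submodule k Λ) := by
    let j : LinearMap.ker ψ →ₗ[k] (A ⊓ N0.comap (LinearMap.mulLeft k x) ⊓
        N0.comap (LinearMap.mulLeft k y) : Submodule k Λ) :=
      LinearMap.codRestrict _ (A.subtype.comp (LinearMap.ker ψ).subtype) (by
        rintro ⟨e, he⟩
        rw [LinearMap.mem_ker] at he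
        have h1 : N0'.mkQ (myA e) = 0 := congrArg Prod.fst he
        have h2 : -(N0'.mkQ (mxA e)) = 0 := congrArg Prod.snd he
        rw [neg_eq_zero] at h2
        rw [Submodule.mkQ_apply, Submodule.Quotient.mk_eq_zero] at h1 h2
        exact ⟨⟨e.2, h2⟩, h1⟩)
    apply LinearMap.finrank_le_finrank_of_injective (f := j)
    intro e e' h
    apply Subtype.ext
    apply Subtype.ext
    exact congrArg (fun z : (A ⊓ N0.comap (LinearMap.mulLeft k x) ⊓
        N0.comap (LinearMap.mulLeft k y) : Submodule k Λ) => (z : Λ)) h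
  rw [hrange, Module.finrank_prod] at key
  omega

/-- Koszul inequality for a pair -/
theorem koszul_aff (x y : Λ) (V U : Submodule k Λ) (h : nx x y V ≤ U) :
    finrank k (nx x y U) + 3 * finrank k V ≤ 3 * finrank k U + finrank k (pv x y V) := by
  obtain ⟨h1, h2⟩ := nx_le.mp h
  have key := cx_ineq x y V V U U (nx x y U) h2 h1 h2 (le_nx U) (by
    intro w hw
    obtain ⟨w1, hw1, _, ⟨q, hq, rfl⟩, rfl⟩ := Submodule.mem_sup.mp hw
    obtain ⟨w2, hw2, _, ⟨p, hp, rfl⟩, rfl⟩ := Submodule.mem_sup.mp hw1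
    refine ⟨p, hp, q, hq, ?_⟩
    simp only [LinearMap.mulLeft_apply]
    have : w2 + x * p + y * q - (x * p + y * q) = w2 := by ring
    rw [this]
    exact hw2) (fun n hn => ⟨x_mem_nx hn, y_mem_nx hn⟩)
  have e : (V ⊓ V.comap (LinearMap.mulLeft k x) ⊓ V.comap (LinearMap.mulLeft k y) :
        Submodule k Λ) = pv x y V := rfl
  rw [e] at key
  omega

end Run7.H941
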