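import Pool.Agent.Run7.h941.MainRegion

/-!
The top region of the growth theorem, by duality, and the growth theorem for affine systems.
-/

set_option autoImplicit false
set_option linter.unusedSectionVars false

open Module

namespace Run7.H941

/-- elements of the box of degree `< m`, strictly above `r` -/
def Rs (a b m : ℕ) (r : ℕ × ℕ) : Finset (ℕ × ℕ) :=
  (Finset.range a ×ˢ Finset.range b).filter (fun p => p.1 + p.2 < m ∧ ¬ lx p r)

instance lxDec2 (r : ℕ × ℕ) : DecidablePred (fun p => lx p r) := fun p => by
  unfold lx; infer_instance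

theorem mem_Rs {a b m : ℕ} {r p : ℕ × ℕ} :
    p ∈ Rs a b m r ↔ (p.1 < a ∧ p.2 < b) ∧ p.1 + p.2 < m ∧ ¬ lx p r := by
  simp [Rs]

theorem Qs_compl {a b D e : ℕ} {t : ℕ × ℕ} (hD : a + b ≤ D + 1) (he : e + 1 ≤ a + b)
    (ht : t.1 < a ∧ t.2 < b) :
    (Qs a b D e t).card + (Rs a b (a + b - 1 - e) (a - 1 - t.1, b - 1 - t.2)).card = a * b := by
  classical
  have hbox : (Finset.range a ×ˢ Finset.range b).card = a * b := by simp
  have hsub : Qs a b D e t ⊆ Finset.range a ×ˢ Finset.range b := Finset.filter_subset _ _
  have h1 := Finset.card_sdiff_add_card_eq_card hsub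
  rw [hbox] at h1
  have h2 : (Rs a b (a + b - 1 - e) (a - 1 - t.1, b - 1 - t.2)).card =
      ((Finset.range a ×ˢ Finset.range b) \ Qs a b D e t).card := by
    apply Finset.card_bij (fun p _ => (a - 1 - p.1, b - 1 - p.2))
    · intro p hp
      rw [mem_Rs] at hp
      rw [Finset.mem_sdiff, mem_Qs, Finset.mem_product, Finset.mem_range, Finset.mem_range]
      unfold lx at *
      simp only at *
      omega
    · intro p hp q hq h
      rw [mem_Rs] at hp hq
      simp only [Prod.mk.injEq] at h
      apply Prod.ext <;> omega
    · intro q hq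
      rw [Finset.mem_sdiff, mem_Qs, Finset.mem_product, Finset.mem_range, Finset.mem_range] at hq
      refine ⟨(a - 1 - q.1, b - 1 - q.2), ?_, ?_⟩
      · rw [mem_Rs]
        unfold lx at *
        simp only at *
        omega
      · apply Prod.ext <;> simp only <;> omega
  omega

theorem Qs_card_le_mul (a b D e : ℕ) (t : ℕ × ℕ) : (Qs a b D e t).card ≤ a * b := by
  calc (Qs a b D e t).card ≤ (Finset.range a ×ˢ Finset.range b).card :=
        Finset.card_le_card (Finset.filter_subset _ _)
    _ = a * b := by simp

variable {k Λ : Type*} [Field k] [CommRing Λ] [Algebra k Λ] [FiniteDimensional k Λ]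
variable {x y h : Λ} {a b c : ℕ} {E : ℕ → Submodule k Λ}

/-- a generator of the dual -/
theorem AffSys.exists_dual (S : AffSys x y h a b c E) (hT : E (a + b - 1) = ⊤) :
    ∃ θ : Λ →ₗ[k] k, ∀ j, 1 ≤ j → j ≤ a + b - 1 → ∀ n : Λ, (∀ m ∈ E j, θ (n * m) = 0) →
      n ∈ E (a + b - 1 - j) := by
  have ha := S.ha
  have hab := S.hab
  have hd : dg a b (a + b - 2) = 1 := by
    have h1 := dg_large (a := a) (b := b) (m := a + b - 2) (by omega) hab
    have h2 := card_topS_le (a := a) (b := b) (D := a + b - 2) (0, 0) (by omega)
    unfold dg at *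
    omega
  have hc := Bq_card_succ a b (a + b - 2)
  have e1 : a + b - 2 + 1 = a + b - 1 := by omega
  rw [e1, hd, ← S.dE, ← S.dE, hT, finrank_top] at hc
  have hlt : E (a + b - 2) < ⊤ := by
    rw [lt_top_iff_ne_top]
    intro he
    rw [he, finrank_top] at hc
    omega
  obtain ⟨θ, hθ0, hθ⟩ := Submodule.exists_le_ker_of_lt_top _ hlt
  have hker : LinearMap.ker θ = E (a + b - 2) := by
    symm
    apply Submodule.eq_of_le_of_finrank_le hθ
    have h1 := LinearMap.finrank_range_add_finrank_ker θ
    have h2 : 1 ≤ finrank k (LinearMap.range θ) := by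
      rw [Nat.one_le_iff_ne_zero]
      intro h0
      apply hθ0
      rw [← LinearMap.range_eq_bot]
      exact Submodule.finrank_eq_zero.mp h0
    omega
  refine ⟨θ, ?_⟩
  intro j hj
  induction j, hj using Nat.le_induction with
  | base =>
    intro _ n hn
    have h1 : (1 : Λ) ∈ E 1 := by
      rw [S.E1]
      exact Submodule.mem_span_singleton_self _
    have h2 := hn 1 h1
    rw [mul_one] at h2
    have h3 : n ∈ LinearMap.ker θ := h2
    rw [hker] at h3
    have : a + b - 1 - 1 = a + b - 2 := by omega
    rw [this]
    exact h3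
  | succ j hj ih =>
    intro hj' n hn
    have hih := ih (by omega)
    have e2 : a + b - 1 - j = a + b - 1 - (j + 1) + 1 := by omega
    rw [e2] at hih
    apply S.soc _ n (by omega)
    · exact hih n (fun m hm => hn m (S.mono _ hm))
    · apply hih
      intro m hm
      have : x * n * m = n * (x * m) := by ring
      rw [this]
      exact hn _ (S.xE hm)
    · apply hih
      intro m hm
      have : y * n * m = n * (y * m) := by ring
      rw [this]
      exact hn _ (S.yE hm)

/-- The growth statement in the top region. -/
theorem AffSys.top_region (S : AffSys x y h a b c E) (hT : E (a + b - 1) = ⊤)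
    (hG2 : G2 x y a b E) {D : ℕ} (hcD : c ≤ D) (hD : a + b ≤ D + 1) {V U : Submodule k Λ}
    (hp : AP x y h c E D V U) : Cl a b c D (finrank k V) (finrank k U) := by
  have ha := S.ha
  have hab := S.hab
  have hbc := S.hbc
  obtain ⟨e, hDe⟩ : ∃ e, D = c + e := ⟨D - c, by omega⟩
  have eD : D - c = e := by omega
  have eD1 : D + 1 - c = e + 1 := by omega
  have hhV : ∀ n ∈ E e, h * n ∈ V := by rw [← eD]; exact hp.hhV
  have hhU : ∀ n ∈ E (e + 1), h * n ∈ U := by rw [← eD1]; exact hp.hhU
  intro t ht1 ht2 ht3 htv
  rw [eD] at htv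
  rw [eD1]
  have hfull : finrank k Λ = a * b := by
    have h1 := S.dE (a + b - 1)
    rw [hT, finrank_top] at h1
    rw [h1]
    have : Bq a b (a + b - 1) = Finset.range a ×ˢ Finset.range b := by
      ext p
      rw [mem_Bq, Finset.mem_product, Finset.mem_range, Finset.mem_range]
      omega
    rw [this]
    simp
  by_cases he : a + b ≤ e + 2
  · -- everything
    have hUtop : U = ⊤ := by
      rw [eq_top_iff]
      intro n _
      obtain ⟨u, hu⟩ := S.hu
      have h1 : (↑u⁻¹ : Λ) * n ∈ E (e + 1) := by
        apply S.monoE (m := a + b - 1) (by omega)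
        rw [hT]
        trivial
      have h2 := hhU _ h1
      rw [← hu, ← mul_assoc, Units.mul_inv, one_mul] at h2
      exact h2
    rw [hUtop, finrank_top, hfull]
    exact Qs_card_le_mul _ _ _ _ _
  · push Not at he
    obtain ⟨θ, hθ⟩ := S.exists_dual hT
    obtain ⟨uh, huh⟩ := S.hu
    let g : Λ := ↑uh⁻¹
    have hgh : g * h = 1 := by
      rw [← huh]; exact Units.inv_mul uh
    let B : LinearMap.BilinForm k Λ :=
      ((LinearMap.mul k Λ).compr₂ θ).comp (LinearMap.mulLeft k g)
    have hB : ∀ n m, B n m = θ (g * n * m) := fun n m => rfl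
    have hBker : LinearMap.ker B = ⊥ := by
      rw [eq_bot_iff]
      intro n hn
      rw [LinearMap.mem_ker] at hn
      have h1 : g * n ∈ E (a + b - 1 - (a + b - 1)) := by
        apply hθ _ (by omega) le_rfl
        intro m _
        have := LinearMap.congr_fun hn m
        rw [hB] at this
        exact this
      rw [Nat.sub_self, S.E0, Submodule.mem_bot] at h1
      rw [Submodule.mem_bot]
      have h2 : n = h * (g * n) := by
        rw [← mul_assoc, mul_comm h g, hgh, one_mul]
      rw [h2, h1, mul_zero]
    have hdim : ∀ W : Submodule k Λ, finrank k W + finrank k (B.orthogonal W) = a * b := by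
      intro W
      have := LinearMap.BilinForm.finrank_add_finrank_orthogonal' (B := B) W
      rw [hBker, inf_bot_eq, finrank_bot, add_zero, hfull] at this
      exact this
    have hmem : ∀ (W : Submodule k Λ) (m : Λ), m ∈ B.orthogonal W ↔ ∀ n ∈ W, θ (g * n * m) = 0 := by
      intro W m
      exact LinearMap.BilinForm.mem_orthogonal_iff
    -- the dual pair
    have hV' : B.orthogonal U ≤ E (a + b - 2 - e) := by
      intro m hm
      rw [hmem] at hm
      have e3 : a + b - 2 - e = a + b - 1 - (e + 1) := by omega
      rw [e3]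
      apply hθ _ (by omega) (by omega)
      intro n hn
      have h1 := hm (h * n) (hhU n hn)
      have h2 : g * (h * n) * m = m * n := by
        rw [← mul_assoc, hgh, one_mul, mul_comm]
      rwa [h2] at h1
    have hU' : B.orthogonal V ≤ E (a + b - 2 - e + 1) := by
      have e3 : a + b - 2 - e + 1 = a + b - 1 - e := by omega
      rw [e3]
      intro m hm
      rw [hmem] at hm
      rcases Nat.eq_zero_or_pos e with he0 | he0
      · rw [he0, Nat.sub_zero, hT]
        trivial
      · apply hθ _ he0 (by omega)
        intro n hn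
        have h1 := hm (h * n) (hhV n hn)
        have h2 : g * (h * n) * m = m * n := by
          rw [← mul_assoc, hgh, one_mul, mul_comm]
        rwa [h2] at h1
    have hn' : nx x y (B.orthogonal U) ≤ B.orthogonal V := by
      rw [nx_le]
      constructor
      · intro m hm
        rw [hmem] at hm ⊢
        intro n hn
        exact hm n (hp.V_le_U hn)
      · intro m hm
        rw [hmem] at hm
        rw [hmem, hmem]
        constructor
        · intro n hn
          have : g * n * (x * m) = g * (x * n) * m := by ring
          rw [this]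
          exact hm _ (hp.hn (x_mem_nx hn))
        · intro n hn
          have : g * n * (y * m) = g * (y * n) * m := by ring
          rw [this]
          exact hm _ (hp.hn (y_mem_nx hn))
    have hdV := hdim V
    have hdU := hdim U
    by_contra hcon
    push Not at hcon
    have hc1 := Qs_compl (a := a) (b := b) (D := D) (e := e) (t := t) hD (by omega) ⟨ht1, ht2⟩
    have hc2 := Qs_compl (a := a) (b := b) (D := D + 1) (e := e + 1) (t := t) (by omega) (by omega)
      ⟨ht1, ht2⟩
    have e4 : a + b - 1 - (e + 1) = a + b - 2 - e := by omega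
    have e5 : a + b - 1 - e = a + b - 2 - e + 1 := by omega
    rw [e4] at hc2
    rw [e5] at hc1
    have hle : finrank k (B.orthogonal U) ≤ (Bq a b (a + b - 2 - e)).card := by
      rw [← S.dE]; exact Submodule.finrank_mono hV'
    obtain ⟨s, hs1, _, hs3⟩ := exists_exact_Qs (a := a) (b := b) (D := a + b - 2 - e) (e := 0)
      (by omega) (n := finrank k (B.orthogonal U)) (by rw [Bq_zero]; omega) hle
    rcases hs1 with hs1 | hs1
    · have h1 := hG2 _ _ _ hV' hU' hn' s hs1.1 hs1.2.1 hs1.2.2 (by omega)
      have hlx : lx s (a - 1 - t.1, b - 1 - t.2) := by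
        by_contra hc
        have hsub : Qs a b (a + b - 2 - e) 0 s ⊆
            Rs a b (a + b - 2 - e) (a - 1 - t.1, b - 1 - t.2) := by
          intro p hp
          rw [mem_Qs] at hp
          rw [mem_Rs]
          refine ⟨hp.1, hp.2.1, ?_⟩
          intro hpl
          rcases hp.2.2 with h2 | h2
          · exact hc (lx_trans h2 hpl)
          · omega
        have := Finset.card_le_card hsub
        omega
      have hsub : insert s (Rs a b (a + b - 2 - e + 1) (a - 1 - t.1, b - 1 - t.2)) ⊆
          Qs a b (a + b - 2 - e + 1) 0 s := by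
        intro p hp
        rw [Finset.mem_insert, mem_Rs] at hp
        rw [mem_Qs]
        rcases hp with rfl | hp
        · exact ⟨⟨hs1.1, hs1.2.1⟩, by omega, Or.inl (lx_refl _)⟩
        · refine ⟨hp.1, hp.2.1, Or.inl ?_⟩
          rcases lx_total p (a - 1 - t.1, b - 1 - t.2) with h2 | h2
          · exact absurd h2 hp.2.2
          · exact lx_trans hlx h2
      have h2 := Finset.card_le_card hsub
      rw [Finset.card_insert_of_notMem] at h2
      · omega
      · rw [mem_Rs]
        intro h3
        exact h3.2.2 hlx
    · rw [hs1, Qs_top (t := (a, 0)) (le_refl a) (by omega), Bq_zero] at hs3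
      omega

/-- The growth theorem for affine systems. -/
theorem AffSys.G3 [Infinite k] (S : AffSys x y h a b c E) (hT : E (a + b - 1) = ⊤)
    (hG2 : G2 x y a b E) : ∀ (g D : ℕ) (V U : Submodule k Λ), c ≤ D → AP x y h c E D V U →
      finrank k U ≤ finrank k V + g → Cl a b c D (finrank k V) (finrank k U) := by
  intro g
  induction g using Nat.strong_induction_on with
  | _ g ih =>
    intro D V U hcD hp hg
    rcases Nat.lt_or_ge (D + 1) (a + b) with hD | hD
    · apply main_step S hG2 hcD (by omega) hp
      intro D' V' U' hcD' hp' hlt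
      have hle := hp.fin_le
      have hle' := hp'.fin_le
      exact ih (finrank k U' - finrank k V') (by omega) D' V' U' hcD' hp' (by omega)
    · exact S.top_region hT hG2 hcD hD hp

end Run7.H941
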