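import Pool.Agent.Run7.h941.Soc
import Pool.Agent.Run7.h941.Top

/-!
The affine system attached to a regular sequence `f, g, h` when the last variable is regular
modulo `f, g`.
-/

set_option autoImplicit false

open MvPolynomial Module

namespace Run7.H941

variable {k : Type*} [Field k]

/-- the ideal `(f, g, z - 1)` -/
noncomputable def J1 (f g : P3 k) : Ideal (P3 k) := Ideal.span {f, g} ⊔ Ideal.span {X 2 - 1}

/-- the dehomogenised algebra -/
abbrev Lam (f g : P3 k) : Type _ := P3 k ⧸ J1 f g

/-- the projection -/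
noncomputable def prA (f g : P3 k) : P3 k →ₐ[k] Lam f g := Ideal.Quotient.mkₐ k (J1 f g)

/-- the projection, as a linear map -/
noncomputable def pr (f g : P3 k) : P3 k →ₗ[k] Lam f g := (prA f g).toLinearMap

theorem pr_apply (f g p : P3 k) : pr f g p = prA f g p := rfl

theorem pr_surj (f g : P3 k) : Function.Surjective (pr f g) := Ideal.Quotient.mk_surjective

theorem pr_eq_zero {f g p : P3 k} : pr f g p = 0 ↔ p ∈ J1 f g := Ideal.Quotient.eq_zero_iff_mem

theorem pr_mul (f g p q : P3 k) : pr f g (p * q) = pr f g p * pr f g q := by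
  rw [pr_apply, pr_apply, pr_apply, map_mul]

theorem pr_one (f g : P3 k) : pr f g 1 = 1 := by
  rw [pr_apply, map_one]

theorem pr_X2 (f g : P3 k) : pr f g (X 2) = 1 := by
  have h : pr f g (X 2 - 1) = 0 := by
    rw [pr_eq_zero]
    exact Ideal.mem_sup_right (Ideal.mem_span_singleton_self _)
  rw [map_sub, pr_one, sub_eq_zero] at h
  exact h

/-- the filtration -/
noncomputable def EE (f g : P3 k) : ℕ → Submodule k (Lam f g)
  | 0 => ⊥
  | m + 1 => (Sd k m).map (pr f g)

theorem EE_succ (f g : P3 k) (m : ℕ) : EE f g (m + 1) = (Sd k m).map (pr f g) := rfl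

variable {f g : P3 k} {a b : ℕ}

theorem RegPair.hc_mem (h : RegPair f g a b) {p : P3 k} (hp : p ∈ Ideal.span {f, g}) (d : ℕ) :
    homogeneousComponent d p ∈ Ideal.span {f, g} := by
  obtain ⟨α, β, rfl⟩ := Ideal.mem_span_pair.mp hp
  rw [map_add, hc_mul_right' α f h.hf, hc_mul_right' β g h.hg]
  exact Ideal.mem_span_pair.mpr ⟨_, _, rfl⟩

theorem pow_reg {I : Ideal (P3 k)} (hz : ∀ p, X 2 * p ∈ I → p ∈ I) (j : ℕ) :
    ∀ p, X 2 ^ j * p ∈ I → p ∈ I := by
  induction j with
  | zero => intro p hp; simpa using hp
  | succ j ih =>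
    intro p hp
    apply ih
    apply hz
    have : X 2 * (X 2 ^ j * p) = X 2 ^ (j + 1) * p := by ring
    rw [this]
    exact hp

theorem RegPair.hom_mem (h : RegPair f g a b)
    (hz : ∀ p, X 2 * p ∈ Ideal.span {f, g} → p ∈ Ideal.span {f, g}) {m : ℕ} {p : P3 k}
    (hp : p.IsHomogeneous m) (hpJ : p ∈ J1 f g) : p ∈ Ideal.span {f, g} := by
  obtain ⟨i, hi, r, hr, hir⟩ := Submodule.mem_sup.mp hpJ
  obtain ⟨q, rfl⟩ := Ideal.mem_span_singleton'.mp hr
  have hcomp : ∀ d, homogeneousComponent d p = homogeneousComponent d i +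
      (if 1 ≤ d then homogeneousComponent (d - 1) q else 0) * X 2 -
        homogeneousComponent d q := by
    intro d
    rw [← hir, mul_sub, mul_one, map_add, map_sub, hc_mul_right' q (X 2) (isHomogeneous_X k 2)]
    ring
  have hp0 : ∀ d, d ≠ m → homogeneousComponent d p = 0 := by
    intro d hd
    rw [homogeneousComponent_of_mem (show p ∈ homogeneousSubmodule (Fin 3) k m from hp),
      if_neg hd]
  have hpm : homogeneousComponent m p = p := homogeneousComponent_eq_self hp
  -- low components of `q`
  have hlow : ∀ d, d < m → homogeneousComponent d q ∈ Ideal.span {f, g} := by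
    intro d
    induction d with
    | zero =>
      intro hd
      have h1 := hcomp 0
      rw [hp0 0 (by omega), if_neg (by omega), zero_mul, add_zero] at h1
      have h2 : homogeneousComponent 0 q = homogeneousComponent 0 i := by
        linear_combination h1
      rw [h2]
      exact h.hc_mem hi 0
    | succ d ih =>
      intro hd
      have h1 := hcomp (d + 1)
      rw [hp0 (d + 1) (by omega), if_pos (by omega), Nat.add_sub_cancel] at h1
      have h2 : homogeneousComponent (d + 1) q = homogeneousComponent (d + 1) i +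
          homogeneousComponent d q * X 2 := by
        linear_combination h1
      rw [h2]
      exact add_mem (h.hc_mem hi _) (Ideal.mul_mem_right _ _ (ih (by omega)))
  have hhigh : ∀ j, homogeneousComponent (m + j) q + X 2 ^ j * p ∈ Ideal.span {f, g} := by
    intro j
    induction j with
    | zero =>
      have h1 := hcomp m
      rw [hpm] at h1
      have h2 : homogeneousComponent (m + 0) q + X 2 ^ 0 * p = homogeneousComponent m i +
          (if 1 ≤ m then homogeneousComponent (m - 1) q else 0) * X 2 := by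
        rw [add_zero, pow_zero, one_mul]
        linear_combination h1
      rw [h2]
      apply add_mem (h.hc_mem hi _)
      apply Ideal.mul_mem_right
      split_ifs with hm
      · exact hlow _ (by omega)
      · exact Ideal.zero_mem _
    | succ j ih =>
      have h1 := hcomp (m + (j + 1))
      rw [hp0 (m + (j + 1)) (by omega), if_pos (by omega)] at h1
      have e : m + (j + 1) - 1 = m + j := by omega
      rw [e] at h1
      have h2 : homogeneousComponent (m + (j + 1)) q + X 2 ^ (j + 1) * p =
          homogeneousComponent (m + (j + 1)) i +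
          (homogeneousComponent (m + j) q + X 2 ^ j * p) * X 2 := by
        linear_combination h1
      rw [h2]
      exact add_mem (h.hc_mem hi _) (Ideal.mul_mem_right _ _ ih)
  have h3 := hhigh (q.totalDegree + 1)
  rw [homogeneousComponent_eq_zero _ _ (by omega), zero_add] at h3
  exact pow_reg hz _ p h3

/-- dimension of images -/
theorem RegPair.fr_map (h : RegPair f g a b)
    (hz : ∀ p, X 2 * p ∈ Ideal.span {f, g} → p ∈ Ideal.span {f, g}) {m : ℕ}
    {V : Submodule k (P3 k)} (hV : V ≤ Sd k m) (hJ : idg (Ideal.span {f, g}) m ≤ V) :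
    finrank k (V.map (pr f g)) + (Pout a b m).card = finrank k V := by
  have : FiniteDimensional k V := finite_of_le hV
  have h1 := LinearMap.finrank_range_add_finrank_ker ((pr f g).domRestrict V)
  have h2 : LinearMap.range ((pr f g).domRestrict V) = V.map (pr f g) :=
    LinearMap.range_domRestrict _ _
  have h3 : finrank k (LinearMap.ker ((pr f g).domRestrict V)) = (Pout a b m).card := by
    rw [← h.dim m, LinearMap.ker_domRestrict]
    have e : (LinearMap.ker (pr f g)).comap V.subtype =
        (idg (Ideal.span {f, g}) m).comap V.subtype := by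
      ext p
      rw [Submodule.mem_comap, Submodule.mem_comap, LinearMap.mem_ker, pr_eq_zero]
      constructor
      · intro hp
        exact ⟨h.hom_mem hz (hV p.2) hp, hV p.2⟩
      · intro hp
        exact Ideal.mem_sup_left hp.1
    rw [e]
    exact (Submodule.comapSubtypeEquivOfLe hJ).finrank_eq
  rw [h2, h3] at h1
  exact h1

theorem RegPair.finrank_EE (h : RegPair f g a b)
    (hz : ∀ p, X 2 * p ∈ Ideal.span {f, g} → p ∈ Ideal.span {f, g}) (m : ℕ) :
    finrank k (EE f g m) = (Bq a b m).card := by
  rcases m with _ | m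
  · rw [Bq_zero]
    exact finrank_bot k _
  · rw [EE_succ, Bq_succ]
    have h1 := h.fr_map hz (le_refl (Sd k m)) (idg_le_Sd _ m)
    rw [finrank_Sd] at h1
    have h2 := card_Pout_add_Bx a b m
    omega

theorem EE_finite (f g : P3 k) (m : ℕ) : FiniteDimensional k (EE f g m) := by
  rcases m with _ | m
  · change FiniteDimensional k (⊥ : Submodule k (Lam f g))
    infer_instance
  · rw [EE_succ]
    infer_instance

theorem EE_mono_succ (f g : P3 k) (m : ℕ) : EE f g m ≤ EE f g (m + 1) := by
  rcases m with _ | m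
  · exact bot_le
  · rw [EE_succ, EE_succ]
    rintro _ ⟨p, hp, rfl⟩
    refine ⟨X 2 * p, ?_, ?_⟩
    · have := (isHomogeneous_X k (2 : Fin 3)).mul hp
      rwa [add_comm] at this
    · rw [pr_mul, pr_X2, one_mul]

theorem EE_mono (f g : P3 k) {m m' : ℕ} (hm : m ≤ m') : EE f g m ≤ EE f g m' := by
  induction m', hm using Nat.le_induction with
  | base => exact le_rfl
  | succ n _ ih => exact ih.trans (EE_mono_succ f g n)

theorem card_Bq_large {a b m : ℕ} (hm : a + b ≤ m + 1) : (Bq a b m).card = a * b := by
  have : Bq a b m = Finset.range a ×ˢ Finset.range b := by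
    ext p
    rw [mem_Bq, Finset.mem_product, Finset.mem_range, Finset.mem_range]
    omega
  rw [this]
  simp

theorem RegPair.EE_stable (h : RegPair f g a b)
    (hz : ∀ p, X 2 * p ∈ Ideal.span {f, g} → p ∈ Ideal.span {f, g}) {m : ℕ}
    (hm : a + b ≤ m + 1) : EE f g (a + b - 1) = EE f g m := by
  have := EE_finite f g m
  apply Submodule.eq_of_le_of_finrank_le (EE_mono f g (by omega))
  rw [h.finrank_EE hz, h.finrank_EE hz, card_Bq_large hm, card_Bq_large (by omega)]

theorem RegPair.EE_top (h : RegPair f g a b)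
    (hz : ∀ p, X 2 * p ∈ Ideal.span {f, g} → p ∈ Ideal.span {f, g}) :
    EE f g (a + b - 1) = ⊤ := by
  rw [eq_top_iff]
  intro n _
  obtain ⟨p, rfl⟩ := pr_surj f g n
  have h1 := sum_homogeneousComponent p
  rw [← h1, map_sum]
  apply Submodule.sum_mem
  intro i _
  have h2 : pr f g (homogeneousComponent i p) ∈ EE f g (i + 1) :=
    ⟨_, homogeneousComponent_mem i p, rfl⟩
  rcases Nat.lt_or_ge (a + b) (i + 2) with hi | hi
  · rw [h.EE_stable hz (m := i + 1) (by omega)]
    exact h2
  · exact EE_mono f g (by omega) h2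

theorem RegPair.Lam_finite (h : RegPair f g a b)
    (hz : ∀ p, X 2 * p ∈ Ideal.span {f, g} → p ∈ Ideal.span {f, g}) :
    FiniteDimensional k (Lam f g) := by
  have := EE_finite f g (a + b - 1)
  rw [h.EE_top hz] at this
  exact Module.Finite.equiv (Submodule.topEquiv (R := k) (M := Lam f g))

theorem exists_fin3 {P : Fin 3 → Prop} (h0 : P 0) (h1 : P 1) (h2 : P 2) : ∀ i, P i := by
  intro i
  fin_cases i
  · exact h0
  · exact h1
  · exact h2

theorem up_decomp {V : Submodule k (P3 k)} {w : P3 k} (hw : w ∈ up V) :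
    ∃ p ∈ V, ∃ q ∈ V, ∃ r ∈ V, w = X 0 * p + X 1 * q + X 2 * r := by
  obtain ⟨p, hp, q, hq, r, hr, h⟩ := mem_up.mp hw
  exact ⟨p, hp, q, hq, r, hr, h⟩

end Run7.H941
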