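import Pool.Agent.Run7.h941.TwoGen

/-!
Combinatorics of lexicographic thresholds.
-/

set_option autoImplicit false

namespace Run7.H941

/-- lexicographic order on pairs: `t ≤ p` -/
def lx (t p : ℕ × ℕ) : Prop := t.1 < p.1 ∨ (t.1 = p.1 ∧ t.2 ≤ p.2)

instance lxDec (t : ℕ × ℕ) : DecidablePred (lx t) := fun p => by unfold lx; infer_instance

theorem lx_refl (t : ℕ × ℕ) : lx t t := Or.inr ⟨rfl, le_rfl⟩

theorem lx_trans {a b c : ℕ × ℕ} (h1 : lx a b) (h2 : lx b c) : lx a c := by
  unfold lx at *
  omega

theorem lx_total (a b : ℕ × ℕ) : lx a b ∨ lx b a := by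
  unfold lx
  omega

theorem lx_antisymm {a b : ℕ × ℕ} (h1 : lx a b) (h2 : lx b a) : a = b := by
  unfold lx at *
  apply Prod.ext <;> omega

/-- elements of `Q` above `t` -/
def up_of (Q : Finset (ℕ × ℕ)) (t : ℕ × ℕ) : Finset (ℕ × ℕ) := Q.filter (lx t)

theorem mem_up_of {Q : Finset (ℕ × ℕ)} {t p : ℕ × ℕ} : p ∈ up_of Q t ↔ p ∈ Q ∧ lx t p := by
  simp [up_of]

theorem up_of_mono {Q : Finset (ℕ × ℕ)} {s t : ℕ × ℕ} (h : lx s t) :
    (up_of Q t).card ≤ (up_of Q s).card := by
  apply Finset.card_le_card
  intro p hp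
  rw [mem_up_of] at hp ⊢
  exact ⟨hp.1, lx_trans h hp.2⟩

theorem up_of_strict {Q : Finset (ℕ × ℕ)} {s t : ℕ × ℕ} (h : lx s t) (hne : ¬ lx t s)
    (hs : s ∈ Q) : (up_of Q t).card + 1 ≤ (up_of Q s).card := by
  apply Finset.card_lt_card
  refine Finset.ssubset_iff_subset_ne.mpr ⟨?_, ?_⟩
  · intro p hp
    rw [mem_up_of] at hp ⊢
    exact ⟨hp.1, lx_trans h hp.2⟩
  · intro he
    have : s ∈ up_of Q s := mem_up_of.mpr ⟨hs, lx_refl s⟩
    rw [← he, mem_up_of] at this
    exact hne this.2

theorem lx_of_card_le {Q : Finset (ℕ × ℕ)} {s t : ℕ × ℕ} (hs : s ∈ Q)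
    (h : (up_of Q s).card ≤ (up_of Q t).card) : lx t s := by
  by_contra hne
  have h1 := lx_total s t
  have h2 : lx s t := by
    rcases h1 with h1 | h1
    · exact h1
    · exact absurd h1 hne
  have := up_of_strict h2 hne hs
  omega

/-- every nonempty finite set has a least element for `lx` -/
theorem exists_min (Q : Finset (ℕ × ℕ)) (hQ : Q.Nonempty) : ∃ t ∈ Q, ∀ p ∈ Q, lx t p := by
  classical
  induction Q using Finset.induction_on with
  | empty => exact absurd hQ (by simp)
  | insert x s hx ih =>
    by_cases hs : s.Nonempty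
    · obtain ⟨t, ht, hmin⟩ := ih hs
      rcases lx_total x t with h | h
      · refine ⟨x, Finset.mem_insert_self _ _, ?_⟩
        intro p hp
        rcases Finset.mem_insert.mp hp with rfl | hp
        · exact lx_refl _
        · exact lx_trans h (hmin p hp)
      · refine ⟨t, Finset.mem_insert_of_mem ht, ?_⟩
        intro p hp
        rcases Finset.mem_insert.mp hp with rfl | hp
        · exact h
        · exact hmin p hp
    · rw [Finset.not_nonempty_iff_eq_empty] at hs
      subst hs
      refine ⟨x, by simp, ?_⟩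
      intro p hp
      simp at hp
      rw [hp]
      exact lx_refl _

/-- exact thresholds exist -/
theorem exists_exact (Q : Finset (ℕ × ℕ)) : ∀ n, 1 ≤ n → n ≤ Q.card →
    ∃ t ∈ Q, (up_of Q t).card = n := by
  classical
  induction h : Q.card generalizing Q with
  | zero => intro n h1 h2; omega
  | succ c ih =>
    intro n h1 h2
    have hne : Q.Nonempty := by
      rw [← Finset.card_pos]; omega
    obtain ⟨t, ht, hmin⟩ := exists_min Q hne
    by_cases hn : n = c + 1
    · refine ⟨t, ht, ?_⟩
      have : up_of Q t = Q := by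
        ext p
        rw [mem_up_of]
        exact ⟨fun h => h.1, fun h => ⟨h, hmin p h⟩⟩
      rw [this, h, hn]
    · have hc : (Q.erase t).card = c := by
        rw [Finset.card_erase_of_mem ht, h]; omega
      obtain ⟨s, hs, hcard⟩ := ih (Q.erase t) hc n h1 (by omega)
      rw [Finset.mem_erase] at hs
      refine ⟨s, hs.2, ?_⟩
      rw [← hcard]
      congr 1
      ext p
      rw [mem_up_of, mem_up_of, Finset.mem_erase]
      constructor
      · rintro ⟨hp, hl⟩
        refine ⟨⟨?_, hp⟩, hl⟩
        rintro rfl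
        exact hs.1 (lx_antisymm hl (hmin s hs.2))
      · rintro ⟨⟨_, hp⟩, hl⟩
        exact ⟨hp, hl⟩

/-- the elements of the box on the antidiagonal `m`, above `t` -/
def topS (a b m : ℕ) (t : ℕ × ℕ) : Finset (ℕ × ℕ) :=
  (AD m).filter (fun p => p.1 < a ∧ p.2 < b ∧ lx t p)

theorem mem_topS {a b m : ℕ} {t p : ℕ × ℕ} :
    p ∈ topS a b m t ↔ p.1 + p.2 = m ∧ p.1 < a ∧ p.2 < b ∧ lx t p := by
  simp [topS, mem_AD]

theorem Bx_up_succ (a b m : ℕ) (t : ℕ × ℕ) :
    (up_of (Bx a b (m + 1)) t).card = (up_of (Bx a b m) t).card + (topS a b (m + 1) t).card := by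
  rw [← Finset.card_union_of_disjoint]
  · congr 1
    ext p
    simp only [Finset.mem_union, mem_up_of, mem_Bx, mem_topS]
    constructor
    · rintro ⟨⟨h1, h2, h3⟩, h4⟩
      by_cases h : p.1 + p.2 ≤ m
      · left; exact ⟨⟨h, h2, h3⟩, h4⟩
      · right; exact ⟨by omega, h2, h3, h4⟩
    · rintro (⟨⟨h1, h2, h3⟩, h4⟩ | ⟨h1, h2, h3, h4⟩)
      · exact ⟨⟨by omega, h2, h3⟩, h4⟩
      · exact ⟨⟨by omega, h2, h3⟩, h4⟩
  · rw [Finset.disjoint_left]
    intro p hp hq
    rw [mem_up_of, mem_Bx] at hp
    rw [mem_topS] at hq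
    omega

/-- going up one antidiagonal loses at most one element -/
theorem topS_succ_ge (a b m : ℕ) (t : ℕ × ℕ) :
    (topS a b m t).card ≤ (topS a b (m + 1) t).card + 1 := by
  classical
  have h1 : ((topS a b m t).filter (fun p => p.2 + 1 < b)).card ≤ (topS a b (m + 1) t).card := by
    apply Finset.card_le_card_of_injOn (fun p => (p.1, p.2 + 1))
    · intro p hp
      simp only [Finset.coe_filter, Set.mem_setOf_eq, mem_topS] at hp
      simp only [Finset.mem_coe, mem_topS]
      unfold lx at *
      simp only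
      omega
    · intro p _ q _ h
      simp only [Prod.mk.injEq] at h
      apply Prod.ext <;> omega
  have h2 : ((topS a b m t).filter (fun p => ¬ p.2 + 1 < b)).card ≤ 1 := by
    rw [Finset.card_le_one]
    intro p hp q hq
    simp only [Finset.mem_filter, mem_topS] at hp hq
    apply Prod.ext <;> omega
  have h3 := Finset.card_filter_add_card_filter_not (s := topS a b m t) (fun p => p.2 + 1 < b)
  omega

/-- going down one antidiagonal does not lose elements -/
theorem topS_succ_le {a b m : ℕ} {t : ℕ × ℕ} (ha : a ≤ m + 1) (ht : t.1 + t.2 ≤ m) :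
    (topS a b (m + 1) t).card ≤ (topS a b m t).card := by
  apply Finset.card_le_card_of_injOn (fun p => (p.1, p.2 - 1))
  · intro p hp
    simp only [Finset.mem_coe, mem_topS] at hp ⊢
    unfold lx at *
    simp only
    omega
  · intro p hp q hq h
    simp only [Finset.mem_coe, mem_topS] at hp hq
    simp only [Prod.mk.injEq] at h
    apply Prod.ext <;> omega

theorem topS_empty {a b m : ℕ} {t : ℕ × ℕ} (h : a + b ≤ m + 1) : (topS a b m t).card = 0 := by
  rw [Finset.card_eq_zero, Finset.eq_empty_iff_forall_notMem]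
  intro p hp
  rw [mem_topS] at hp
  omega

theorem card_Bx_le (a b m : ℕ) : (Bx a b m).card ≤ a * b := by
  have : Bx a b m ⊆ Finset.range a ×ˢ Finset.range b := by
    intro p hp
    rw [mem_Bx] at hp
    simp only [Finset.mem_product, Finset.mem_range]
    exact hp.2
  calc (Bx a b m).card ≤ _ := Finset.card_le_card this
    _ = a * b := by simp

theorem up_of_card_le (Q : Finset (ℕ × ℕ)) (t : ℕ × ℕ) : (up_of Q t).card ≤ Q.card :=
  Finset.card_le_card (Finset.filter_subset _ _)

/-- third differences of `cT` -/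
theorem cT_third (m a : ℕ) :
    (cT (m + 3) a : ℤ) - 3 * cT (m + 2) a + 3 * cT (m + 1) a - cT m a =
      if m + 3 = a then 1 else 0 := by
  have hT : ∀ n, (2 * (T n).card : ℤ) = (n + 1) * (n + 2) := by
    intro n
    exact_mod_cast two_card_T n
  unfold cT
  by_cases h1 : a ≤ m
  · obtain ⟨d, rfl⟩ : ∃ d, m = a + d := ⟨m - a, by omega⟩
    rw [if_pos (by omega), if_pos (by omega), if_pos (by omega), if_pos (by omega),
      if_neg (by omega)]
    have e1 : a + d + 3 - a = d + 3 := by omega
    have e2 : a + d + 2 - a = d + 2 := by omega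
    have e3 : a + d + 1 - a = d + 1 := by omega
    have e4 : a + d - a = d := by omega
    rw [e1, e2, e3, e4]
    have a1 := hT (d + 3)
    have a2 := hT (d + 2)
    have a3 := hT (d + 1)
    have a4 := hT d
    push_cast at a1 a2 a3 a4 ⊢
    linarith
  · by_cases h2 : a = m + 1
    · subst h2
      rw [if_pos (by omega), if_pos (by omega), if_pos (by omega), if_neg (by omega),
        if_neg (by omega)]
      have e1 : m + 3 - (m + 1) = 2 := by omega
      have e2 : m + 2 - (m + 1) = 1 := by omega
      have e3 : m + 1 - (m + 1) = 0 := by omega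
      rw [e1, e2, e3]
      have a1 := hT 2
      have a2 := hT 1
      have a3 := hT 0
      push_cast at a1 a2 a3 ⊢
      linarith
    · by_cases h3 : a = m + 2
      · subst h3
        rw [if_pos (by omega), if_pos (by omega), if_neg (by omega), if_neg (by omega),
          if_neg (by omega)]
        have e1 : m + 3 - (m + 2) = 1 := by omega
        have e2 : m + 2 - (m + 2) = 0 := by omega
        rw [e1, e2]
        have a2 := hT 1
        have a3 := hT 0
        push_cast at a2 a3 ⊢
        linarith
      · by_cases h4 : a = m + 3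
        · subst h4
          rw [if_pos (by omega), if_neg (by omega), if_neg (by omega), if_neg (by omega),
            if_pos rfl]
          have e1 : m + 3 - (m + 3) = 0 := by omega
          rw [e1]
          have a3 := hT 0
          push_cast at a3 ⊢
          linarith
        · rw [if_neg (by omega), if_neg (by omega), if_neg (by omega), if_neg (by omega),
            if_neg (by omega)]
          norm_num

/-- third differences of `cT` at the bottom -/
theorem cT_third0 (a : ℕ) :
    (cT 2 a : ℤ) - 3 * cT 1 a + 3 * cT 0 a =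
      if a = 2 then 1 else 0 := by
  have hT : ∀ n, (2 * (T n).card : ℤ) = (n + 1) * (n + 2) := by
    intro n
    exact_mod_cast two_card_T n
  have a1 := hT 2
  have a2 := hT 1
  have a3 := hT 0
  unfold cT
  push_cast at a1 a2 a3
  rcases a with _ | _ | _ | a
  · rw [if_pos (by omega), if_pos (by omega), if_pos (by omega), if_neg (by omega)]
    simp only [Nat.sub_zero]
    linarith
  · rw [if_pos (by omega), if_pos (by omega), if_neg (by omega), if_neg (by omega)]
    simp only [Nat.reduceAdd, Nat.reduceSub, Nat.sub_self, zero_add]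
    push_cast
    linarith
  · rw [if_pos (by omega), if_neg (by omega), if_neg (by omega), if_pos (by omega)]
    simp only [Nat.reduceAdd, Nat.reduceSub, Nat.sub_self, zero_add]
    push_cast
    linarith
  · rw [if_neg (by omega), if_neg (by omega), if_neg (by omega), if_neg (by omega)]
    norm_num

end Run7.H941
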