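import Pool.Agent.Run7.h941.Betti
import Pool.Agent.Run7.h941.Comb

/-!
Construction of the lex-plus-powers ideal from growth inequalities.
-/

set_option autoImplicit false

open MvPolynomial Module

namespace Run7.H941

/-- number of elements of degree `m` which are in `P` or `≥ t` -/
def MM (P : Finset (ℕ × ℕ)) (m : ℕ) (t : ℕ × ℕ) : ℕ :=
  ((T m).filter (fun p => p ∈ P ∨ lx t p)).card

/-- families of monomials closed under multiplication -/
structure PFam (P : ℕ → Finset (ℕ × ℕ)) : Prop where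
  sub : ∀ m, P m ⊆ T m
  z : ∀ {m p}, p ∈ P m → p ∈ P (m + 1)
  x : ∀ {m p}, p ∈ P m → (p.1 + 1, p.2) ∈ P (m + 1)
  y : ∀ {m p}, p ∈ P m → (p.1, p.2 + 1) ∈ P (m + 1)

theorem MM_anti {P : Finset (ℕ × ℕ)} {m : ℕ} {s t : ℕ × ℕ} (h : lx s t) :
    MM P m t ≤ MM P m s := by
  unfold MM
  apply Finset.card_le_card
  intro p hp
  rw [Finset.mem_filter] at hp ⊢
  exact ⟨hp.1, hp.2.imp id (fun h' => lx_trans h h')⟩

theorem MM_step {P : ℕ → Finset (ℕ × ℕ)} (hP : PFam P) {m : ℕ} {t : ℕ × ℕ} (ht : t ∈ T m)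
    {v u : ℕ} (hgr : ∀ s ∈ T m, s ∉ P m → MM (P m) m s ≤ v → MM (P (m + 1)) (m + 1) s ≤ u)
    (h0 : (P (m + 1)).card ≤ u) (hv : MM (P m) m t ≤ v) : MM (P (m + 1)) (m + 1) t ≤ u := by
  classical
  by_cases htP : t ∈ P m
  · let R := (T m).filter (fun q => q ∉ P m ∧ lx t q)
    have hR : ∀ q, q ∈ R ↔ q ∈ T m ∧ q ∉ P m ∧ lx t q := by
      intro q; simp only [R, Finset.mem_filter]
    have hkey : ∀ q ∈ T (m + 1), q ∉ P (m + 1) → lx t q → ∃ q' ∈ R, lx q' q := by
      intro q hq hqP hlt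
      rw [mem_T] at hq ht
      have hlt' : t.1 < q.1 ∨ (t.1 = q.1 ∧ t.2 ≤ q.2) := hlt
      by_cases hqm : q.1 + q.2 ≤ m
      · exact ⟨q, (hR q).mpr ⟨mem_T.mpr hqm, fun h => hqP (hP.z h), hlt⟩, lx_refl q⟩
      · by_cases hq2 : q.2 = 0
        · refine ⟨(q.1 - 1, 0), (hR _).mpr ⟨mem_T.mpr (by simp only; omega), ?_, ?_⟩, ?_⟩
          · intro h
            apply hqP
            have := hP.x h
            have e : (q.1 - 1 + 1, 0) = q := by
              apply Prod.ext
              · simp only; omega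
              · simp only; omega
            rwa [e] at this
          · change t.1 < q.1 - 1 ∨ (t.1 = q.1 - 1 ∧ t.2 ≤ 0)
            omega
          · unfold lx; simp only; omega
        · refine ⟨(q.1, q.2 - 1), (hR _).mpr ⟨mem_T.mpr (by simp only; omega), ?_, ?_⟩, ?_⟩
          · intro h
            apply hqP
            have := hP.y h
            have e : (q.1, q.2 - 1 + 1) = q := by
              apply Prod.ext
              · rfl
              · simp only; omega
            rwa [e] at this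
          · change t.1 < q.1 ∨ (t.1 = q.1 ∧ t.2 ≤ q.2 - 1)
            omega
          · exact Or.inr ⟨rfl, Nat.sub_le _ _⟩
    by_cases hne : R.Nonempty
    · obtain ⟨s, hs, hmin⟩ := exists_min R hne
      have hs' := (hR s).mp hs
      have h1 := hgr s hs'.1 hs'.2.1 ((MM_anti hs'.2.2).trans hv)
      refine le_trans ?_ h1
      unfold MM
      apply Finset.card_le_card
      intro q hq
      rw [Finset.mem_filter] at hq ⊢
      refine ⟨hq.1, ?_⟩
      by_cases hqP : q ∈ P (m + 1)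
      · exact Or.inl hqP
      · right
        obtain ⟨q', hq', hl⟩ := hkey q hq.1 hqP (hq.2.resolve_left hqP)
        exact lx_trans (hmin q' hq') hl
    · refine le_trans ?_ h0
      unfold MM
      apply Finset.card_le_card
      intro q hq
      rw [Finset.mem_filter] at hq
      by_contra hqP
      obtain ⟨q', hq', _⟩ := hkey q hq.1 hqP (hq.2.resolve_left hqP)
      exact hne ⟨q', hq'⟩
  · exact hgr t ht htP hv

/-- the monomials of the lex-plus-powers ideal -/
def AA (P : Finset (ℕ × ℕ)) (m D : ℕ) : Finset (ℕ × ℕ) :=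
  (T m).filter (fun p => p ∈ P ∨ MM P m p ≤ D)

theorem mem_AA {P : Finset (ℕ × ℕ)} {m D : ℕ} {p : ℕ × ℕ} :
    p ∈ AA P m D ↔ p ∈ T m ∧ (p ∈ P ∨ MM P m p ≤ D) := by
  unfold AA; rw [Finset.mem_filter]

theorem MM_eq {P : Finset (ℕ × ℕ)} {m : ℕ} (hP : P ⊆ T m) (t : ℕ × ℕ) :
    MM P m t = P.card + (up_of ((T m).filter (fun p => p ∉ P)) t).card := by
  classical
  unfold MM
  rw [← Finset.card_union_of_disjoint]
  · congr 1
    ext p
    rw [Finset.mem_union, Finset.mem_filter, mem_up_of, Finset.mem_filter]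
    constructor
    · rintro ⟨h1, h2⟩
      by_cases h : p ∈ P
      · exact Or.inl h
      · exact Or.inr ⟨⟨h1, h⟩, h2.resolve_left h⟩
    · rintro (h | ⟨⟨h1, h2⟩, h3⟩)
      · exact ⟨hP h, Or.inl h⟩
      · exact ⟨h1, Or.inr h3⟩
  · rw [Finset.disjoint_left]
    intro p hp hq
    rw [mem_up_of, Finset.mem_filter] at hq
    exact hq.1.2 hp

/-- The structure of the monomials of the lex-plus-powers ideal. -/
theorem AA_cases {P : Finset (ℕ × ℕ)} {m D : ℕ} (hP : P ⊆ T m) (h1 : P.card ≤ D)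
    (h2 : D ≤ (T m).card) :
    (P.card = D ∧ AA P m D = P) ∨
      ∃ t ∈ T m, t ∉ P ∧ MM P m t = D ∧ AA P m D = (T m).filter (fun p => p ∈ P ∨ lx t p) := by
  classical
  have hRcard : P.card + ((T m).filter (fun p => p ∉ P)).card = (T m).card := by
    have h3 := Finset.card_filter_add_card_filter_not (s := T m) (fun p => p ∈ P)
    have h4 : (T m).filter (fun p => p ∈ P) = P := by
      ext p
      rw [Finset.mem_filter]
      exact ⟨fun h => h.2, fun h => ⟨hP h, h⟩⟩
    rw [h4] at h3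
    exact h3
  rcases h1.eq_or_lt with h1 | h1
  · left
    refine ⟨h1, ?_⟩
    ext p
    rw [mem_AA]
    constructor
    · rintro ⟨h3, h4 | h4⟩
      · exact h4
      · by_contra hp
        rw [MM_eq hP] at h4
        have h5 : (up_of ((T m).filter (fun p => p ∉ P)) p).card = 0 := by omega
        rw [Finset.card_eq_zero, Finset.eq_empty_iff_forall_notMem] at h5
        exact h5 p (mem_up_of.mpr ⟨Finset.mem_filter.mpr ⟨h3, hp⟩, lx_refl p⟩)
    · intro h
      exact ⟨hP h, Or.inl h⟩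
  · right
    obtain ⟨t, ht, htD⟩ := exists_exact ((T m).filter (fun p => p ∉ P)) (D - P.card) (by omega)
      (by omega)
    have ht' := Finset.mem_filter.mp ht
    have hMt : MM P m t = D := by rw [MM_eq hP, htD]; omega
    refine ⟨t, ht'.1, ht'.2, hMt, ?_⟩
    ext p
    rw [mem_AA, Finset.mem_filter]
    constructor
    · rintro ⟨h3, h4⟩
      refine ⟨h3, ?_⟩
      by_cases hp : p ∈ P
      · exact Or.inl hp
      · right
        have h5 := h4.resolve_left hp
        rw [← hMt, MM_eq hP, MM_eq hP] at h5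
        exact lx_of_card_le (Q := (T m).filter (fun p => p ∉ P))
          (Finset.mem_filter.mpr ⟨h3, hp⟩) (by omega)
    · rintro ⟨h3, h4⟩
      refine ⟨h3, ?_⟩
      rcases h4 with h4 | h4
      · exact Or.inl h4
      · right
        rw [← hMt]
        exact MM_anti h4

theorem card_AA {P : Finset (ℕ × ℕ)} {m D : ℕ} (hP : P ⊆ T m) (h1 : P.card ≤ D)
    (h2 : D ≤ (T m).card) : (AA P m D).card = D := by
  rcases AA_cases hP h1 h2 with ⟨h3, h4⟩ | ⟨t, _, _, h3, h4⟩
  · rw [h4, h3]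
  · rw [h4]; exact h3

/-- monomials obtained by multiplication with a variable -/
def upP (A : Finset (ℕ × ℕ)) : Finset (ℕ × ℕ) :=
  A ∪ A.image (fun p => (p.1 + 1, p.2)) ∪ A.image (fun p => (p.1, p.2 + 1))

/-- monomials sent into `B` by every variable -/
def dnP (m : ℕ) (B : Finset (ℕ × ℕ)) : Finset (ℕ × ℕ) :=
  (T m).filter (fun p => p ∈ B ∧ (p.1 + 1, p.2) ∈ B ∧ (p.1, p.2 + 1) ∈ B)

variable {k : Type*} [Field k]

theorem X_mul_MS {m : ℕ} {A B : Finset (ℕ × ℕ)} (hA : A ⊆ T m)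
    (hz : ∀ p ∈ A, p ∈ B) (hx : ∀ p ∈ A, (p.1 + 1, p.2) ∈ B)
    (hy : ∀ p ∈ A, (p.1, p.2 + 1) ∈ B) {p : P3 k} (hp : p ∈ MS k m A) (i : Fin 3) :
    X i * p ∈ MS k (m + 1) B := by
  classical
  rw [mem_MS] at hp ⊢
  intro u hu
  have h1 : ∃ w ∈ p.support, u = Finsupp.single i 1 + w := by
    rw [support_X_mul] at hu
    rw [Finset.mem_map] at hu
    obtain ⟨w, hw, rfl⟩ := hu
    exact ⟨w, hw, rfl⟩
  obtain ⟨w, hw, rfl⟩ := h1
  obtain ⟨q, hq, rfl⟩ := hp w hw
  have hqT := mem_T.mp (hA hq)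
  fin_cases i
  · refine ⟨(q.1 + 1, q.2), hx q hq, ?_⟩
    ext j
    fin_cases j <;> simp [enc, ex] <;> omega
  · refine ⟨(q.1, q.2 + 1), hy q hq, ?_⟩
    ext j
    fin_cases j <;> simp [enc, ex] <;> omega
  · refine ⟨q, hz q hq, ?_⟩
    ext j
    fin_cases j <;> simp [enc, ex] <;> omega

theorem up_MS_le {m : ℕ} {A : Finset (ℕ × ℕ)} (hA : A ⊆ T m) :
    up (MS k m A) ≤ MS k (m + 1) (upP A) := by
  classical
  rw [up_le_iff]
  intro p hp i
  apply X_mul_MS hA _ _ _ hp i
  · intro p hp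
    exact Finset.mem_union_left _ (Finset.mem_union_left _ hp)
  · intro p hp
    exact Finset.mem_union_left _ (Finset.mem_union_right _
      (Finset.mem_image.mpr ⟨p, hp, rfl⟩))
  · intro p hp
    exact Finset.mem_union_right _ (Finset.mem_image.mpr ⟨p, hp, rfl⟩)

theorem MS_dnP_le {m : ℕ} {B : Finset (ℕ × ℕ)} :
    MS k m (dnP m B) ≤ dn (MS k (m + 1) B) := by
  intro p hp
  rw [mem_dn']
  intro i
  apply X_mul_MS (Finset.filter_subset _ _) _ _ _ hp i
  · intro p hp
    exact (Finset.mem_filter.mp hp).2.1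
  · intro p hp
    exact (Finset.mem_filter.mp hp).2.2.1
  · intro p hp
    exact (Finset.mem_filter.mp hp).2.2.2

/-- The growth hypotheses needed for the construction. -/
structure GrowthData (I : Ideal (P3 k)) (P : ℕ → Finset (ℕ × ℕ)) : Prop where
  fam : PFam P
  hc : ∀ m, (P m).card ≤ finrank k (idg I m)
  hb : ∀ m, ∀ t ∈ T m, t ∉ P m → MM (P m) m t ≤ finrank k (dn (idg I (m + 1))) →
    MM (P (m + 1)) (m + 1) t ≤ finrank k (idg I (m + 1))
  ha : ∀ m, ∃ P' : Finset (ℕ × ℕ), P' ⊆ T (m + 1) ∧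
    (∀ p ∈ P m, p ∈ P' ∧ (p.1 + 1, p.2) ∈ P' ∧ (p.1, p.2 + 1) ∈ P') ∧
    P'.card ≤ finrank k (up (idg I m)) ∧
    ∀ t ∈ T m, t ∉ P m → MM (P m) m t ≤ finrank k (idg I m) →
      MM P' (m + 1) t ≤ finrank k (up (idg I m))

variable {I : Ideal (P3 k)} {P : ℕ → Finset (ℕ × ℕ)}

theorem GrowthData.le_T (_ : GrowthData I P) (m : ℕ) : finrank k (idg I m) ≤ (T m).card := by
  rw [← finrank_Sd (k := k)]
  exact Submodule.finrank_mono (idg_le_Sd I m)

theorem GrowthData.dn_le (_ : GrowthData I P) (m : ℕ) :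
    finrank k (dn (idg I (m + 1))) ≤ (T m).card := by
  rw [← finrank_Sd (k := k)]
  apply Submodule.finrank_mono
  intro p hp
  have h1 := (mem_dn.mp hp).1
  have h2 : (p * X 0 : P3 k).IsHomogeneous (m + 1) := by
    rw [mul_comm]; exact h1.2
  have h3 := isHomogeneous_of_mul (isHomogeneous_X k (0 : Fin 3)) (X_ne_zero _) h2
  unfold Sdm at h3
  rw [if_pos (by omega)] at h3
  exact h3

instance dn_idg_finite (I : Ideal (P3 k)) (m : ℕ) : FiniteDimensional k (dn (idg I m)) := by
  infer_instance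

theorem GrowthData.idg_le_dn (_ : GrowthData I P) (m : ℕ) :
    finrank k (idg I m) ≤ finrank k (dn (idg I (m + 1))) :=
  Submodule.finrank_mono (up_le_iff_le_dn.mp (up_idg_le I m))

/-- closure of the threshold condition -/
theorem GrowthData.step (G : GrowthData I P) {m : ℕ} {t : ℕ × ℕ} (ht : t ∈ T m)
    (h : MM (P m) m t ≤ finrank k (idg I m)) :
    MM (P (m + 1)) (m + 1) t ≤ finrank k (idg I (m + 1)) :=
  MM_step G.fam ht (G.hb m) (G.hc (m + 1)) (h.trans (G.idg_le_dn m))

/-- dimension of the lex-plus-powers ideal -/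
theorem GrowthData.card_A (G : GrowthData I P) (m : ℕ) :
    (AA (P m) m (finrank k (idg I m))).card = finrank k (idg I m) :=
  card_AA (G.fam.sub m) (G.hc m) (G.le_T m)

theorem GrowthData.card_up (G : GrowthData I P) (m : ℕ) :
    (upP (AA (P m) m (finrank k (idg I m)))).card ≤ finrank k (up (idg I m)) := by
  classical
  obtain ⟨P', hP'1, hP'2, hP'3, hP'4⟩ := G.ha m
  rcases AA_cases (G.fam.sub m) (G.hc m) (G.le_T m) with ⟨_, h4⟩ | ⟨t, ht, htP, h3, h4⟩
  · rw [h4]
    refine le_trans (Finset.card_le_card ?_) hP'3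
    intro q hq
    unfold upP at hq
    rw [Finset.mem_union, Finset.mem_union, Finset.mem_image, Finset.mem_image] at hq
    rcases hq with (hq | ⟨p, hp, rfl⟩) | ⟨p, hp, rfl⟩
    · exact (hP'2 q hq).1
    · exact (hP'2 p hp).2.1
    · exact (hP'2 p hp).2.2
  · rw [h4]
    refine le_trans (Finset.card_le_card ?_) (hP'4 t ht htP (le_of_eq h3))
    intro q hq
    unfold upP at hq
    rw [Finset.mem_union, Finset.mem_union, Finset.mem_image, Finset.mem_image] at hq
    rw [Finset.mem_filter]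
    rcases hq with (hq | ⟨p, hp, rfl⟩) | ⟨p, hp, rfl⟩
    · rw [Finset.mem_filter] at hq
      refine ⟨?_, ?_⟩
      · have := mem_T.mp hq.1
        rw [mem_T]; omega
      · rcases hq.2 with h | h
        · exact Or.inl (hP'2 q h).1
        · exact Or.inr h
    · rw [Finset.mem_filter] at hp
      refine ⟨?_, ?_⟩
      · have := mem_T.mp hp.1
        rw [mem_T]; simp only; omega
      · rcases hp.2 with h | h
        · exact Or.inl (hP'2 p h).2.1
        · right
          unfold lx at *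
          simp only
          omega
    · rw [Finset.mem_filter] at hp
      refine ⟨?_, ?_⟩
      · have := mem_T.mp hp.1
        rw [mem_T]; simp only; omega
      · rcases hp.2 with h | h
        · exact Or.inl (hP'2 p h).2.2
        · right
          unfold lx at *
          simp only
          omega

theorem GrowthData.card_dn (G : GrowthData I P) (m : ℕ) :
    finrank k (dn (idg I (m + 1))) ≤
      (dnP m (AA (P (m + 1)) (m + 1) (finrank k (idg I (m + 1))))).card := by
  classical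
  have h1 : (P m).card ≤ finrank k (dn (idg I (m + 1))) := (G.hc m).trans (G.idg_le_dn m)
  rcases AA_cases (G.fam.sub m) h1 (G.dn_le m) with ⟨h3, _⟩ | ⟨t, ht, htP, h3, _⟩
  · rw [← h3]
    apply Finset.card_le_card
    intro p hp
    unfold dnP
    rw [Finset.mem_filter, mem_AA, mem_AA, mem_AA]
    refine ⟨G.fam.sub m hp, ⟨G.fam.sub _ (G.fam.z hp), Or.inl (G.fam.z hp)⟩,
      ⟨G.fam.sub _ (G.fam.x hp), Or.inl (G.fam.x hp)⟩,
      ⟨G.fam.sub _ (G.fam.y hp), Or.inl (G.fam.y hp)⟩⟩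
  · have h4 := G.hb m t ht htP (le_of_eq h3)
    rw [← h3]
    unfold MM
    apply Finset.card_le_card
    intro p hp
    rw [Finset.mem_filter] at hp
    have hpT := mem_T.mp hp.1
    unfold dnP
    rw [Finset.mem_filter, mem_AA, mem_AA, mem_AA]
    rcases hp.2 with h | h
    · refine ⟨hp.1, ⟨G.fam.sub _ (G.fam.z h), Or.inl (G.fam.z h)⟩,
        ⟨G.fam.sub _ (G.fam.x h), Or.inl (G.fam.x h)⟩,
        ⟨G.fam.sub _ (G.fam.y h), Or.inl (G.fam.y h)⟩⟩
    · refine ⟨hp.1, ⟨mem_T.mpr (by omega), Or.inr ((MM_anti h).trans h4)⟩,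
        ⟨mem_T.mpr (by simp only; omega), Or.inr ((MM_anti ?_).trans h4)⟩,
        ⟨mem_T.mpr (by simp only; omega), Or.inr ((MM_anti ?_).trans h4)⟩⟩
      · unfold lx at *; simp only; omega
      · unfold lx at *; simp only; omega

end Run7.H941
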