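import Pool.Agent.Run7.h941.GenericZ

/-!
Extension of the base field.
-/

set_option autoImplicit false

open MvPolynomial Module

namespace Run7.H941

variable {k K : Type*} [Field k] [Field K] [Algebra k K]

/-- extension of scalars on polynomials -/
noncomputable def io (k K : Type*) [Field k] [Field K] [Algebra k K] : P3 k →+* P3 K :=
  MvPolynomial.map (algebraMap k K)

/-- extension of scalars on subspaces -/
noncomputable def bc (K : Type*) {k : Type*} [Field k] [Field K] [Algebra k K]
    (V : Submodule k (P3 k)) : Submodule K (P3 K) :=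
  Submodule.span K (io k K '' (V : Set (P3 k)))

/-- apply a linear functional to the coefficients -/
noncomputable def Psi (ψ : K →ₗ[k] k) (p : P3 K) : P3 k :=
  ∑ m ∈ p.support, monomial m (ψ (coeff m p))

theorem coeff_Psi (ψ : K →ₗ[k] k) (p : P3 K) (m : Fin 3 →₀ ℕ) :
    coeff m (Psi ψ p) = ψ (coeff m p) := by
  classical
  unfold Psi
  rw [coeff_sum]
  simp_rw [coeff_monomial]
  rw [Finset.sum_ite_eq']
  split_ifs with h
  · rfl
  · rw [MvPolynomial.notMem_support_iff] at h
    rw [h, map_zero]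

theorem Psi_add (ψ : K →ₗ[k] k) (p q : P3 K) : Psi ψ (p + q) = Psi ψ p + Psi ψ q := by
  ext m
  rw [coeff_add, coeff_Psi, coeff_Psi, coeff_Psi, coeff_add, map_add]

theorem Psi_zero (ψ : K →ₗ[k] k) : Psi ψ (0 : P3 K) = 0 := by
  ext m
  rw [coeff_Psi, coeff_zero, coeff_zero, map_zero]

theorem Psi_sum {ι : Type*} (ψ : K →ₗ[k] k) (s : Finset ι) (p : ι → P3 K) :
    Psi ψ (∑ i ∈ s, p i) = ∑ i ∈ s, Psi ψ (p i) := by
  classical
  induction s using Finset.induction_on with
  | empty => simp [Psi_zero]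
  | insert a s ha ih => rw [Finset.sum_insert ha, Finset.sum_insert ha, Psi_add, ih]

theorem coeff_io (p : P3 k) (m : Fin 3 →₀ ℕ) : coeff m (io k K p) = algebraMap k K (coeff m p) :=
  coeff_map _ _ _

theorem Psi_mul (ψ : K →ₗ[k] k) (s : P3 k) (w : P3 K) :
    Psi ψ (io k K s * w) = s * Psi ψ w := by
  classical
  ext m
  rw [coeff_Psi, coeff_mul, coeff_mul, map_sum]
  apply Finset.sum_congr rfl
  intro x _
  rw [coeff_io, coeff_Psi, ← Algebra.smul_def, map_smul, smul_eq_mul]

theorem Psi_smul_io (ψ : K →ₗ[k] k) (c : K) (v : P3 k) :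
    Psi ψ (c • io k K v) = ψ c • v := by
  ext m
  rw [coeff_Psi, coeff_smul, coeff_smul, coeff_io, smul_eq_mul, mul_comm, ← Algebra.smul_def,
    map_smul, smul_eq_mul, smul_eq_mul, mul_comm]

theorem io_injective : Function.Injective (io k K) :=
  MvPolynomial.map_injective _ (algebraMap k K).injective

/-- descent: an element all of whose functional images lie in `W` is in `bc W` -/
theorem mem_bc_of_Psi {W : Submodule k (P3 k)} {p : P3 K} (h : ∀ ψ : K →ₗ[k] k, Psi ψ p ∈ W) :
    p ∈ bc K W := by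
  classical
  let e := Basis.ofVectorSpace k K
  let Λ := p.support.biUnion (fun m => (e.repr (coeff m p)).support)
  have hp : p = ∑ l ∈ Λ, (e l) • io k K (Psi (e.coord l) p) := by
    ext m
    rw [coeff_sum]
    simp_rw [coeff_smul, coeff_io, coeff_Psi]
    by_cases hm : m ∈ p.support
    · have h1 := e.linearCombination_repr (coeff m p)
      rw [Finsupp.linearCombination_apply, Finsupp.sum] at h1
      conv_lhs => rw [← h1]
      have hsub : (e.repr (coeff m p)).support ⊆ Λ := by
        intro l hl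
        exact Finset.mem_biUnion.mpr ⟨m, hm, hl⟩
      rw [Finset.sum_subset hsub]
      · apply Finset.sum_congr rfl
        intro l _
        rw [Basis.coord_apply, smul_eq_mul, Algebra.smul_def, mul_comm]
      · intro l _ hl
        rw [Finsupp.notMem_support_iff] at hl
        rw [hl, zero_smul]
    · rw [MvPolynomial.notMem_support_iff] at hm
      rw [hm]
      symm
      apply Finset.sum_eq_zero
      intro l _
      rw [map_zero, map_zero, smul_zero]
  rw [hp]
  apply Submodule.sum_mem
  intro l _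
  apply Submodule.smul_mem
  exact Submodule.subset_span ⟨_, h _, rfl⟩

theorem bc_mono {V W : Submodule k (P3 k)} (h : V ≤ W) : bc K V ≤ bc K W :=
  Submodule.span_mono (Set.image_mono h)

theorem io_hom {p : P3 k} {m : ℕ} (hp : p.IsHomogeneous m) : (io k K p).IsHomogeneous m :=
  hp.map _

theorem bc_le_Sd {V : Submodule k (P3 k)} {m : ℕ} (h : V ≤ Sd k m) : bc K V ≤ Sd K m := by
  unfold bc
  rw [Submodule.span_le]
  rintro _ ⟨p, hp, rfl⟩
  exact io_hom (h hp)

theorem io_X (i : Fin 3) : io k K (X i) = X i := MvPolynomial.map_X _ _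

theorem up_bc_le {V U : Submodule k (P3 k)} (h : up V ≤ U) : up (bc K V) ≤ bc K U := by
  rw [up_le_iff]
  intro p hp i
  have hle : bc K V ≤ (bc K U).comap (mx i) := by
    unfold bc
    rw [Submodule.span_le]
    rintro _ ⟨v, hv, rfl⟩
    rw [SetLike.mem_coe, Submodule.mem_comap, mx_apply, ← io_X (k := k), ← map_mul]
    exact Submodule.subset_span ⟨_, up_le_iff.mp h v hv i, rfl⟩
  exact hle hp

theorem finrank_bc (V : Submodule k (P3 k)) [FiniteDimensional k V] :
    finrank K (bc K V) = finrank k V := by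
  classical
  let b := Module.finBasis k V
  have hspan : bc K V = Submodule.span K (Set.range (fun i => io k K (b i : P3 k))) := by
    apply le_antisymm
    · unfold bc
      rw [Submodule.span_le]
      rintro _ ⟨v, hv, rfl⟩
      have h1 := b.sum_repr ⟨v, hv⟩
      have h2 : v = ∑ i, (b.repr ⟨v, hv⟩ i) • (b i : P3 k) := by
        have := congrArg (fun z : V => (z : P3 k)) h1
        simp only [Submodule.coe_sum, Submodule.coe_smul] at this
        exact this.symm
      rw [SetLike.mem_coe, h2, map_sum]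
      apply Submodule.sum_mem
      intro i _
      rw [smul_eq_C_mul, map_mul]
      have h3 : io k K (C (b.repr ⟨v, hv⟩ i)) = C (algebraMap k K (b.repr ⟨v, hv⟩ i)) :=
        MvPolynomial.map_C _ _
      rw [h3, ← smul_eq_C_mul]
      apply Submodule.smul_mem
      exact Submodule.subset_span ⟨i, rfl⟩
    · rw [Submodule.span_le]
      rintro _ ⟨i, rfl⟩
      exact Submodule.subset_span ⟨_, (b i).2, rfl⟩
  have hli : LinearIndependent K (fun i => io k K (b i : P3 k)) := by
    rw [Fintype.linearIndependent_iff]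
    intro c hc i
    rw [← Module.forall_dual_apply_eq_zero_iff k]
    intro ψ
    have h1 : Psi ψ (∑ i, c i • io k K (b i : P3 k)) = 0 := by rw [hc, Psi_zero]
    rw [Psi_sum] at h1
    simp_rw [Psi_smul_io] at h1
    have h2 : ∑ i, ψ (c i) • b i = 0 := by
      apply Subtype.ext
      simp only [Submodule.coe_sum, Submodule.coe_smul, Submodule.coe_zero]
      exact h1
    exact (Fintype.linearIndependent_iff.mp b.linearIndependent) (fun i => ψ (c i)) h2 i
  rw [hspan, finrank_span_eq_card hli, Fintype.card_fin]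

theorem Psi_mul_mem_span {s : Set (P3 k)} {p : P3 K} (hp : p ∈ Ideal.span (io k K '' s))
    (ψ : K →ₗ[k] k) : ∀ a : P3 K, Psi ψ (a * p) ∈ Ideal.span s := by
  refine Submodule.span_induction ?_ ?_ ?_ ?_ hp
  · rintro _ ⟨v, hv, rfl⟩ a
    rw [mul_comm, Psi_mul]
    exact Ideal.mul_mem_right _ _ (Ideal.subset_span hv)
  · intro a
    rw [mul_zero, Psi_zero]
    exact Ideal.zero_mem _
  · intro x y _ _ hx hy a
    rw [mul_add, Psi_add]
    exact add_mem (hx a) (hy a)
  · intro b x _ ih a
    rw [smul_eq_mul, ← mul_assoc]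
    exact ih (a * b)

theorem Psi_mem_span {s : Set (P3 k)} {p : P3 K} (hp : p ∈ Ideal.span (io k K '' s))
    (ψ : K →ₗ[k] k) : Psi ψ p ∈ Ideal.span s := by
  have := Psi_mul_mem_span hp ψ 1
  rwa [one_mul] at this

theorem bc_span_le (s : Set (P3 k)) :
    bc K (Submodule.restrictScalars k (Ideal.span s)) ≤
      Submodule.restrictScalars K (Ideal.span (io k K '' s)) := by
  unfold bc
  rw [Submodule.span_le]
  rintro _ ⟨v, hv, rfl⟩
  change io k K v ∈ Ideal.span (io k K '' s)
  rw [← Ideal.map_span]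
  exact Ideal.mem_map_of_mem _ hv

theorem mem_span_iff_Psi {s : Set (P3 k)} {p : P3 K} :
    p ∈ Ideal.span (io k K '' s) ↔ ∀ ψ : K →ₗ[k] k, Psi ψ p ∈ Ideal.span s := by
  constructor
  · intro hp ψ
    exact Psi_mem_span hp ψ
  · intro h
    exact bc_span_le s (mem_bc_of_Psi (W := Submodule.restrictScalars k (Ideal.span s)) h)

theorem Psi_hom (ψ : K →ₗ[k] k) {p : P3 K} {m : ℕ} (hp : p.IsHomogeneous m) :
    (Psi ψ p).IsHomogeneous m := by
  intro d hd
  rw [coeff_Psi] at hd
  apply hp
  intro h0
  rw [h0, map_zero] at hd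
  exact hd rfl

theorem idg_bc_le {s : Set (P3 k)} {W : Submodule k (P3 k)} {m : ℕ}
    (h : idg (Ideal.span s) m ≤ W) : idg (Ideal.span (io k K '' s)) m ≤ bc K W := by
  intro p hp
  apply mem_bc_of_Psi
  intro ψ
  exact h ⟨Psi_mem_span hp.1 ψ, Psi_hom ψ hp.2⟩

theorem reg_bc {s : Set (P3 k)} {h : P3 k} (hreg : ∀ p, h * p ∈ Ideal.span s → p ∈ Ideal.span s) :
    ∀ p : P3 K, io k K h * p ∈ Ideal.span (io k K '' s) → p ∈ Ideal.span (io k K '' s) := by
  intro p hp
  rw [mem_span_iff_Psi] at hp ⊢
  intro ψ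
  apply hreg
  rw [← Psi_mul]
  exact hp ψ

variable {f g h : P3 k} {a b c : ℕ}

theorem RegTriple.bc (R : RegTriple f g h a b c) (K : Type*) [Field K] [Algebra k K] :
    RegTriple (io k K f) (io k K g) (io k K h) a b c := by
  refine ⟨⟨io_hom R.rp.hf, io_hom R.rp.hg, ?_, ?_, ?_, R.rp.ha, R.rp.hab⟩, io_hom R.hh,
    R.hbc, ?_⟩
  · intro h0
    exact R.rp.hf0 (io_injective (K := K) (by rw [h0, map_zero]))
  · intro h0
    exact R.rp.hg0 (io_injective (K := K) (by rw [h0, map_zero]))
  · have := reg_bc (K := K) R.rp.hreg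
    rwa [Set.image_singleton] at this
  · have := reg_bc (K := K) R.hregh
    rwa [Set.image_pair] at this

/-- The growth theorem for regular sequences of length three in three variables, over
arbitrary fields. -/
theorem RegTriple.growth (R : RegTriple f g h a b c)
    {d : ℕ} {V U : Submodule k (P3 k)}
    (hp : PairAt (Ideal.span {f, g, h}) d V U) {t : ℕ × ℕ}
    (ht : t.1 < a ∧ t.2 < b ∧ t.1 + t.2 ≤ d)
    (hv : (Qs a b (d + 1) (d + 1 - c) t).card + (Pout a b d).card ≤ finrank k V) :
    (Qs a b (d + 2) (d + 2 - c) t).card + (Pout a b (d + 1)).card ≤ finrank k U := by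
  have := hp.finV
  have := hp.finU
  have R' := R.bc (AlgebraicClosure k)
  have himg : io k (AlgebraicClosure k) '' {f, g, h} =
      {io k (AlgebraicClosure k) f, io k (AlgebraicClosure k) g, io k (AlgebraicClosure k) h} := by
    rw [Set.image_insert_eq, Set.image_pair]
  have hp' : PairAt (Ideal.span {io k (AlgebraicClosure k) f, io k (AlgebraicClosure k) g,
      io k (AlgebraicClosure k) h}) d (Run7.H941.bc (AlgebraicClosure k) V)
      (Run7.H941.bc (AlgebraicClosure k) U) := by
    rw [← himg]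
    exact ⟨bc_le_Sd hp.hV, bc_le_Sd hp.hU, up_bc_le hp.hup, idg_bc_le hp.hJV, idg_bc_le hp.hJU⟩
  have h1 := R'.growth_inf hp' ht (by rw [finrank_bc]; exact hv)
  rw [finrank_bc] at h1
  exact h1

end Run7.H941
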