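import Pool.Agent.Run7.h941.TwoGen

/-!
Comparison of graded Betti numbers of ideals in three variables, computed by the Koszul complex.
-/

set_option autoImplicit false

open MvPolynomial Module

namespace Run7.H941

variable {k : Type*} [Field k]

/-- the Koszul differential -/
noncomputable def DD (k : Type*) [Field k] :
    (Finset (Fin 3) → P3 k) →ₗ[k] (Finset (Fin 3) → P3 k) :=
  LinearMap.pi (fun B : Finset (Fin 3) => ∑ a ∈ Finset.univ \ B,
        (LinearMap.mulLeft k ((-1 : MvPolynomial (Fin 3) k) ^ (B.filter (fun b => b < a)).card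
            * MvPolynomial.X a)) ∘ₗ
        (LinearMap.proj (R := k) (φ := fun _ : Finset (Fin 3) => MvPolynomial (Fin 3) k)
          (insert a B)))

/-- slots of the Koszul complex -/
noncomputable def slot (J : Ideal (P3 k)) (i j : ℕ) (A : Finset (Fin 3)) : Submodule k (P3 k) :=
  if A.card = i ∧ i ≤ j then
            Submodule.restrictScalars k J ⊓ MvPolynomial.homogeneousSubmodule (Fin 3) k (j - i)
          else ⊥

/-- chains of the Koszul complex with values in an ideal -/
noncomputable def CC (J : Ideal (P3 k)) (i j : ℕ) : Submodule k (Finset (Fin 3) → P3 k) :=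
  ⨅ A : Finset (Fin 3),
        Submodule.comap (LinearMap.proj (R := k)
          (φ := fun _ : Finset (Fin 3) => MvPolynomial (Fin 3) k) A) (slot J i j A)

theorem mem_CC {J : Ideal (P3 k)} {i j : ℕ} {F : Finset (Fin 3) → P3 k} :
    F ∈ CC J i j ↔ ∀ A, F A ∈ slot J i j A := by
  unfold CC
  rw [Submodule.mem_iInf]
  rfl

theorem slot_pos {J : Ideal (P3 k)} {i j : ℕ} {A : Finset (Fin 3)} (hA : A.card = i)
    (hij : i ≤ j) : slot J i j A = idg J (j - i) := by
  unfold slot
  rw [if_pos ⟨hA, hij⟩]
  rfl

theorem slot_neg {J : Ideal (P3 k)} {i j : ℕ} {A : Finset (Fin 3)} (h : ¬ (A.card = i ∧ i ≤ j)) :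
    slot J i j A = ⊥ := by
  unfold slot
  rw [if_neg h]

/-- the chains are a product of slots -/
noncomputable def CCequiv (J : Ideal (P3 k)) (i j : ℕ) :
    CC J i j ≃ₗ[k] (∀ A : Finset (Fin 3), slot J i j A) where
  toFun F A := ⟨F.1 A, mem_CC.mp F.2 A⟩
  invFun G := ⟨fun A => (G A : P3 k), mem_CC.mpr (fun A => (G A).2)⟩
  map_add' _ _ := rfl
  map_smul' _ _ := rfl
  left_inv _ := rfl
  right_inv _ := rfl

instance slot_finite (J : Ideal (P3 k)) (i j : ℕ) (A : Finset (Fin 3)) :
    FiniteDimensional k (slot J i j A) := by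
  by_cases h : A.card = i ∧ i ≤ j
  · rw [slot_pos h.1 h.2]
    infer_instance
  · rw [slot_neg h]
    infer_instance

instance CC_finite (J : Ideal (P3 k)) (i j : ℕ) : FiniteDimensional k (CC J i j) :=
  Module.Finite.equiv (CCequiv J i j).symm

theorem finrank_CC (J : Ideal (P3 k)) (i j : ℕ) :
    finrank k (CC J i j) = ∑ A : Finset (Fin 3), finrank k (slot J i j A) := by
  rw [(CCequiv J i j).finrank_eq, Module.finrank_pi_fintype]

theorem finrank_CC_eq {J J' : Ideal (P3 k)}
    (h0 : ∀ m, finrank k (idg J m) = finrank k (idg J' m)) (i j : ℕ) :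
    finrank k (CC J i j) = finrank k (CC J' i j) := by
  rw [finrank_CC, finrank_CC]
  apply Finset.sum_congr rfl
  intro A _
  by_cases h : A.card = i ∧ i ≤ j
  · rw [slot_pos h.1 h.2, slot_pos h.1 h.2, h0]
  · rw [slot_neg h, slot_neg h]

theorem DD_apply (F : Finset (Fin 3) → P3 k) (B : Finset (Fin 3)) :
    DD k F B = ∑ a ∈ Finset.univ \ B,
      ((-1 : P3 k) ^ (B.filter (fun b => b < a)).card * X a) * F (insert a B) := by
  unfold DD
  rw [LinearMap.pi_apply, LinearMap.sum_apply]
  rfl

theorem rank_null (J : Ideal (P3 k)) (i j : ℕ) :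
    finrank k ↥(LinearMap.ker (DD k) ⊓ CC J i j) +
      finrank k ↥(Submodule.map (DD k) (CC J i j)) = finrank k (CC J i j) := by
  have h1 := LinearMap.finrank_range_add_finrank_ker ((DD k).domRestrict (CC J i j))
  have h2 : LinearMap.range ((DD k).domRestrict (CC J i j)) = (CC J i j).map (DD k) :=
    LinearMap.range_domRestrict _ _
  have h3 : finrank k (LinearMap.ker ((DD k).domRestrict (CC J i j))) =
      finrank k ↥(LinearMap.ker (DD k) ⊓ CC J i j) := by
    rw [LinearMap.ker_domRestrict]
    have e : (LinearMap.ker (DD k)).comap (CC J i j).subtype =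
        (LinearMap.ker (DD k) ⊓ CC J i j).comap (CC J i j).subtype := by
      ext F
      simp only [Submodule.mem_comap, Submodule.mem_inf]
      exact ⟨fun h => ⟨h, F.2⟩, fun h => h.1⟩
    rw [e]
    exact (Submodule.comapSubtypeEquivOfLe inf_le_right).finrank_eq
  rw [h2, h3] at h1
  omega

theorem mem_slot_zero {J : Ideal (P3 k)} {i j : ℕ} {A : Finset (Fin 3)} {p : P3 k}
    (hp : p ∈ slot J i j A) (h : A.card ≠ i) : p = 0 := by
  rw [slot_neg (fun h' => h h'.1)] at hp
  exact hp

/-- degree zero -/
theorem CC_zero_le (J : Ideal (P3 k)) (j : ℕ) : CC J 0 j ≤ LinearMap.ker (DD k) := by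
  intro F hF
  rw [mem_CC] at hF
  rw [LinearMap.mem_ker]
  funext B
  rw [DD_apply]
  apply Finset.sum_eq_zero
  intro a _
  have : F (insert a B) = 0 := mem_slot_zero (hF _) (by
    rw [Ne, Finset.card_eq_zero]
    exact Finset.insert_ne_empty _ _)
  rw [this, mul_zero]

theorem ker_zero (J : Ideal (P3 k)) (j : ℕ) :
    finrank k ↥(LinearMap.ker (DD k) ⊓ CC J 0 j) = finrank k (CC J 0 j) := by
  rw [inf_eq_right.mpr (CC_zero_le J j)]

theorem CC_neg {J : Ideal (P3 k)} {i j : ℕ} (h : j < i) : CC J i j = ⊥ := by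
  rw [eq_bot_iff]
  intro F hF
  rw [mem_CC] at hF
  rw [Submodule.mem_bot]
  funext A
  have := hF A
  rw [slot_neg (fun h' => by omega)] at this
  exact this

theorem CC_big {J : Ideal (P3 k)} {i j : ℕ} (h : 4 ≤ i) : CC J i j = ⊥ := by
  rw [eq_bot_iff]
  intro F hF
  rw [mem_CC] at hF
  rw [Submodule.mem_bot]
  funext A
  have h1 : A.card ≤ 3 := by
    have := Finset.card_le_univ A
    simpa using this
  exact mem_slot_zero (hF A) (by omega)

theorem DD_one_empty (F : Finset (Fin 3) → P3 k) :
    DD k F ∅ = X 0 * F {0} + X 1 * F {1} + X 2 * F {2} := by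
  rw [DD_apply, Finset.sdiff_empty, Fin.sum_univ_three]
  simp

theorem DD_one_nonempty {J : Ideal (P3 k)} {j : ℕ} {F : Finset (Fin 3) → P3 k}
    (hF : F ∈ CC J 1 j) {B : Finset (Fin 3)} (hB : B ≠ ∅) : DD k F B = 0 := by
  rw [mem_CC] at hF
  rw [DD_apply]
  apply Finset.sum_eq_zero
  intro a ha
  rw [Finset.mem_sdiff] at ha
  have : F (insert a B) = 0 := mem_slot_zero (hF _) (by
    rw [Finset.card_insert_of_notMem ha.2]
    have : 1 ≤ B.card := Finset.card_pos.mpr (Finset.nonempty_of_ne_empty hB)
    omega)
  rw [this, mul_zero]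

/-- image in homological degree zero -/
theorem finrank_map_one (J : Ideal (P3 k)) {j : ℕ} (hj : 1 ≤ j) :
    finrank k ↥(Submodule.map (DD k) (CC J 1 j)) = finrank k (up (idg J (j - 1))) := by
  let π : (Finset (Fin 3) → P3 k) →ₗ[k] P3 k :=
    LinearMap.proj (R := k) (φ := fun _ : Finset (Fin 3) => P3 k) ∅
  have h1 : (Submodule.map (DD k) (CC J 1 j)).map π = up (idg J (j - 1)) := by
    ext p
    constructor
    · rintro ⟨_, ⟨F, hF, rfl⟩, rfl⟩
      change DD k F ∅ ∈ _
      rw [DD_one_empty]
      have hF' := mem_CC.mp hF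
      have h : ∀ a : Fin 3, F {a} ∈ idg J (j - 1) := by
        intro a
        have := hF' {a}
        rwa [slot_pos (Finset.card_singleton a) hj] at this
      exact mem_up.mpr ⟨_, h 0, _, h 1, _, h 2, rfl⟩
    · intro hp
      obtain ⟨q0, h0, q1, h1, q2, h2, rfl⟩ := mem_up.mp hp
      let F : Finset (Fin 3) → P3 k := fun A =>
        if A = {0} then q0 else if A = {1} then q1 else if A = {2} then q2 else 0
      have hF : F ∈ CC J 1 j := by
        rw [mem_CC]
        intro A
        by_cases hA : A.card = 1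
        · rw [slot_pos hA hj]
          simp only [F]
          split_ifs
          · exact h0
          · exact h1
          · exact h2
          · exact Submodule.zero_mem _
        · simp only [F]
          rw [if_neg, if_neg, if_neg]
          · exact Submodule.zero_mem _
          · rintro rfl; exact hA rfl
          · rintro rfl; exact hA rfl
          · rintro rfl; exact hA rfl
      refine ⟨_, ⟨F, hF, rfl⟩, ?_⟩
      change DD k F ∅ = _
      rw [DD_one_empty]
      have e0 : F {0} = q0 := by simp [F]
      have e1 : F {1} = q1 := by simp [F]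
      have e2 : F {2} = q2 := by simp [F]
      rw [e0, e1, e2]
  rw [← h1]
  symm
  have hinj : Set.InjOn π (Submodule.map (DD k) (CC J 1 j)) := by
    rintro _ ⟨F, hF, rfl⟩ _ ⟨G, hG, rfl⟩ h
    funext B
    by_cases hB : B = ∅
    · rw [hB]; exact h
    · rw [DD_one_nonempty hF hB, DD_one_nonempty hG hB]
  have hli : Function.Injective (π.domRestrict (Submodule.map (DD k) (CC J 1 j))) := by
    intro x y h
    apply Subtype.ext
    exact hinj x.2 y.2 h
  have h2 := LinearMap.finrank_range_of_inj hli
  rw [LinearMap.range_domRestrict] at h2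
  exact h2

theorem DD_two_0 (F : Finset (Fin 3) → P3 k) :
    DD k F {0} = -(X 1 * F {0, 1}) - X 2 * F {0, 2} := by
  have h1 : (Finset.univ \ {0} : Finset (Fin 3)) = {1, 2} := by decide
  rw [DD_apply, h1, Finset.sum_pair (by decide)]
  have e1 : (({0} : Finset (Fin 3)).filter (fun b => b < 1)).card = 1 := by decide
  have e2 : (({0} : Finset (Fin 3)).filter (fun b => b < 2)).card = 1 := by decide
  have s1 : (insert 1 {0} : Finset (Fin 3)) = {0, 1} := by decide
  have s2 : (insert 2 {0} : Finset (Fin 3)) = {0, 2} := by decide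
  rw [e1, e2, s1, s2]
  ring

theorem DD_two_1 (F : Finset (Fin 3) → P3 k) :
    DD k F {1} = X 0 * F {0, 1} - X 2 * F {1, 2} := by
  have h1 : (Finset.univ \ {1} : Finset (Fin 3)) = {0, 2} := by decide
  rw [DD_apply, h1, Finset.sum_pair (by decide)]
  have e1 : (({1} : Finset (Fin 3)).filter (fun b => b < 0)).card = 0 := by decide
  have e2 : (({1} : Finset (Fin 3)).filter (fun b => b < 2)).card = 1 := by decide
  have s1 : (insert 0 {1} : Finset (Fin 3)) = {0, 1} := by decide
  have s2 : (insert 2 {1} : Finset (Fin 3)) = {1, 2} := by decide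
  rw [e1, e2, s1, s2]
  ring

theorem DD_two_2 (F : Finset (Fin 3) → P3 k) :
    DD k F {2} = X 0 * F {0, 2} + X 1 * F {1, 2} := by
  have h1 : (Finset.univ \ {2} : Finset (Fin 3)) = {0, 1} := by decide
  rw [DD_apply, h1, Finset.sum_pair (by decide)]
  have e1 : (({2} : Finset (Fin 3)).filter (fun b => b < 0)).card = 0 := by decide
  have e2 : (({2} : Finset (Fin 3)).filter (fun b => b < 1)).card = 0 := by decide
  have s1 : (insert 0 {2} : Finset (Fin 3)) = {0, 2} := by decide
  have s2 : (insert 1 {2} : Finset (Fin 3)) = {1, 2} := by decide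
  rw [e1, e2, s1, s2]
  ring

/-- cycles in homological degree two -/
noncomputable def cyc : P3 k →ₗ[k] (Finset (Fin 3) → P3 k) :=
  LinearMap.pi (fun A => if A = {0, 1} then LinearMap.mulLeft k (X 2 : P3 k) else
    if A = {0, 2} then -LinearMap.mulLeft k (X 1 : P3 k) else
      if A = {1, 2} then LinearMap.mulLeft k (X 0 : P3 k) else 0)

theorem cyc01 (q : P3 k) : cyc q {0, 1} = X 2 * q := by
  simp [cyc]

theorem cyc02 (q : P3 k) : cyc q {0, 2} = -(X 1 * q) := by
  have h : ({0, 2} : Finset (Fin 3)) ≠ {0, 1} := by decide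
  simp [cyc, h]

theorem cyc12 (q : P3 k) : cyc q {1, 2} = X 0 * q := by
  have h : ({1, 2} : Finset (Fin 3)) ≠ {0, 1} := by decide
  have h' : ({1, 2} : Finset (Fin 3)) ≠ {0, 2} := by decide
  simp [cyc, h, h']

theorem cyc_other {q : P3 k} {A : Finset (Fin 3)} (h : A.card ≠ 2) : cyc q A = 0 := by
  have h1 : A ≠ {0, 1} := by rintro rfl; exact h rfl
  have h2 : A ≠ {0, 2} := by rintro rfl; exact h rfl
  have h3 : A ≠ {1, 2} := by rintro rfl; exact h rfl
  simp [cyc, h1, h2, h3]

theorem card_two_cases {A : Finset (Fin 3)} (h : A.card = 2) :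
    A = {0, 1} ∨ A = {0, 2} ∨ A = {1, 2} := by
  revert h
  revert A
  decide

theorem card_one_cases {A : Finset (Fin 3)} (h : A.card = 1) :
    A = {0} ∨ A = {1} ∨ A = {2} := by
  revert h
  revert A
  decide

/-- the cycles are parametrised by `dn` -/
theorem ker_two (J : Ideal (P3 k)) {j : ℕ} (hj : 2 ≤ j) :
    finrank k ↥(LinearMap.ker (DD k) ⊓ CC J 2 j) = finrank k (dn (idg J (j - 2))) := by
  have h1 : LinearMap.ker (DD k) ⊓ CC J 2 j = (dn (idg J (j - 2))).map cyc := by
    ext F
    constructor
    · rintro ⟨hD, hF⟩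
      rw [SetLike.mem_coe, LinearMap.mem_ker] at hD
      have hF' := mem_CC.mp hF
      have d0 : DD k F {0} = 0 := by rw [hD]; rfl
      have d1 : DD k F {1} = 0 := by rw [hD]; rfl
      have d2 : DD k F {2} = 0 := by rw [hD]; rfl
      rw [DD_two_0] at d0
      rw [DD_two_1] at d1
      rw [DD_two_2] at d2
      -- F01 is divisible by X 2
      have hdvd : (X 2 : P3 k) ∣ F {0, 1} := by
        have hp : Prime (X 2 : P3 k) := X_prime
        have h3 : (X 2 : P3 k) ∣ X 0 * F {0, 1} := ⟨F {1, 2}, by linear_combination d1⟩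
        rcases hp.dvd_or_dvd h3 with h4 | h4
        · exfalso
          rw [X_dvd_X] at h4
          exact absurd h4 (by decide)
        · exact h4
      obtain ⟨q, hq⟩ := hdvd
      have hX2 : (X 2 : P3 k) ≠ 0 := X_ne_zero 2
      have e02 : F {0, 2} = -(X 1 * q) := by
        have : X 2 * (F {0, 2} + X 1 * q) = 0 := by
          rw [hq] at d0
          linear_combination -d0
        rcases mul_eq_zero.mp this with h4 | h4
        · exact absurd h4 hX2
        · exact eq_neg_of_add_eq_zero_left h4
      have e12 : F {1, 2} = X 0 * q := by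
        have : X 2 * (F {1, 2} - X 0 * q) = 0 := by
          rw [hq] at d1
          linear_combination -d1
        rcases mul_eq_zero.mp this with h4 | h4
        · exact absurd h4 hX2
        · exact sub_eq_zero.mp h4
      have m01 : F {0, 1} ∈ idg J (j - 2) := by
        have := hF' {0, 1}
        rwa [slot_pos (show Finset.card _ = 2 from rfl) hj] at this
      have m02 : F {0, 2} ∈ idg J (j - 2) := by
        have := hF' {0, 2}
        rwa [slot_pos (show Finset.card _ = 2 from rfl) hj] at this
      have m12 : F {1, 2} ∈ idg J (j - 2) := by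
        have := hF' {1, 2}
        rwa [slot_pos (show Finset.card _ = 2 from rfl) hj] at this
      refine ⟨q, ?_, ?_⟩
      · refine mem_dn.mpr ⟨?_, ?_, ?_⟩
        · rw [← e12]; exact m12
        · have := Submodule.neg_mem _ m02
          rw [e02, neg_neg] at this
          exact this
        · rw [← hq]; exact m01
      · funext A
        by_cases hA : A.card = 2
        · rcases card_two_cases hA with rfl | rfl | rfl
          · rw [cyc01, hq]
          · rw [cyc02, e02]
          · rw [cyc12, e12]
        · rw [cyc_other hA]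
          exact (mem_slot_zero (hF' A) hA).symm
    · rintro ⟨q, hq, rfl⟩
      obtain ⟨h0, h1, h2⟩ := mem_dn.mp hq
      refine ⟨?_, ?_⟩
      · rw [SetLike.mem_coe, LinearMap.mem_ker]
        funext B
        by_cases hB : B.card = 1
        · rcases card_one_cases hB with rfl | rfl | rfl
          · rw [DD_two_0, cyc01, cyc02]
            change _ = (0 : P3 k)
            ring
          · rw [DD_two_1, cyc01, cyc12]
            change _ = (0 : P3 k)
            ring
          · rw [DD_two_2, cyc02, cyc12]
            change _ = (0 : P3 k)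
            ring
        · rw [DD_apply]
          apply Finset.sum_eq_zero
          intro a ha
          rw [Finset.mem_sdiff] at ha
          rw [cyc_other, mul_zero]
          rw [Finset.card_insert_of_notMem ha.2]
          omega
      · rw [SetLike.mem_coe, mem_CC]
        intro A
        by_cases hA : A.card = 2
        · rw [slot_pos hA hj]
          rcases card_two_cases hA with rfl | rfl | rfl
          · rw [cyc01]; exact h2
          · rw [cyc02]; exact Submodule.neg_mem _ h1
          · rw [cyc12]; exact h0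
        · rw [cyc_other hA]
          exact Submodule.zero_mem _
  rw [h1]
  symm
  have hinj : Function.Injective (cyc (k := k)) := by
    intro p q h
    have h2 : cyc p {0, 1} = cyc q {0, 1} := by rw [h]
    rw [cyc01, cyc01] at h2
    exact mul_left_cancel₀ (X_ne_zero 2) h2
  exact (Submodule.equivMapOfInjective _ hinj _).finrank_eq

theorem ker_three (J : Ideal (P3 k)) (j : ℕ) :
    finrank k ↥(LinearMap.ker (DD k) ⊓ CC J 3 j) = 0 := by
  rw [Submodule.finrank_eq_zero, eq_bot_iff]
  rintro F ⟨hD, hF⟩
  rw [SetLike.mem_coe, LinearMap.mem_ker] at hD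
  have hF' := mem_CC.mp hF
  have d : DD k F {0, 1} = 0 := by rw [hD]; rfl
  rw [DD_apply] at d
  have h1 : (Finset.univ \ {0, 1} : Finset (Fin 3)) = {2} := by decide
  rw [h1, Finset.sum_singleton] at d
  have e1 : (({0, 1} : Finset (Fin 3)).filter (fun b => b < 2)).card = 2 := by decide
  have s1 : (insert 2 {0, 1} : Finset (Fin 3)) = Finset.univ := by decide
  rw [e1, s1] at d
  have d' : X 2 * F Finset.univ = 0 := by linear_combination d
  have hu : F Finset.univ = 0 := by
    rcases mul_eq_zero.mp d' with h4 | h4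
    · exact absurd h4 (X_ne_zero 2)
    · exact h4
  rw [Submodule.mem_bot]
  funext A
  by_cases hA : A.card = 3
  · have : A = Finset.univ := by
      rw [← Finset.card_eq_iff_eq_univ]
      simpa using hA
    rw [this, hu]
    rfl
  · exact mem_slot_zero (hF' A) hA

/-- the Betti numbers -/
noncomputable def bet (J : Ideal (P3 k)) (i j : ℕ) : ℕ :=
  finrank k ↥(LinearMap.ker (DD k) ⊓ CC J i j) -
    finrank k ↥(Submodule.map (DD k) (CC J (i + 1) j))

/-- Comparison of Betti numbers. -/
theorem betti_le {J J' : Ideal (P3 k)}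
    (h0 : ∀ m, finrank k (idg J m) = finrank k (idg J' m))
    (h1 : ∀ m, finrank k (up (idg J' m)) ≤ finrank k (up (idg J m)))
    (h2 : ∀ m, finrank k (dn (idg J m)) ≤ finrank k (dn (idg J' m))) (i j : ℕ) :
    bet J i j ≤ bet J' i j := by
  have hker : ∀ i j, finrank k ↥(LinearMap.ker (DD k) ⊓ CC J i j) ≤
      finrank k ↥(LinearMap.ker (DD k) ⊓ CC J' i j) := by
    intro i j
    have hC := finrank_CC_eq h0 i j
    rcases Nat.lt_or_ge j i with hij | hij
    · rw [CC_neg hij, CC_neg hij]
    · rcases i with _ | _ | _ | _ | i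
      · rw [ker_zero, ker_zero, hC]
      · have r1 := rank_null J 1 j
        have r2 := rank_null J' 1 j
        rw [finrank_map_one J hij] at r1
        rw [finrank_map_one J' hij] at r2
        have := h1 (j - 1)
        change finrank k ↥(LinearMap.ker (DD k) ⊓ CC J 1 j) ≤
          finrank k ↥(LinearMap.ker (DD k) ⊓ CC J' 1 j)
        have hC' : finrank k (CC J 1 j) = finrank k (CC J' 1 j) := hC
        omega
      · change finrank k ↥(LinearMap.ker (DD k) ⊓ CC J 2 j) ≤
          finrank k ↥(LinearMap.ker (DD k) ⊓ CC J' 2 j)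
        rw [ker_two J hij, ker_two J' hij]
        exact h2 _
      · change finrank k ↥(LinearMap.ker (DD k) ⊓ CC J 3 j) ≤
          finrank k ↥(LinearMap.ker (DD k) ⊓ CC J' 3 j)
        rw [ker_three]
        exact Nat.zero_le _
      · rw [CC_big (by omega), CC_big (by omega)]
  have r1 := rank_null J (i + 1) j
  have r2 := rank_null J' (i + 1) j
  have hC := finrank_CC_eq h0 (i + 1) j
  have k1 := hker i j
  have k2 := hker (i + 1) j
  unfold bet
  omega

end Run7.H941
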