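import Pool.Agent.Run7.h941.NMainEq
import Pool.Agent.TH130.CI.Sat

/-!
Lengths of quotients by ideals which contain a complete intersection, from the growth inequality.
-/

set_option autoImplicit false

namespace Run7.H941.N

open MvPolynomial Module
open H503R3.QCI (gr mem_gr NZD Reg Homog homog_span)

universe u

/-- at most three forms, or weakly fast growing from the fourth degree on -/
def Adm {r : ℕ} (a : Fin r → ℕ) : Prop :=
  r ≤ 3 ∨ ((∀ i, 2 ≤ a i) ∧ ∀ i : Fin r, 3 ≤ i.val → ∑ j ∈ Finset.Iio i, (a j - 1) ≤ a i)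

theorem egr_adm {n r : ℕ} (hr : r ≤ n) {a : Fin r → ℕ} (ha : ∀ i, 1 ≤ a i) (hm : Monotone a)
    (h : Adm a) : EGr.{u} n a := by
  rcases h with h | ⟨h2, h⟩
  · exact egr_main hr ha hm (fun i hi => absurd i.isLt (by omega))
  · exact egrw_main hr h2 hm h

variable {K : Type u} [Field K] {n : ℕ}

theorem exists_fam {r : ℕ} (hr : r ≤ n) {a : Fin r → ℕ} (ha : ∀ i, 1 ≤ a i) (hm : Monotone a)
    (hA : Adm a) {f : Fin r → MvPolynomial (Fin n) K} (hf : ∀ i, (f i).IsHomogeneous (a i))
    (hreg : Reg f) {I : Ideal (MvPolynomial (Fin n) K)} (hfI : ∀ i, f i ∈ I) :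
    ∃ L, LFam (capOf n a) L ∧ ∀ e, finrank K (gr I e) =
      (ncap (capOf n a) e).card + (L e).card := by
  obtain ⟨L, hL, h⟩ := exists_lex hr hf hreg (egr_adm hr ha hm hA K f hf hreg) hfI
  exact ⟨L, hL, fun e => by rw [← h e, finrank_LS hr hL e]⟩

theorem AA_card {c : Fin n → ℕ∞} {I : Ideal (MvPolynomial (Fin n) K)} {L : ℕ → Finset (Mo n)}
    (h : ∀ e, finrank K (gr I e) = (ncap c e).card + (L e).card) (e : ℕ) :
    finrank K (TH130CI.AA I e) + (L e).card = (mons c e).card := by
  have h1 := TH130CI.finrank_AA (I := I) e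
  rw [h e, finrank_hom', card_allM c] at h1
  omega

theorem LFam.le {c : Fin n → ℕ∞} {L : ℕ → Finset (Mo n)} (hL : LFam c L) {M u : Mo n}
    (hM : M ∈ L (dg M)) (hu : Cap c u) (h : M ≤ u) : u ∈ L (dg u) := by
  have hMc : Cap c M := (hL.ini _).cap _ hM
  rw [← cap_mem_LS hL hMc] at hM
  rw [← cap_mem_LS hL hu]
  exact (LS_upC hL).le hM h

theorem mem_box {a : Fin n → ℕ} {u : Mo n} :
    u ∈ (Fintype.piFinset fun i => Finset.range (a i)) ↔ Cap (capOf n a) u := by
  rw [Fintype.mem_piFinset, cap_full]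
  simp only [Finset.mem_range]

theorem dg_le_of_cap {a : Fin n → ℕ} {u : Mo n} (h : Cap (capOf n a) u) :
    dg u ≤ ∑ i, (a i - 1) := by
  rw [cap_full] at h
  exact Finset.sum_le_sum fun i _ => by have := h i; omega

theorem finrank_quot_eq {a : Fin n → ℕ} {I : Ideal (MvPolynomial (Fin n) K)} (hI : Homog I)
    {L : ℕ → Finset (Mo n)} (hL : LFam (capOf n a) L)
    (h : ∀ e, finrank K (gr I e) = (ncap (capOf n a) e).card + (L e).card) :
    finrank K (MvPolynomial (Fin n) K ⧸ I) =
      ((Fintype.piFinset fun i => Finset.range (a i)).filter (fun u => u ∉ L (dg u))).card := by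
  classical
  set σ := ∑ i, (a i - 1) with hσ
  have htop : ∀ p, σ < p → ∀ g : MvPolynomial (Fin n) K, g.IsHomogeneous p → g ∈ I := by
    intro p hp g hg
    apply TH130CI.mem_of_finrank_AA _ hg
    have h1 := AA_card h p
    have h2 : mons (capOf n a) p = ∅ := by
      rw [Finset.eq_empty_iff_forall_notMem]
      intro u hu
      rw [mem_mons] at hu
      have := dg_le_of_cap hu.1
      omega
    rw [h2, Finset.card_empty] at h1
    omega
  rw [TH130CI.finrank_eq_sum hI htop]
  rw [Finset.card_eq_sum_card_fiberwise (f := dg) (t := Finset.range (σ + 1))]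
  · apply Finset.sum_congr rfl
    intro e _
    have h1 := AA_card h e
    have h2 : L e ⊆ mons (capOf n a) e := (hL.ini e).subset_mons
    have h3 : ((Fintype.piFinset fun i => Finset.range (a i)).filter
        (fun u => u ∉ L (dg u))).filter (fun u => dg u = e) = mons (capOf n a) e \ L e := by
      ext u
      rw [Finset.mem_filter, Finset.mem_filter, Finset.mem_sdiff, mem_mons, mem_box]
      constructor
      · rintro ⟨⟨k1, k2⟩, rfl⟩
        exact ⟨⟨k1, rfl⟩, k2⟩
      · rintro ⟨⟨k1, rfl⟩, k2⟩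
        exact ⟨⟨k1, k2⟩, rfl⟩
    rw [h3, Finset.card_sdiff_of_subset h2]
    omega
  · intro u hu
    rw [Finset.mem_coe, Finset.mem_filter, mem_box] at hu
    rw [Finset.mem_coe, Finset.mem_range]
    have := dg_le_of_cap hu.1
    omega

/-- an element of the initial segments cuts off a box -/
theorem finrank_quot_le {a : Fin n → ℕ} {I : Ideal (MvPolynomial (Fin n) K)} (hI : Homog I)
    {L : ℕ → Finset (Mo n)} (hL : LFam (capOf n a) L)
    (h : ∀ e, finrank K (gr I e) = (ncap (capOf n a) e).card + (L e).card) {M : Mo n}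
    (hM : M ∈ L (dg M)) :
    finrank K (MvPolynomial (Fin n) K ⧸ I) + ∏ i, (a i - M i) ≤ ∏ i, a i := by
  classical
  rw [finrank_quot_eq hI hL h]
  have h1 : ∏ i, (a i - M i) = (Fintype.piFinset fun i => Finset.Ico (M i) (a i)).card := by
    rw [Fintype.card_piFinset]
    simp only [Nat.card_Ico]
  have h2 : ∏ i, a i = (Fintype.piFinset fun i => Finset.range (a i)).card := by
    rw [Fintype.card_piFinset]
    simp only [Finset.card_range]
  rw [h1, h2, ← Finset.card_union_of_disjoint]
  · apply Finset.card_le_card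
    intro u hu
    rw [Finset.mem_union] at hu
    rcases hu with hu | hu
    · exact (Finset.mem_filter.mp hu).1
    · rw [Fintype.mem_piFinset] at hu ⊢
      intro i
      have := hu i
      rw [Finset.mem_Ico] at this
      exact Finset.mem_range.mpr this.2
  · rw [Finset.disjoint_left]
    intro u hu hu2
    apply (Finset.mem_filter.mp hu).2
    rw [Fintype.mem_piFinset] at hu2
    apply hL.le hM
    · rw [cap_full]
      intro i
      exact (Finset.mem_Ico.mp (hu2 i)).2
    · intro i
      exact (Finset.mem_Ico.mp (hu2 i)).1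

end Run7.H941.N
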