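import Pool.Agent.Run7.h941.CB1

/-!
The Cayley-Bacharach bound for almost complete intersections.
-/

set_option autoImplicit false

namespace Run7.H941.N

open MvPolynomial Module
open H503R3.QCI (gr mem_gr NZD Reg Homog homog_span)

universe u

theorem filt_succ {n b : ℕ} (hb : b < n) :
    (Finset.univ.filter fun i : Fin n => i.val < b + 1) =
      insert ⟨b, hb⟩ (Finset.univ.filter fun i : Fin n => i.val < b) := by
  ext i
  simp only [Finset.mem_filter, Finset.mem_univ, true_and, Finset.mem_insert, Fin.ext_iff]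
  omega

theorem filt_ge {n b : ℕ} (hb : b < n) :
    (Finset.univ.filter fun i : Fin n => ¬ i.val < b) =
      insert ⟨b, hb⟩ (Finset.univ.filter fun i : Fin n => b + 1 ≤ i.val) := by
  ext i
  simp only [Finset.mem_filter, Finset.mem_univ, true_and, Finset.mem_insert, Fin.ext_iff]
  omega

theorem notMem_lt {n b : ℕ} (hb : b < n) :
    (⟨b, hb⟩ : Fin n) ∉ Finset.univ.filter fun i : Fin n => i.val < b := by
  simp

theorem notMem_ge {n b : ℕ} (hb : b < n) :
    (⟨b, hb⟩ : Fin n) ∉ Finset.univ.filter fun i : Fin n => b + 1 ≤ i.val := by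
  simp

/-- the lex-largest capped monomial -/
def bigM {n : ℕ} (a : Fin n → ℕ) (b t : ℕ) : Mo n :=
  fun i => if i.val < b then a i - 1 else if i.val = b then t else 0

theorem dg_bigM {n : ℕ} (a : Fin n → ℕ) {b : ℕ} (t : ℕ) :
    dg (bigM a b t) = ∑ i ∈ Finset.univ.filter (fun i : Fin n => i.val < b), (a i - 1) +
      (if b < n then t else 0) := by
  unfold dg bigM
  rw [← Finset.sum_filter_add_sum_filter_not Finset.univ (fun i : Fin n => i.val < b)]
  congr 1
  · apply Finset.sum_congr rfl
    intro i hi
    rw [if_pos (Finset.mem_filter.mp hi).2]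
  · by_cases hb : b < n
    · rw [filt_ge hb, Finset.sum_insert (notMem_ge hb), if_pos hb]
      have h1 : ∑ i ∈ Finset.univ.filter (fun i : Fin n => b + 1 ≤ i.val),
          (if i.val < b then a i - 1 else if i.val = b then t else 0) = 0 := by
        apply Finset.sum_eq_zero
        intro i hi
        have := (Finset.mem_filter.mp hi).2
        rw [if_neg (by omega), if_neg (by omega)]
      rw [h1]
      simp
    · rw [if_neg hb]
      apply Finset.sum_eq_zero
      intro i hi
      exact absurd i.isLt (by have := (Finset.mem_filter.mp hi).2; omega)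

theorem bigM_max {n : ℕ} {a : Fin n → ℕ} {b t : ℕ} {v : Mo n} (hv : Cap (capOf n a) v)
    (hd : dg v = dg (bigM a b t)) : toLex v ≤ toLex (bigM a b t) := by
  by_contra hcon
  rw [not_le] at hcon
  obtain ⟨i, h1, h2⟩ := lex_lt_iff.mp hcon
  rw [cap_full] at hv
  by_cases hi : i.val < b
  · have h3 := hv i
    simp only [bigM, if_pos hi] at h2
    omega
  · have h3 : dg (bigM a b t) < dg v := by
      apply Finset.sum_lt_sum
      · intro j _
        rcases lt_trichotomy j i with h | h | h
        · exact le_of_eq (h1 j h)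
        · rw [h]; exact le_of_lt h2
        · have h4 : bigM a b t j = 0 := by
            have : i.val < j.val := h
            simp only [bigM]
            rw [if_neg (by omega), if_neg (by omega)]
          rw [h4]
          exact Nat.zero_le _
      · exact ⟨i, Finset.mem_univ i, h2⟩
    omega

theorem prod_bigM {n : ℕ} {a : Fin n → ℕ} (ha : ∀ i, 1 ≤ a i) {b : ℕ} (t : ℕ) :
    ∏ i, (a i - bigM a b t i) = (if h : b < n then a ⟨b, h⟩ - t else 1) *
      ∏ i ∈ Finset.univ.filter (fun i : Fin n => b + 1 ≤ i.val), a i := by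
  rw [← Finset.prod_filter_mul_prod_filter_not Finset.univ (fun i : Fin n => i.val < b)]
  have h0 : ∏ i ∈ Finset.univ.filter (fun i : Fin n => i.val < b), (a i - bigM a b t i) = 1 := by
    apply Finset.prod_eq_one
    intro i hi
    have h1 := (Finset.mem_filter.mp hi).2
    have h2 := ha i
    simp only [bigM, if_pos h1]
    omega
  rw [h0, one_mul]
  by_cases hb : b < n
  · rw [filt_ge hb, Finset.prod_insert (notMem_ge hb), dif_pos hb]
    congr 1
    · simp [bigM]
    · apply Finset.prod_congr rfl
      intro i hi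
      have := (Finset.mem_filter.mp hi).2
      simp only [bigM]
      rw [if_neg (by omega), if_neg (by omega), Nat.sub_zero]
  · rw [dif_neg hb, one_mul]
    apply Finset.prod_congr _
    · intro i hi
      exact absurd i.isLt (by have := (Finset.mem_filter.mp hi).2; omega)
    · ext i
      simp only [Finset.mem_filter, Finset.mem_univ, true_and]
      have := i.isLt
      omega

variable {K : Type u} [Field K] {n : ℕ}

/-- the bound for almost complete intersections -/
theorem aci_le {a : Fin n → ℕ} (ha : ∀ i, 1 ≤ a i) (hm : Monotone a) (hA : Adm a)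
    {f : Fin n → MvPolynomial (Fin n) K} (hf : ∀ i, (f i).IsHomogeneous (a i)) (hreg : Reg f)
    {D b : ℕ} (hDn : D ≤ ∑ i, (a i - 1))
    (h1 : ∑ i ∈ Finset.univ.filter (fun i : Fin n => i.val < b), (a i - 1) ≤ D)
    (h2 : b < n → D < ∑ i ∈ Finset.univ.filter (fun i : Fin n => i.val < b + 1), (a i - 1))
    (hbn : b ≤ n) {g : MvPolynomial (Fin n) K} (hg : g.IsHomogeneous D)
    (hgI : g ∉ Ideal.span (Set.range f)) :
    finrank K (MvPolynomial (Fin n) K ⧸ (Ideal.span (Set.range f) ⊔ Ideal.span {g})) +
      (if b < n then ∑ i ∈ Finset.univ.filter (fun i : Fin n => i.val < b + 1), (a i - 1) - D + 1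
        else 1) * ∏ i ∈ Finset.univ.filter (fun i : Fin n => b + 1 ≤ i.val), a i ≤ ∏ i, a i := by
  classical
  set J := Ideal.span (Set.range f) with hJ
  set I := J ⊔ Ideal.span {g} with hIdef
  have hJh : Homog J := homog_span (by rintro _ ⟨j, rfl⟩; exact ⟨a j, hf j⟩)
  have hI : Homog I := TH130CI.homog_sup_span hJh hg
  have hfI : ∀ i, f i ∈ I := fun i => Ideal.mem_sup_left (Ideal.subset_span ⟨i, rfl⟩)
  obtain ⟨L, hL, hH⟩ := exists_fam le_rfl ha hm hA hf hreg hfI
  have hgi : g ∈ I := Ideal.mem_sup_right (Ideal.mem_span_singleton_self _)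
  -- degree `D`
  have hLD : (L D).Nonempty := by
    rw [← Finset.card_pos]
    have e1 : gr J D < gr I D := by
      refine lt_of_le_of_ne (fun x hx => mem_gr.mpr ⟨Ideal.mem_sup_left (mem_gr.mp hx).1,
        (mem_gr.mp hx).2⟩) ?_
      intro he
      apply hgI
      have : g ∈ gr I D := mem_gr.mpr ⟨hgi, hg⟩
      rw [← he] at this
      exact (mem_gr.mp this).1
    have : FiniteDimensional K (gr I D) := Submodule.finiteDimensional_of_le
      (S₂ := homogeneousSubmodule (Fin n) K D) inf_le_right
    have e2 := Submodule.finrank_lt_finrank_of_lt e1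
    rw [hH D, finrank_gr le_rfl hf hreg D] at e2
    omega
  set t := D - ∑ i ∈ Finset.univ.filter (fun i : Fin n => i.val < b), (a i - 1) with ht
  have hall : b = n → ∑ i ∈ Finset.univ.filter (fun i : Fin n => i.val < b), (a i - 1) =
      ∑ i, (a i - 1) := by
    intro hb
    congr 1
    ext i
    simp only [Finset.mem_filter, Finset.mem_univ, true_and, iff_true]
    rw [hb]
    exact i.isLt
  have hdM : dg (bigM a b t) = D := by
    rw [dg_bigM]
    by_cases hb : b < n
    · rw [if_pos hb]
      omega
    · rw [if_neg hb]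
      have := hall (by omega)
      omega
  have hsum : ∀ hb : b < n,
      ∑ i ∈ Finset.univ.filter (fun i : Fin n => i.val < b + 1), (a i - 1) =
      (a ⟨b, hb⟩ - 1) + ∑ i ∈ Finset.univ.filter (fun i : Fin n => i.val < b), (a i - 1) := by
    intro hb
    rw [filt_succ hb, Finset.sum_insert (notMem_lt hb)]
  have hcM : Cap (capOf n a) (bigM a b t) := by
    rw [cap_full]
    intro i
    have h3 := ha i
    simp only [bigM]
    split_ifs with h4 h5
    · omega
    · have hb : b < n := h5 ▸ i.isLt
      have h6 := h2 hb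
      rw [hsum hb] at h6
      have h7 : (⟨b, hb⟩ : Fin n) = i := Fin.ext h5.symm
      rw [h7] at h6
      omega
    · omega
  have hM : bigM a b t ∈ L (dg (bigM a b t)) := by
    obtain ⟨v, hv⟩ := hLD
    have h3 := (hL.ini D).cap v hv
    have h4 := (hL.ini D).deg v hv
    rw [hdM]
    exact (hL.ini D).ini v hv _ hcM hdM (bigM_max h3 (by rw [h4, hdM]))
  have hfin := finrank_quot_le hI hL hH hM
  rw [prod_bigM ha] at hfin
  refine le_trans (le_of_eq ?_) hfin
  congr 2
  by_cases hb : b < n
  · rw [if_pos hb, dif_pos hb]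
    have h3 := h2 hb
    rw [hsum hb] at h3 ⊢
    have := ha ⟨b, hb⟩
    omega
  · rw [if_neg hb, dif_neg hb]

end Run7.H941.N
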