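import Pool.Agent.Run7.h941.CB2

/-!
Subschemes of zero-dimensional complete intersections which fail to impose independent conditions.
-/

set_option autoImplicit false

namespace Run7.H941.N

open MvPolynomial Module
open H503R3.QCI (gr mem_gr NZD Reg Homog homog_span)

universe u

/-! ### combinatorics -/

/-- the lex-smallest capped monomial -/
def smM {c : ℕ} (d : Fin c → ℕ) (k e : ℕ) : Mo c :=
  fun j => if j.val < k then 0 else if j.val = k then e else d j - 1

theorem dg_smM {c : ℕ} (d : Fin c → ℕ) {k : ℕ} (hk : k < c) (e : ℕ) :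
    dg (smM d k e) = e + ∑ j ∈ Finset.univ.filter (fun j : Fin c => k + 1 ≤ j.val), (d j - 1) := by
  unfold dg smM
  rw [← Finset.sum_filter_add_sum_filter_not Finset.univ (fun i : Fin c => i.val < k)]
  have h1 : ∑ i ∈ Finset.univ.filter (fun i : Fin c => i.val < k),
      (if i.val < k then 0 else if i.val = k then e else d i - 1) = 0 := by
    apply Finset.sum_eq_zero
    intro i hi
    rw [if_pos (Finset.mem_filter.mp hi).2]
  rw [h1, zero_add, filt_ge hk, Finset.sum_insert (notMem_ge hk)]
  congr 1
  · simp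
  · apply Finset.sum_congr rfl
    intro i hi
    have := (Finset.mem_filter.mp hi).2
    rw [if_neg (by omega), if_neg (by omega)]

theorem smM_min {c : ℕ} {d : Fin c → ℕ} {k e : ℕ} {v : Mo c} (hv : ∀ j, v j < d j)
    (hd : dg v = dg (smM d k e)) : toLex (smM d k e) ≤ toLex v := by
  by_contra hcon
  rw [not_le] at hcon
  obtain ⟨i, h1, h2⟩ := lex_lt_iff.mp hcon
  by_cases hi : i.val < k
  · simp only [smM, if_pos hi] at h2
    omega
  · have h3 : dg v < dg (smM d k e) := by
      apply Finset.sum_lt_sum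
      · intro j _
        rcases lt_trichotomy j i with h | h | h
        · exact le_of_eq (h1 j h)
        · rw [h]; exact le_of_lt h2
        · have h4 : smM d k e j = d j - 1 := by
            have : i.val < j.val := h
            simp only [smM]
            rw [if_neg (by omega), if_neg (by omega)]
          rw [h4]
          have := hv j
          omega
      · exact ⟨i, Finset.mem_univ i, h2⟩
    omega

theorem prod_smM {c : ℕ} {d : Fin c → ℕ} (hd : ∀ i, 1 ≤ d i) {k : ℕ} (hk : k < c) (e : ℕ) :
    ∏ j, (smM d k e j + 1) =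
      (e + 1) * ∏ j ∈ Finset.univ.filter (fun j : Fin c => k + 1 ≤ j.val), d j := by
  rw [← Finset.prod_filter_mul_prod_filter_not Finset.univ (fun i : Fin c => i.val < k)]
  have h0 : ∏ i ∈ Finset.univ.filter (fun i : Fin c => i.val < k), (smM d k e i + 1) = 1 := by
    apply Finset.prod_eq_one
    intro i hi
    have h1 := (Finset.mem_filter.mp hi).2
    simp [smM, h1]
  rw [h0, one_mul, filt_ge hk, Finset.prod_insert (notMem_ge hk)]
  congr 1
  · simp [smM]
  · apply Finset.prod_congr rfl
    intro i hi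
    have := (Finset.mem_filter.mp hi).2
    have := hd i
    simp only [smM]
    rw [if_neg (by omega), if_neg (by omega)]
    omega

theorem toLex_lt_of_le {n : ℕ} {u v : Mo n} (h : u ≤ v) (hne : u ≠ v) : toLex u < toLex v :=
  Pi.toLex_strictMono (lt_of_le_of_ne h hne)

/-- the count -/
theorem count_ge {c : ℕ} {d : Fin c → ℕ} {L : ℕ → Finset (Mo (c + 1))}
    (hL : LFam (capOf (c + 1) d) L) {p k e : ℕ} (hk : k < c) (he : e < d ⟨k, hk⟩)
    (hd : ∀ j, 1 ≤ d j) (hq : dg (smM d k e) = p + 1)
    (hlt : (mons (capOf (c + 1) d) p).card + (L (p + 1)).card <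
      (mons (capOf (c + 1) d) (p + 1)).card + (L p).card) :
    (∏ j, (smM d k e j + 1)) + (L (p + 1)).card ≤ (mons (capOf (c + 1) d) (p + 1)).card := by
  classical
  have hcap := capOf_succ (le_refl c) d
  have hsub0 : L p ⊆ mons (capOf (c + 1) d) p := (hL.ini p).subset_mons
  have hsub : L (p + 1) ⊆ mons (capOf (c + 1) d) (p + 1) := (hL.ini (p + 1)).subset_mons
  have hc0 := Finset.card_sdiff_of_subset hsub0
  have hc1 := Finset.card_sdiff_of_subset hsub
  have hl0 := Finset.card_le_card hsub0
  have hl1 := Finset.card_le_card hsub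
  -- an element without the last variable
  obtain ⟨u, hu, hu0⟩ : ∃ u ∈ mons (capOf (c + 1) d) (p + 1) \ L (p + 1), u (Fin.last c) = 0 := by
    by_contra hcon
    push Not at hcon
    have h1 : (mons (capOf (c + 1) d) (p + 1) \ L (p + 1)).card ≤
        (mons (capOf (c + 1) d) p \ L p).card := by
      apply Finset.card_le_card_of_injOn (fun u => u - ee (Fin.last c))
      · intro u hu
        rw [Finset.mem_coe] at hu
        have hpos : 0 < u (Fin.last c) := Nat.pos_of_ne_zero (hcon u hu)
        obtain ⟨h2, h3⟩ := Finset.mem_sdiff.mp hu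
        rw [mem_mons] at h2
        rw [Finset.mem_coe, Finset.mem_sdiff, mem_mons]
        have h5 : dg (u - ee (Fin.last c)) = p := by
          have := dg_sub_ee hpos
          have := h2.2
          omega
        refine ⟨⟨h2.1.sub _, h5⟩, fun h4 => h3 ?_⟩
        apply hL.up
        rw [mem_up]
        exact ⟨h2.1, _, h4, Fin.last c, (sub_add_ee hpos).symm⟩
      · intro u hu v hv huv
        rw [Finset.mem_coe] at hu hv
        have h2 : 0 < u (Fin.last c) := Nat.pos_of_ne_zero (hcon u hu)
        have h3 : 0 < v (Fin.last c) := Nat.pos_of_ne_zero (hcon v hv)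
        rw [← sub_add_ee h2, ← sub_add_ee h3]
        exact congrArg (fun w => w + ee (Fin.last c)) huv
    omega
  obtain ⟨hu1, hu2⟩ := Finset.mem_sdiff.mp hu
  rw [mem_mons] at hu1
  have hucap : ∀ j, u (Fin.castSucc j) < d j := by
    have h1 := hu1.1
    rw [hcap, ← Fin.snoc_init_self u, cap_snoc, cap_full] at h1
    exact h1.1
  have husnoc : u = Fin.snoc (Fin.init u) 0 := by
    rw [← hu0, Fin.snoc_init_self]
  have hudg : dg (Fin.init u : Mo c) = p + 1 := by
    have := hu1.2
    rw [husnoc, dg_snoc] at this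
    simpa using this
  have hs := smM_min (d := d) (k := k) (e := e) (v := (Fin.init u : Mo c)) hucap (by omega)
  have hsd : ∀ j, smM d k e j < d j := by
    intro j
    have := hd j
    simp only [smM]
    split_ifs with h1 h2
    · omega
    · have h3 : (⟨k, hk⟩ : Fin c) = j := Fin.ext h2.symm
      rw [h3] at he
      exact he
    · omega
  have hScap : Cap (capOf (c + 1) d) (Fin.snoc (smM d k e) 0 : Mo (c + 1)) := by
    rw [hcap, cap_snoc, cap_full]
    exact ⟨hsd, by simp⟩
  have hSdg : dg (Fin.snoc (smM d k e) 0 : Mo (c + 1)) = p + 1 := by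
    rw [dg_snoc, add_zero, hq]
  have hSnot : (Fin.snoc (smM d k e) 0 : Mo (c + 1)) ∉ L (p + 1) := by
    intro hS
    apply hu2
    apply (hL.ini (p + 1)).ini _ hS u hu1.1 hu1.2
    rw [husnoc]
    rcases lt_or_eq_of_le hs with h1 | h1
    · exact (lex_snoc_lt h1).le
    · rw [toLex.injective h1]
  -- the injection
  have hcard : (Fintype.piFinset fun j => Finset.range (smM d k e j + 1)).card ≤
      (mons (capOf (c + 1) d) (p + 1) \ L (p + 1)).card := by
    apply Finset.card_le_card_of_injOn
      (fun w => (Fin.snoc w (p + 1 - dg w) : Mo (c + 1)))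
    · intro w hw
      rw [Finset.mem_coe, Fintype.mem_piFinset] at hw
      have hw1 : w ≤ smM d k e := fun j => Nat.lt_succ_iff.mp (Finset.mem_range.mp (hw j))
      have hdw : dg w ≤ p + 1 := by
        rw [← hq]
        exact Finset.sum_le_sum fun j _ => hw1 j
      have h2 : Cap (capOf (c + 1) d) (Fin.snoc w (p + 1 - dg w) : Mo (c + 1)) := by
        rw [hcap, cap_snoc, cap_full]
        exact ⟨fun j => lt_of_le_of_lt (hw1 j) (hsd j), ENat.natCast_lt_top _⟩
      have h3 : dg (Fin.snoc w (p + 1 - dg w) : Mo (c + 1)) = p + 1 := by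
        rw [dg_snoc]
        omega
      rw [Finset.mem_coe, Finset.mem_sdiff, mem_mons]
      refine ⟨⟨h2, h3⟩, fun h4 => hSnot ?_⟩
      apply (hL.ini (p + 1)).ini _ h4 _ hScap hSdg
      by_cases hne : w = smM d k e
      · subst hne
        have h5 : p + 1 - dg (smM d k e) = 0 := by omega
        change toLex (Fin.snoc (smM d k e) (p + 1 - dg (smM d k e)) : Mo (c + 1)) ≤ _
        rw [h5]
      · exact (lex_snoc_lt (toLex_lt_of_le hw1 hne)).le
    · intro w _ w' _ hww
      have h1 := congrArg (fun z : Mo (c + 1) => (Fin.init z : Mo c)) hww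
      simpa using h1
  rw [Fintype.card_piFinset] at hcard
  simp only [Finset.card_range] at hcard
  omega

/-! ### saturated ideals -/

variable {K : Type u} [Field K] {n : ℕ}

theorem full_succ {I : Ideal (MvPolynomial (Fin n) K)} {p : ℕ}
    (h : ∀ g : MvPolynomial (Fin n) K, g.IsHomogeneous p → g ∈ I) {g : MvPolynomial (Fin n) K}
    (hg : g.IsHomogeneous (p + 1)) : g ∈ I := by
  rw [g.as_sum]
  refine Ideal.sum_mem _ fun m hm => ?_
  have hdeg : m.degree = p + 1 := by
    by_contra hne
    exact (mem_support_iff.1 hm) (hg.coeff_eq_zero hne)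
  obtain ⟨i, hi⟩ : ∃ i, m i ≠ 0 := by
    by_contra hcon
    push Not at hcon
    have : m = 0 := by ext i; exact hcon i
    rw [this, map_zero] at hdeg
    omega
  have h1 : m = (m - Finsupp.single i 1) + Finsupp.single i 1 := by
    ext j
    rw [Finsupp.add_apply, Finsupp.tsub_apply]
    by_cases hj : i = j
    · subst hj
      rw [Finsupp.single_eq_same]
      omega
    · rw [Finsupp.single_eq_of_ne (Ne.symm hj)]
      omega
  have h2 : (m - Finsupp.single i 1).degree = p := by
    have h3 := congrArg Finsupp.degree h1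
    rw [map_add, Finsupp.degree_single, hdeg] at h3
    omega
  have h3 : monomial m (coeff m g) =
      X i * monomial (m - Finsupp.single i 1) (coeff m g) := by
    rw [X, monomial_mul, one_mul, add_comm, ← h1]
  rw [h3]
  exact I.mul_mem_left _ (h _ (isHomogeneous_monomial _ h2))

/-- the Hilbert function of a saturated ideal, infinite fields -/
theorem AA_sat_inf [Infinite K] {J : Ideal (MvPolynomial (Fin n) K)} (hJ : Homog J)
    (hsat : ∀ f : MvPolynomial (Fin n) K, (∀ i, X i * f ∈ J) → f ∈ J) :
    (∀ k, finrank K (TH130CI.AA J k) ≤ finrank K (TH130CI.AA J (k + 1))) ∧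
    ∀ p, finrank K (TH130CI.AA J (p + 1)) = finrank K (TH130CI.AA J p) →
      ∀ j, finrank K (TH130CI.AA J (p + j)) = finrank K (TH130CI.AA J p) := by
  obtain ⟨q, hq, _⟩ := TH130CI.exists_lin_nzd_avoid (J := J) hsat ∅ (by simp)
  set ℓ := TH130CI.linL K n q with hℓ
  have hℓ1 : ℓ.IsHomogeneous 1 := TH130CI.linL_homog q
  have hs := TH130CI.AA_succ hJ hℓ1 hq
  refine ⟨fun k => by have := hs k; omega, ?_⟩
  intro p hp
  have h0 : ∀ j, ∀ g : MvPolynomial (Fin n) K, g.IsHomogeneous (p + 1 + j) →
      g ∈ J ⊔ Ideal.span {ℓ} := by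
    intro j
    induction j with
    | zero =>
      intro g hg
      refine TH130CI.mem_of_finrank_AA ?_ hg
      have := hs p
      rw [add_zero]
      omega
    | succ j ih =>
      intro g hg
      exact full_succ ih hg
  intro j
  induction j with
  | zero => rfl
  | succ j ih =>
    have h1 := hs (p + j)
    have h2 : finrank K (TH130CI.AA (J ⊔ Ideal.span {ℓ}) (p + j + 1)) = 0 := by
      have h3 := TH130CI.finrank_AA (I := J ⊔ Ideal.span {ℓ}) (p + j + 1)
      have h4 : gr (J ⊔ Ideal.span {ℓ}) (p + j + 1) = homogeneousSubmodule (Fin n) K (p + j + 1) := by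
        apply le_antisymm inf_le_right
        intro g hg
        refine mem_gr.mpr ⟨?_, hg⟩
        apply h0 j
        have h5 : g.IsHomogeneous (p + j + 1) := hg
        rwa [show p + 1 + j = p + j + 1 by omega]
      rw [h4] at h3
      omega
    rw [← add_assoc]
    omega

/-- the Hilbert function of a saturated ideal -/
theorem AA_sat {J : Ideal (MvPolynomial (Fin n) K)} (hJ : Homog J)
    (hsat : ∀ f : MvPolynomial (Fin n) K, (∀ i, X i * f ∈ J) → f ∈ J) :
    (∀ k, finrank K (TH130CI.AA J k) ≤ finrank K (TH130CI.AA J (k + 1))) ∧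
    ∀ p, finrank K (TH130CI.AA J (p + 1)) = finrank K (TH130CI.AA J p) →
      ∀ j, finrank K (TH130CI.AA J (p + j)) = finrank K (TH130CI.AA J p) := by
  let F := AlgebraicClosure K
  have : Infinite F := IsAlgClosed.instInfinite
  set J' := J.map (map (algebraMap K F) : MvPolynomial (Fin n) K →+* MvPolynomial (Fin n) F)
    with hJ'
  have hgr : ∀ q, gr J' q = bc F (gr J q) := by
    intro q
    apply le_antisymm
    · intro p hp
      obtain ⟨h1, h2⟩ := mem_gr.mp hp
      apply mem_bc_of_cf
      intro ψ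
      exact mem_gr.mpr ⟨TH130CI.cf_mem h1 ψ, cf_hom ψ h2⟩
    · unfold bc
      rw [Submodule.span_le]
      rintro _ ⟨v, hv, rfl⟩
      obtain ⟨h1, h2⟩ := mem_gr.mp hv
      exact mem_gr.mpr ⟨Ideal.mem_map_of_mem _ h1, h2.map _⟩
  have hAA : ∀ k, finrank F (TH130CI.AA J' k) = finrank K (TH130CI.AA J k) := by
    intro k
    have h1 := TH130CI.finrank_AA (I := J') k
    have h2 := TH130CI.finrank_AA (I := J) k
    have fV : FiniteDimensional K (gr J k) := Submodule.finiteDimensional_of_le
      (S₂ := homogeneousSubmodule (Fin n) K k) inf_le_right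
    rw [hgr, finrank_bc, finrank_hom'] at h1
    rw [finrank_hom'] at h2
    omega
  have hJh : Homog J' := by
    intro f hf m
    apply TH130CI.mem_of_cf
    intro ρ
    have h1 := hJ _ (TH130CI.cf_mem hf ρ) m
    have h2 : TH130CI.cf ρ (homogeneousComponent m f) =
        homogeneousComponent m (TH130CI.cf ρ f) := by
      ext x
      rw [TH130CI.coeff_cf, coeff_homogeneousComponent, coeff_homogeneousComponent]
      split_ifs
      · rw [TH130CI.coeff_cf]
      · rw [map_zero]
    rw [h2]
    exact h1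
  have h := AA_sat_inf hJh (by
    intro f hf
    apply TH130CI.mem_of_cf
    intro ρ
    apply hsat
    intro i
    have h1 := TH130CI.cf_mem (hf i) ρ
    rw [← MvPolynomial.map_X (algebraMap K F) i, TH130CI.cf_mul] at h1
    exact h1)
  simp only [hAA] at h
  exact h

/-- the degree bound -/
theorem deg_ge {c : ℕ} {d : Fin c → ℕ} (hd : ∀ i, 1 ≤ d i) (hm : Monotone d) (hA : Adm d)
    {f : Fin c → MvPolynomial (Fin (c + 1)) K} (hf : ∀ i, (f i).IsHomogeneous (d i))
    (hreg : Reg f) {J : Ideal (MvPolynomial (Fin (c + 1)) K)} (hJ : Homog J)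
    (hsat : ∀ f : MvPolynomial (Fin (c + 1)) K, (∀ i, X i * f ∈ J) → f ∈ J) (hfJ : ∀ i, f i ∈ J)
    {D N : ℕ} (hD : ∀ j ≥ N, finrank K (TH130CI.AA J j) = D) {p k : ℕ} (hk : k < c)
    (h1 : ∑ j ∈ Finset.univ.filter (fun j : Fin c => k + 1 ≤ j.val), (d j - 1) ≤ p + 1)
    (h2 : p + 1 < ∑ j ∈ Finset.univ.filter (fun j : Fin c => k ≤ j.val), (d j - 1))
    (hp : finrank K (TH130CI.AA J p) < D) :
    (p + 1 - ∑ j ∈ Finset.univ.filter (fun j : Fin c => k + 1 ≤ j.val), (d j - 1) + 1) *
      ∏ j ∈ Finset.univ.filter (fun j : Fin c => k + 1 ≤ j.val), d j ≤ D := by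
  obtain ⟨L, hL, hH⟩ := exists_fam (n := c + 1) (by omega : c ≤ c + 1) hd hm hA hf hreg hfJ
  obtain ⟨hmono, hst⟩ := AA_sat hJ hsat
  set e := p + 1 - ∑ j ∈ Finset.univ.filter (fun j : Fin c => k + 1 ≤ j.val), (d j - 1) with he
  have h3 : (Finset.univ.filter fun j : Fin c => k ≤ j.val) =
      insert ⟨k, hk⟩ (Finset.univ.filter fun j : Fin c => k + 1 ≤ j.val) := by
    rw [← filt_ge hk]
    ext j
    simp
  rw [h3, Finset.sum_insert (notMem_ge hk)] at h2
  have he' : e < d ⟨k, hk⟩ := by omega
  have hq : dg (smM d k e) = p + 1 := by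
    rw [dg_smM d hk]
    omega
  have hlt : finrank K (TH130CI.AA J p) < finrank K (TH130CI.AA J (p + 1)) := by
    rcases lt_or_eq_of_le (hmono p) with h | h
    · exact h
    · exfalso
      have h4 := hst p h.symm N
      rw [hD (p + N) (by omega)] at h4
      omega
  have e0 := AA_card hH p
  have e1 := AA_card hH (p + 1)
  have h5 := count_ge hL hk he' hd hq (by omega)
  rw [prod_smM hd hk] at h5
  have h6 : finrank K (TH130CI.AA J (p + 1)) ≤ D := by
    have h7 : ∀ j, finrank K (TH130CI.AA J (p + 1)) ≤ finrank K (TH130CI.AA J (p + 1 + j)) := by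
      intro j
      induction j with
      | zero => exact le_rfl
      | succ j ih => exact ih.trans (hmono _)
    have h8 := h7 N
    rwa [hD (p + 1 + N) (by omega)] at h8
  omega

end Run7.H941.N
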