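import Pool.Agent.Run7.h941.Good

/-!
The lex-plus-powers conjecture in three variables.
-/

set_option autoImplicit false

open MvPolynomial Module

namespace Run7.H941

variable {k : Type*} [Field k]

theorem PP_fam (r a b c : ℕ) : PFam (PP r a b c) where
  sub m := Finset.filter_subset _ _
  z := by
    intro m p hp
    rw [mem_PP, mem_T] at hp ⊢
    omega
  x := by
    intro m p hp
    rw [mem_PP, mem_T] at hp ⊢
    simp only
    omega
  y := by
    intro m p hp
    rw [mem_PP, mem_T] at hp ⊢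
    simp only
    omega

theorem PP_reduce (r a b c m : ℕ) (hr : r ≤ 3) (hab : 2 ≤ r → a ≤ b) (hbc : 3 ≤ r → b ≤ c) :
    ∃ r' ≤ r, PP r a b c m = PP r' a b c m ∧ (1 ≤ r' → a ≤ m) ∧ (2 ≤ r' → b ≤ m) ∧
      (3 ≤ r' → c ≤ m) := by
  by_cases h3 : 3 ≤ r ∧ c ≤ m
  · refine ⟨3, h3.1, ?_, by omega, by omega, by omega⟩
    have : r = 3 := by omega
    rw [this]
  · by_cases h2 : 2 ≤ r ∧ b ≤ m
    · refine ⟨2, h2.1, ?_, by omega, by omega, by omega⟩
      ext p
      rw [mem_PP, mem_PP, mem_T]
      omega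
    · by_cases h1 : 1 ≤ r ∧ a ≤ m
      · refine ⟨1, h1.1, ?_, by omega, by omega, by omega⟩
        ext p
        rw [mem_PP, mem_PP, mem_T]
        omega
      · refine ⟨0, by omega, ?_, by omega, by omega, by omega⟩
        ext p
        rw [mem_PP, mem_PP, mem_T]
        omega

/-- growth data of an ideal containing a regular sequence -/
theorem growthData_of_good {r a b c : ℕ} (hr : r ≤ 3) (hab : 2 ≤ r → a ≤ b)
    (hbc : 3 ≤ r → b ≤ c) (J : ℕ → Ideal (P3 k)) (I : Ideal (P3 k))
    (hJ : ∀ r' ≤ r, Good (J r') r' a b c) (hJI : ∀ r' ≤ r, J r' ≤ I) :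
    GrowthData I (PP r a b c) where
  fam := PP_fam r a b c
  hc m := ((hJ r le_rfl).dim m).trans (Submodule.finrank_mono (idg_mono (hJI r le_rfl) m))
  hb m t ht htP h := by
    have hle : idg (J r) (m + 1) ≤ idg I (m + 1) := idg_mono (hJI r le_rfl) _
    have hp : PairAt (J r) m (dn (idg I (m + 1))) (idg I (m + 1)) := by
      refine ⟨?_, idg_le_Sd _ _, up_le_iff_le_dn.mpr le_rfl, ?_, hle⟩
      · intro p hp
        have h1 := (mem_dn.mp hp).1
        have h2 : (p * X 0 : P3 k).IsHomogeneous (m + 1) := by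
          rw [mul_comm]; exact h1.2
        have h3 := isHomogeneous_of_mul (isHomogeneous_X k (0 : Fin 3)) (X_ne_zero _) h2
        unfold Sdm at h3
        rw [if_pos (by omega)] at h3
        exact h3
      · exact up_le_iff_le_dn.mp ((up_idg_le _ m).trans hle)
    exact (hJ r le_rfl).growth m _ _ hp t ht htP h
  ha m := by
    obtain ⟨r', hr', heq, g1, g2, g3⟩ := PP_reduce r a b c m hr hab hbc
    have hG := hJ r' hr'
    have hJI' := hJI r' hr'
    have hgen := hG.gen m g1 g2 g3
    have hup : idg (J r') (m + 1) ≤ up (idg I m) := hgen.trans (up_mono (idg_mono hJI' m))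
    refine ⟨PP r' a b c (m + 1), Finset.filter_subset _ _, ?_, ?_, ?_⟩
    · intro p hp
      rw [heq] at hp
      exact ⟨(PP_fam r' a b c).z hp, (PP_fam r' a b c).x hp, (PP_fam r' a b c).y hp⟩
    · exact (hG.dim (m + 1)).trans (Submodule.finrank_mono hup)
    · intro t ht htP h
      rw [heq] at htP h
      have hp : PairAt (J r') m (idg I m) (up (idg I m)) :=
        ⟨idg_le_Sd _ _, up_le_Sd (idg_le_Sd _ _), le_rfl, idg_mono hJI' m, hup⟩
      exact hG.growth m _ _ hp t ht htP h

/-- regularity in elementary terms -/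
theorem regular_elem {rs : List (P3 k)}
    (h : RingTheory.Sequence.IsRegular (P3 k) rs) (i : ℕ) (hi : i < rs.length) (p : P3 k)
    (hp : rs[i] * p ∈ Ideal.ofList (rs.take i)) : p ∈ Ideal.ofList (rs.take i) := by
  have h1 := h.toIsWeaklyRegular.regular_mod_prev i hi
  have h2 : ∀ q : P3 k, q ∈ Ideal.ofList (rs.take i) ↔
      (Submodule.Quotient.mk q : P3 k ⧸ (Ideal.ofList (rs.take i) • ⊤ : Submodule (P3 k) (P3 k))) =
        0 := by
    intro q
    rw [Submodule.Quotient.mk_eq_zero, Ideal.smul_eq_mul, Ideal.mul_top]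
  rw [h2] at hp ⊢
  apply h1
  simp only [smul_zero]
  rw [← Submodule.Quotient.mk_smul, smul_eq_mul]
  exact hp

theorem ofList_one (f : P3 k) : Ideal.ofList [f] = Ideal.span {f} := by
  unfold Ideal.ofList
  congr 1
  ext x
  simp

theorem ofList_two (f g : P3 k) : Ideal.ofList [f, g] = Ideal.span {f, g} := by
  unfold Ideal.ofList
  congr 1
  ext x
  simp

theorem ofList_nil : Ideal.ofList ([] : List (P3 k)) = ⊥ := by
  unfold Ideal.ofList
  simp

theorem regPair_of {f g : P3 k} {a b : ℕ} (hf : f.IsHomogeneous a) (hg : g.IsHomogeneous b)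
    (ha : 1 ≤ a) (hab : a ≤ b) (h1 : ∀ p, f * p ∈ (⊥ : Ideal (P3 k)) → p ∈ (⊥ : Ideal (P3 k)))
    (h2 : ∀ p, g * p ∈ Ideal.span {f} → p ∈ Ideal.span {f}) : RegPair f g a b := by
  have hf0 : f ≠ 0 := by
    rintro rfl
    have := h1 1 (by rw [zero_mul]; exact Ideal.zero_mem _)
    exact one_ne_zero this
  refine ⟨hf, hg, hf0, ?_, h2, ha, hab⟩
  rintro rfl
  have h3 := h2 1 (by rw [zero_mul]; exact Ideal.zero_mem _)
  obtain ⟨q, hq⟩ := Ideal.mem_span_singleton'.mp h3
  have h4 : (q * f).IsHomogeneous 0 := by rw [hq]; exact isHomogeneous_one _ _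
  have h5 := isHomogeneous_of_mul hf hf0 h4
  unfold Sdm at h5
  rw [if_neg (by omega), Submodule.mem_bot] at h5
  rw [h5, zero_mul] at hq
  exact zero_ne_one hq

theorem Pm_eq_zero (hc : 0 ≤ 3) (d : Fin 0 → ℕ) : Pm 0 hc d = PP 0 0 0 0 := by
  funext m
  ext p
  rw [mem_Pm, mem_PP]
  unfold isP
  constructor
  · rintro ⟨_, t, _⟩
    exact t.elim0
  · rintro ⟨_, h⟩
    omega

theorem enc_coords (m : ℕ) (p : ℕ × ℕ) :
    enc m p 0 = p.1 ∧ enc m p 1 = p.2 ∧ enc m p 2 = m - p.1 - p.2 := by
  unfold enc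
  exact ⟨ex_zero _ _ _, ex_one _ _ _, ex_two _ _ _⟩

theorem Pm_eq_one (hc : 1 ≤ 3) (d : Fin 1 → ℕ) : Pm 1 hc d = PP 1 (d 0) 0 0 := by
  funext m
  ext p
  rw [mem_Pm, mem_PP]
  obtain ⟨h0, h1, h2⟩ := enc_coords m p
  have e0 : Fin.castLE hc 0 = 0 := rfl
  have : isP 1 hc d (enc m p) ↔ d 0 ≤ p.1 := by
    unfold isP
    constructor
    · rintro ⟨t, ht⟩
      have : t = 0 := Subsingleton.elim _ _
      subst this
      rw [e0, h0] at ht
      exact ht
    · intro ht
      refine ⟨0, ?_⟩
      rw [e0, h0]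
      exact ht
  rw [this]
  constructor
  · rintro ⟨h3, h4⟩
    exact ⟨h3, Or.inl ⟨le_rfl, h4⟩⟩
  · rintro ⟨h3, h4⟩
    exact ⟨h3, by omega⟩

theorem Pm_eq_two (hc : 2 ≤ 3) (d : Fin 2 → ℕ) : Pm 2 hc d = PP 2 (d 0) (d 1) 0 := by
  funext m
  ext p
  rw [mem_Pm, mem_PP]
  obtain ⟨h0, h1, h2⟩ := enc_coords m p
  have e0 : Fin.castLE hc 0 = 0 := rfl
  have e1 : Fin.castLE hc 1 = 1 := rfl
  have : isP 2 hc d (enc m p) ↔ d 0 ≤ p.1 ∨ d 1 ≤ p.2 := by
    unfold isP
    rw [Fin.exists_fin_two, e0, e1, h0, h1]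
  rw [this]
  constructor
  · rintro ⟨h3, h4⟩
    exact ⟨h3, by omega⟩
  · rintro ⟨h3, h4⟩
    exact ⟨h3, by omega⟩

theorem Pm_eq_three (hc : 3 ≤ 3) (d : Fin 3 → ℕ) : Pm 3 hc d = PP 3 (d 0) (d 1) (d 2) := by
  funext m
  ext p
  rw [mem_Pm, mem_PP]
  obtain ⟨h0, h1, h2⟩ := enc_coords m p
  have e0 : Fin.castLE hc 0 = 0 := rfl
  have e1 : Fin.castLE hc 1 = 1 := rfl
  have e2 : Fin.castLE hc 2 = 2 := rfl
  have : isP 3 hc d (enc m p) ↔ d 0 ≤ p.1 ∨ d 1 ≤ p.2 ∨ d 2 ≤ m - p.1 - p.2 := by
    unfold isP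
    constructor
    · rintro ⟨t, ht⟩
      fin_cases t
      · left; rw [← h0]; exact ht
      · right; left; rw [← h1]; exact ht
      · right; right; rw [← h2]; exact ht
    · rintro (h | h | h)
      · exact ⟨0, by rw [e0, h0]; exact h⟩
      · exact ⟨1, by rw [e1, h1]; exact h⟩
      · exact ⟨2, by rw [e2, h2]; exact h⟩
  rw [this]
  constructor
  · rintro ⟨h3, h4⟩
    exact ⟨h3, by omega⟩
  · rintro ⟨h3, h4⟩
    exact ⟨h3, by omega⟩

/-- Growth data for an ideal containing a homogeneous regular sequence. -/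
theorem exists_growthData (c : ℕ) (hc : c ≤ 3) (d : Fin c → ℕ) (hd1 : ∀ t, 1 ≤ d t)
    (hdm : Monotone d) (I : Ideal (P3 k))
    (hex : ∃ f : Fin c → P3 k, (∀ t, f t ∈ I) ∧ (∀ t, (f t).IsHomogeneous (d t)) ∧
      RingTheory.Sequence.IsRegular (P3 k) (List.ofFn f)) : GrowthData I (Pm c hc d) := by
  obtain ⟨f, hfI, hfd, hreg⟩ := hex
  have hcases : c = 0 ∨ c = 1 ∨ c = 2 ∨ c = 3 := by omega
  rcases hcases with rfl | rfl | rfl | rfl
  · rw [Pm_eq_zero]
    apply growthData_of_good (by omega) (by omega) (by omega) (fun _ => ⊥)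
    · intro r' hr'
      have : r' = 0 := by omega
      subst this
      exact good_zero 0 0 0
    · intro r' _
      exact bot_le
  · rw [Pm_eq_one]
    have hl : List.ofFn f = [f 0] := by simp
    rw [hl] at hreg
    have r0 := regular_elem hreg 0 (by simp)
    have hf0 : f 0 ≠ 0 := by
      intro h0
      have := r0 1 (by simp [h0])
      simp only [List.take_zero, ofList_nil] at this
      exact one_ne_zero this
    apply growthData_of_good (by omega) (by omega) (by omega)
      (fun r => if r = 0 then ⊥ else Ideal.span {f 0})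
    · intro r' hr'
      have : r' = 0 ∨ r' = 1 := by omega
      rcases this with rfl | rfl
      · exact good_zero _ _ _
      · exact good_one (hfd 0) hf0 _ _
    · intro r' hr'
      have : r' = 0 ∨ r' = 1 := by omega
      rcases this with rfl | rfl
      · exact bot_le
      · change Ideal.span {f 0} ≤ I
        rw [Ideal.span_singleton_le_iff_mem]
        exact hfI 0
  · rw [Pm_eq_two]
    have hl : List.ofFn f = [f 0, f 1] := by simp [List.ofFn_succ]
    rw [hl] at hreg
    have r0 := regular_elem hreg 0 (by simp)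
    have r1 := regular_elem hreg 1 (by simp)
    simp only [List.take_zero, ofList_nil, List.getElem_cons_zero] at r0
    simp only [List.take_succ_cons, List.take_zero, List.getElem_cons_succ,
      List.getElem_cons_zero, ofList_one] at r1
    have R : RegPair (f 0) (f 1) (d 0) (d 1) :=
      regPair_of (hfd 0) (hfd 1) (hd1 0) (hdm (by decide)) r0 r1
    apply growthData_of_good (by omega) (fun _ => R.hab) (by omega)
      (fun r => if r = 0 then ⊥ else if r = 1 then Ideal.span {f 0} else Ideal.span {f 0, f 1})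
    · intro r' hr'
      have : r' = 0 ∨ r' = 1 ∨ r' = 2 := by omega
      rcases this with rfl | rfl | rfl
      · exact good_zero _ _ _
      · exact good_one (hfd 0) R.hf0 _ _
      · exact good_two R _
    · intro r' hr'
      have : r' = 0 ∨ r' = 1 ∨ r' = 2 := by omega
      rcases this with rfl | rfl | rfl
      · exact bot_le
      · change Ideal.span {f 0} ≤ I
        rw [Ideal.span_singleton_le_iff_mem]
        exact hfI 0
      · change Ideal.span {f 0, f 1} ≤ I
        rw [Ideal.span_le]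
        rintro x (rfl | rfl)
        · exact hfI 0
        · exact hfI 1
  · rw [Pm_eq_three]
    have hl : List.ofFn f = [f 0, f 1, f 2] := by simp [List.ofFn_succ]
    rw [hl] at hreg
    have r0 := regular_elem hreg 0 (by simp)
    have r1 := regular_elem hreg 1 (by simp)
    have r2 := regular_elem hreg 2 (by simp)
    simp only [List.take_zero, ofList_nil, List.getElem_cons_zero] at r0
    simp only [List.take_succ_cons, List.take_zero, List.getElem_cons_succ,
      List.getElem_cons_zero, ofList_one] at r1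
    simp only [List.take_succ_cons, List.take_zero, List.getElem_cons_succ,
      List.getElem_cons_zero, ofList_two] at r2
    have R : RegPair (f 0) (f 1) (d 0) (d 1) :=
      regPair_of (hfd 0) (hfd 1) (hd1 0) (hdm (by decide)) r0 r1
    have R3 : RegTriple (f 0) (f 1) (f 2) (d 0) (d 1) (d 2) :=
      ⟨R, hfd 2, hdm (by decide), r2⟩
    apply growthData_of_good (by omega) (fun _ => R.hab) (fun _ => R3.hbc)
      (fun r => if r = 0 then ⊥ else if r = 1 then Ideal.span {f 0} else
        if r = 2 then Ideal.span {f 0, f 1} else Ideal.span {f 0, f 1, f 2})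
    · intro r' hr'
      have : r' = 0 ∨ r' = 1 ∨ r' = 2 ∨ r' = 3 := by omega
      rcases this with rfl | rfl | rfl | rfl
      · exact good_zero _ _ _
      · exact good_one (hfd 0) R.hf0 _ _
      · exact good_two R _
      · exact good_three R3
    · intro r' hr'
      have : r' = 0 ∨ r' = 1 ∨ r' = 2 ∨ r' = 3 := by omega
      rcases this with rfl | rfl | rfl | rfl
      · exact bot_le
      · change Ideal.span {f 0} ≤ I
        rw [Ideal.span_singleton_le_iff_mem]
        exact hfI 0
      · change Ideal.span {f 0, f 1} ≤ I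
        rw [Ideal.span_le]
        rintro x (rfl | rfl)
        · exact hfI 0
        · exact hfI 1
      · change Ideal.span {f 0, f 1, f 2} ≤ I
        rw [Ideal.span_le]
        rintro x (rfl | rfl | rfl)
        · exact hfI 0
        · exact hfI 1
        · exact hfI 2

/-- The lex-plus-powers theorem in three variables. -/
theorem lpp_three (k : Type*) [Field k]
    (D : (Finset (Fin 3) → MvPolynomial (Fin 3) k) →ₗ[k]
      (Finset (Fin 3) → MvPolynomial (Fin 3) k))
    (hD : D = LinearMap.pi (fun B : Finset (Fin 3) => ∑ a ∈ Finset.univ \ B,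
        (LinearMap.mulLeft k ((-1 : MvPolynomial (Fin 3) k) ^ (B.filter (fun b => b < a)).card
            * MvPolynomial.X a)) ∘ₗ
        (LinearMap.proj (R := k) (φ := fun _ : Finset (Fin 3) => MvPolynomial (Fin 3) k)
          (insert a B))))
    (C : Ideal (MvPolynomial (Fin 3) k) → ℕ → ℕ →
      Submodule k (Finset (Fin 3) → MvPolynomial (Fin 3) k))
    (hC : ∀ J i j, C J i j = ⨅ A : Finset (Fin 3),
        Submodule.comap (LinearMap.proj (R := k)
          (φ := fun _ : Finset (Fin 3) => MvPolynomial (Fin 3) k) A)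
          (if A.card = i ∧ i ≤ j then
            Submodule.restrictScalars k J ⊓ MvPolynomial.homogeneousSubmodule (Fin 3) k (j - i)
          else ⊥))
    (β : Ideal (MvPolynomial (Fin 3) k) → ℕ → ℕ → ℕ)
    (hβ : ∀ J i j, β J i j = Module.finrank k ↥(LinearMap.ker D ⊓ C J i j)
        - Module.finrank k ↥(Submodule.map D (C J (i + 1) j)))
    (c : ℕ) (hc : c ≤ 3) (d : Fin c → ℕ) (hd1 : ∀ t, 1 ≤ d t) (hdm : Monotone d)
    (I : Ideal (MvPolynomial (Fin 3) k))
    (hex : ∃ f : Fin c → MvPolynomial (Fin 3) k, (∀ t, f t ∈ I) ∧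
      (∀ t, (f t).IsHomogeneous (d t)) ∧
          RingTheory.Sequence.IsRegular (MvPolynomial (Fin 3) k) (List.ofFn f)) :
      ∃ L : Ideal (MvPolynomial (Fin 3) k),
        (∃ M : Set (Fin 3 →₀ ℕ), L = Ideal.span ((fun s => MvPolynomial.monomial s (1 : k)) '' M)) ∧
        (∀ u v : Fin 3 →₀ ℕ, ∑ t, u t = ∑ t, v t →
            (∃ t, (∀ s, s < t → v s = u s) ∧ v t < u t) →
            MvPolynomial.monomial v (1 : k) ∈ L → MvPolynomial.monomial u (1 : k) ∈ L) ∧
        (∀ e : ℕ, Module.finrank k ↥(Submodule.restrictScalars k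
              (L + Ideal.span (Set.range fun t : Fin c => MvPolynomial.X (Fin.castLE hc t) ^ d t))
              ⊓ MvPolynomial.homogeneousSubmodule (Fin 3) k e)
            = Module.finrank k ↥(Submodule.restrictScalars k I
              ⊓ MvPolynomial.homogeneousSubmodule (Fin 3) k e)) ∧
        ∀ i j, β I i j ≤ β (L + Ideal.span (Set.range fun t : Fin c =>
            MvPolynomial.X (Fin.castLE hc t) ^ d t)) i j := by
  have G := exists_growthData c hc d hd1 hdm I hex
  obtain ⟨h1, h2, h3⟩ := lpp_of_growth G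
  have hDD : D = DD k := hD
  have hCC : ∀ J i j, C J i j = CC J i j := hC
  have hbet : ∀ J i j, β J i j = bet J i j := by
    intro J i j
    rw [hβ, hCC, hCC, hDD]
    rfl
  refine ⟨LL I (Pm c hc d), ⟨_, rfl⟩, h1, h2, ?_⟩
  intro i j
  rw [hbet, hbet]
  exact h3 i j

end Run7.H941
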