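import Pool.Agent.Run7.h941.CB3
import Pool.Agent.Run7.h941.Final

/-!
The ideal `LPP_a(I)`, its generators and its socle.
-/

set_option autoImplicit false

namespace Run7.H941.N

open MvPolynomial Module
open H503R3.QCI (gr mem_gr NZD Reg Homog homog_span)

universe u

/-- a lex-segment of monomials of degree `e` (possibly empty) -/
def LexSeg (n e : ℕ) (T : Set (Fin n →₀ ℕ)) : Prop :=
  (∀ v ∈ T, v.degree = e) ∧ ∀ v ∈ T, ∀ u : Fin n →₀ ℕ, u.degree = e →
    (∃ t, (∀ s, s < t → v s = u s) ∧ v t < u t) → u ∈ T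

/-- `P` is the ideal `LPP_a(I)`: it is homogeneous, its degree `e` piece is `L_e + 𝔞_e` with `L_e`
a lex-segment and `𝔞 = (x_1^{a_1}, …, x_r^{a_r})`, and it has the Hilbert function of `I`. -/
structure IsLPP {K : Type*} [Field K] {n r : ℕ} (hr : r ≤ n) (a : Fin r → ℕ)
    (I P : Ideal (MvPolynomial (Fin n) K)) : Prop where
  homog : ∀ p ∈ P, ∀ e, homogeneousComponent e p ∈ P
  piece : ∀ e, ∃ T, LexSeg n e T ∧
    Submodule.restrictScalars K P ⊓ homogeneousSubmodule (Fin n) K e =
      Submodule.span K ((fun s => monomial s (1 : K)) '' T) ⊔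
      Submodule.restrictScalars K (Ideal.span (Set.range fun t : Fin r =>
        (X (Fin.castLE hr t) : MvPolynomial (Fin n) K) ^ a t)) ⊓ homogeneousSubmodule (Fin n) K e
  hilb : ∀ e, finrank K ↥(Submodule.restrictScalars K P ⊓ homogeneousSubmodule (Fin n) K e) =
    finrank K ↥(Submodule.restrictScalars K I ⊓ homogeneousSubmodule (Fin n) K e)

variable {K : Type u} [Field K] {n : ℕ}

theorem LexSeg.subset_or {e : ℕ} {T T' : Set (Fin n →₀ ℕ)} (h : LexSeg n e T)
    (h' : LexSeg n e T') : T ⊆ T' ∨ T' ⊆ T := by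
  by_contra hcon
  push Not at hcon
  obtain ⟨h1, h2⟩ := hcon
  obtain ⟨u, hu, hu'⟩ := Set.not_subset.mp h1
  obtain ⟨v, hv, hv'⟩ := Set.not_subset.mp h2
  rcases lt_trichotomy (toLex (⇑u : Mo n)) (toLex (⇑v : Mo n)) with hlt | heq | hlt
  · exact hv' (h.2 u hu v (h'.1 v hv) (lex_lt_iff.mp hlt))
  · have h3 : u = v := DFunLike.coe_injective (toLex.injective heq)
    rw [h3] at hu'
    exact hu' hv
  · exact hu' (h'.2 v hv u (h.1 u hu) (lex_lt_iff.mp hlt))

theorem IsLPP.gr_eq {r : ℕ} {hr : r ≤ n} {a : Fin r → ℕ} {I P P' : Ideal (MvPolynomial (Fin n) K)}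
    (h : IsLPP hr a I P) (h' : IsLPP hr a I P') (e : ℕ) : gr P e = gr P' e := by
  obtain ⟨T, hT, hP⟩ := h.piece e
  obtain ⟨T', hT', hP'⟩ := h'.piece e
  have hfin : finrank K (gr P e) = finrank K (gr P' e) := (h.hilb e).trans (h'.hilb e).symm
  have e1 : gr P e = Submodule.span K ((fun s => monomial s (1 : K)) '' T) ⊔
      Submodule.restrictScalars K (Ideal.span (Set.range fun t : Fin r =>
        (X (Fin.castLE hr t) : MvPolynomial (Fin n) K) ^ a t)) ⊓ homogeneousSubmodule (Fin n) K e :=
    hP
  have e2 : gr P' e = Submodule.span K ((fun s => monomial s (1 : K)) '' T') ⊔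
      Submodule.restrictScalars K (Ideal.span (Set.range fun t : Fin r =>
        (X (Fin.castLE hr t) : MvPolynomial (Fin n) K) ^ a t)) ⊓ homogeneousSubmodule (Fin n) K e :=
    hP'
  have f1 : FiniteDimensional K (gr P e) := Submodule.finiteDimensional_of_le
      (S₂ := homogeneousSubmodule (Fin n) K e) inf_le_right
  have f2 : FiniteDimensional K (gr P' e) := Submodule.finiteDimensional_of_le
      (S₂ := homogeneousSubmodule (Fin n) K e) inf_le_right
  rcases hT.subset_or hT' with hs | hs
  · have hle : gr P e ≤ gr P' e := by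
      rw [e1, e2]
      exact sup_le_sup_right (Submodule.span_mono (Set.image_mono hs)) _
    exact Submodule.eq_of_le_of_finrank_eq hle hfin
  · have hle : gr P' e ≤ gr P e := by
      rw [e1, e2]
      exact sup_le_sup_right (Submodule.span_mono (Set.image_mono hs)) _
    exact (Submodule.eq_of_le_of_finrank_eq hle hfin.symm).symm

theorem le_of_gr {P P' : Ideal (MvPolynomial (Fin n) K)} (hP : Homog P)
    (h : ∀ e, gr P e = gr P' e) : P ≤ P' := by
  intro p hp
  rw [← sum_homogeneousComponent p]
  apply Ideal.sum_mem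
  intro e _
  have h1 : homogeneousComponent e p ∈ gr P e :=
    mem_gr.mpr ⟨hP p hp e, homogeneousComponent_isHomogeneous e p⟩
  rw [h e] at h1
  exact (mem_gr.mp h1).1

theorem IsLPP.unique {r : ℕ} {hr : r ≤ n} {a : Fin r → ℕ} {I P P' : Ideal (MvPolynomial (Fin n) K)}
    (h : IsLPP hr a I P) (h' : IsLPP hr a I P') : P = P' :=
  le_antisymm (le_of_gr h.homog (h.gr_eq h')) (le_of_gr h'.homog (h'.gr_eq h))

/-- the pieces of a sum of a lex ideal and of the pure powers ideal -/
theorem isLPP_of {r : ℕ} (hr : r ≤ n) {a : Fin r → ℕ} {S : Set (Mo n)} (hS : UpC S)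
    (hlex : ∀ u v : Mo n, dg u = dg v → toLex v < toLex u → v ∈ S → u ∈ S)
    {I : Ideal (MvPolynomial (Fin n) K)}
    (hH : ∀ e, finrank K (gr (MI K S ⊔ PI K hr a) e) = finrank K (gr I e)) :
    IsLPP hr a I (MI K S ⊔ PI K hr a) := by
  have hmem : ∀ p, p ∈ MI K S ⊔ PI K hr a ↔
      ∀ u ∈ p.support, (⇑u : Mo n) ∈ S ∪ {u : Mo n | ¬ Cap (capOf n a) u} := by
    intro p
    rw [PI_eq, MI_union, mem_MI (upC_union hS (upC_ncap _))]
  refine ⟨?_, ?_, hH⟩
  · intro p hp e
    rw [hmem] at hp ⊢
    intro u hu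
    apply hp
    rw [MvPolynomial.mem_support_iff, coeff_homogeneousComponent] at hu
    rw [MvPolynomial.mem_support_iff]
    intro h0
    apply hu
    rw [h0, ite_self]
  · intro e
    refine ⟨{u : Fin n →₀ ℕ | u.degree = e ∧ (⇑u : Mo n) ∈ S}, ⟨fun v hv => hv.1, ?_⟩, ?_⟩
    · rintro v ⟨hv1, hv2⟩ u hu h
      refine ⟨hu, hlex _ _ ?_ (lex_lt_iff.mpr h) hv2⟩
      rw [dg_coe, dg_coe, hu, hv1]
    · apply le_antisymm
      · intro p hp
        obtain ⟨h1, h2⟩ := mem_gr.mp hp
        rw [p.as_sum]
        apply Submodule.sum_mem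
        intro u hu
        have hdeg : u.degree = e := by
          by_contra hne
          exact (MvPolynomial.mem_support_iff.1 hu) (h2.coeff_eq_zero hne)
        rcases (hmem p).mp h1 u hu with h3 | h3
        · apply Submodule.mem_sup_left
          have h4 : monomial u (coeff u p) = coeff u p • monomial u (1 : K) := by
            rw [smul_monomial, smul_eq_mul, mul_one]
          rw [h4]
          exact Submodule.smul_mem _ _ (Submodule.subset_span ⟨u, ⟨hdeg, h3⟩, rfl⟩)
        · apply Submodule.mem_sup_right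
          refine ⟨?_, ?_⟩
          · change monomial u (coeff u p) ∈ PI K hr a
            rw [mem_PI]
            intro v hv
            have h4 := support_monomial_subset hv
            rw [Finset.mem_singleton] at h4
            rw [h4]
            exact h3
          · exact isHomogeneous_monomial _ hdeg
      · apply sup_le
        · rw [Submodule.span_le]
          rintro _ ⟨u, ⟨h1, h2⟩, rfl⟩
          refine ⟨?_, isHomogeneous_monomial _ h1⟩
          change monomial u (1 : K) ∈ MI K S ⊔ PI K hr a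
          rw [hmem]
          intro v hv
          have h4 := support_monomial_subset hv
          rw [Finset.mem_singleton] at h4
          rw [h4]
          exact Or.inl h2
        · apply inf_le_inf_right
          intro p hp
          have h1 : p ∈ PI K hr a := hp
          exact Ideal.mem_sup_right h1

theorem exists_isLPP {r : ℕ} (hr : r ≤ n) {a : Fin r → ℕ} {L : ℕ → Finset (Mo n)}
    (hL : LFam (capOf n a) L) {I : Ideal (MvPolynomial (Fin n) K)}
    (h : ∀ e, finrank K (gr I e) = (ncap (capOf n a) e).card + (L e).card) :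
    IsLPP hr a I (MI K (LS (capOf n a) L) ⊔ PI K hr a) :=
  isLPP_of hr (LS_upC hL) (fun _ _ hd hlt hv => LS_lex hd hlt.le hv)
    (fun e => by rw [finrank_LS hr hL, h])

/-! ### the socle -/

/-- the forms of degree `e` multiplied into `J` by every variable -/
noncomputable def SO (J : Ideal (MvPolynomial (Fin n) K)) (e : ℕ) :
    Submodule K (MvPolynomial (Fin n) K) :=
  (⨅ i, Submodule.comap (LinearMap.mulLeft K (X i)) (Submodule.restrictScalars K J)) ⊓
    homogeneousSubmodule (Fin n) K e

theorem mem_SO {J : Ideal (MvPolynomial (Fin n) K)} {e : ℕ} {p : MvPolynomial (Fin n) K} :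
    p ∈ SO J e ↔ (∀ i, X i * p ∈ J) ∧ p.IsHomogeneous e := by
  unfold SO
  rw [Submodule.mem_inf, Submodule.mem_iInf]
  rfl

theorem finrank_SO_le {r : ℕ} (hr : r ≤ n) {a : Fin r → ℕ} (ha : ∀ i, 1 ≤ a i) (hm : Monotone a)
    (hA : Adm a) {f : Fin r → MvPolynomial (Fin n) K} (hf : ∀ i, (f i).IsHomogeneous (a i))
    (hreg : Reg f) {I : Ideal (MvPolynomial (Fin n) K)} (hfI : ∀ i, f i ∈ I)
    {L : ℕ → Finset (Mo n)} (hL : LFam (capOf n a) L)
    (h : ∀ e, finrank K (gr I e) = (ncap (capOf n a) e).card + (L e).card) (e : ℕ) :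
    finrank K (SO I e) ≤ finrank K (SO (MI K (LS (capOf n a) L) ⊔ PI K hr a) e) := by
  classical
  have hG := egr_adm hr ha hm hA K f hf hreg
  set c := capOf n a with hc
  set J := Ideal.span (Set.range f) with hJ
  have hJI : J ≤ I := by
    rw [hJ, Ideal.span_le]
    rintro _ ⟨i, rfl⟩
    exact hfI i
  have hgJ : ∀ q, finrank K (gr J q) = (ncap c q).card := by
    intro q
    rw [hJ, finrank_gr hr hf hreg q]
  have hp : Pair J e (SO I e) (gr I (e + 1)) := by
    refine ⟨inf_le_right, inf_le_right, ?_, ?_, ?_⟩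
    · intro p hp i
      obtain ⟨h1, h2⟩ := mem_SO.mp hp
      refine mem_gr.mpr ⟨h1 i, ?_⟩
      have := (isHomogeneous_X K i).mul h2
      rwa [add_comm] at this
    · intro p hp
      obtain ⟨h1, h2⟩ := mem_gr.mp hp
      exact mem_SO.mpr ⟨fun i => I.mul_mem_left _ (hJI h1), h2⟩
    · intro p hp
      obtain ⟨h1, h2⟩ := mem_gr.mp hp
      exact mem_gr.mpr ⟨hJI h1, h2⟩
  have fS : FiniteDimensional K (SO I e) := Submodule.finiteDimensional_of_le
      (S₂ := homogeneousSubmodule (Fin n) K e) inf_le_right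
  have k1 : finrank K (gr J e) ≤ finrank K (SO I e) := Submodule.finrank_mono hp.hJV
  have k2 : finrank K (SO I e) ≤ finrank K (homogeneousSubmodule (Fin n) K e) :=
    finrank_le_hom inf_le_right
  rw [finrank_hom', card_allM c] at k2
  have k3 := hgJ e
  obtain ⟨M, hM, hMc⟩ := exists_ini c e (finrank K (SO I e) - (ncap c e).card) (by omega)
  have k4 := hG e _ _ hp M hM (by omega)
  have k5 := hgJ (e + 1)
  have k6 := h (e + 1)
  have hsub : up c M ⊆ L (e + 1) := hM.up.subset_of_card (hL.ini (e + 1)) (by omega)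
  set P := MI K (LS c L) ⊔ PI K hr a with hP
  have hmem : ∀ p, p ∈ P ↔
      ∀ u ∈ p.support, (⇑u : Mo n) ∈ LS c L ∪ {u : Mo n | ¬ Cap c u} := by
    intro p
    rw [hP, PI_eq, MI_union, mem_MI (upC_union (LS_upC hL) (upC_ncap _))]
  have hdis : Disjoint (ncap c e) M := by
    rw [Finset.disjoint_left]
    intro u hu hu2
    exact (mem_ncap.mp hu).2 (hM.cap u hu2)
  have hcard : finrank K (SO I e) = (ncap c e ∪ M).card := by
    rw [Finset.card_union_of_disjoint hdis]
    omega
  have hT : finrank K (restrictSupport K {u : Fin n →₀ ℕ | (⇑u : Mo n) ∈ ncap c e ∪ M}) =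
      (ncap c e ∪ M).card := finrank_mono fun u => Iff.rfl
  rw [hcard, ← hT]
  have fP : FiniteDimensional K (SO P e) := Submodule.finiteDimensional_of_le
      (S₂ := homogeneousSubmodule (Fin n) K e) inf_le_right
  apply Submodule.finrank_mono
  intro p hp
  rw [mem_restrictSupport_iff] at hp
  have hdeg : ∀ u ∈ p.support, u.degree = e := by
    intro u hu
    have h1 : (⇑u : Mo n) ∈ ncap c e ∪ M := hp hu
    rw [← dg_coe]
    rcases Finset.mem_union.mp h1 with h2 | h2
    · exact (mem_ncap.mp h2).1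
    · exact hM.deg _ h2
  refine mem_SO.mpr ⟨fun i => ?_, ?_⟩
  · rw [hmem]
    intro v hv
    rw [MvPolynomial.mem_support_iff, coeff_X_mul'] at hv
    by_cases hi : i ∈ v.support
    · rw [if_pos hi] at hv
      have h1 : v - Finsupp.single i 1 ∈ p.support := MvPolynomial.mem_support_iff.mpr hv
      have h2 : (⇑(v - Finsupp.single i 1 : Fin n →₀ ℕ) : Mo n) ∈ ncap c e ∪ M := hp h1
      have h3 : (⇑v : Mo n) = (⇑(v - Finsupp.single i 1 : Fin n →₀ ℕ) : Mo n) + ee i := by
        funext j
        rw [Pi.add_apply, Finsupp.tsub_apply, ee_apply]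
        rw [Finsupp.mem_support_iff] at hi
        by_cases hj : j = i
        · subst hj
          rw [Finsupp.single_eq_same, if_pos rfl]
          omega
        · rw [Finsupp.single_eq_of_ne hj, if_neg hj]
          omega
      by_cases hcap : Cap c (⇑v : Mo n)
      · left
        have hin : (⇑v : Mo n) ∈ up c M := by
          rw [mem_up]
          refine ⟨hcap, _, ?_, i, h3⟩
          rcases Finset.mem_union.mp h2 with h4 | h4
          · exfalso
            apply (mem_ncap.mp h4).2
            apply hcap.mono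
            intro j
            rw [Finsupp.tsub_apply]
            exact Nat.sub_le _ _
          · exact h4
        have h5 := hM.up.deg _ hin
        rw [cap_mem_LS hL hcap, h5]
        exact hsub hin
      · exact Or.inr hcap
    · rw [if_neg hi] at hv
      exact absurd rfl hv
  · have h2 : p ∈ homogeneousSubmodule (Fin n) K e := by
      rw [hom_eq, mem_restrictSupport_iff]
      exact fun u hu => hdeg u hu
    exact h2

end Run7.H941.N
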