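import Pool.Agent.Run7.h941.CB4

/-!
The generators of the ideal `LPP_a(I)`.
-/

set_option autoImplicit false

namespace Run7.H941.N

open MvPolynomial Module
open H503R3.QCI (gr mem_gr NZD Reg Homog homog_span)

universe u

variable {K : Type u} [Field K] {n : ℕ}

/-- the products of the elements of `V` with the variables -/
noncomputable def A1 (V : Submodule K (MvPolynomial (Fin n) K)) :
    Submodule K (MvPolynomial (Fin n) K) :=
  ⨆ i : Fin n, Submodule.map (LinearMap.mulLeft K (X i)) V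

theorem X_mul_mem_A1 {V : Submodule K (MvPolynomial (Fin n) K)} {p : MvPolynomial (Fin n) K}
    (hp : p ∈ V) (i : Fin n) : X i * p ∈ A1 V :=
  Submodule.mem_iSup_of_mem i ⟨p, hp, rfl⟩

theorem A1_le {V U : Submodule K (MvPolynomial (Fin n) K)} :
    A1 V ≤ U ↔ ∀ p ∈ V, ∀ i, X i * p ∈ U := by
  unfold A1
  rw [iSup_le_iff]
  constructor
  · intro h p hp i
    exact h i ⟨p, hp, rfl⟩
  · rintro h i _ ⟨p, hp, rfl⟩
    exact h p hp i

theorem A1_mono {V U : Submodule K (MvPolynomial (Fin n) K)} (h : V ≤ U) : A1 V ≤ A1 U :=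
  A1_le.mpr fun _ hp i => X_mul_mem_A1 (h hp) i

theorem comp_X_mul (i : Fin n) (p : MvPolynomial (Fin n) K) (e : ℕ) :
    homogeneousComponent (e + 1) (X i * p) = X i * homogeneousComponent e p := by
  rw [mul_comm, Run7.H941.hc_mul_right p (X i) (isHomogeneous_X K i), if_pos (by omega),
    Nat.add_sub_cancel, mul_comm]

theorem A1_le_hom {V : Submodule K (MvPolynomial (Fin n) K)} {e : ℕ}
    (h : V ≤ homogeneousSubmodule (Fin n) K e) : A1 V ≤ homogeneousSubmodule (Fin n) K (e + 1) := by
  rw [A1_le]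
  intro p hp i
  have := (isHomogeneous_X K i).mul (h hp)
  rwa [add_comm] at this

theorem gr_mul_succ {I : Ideal (MvPolynomial (Fin n) K)} (hI : Homog I) (e : ℕ) :
    gr (Ideal.span (Set.range (X : Fin n → MvPolynomial (Fin n) K)) * I) (e + 1) =
      A1 (gr I e) := by
  apply le_antisymm
  · intro p hp
    obtain ⟨h1, h2⟩ := mem_gr.mp hp
    have key : ∀ q ∈ Ideal.span (Set.range (X : Fin n → MvPolynomial (Fin n) K)) * I,
        homogeneousComponent (e + 1) q ∈ A1 (gr I e) := by
      intro q hq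
      refine Submodule.mul_induction_on hq ?_ ?_
      · intro r hr
        refine Submodule.span_induction (p := fun r _ => ∀ s ∈ I,
          homogeneousComponent (e + 1) (r * s) ∈ A1 (gr I e)) ?_ ?_ ?_ ?_ hr
        · rintro _ ⟨i, rfl⟩ s hs
          rw [comp_X_mul]
          exact X_mul_mem_A1 (mem_gr.mpr ⟨hI s hs e, homogeneousComponent_isHomogeneous e s⟩) i
        · intro s _
          rw [zero_mul, map_zero]
          exact zero_mem _
        · intro x y _ _ hx hy s hs
          rw [add_mul, map_add]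
          exact add_mem (hx s hs) (hy s hs)
        · intro c x _ hx s hs
          have h3 : c • x * s = x * (c * s) := by
            rw [smul_eq_mul]
            ring
          rw [h3]
          exact hx _ (I.mul_mem_left _ hs)
      · intro x y hx hy
        rw [map_add]
        exact add_mem hx hy
    have h3 := key p h1
    rw [homogeneousComponent_of_mem (m := e + 1) (n := e + 1) h2, if_pos rfl] at h3
    exact h3
  · rw [A1_le]
    intro p hp i
    obtain ⟨h1, h2⟩ := mem_gr.mp hp
    refine mem_gr.mpr ⟨Ideal.mul_mem_mul (Ideal.subset_span ⟨i, rfl⟩) h1, ?_⟩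
    have := (isHomogeneous_X K i).mul h2
    rwa [add_comm] at this

theorem gr_mul_zero (I : Ideal (MvPolynomial (Fin n) K)) :
    gr (Ideal.span (Set.range (X : Fin n → MvPolynomial (Fin n) K)) * I) 0 = ⊥ := by
  rw [eq_bot_iff]
  intro p hp
  obtain ⟨h1, h2⟩ := mem_gr.mp hp
  have h3 : p ∈ Ideal.span (Set.range (X : Fin n → MvPolynomial (Fin n) K)) :=
    Ideal.mul_le_left h1
  rw [← Set.image_univ, mem_ideal_span_X_image] at h3
  rw [Submodule.mem_bot]
  by_contra hne
  obtain ⟨u, hu⟩ : p.support.Nonempty := by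
    rw [Finset.nonempty_iff_ne_empty]
    intro h0
    exact hne (MvPolynomial.support_eq_empty.mp h0)
  obtain ⟨i, _, hi⟩ := h3 u hu
  have hdeg : u.degree = 0 := by
    by_contra hn
    exact (MvPolynomial.mem_support_iff.1 hu) (h2.coeff_eq_zero hn)
  have h4 : u i ≤ u.degree := Finsupp.le_degree i u
  omega

theorem mul_mem_A1 {J : Ideal (MvPolynomial (Fin n) K)} {f : MvPolynomial (Fin n) K} {d k e : ℕ}
    (hf : f.IsHomogeneous d) (hfJ : f ∈ J) (he : k + d = e) {g : MvPolynomial (Fin n) K}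
    (hg : g.IsHomogeneous (k + 1)) : g * f ∈ A1 (gr J e) := by
  rw [g.as_sum, Finset.sum_mul]
  refine Submodule.sum_mem _ fun m hm => ?_
  have hdeg : m.degree = k + 1 := by
    by_contra hne
    exact (MvPolynomial.mem_support_iff.1 hm) (hg.coeff_eq_zero hne)
  obtain ⟨i, hi⟩ : ∃ i, m i ≠ 0 := by
    by_contra hcon
    push Not at hcon
    have : m = 0 := by ext i; exact hcon i
    rw [this, map_zero] at hdeg
    omega
  have h1 : m = (m - Finsupp.single i 1) + Finsupp.single i 1 := by
    ext j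
    rw [Finsupp.add_apply, Finsupp.tsub_apply]
    by_cases hj : i = j
    · subst hj
      rw [Finsupp.single_eq_same]
      omega
    · rw [Finsupp.single_eq_of_ne (Ne.symm hj)]
      omega
  have h2 : (m - Finsupp.single i 1).degree = k := by
    have h3 := congrArg Finsupp.degree h1
    rw [map_add, Finsupp.degree_single, hdeg] at h3
    omega
  have h3 : monomial m (coeff m g) =
      X i * monomial (m - Finsupp.single i 1) (coeff m g) := by
    rw [X, monomial_mul, one_mul, add_comm, ← h1]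
  rw [h3, mul_assoc]
  apply X_mul_mem_A1
  refine mem_gr.mpr ⟨J.mul_mem_left _ hfJ, ?_⟩
  rw [← he]
  exact (isHomogeneous_monomial _ h2).mul hf

theorem gr_span_le_A1 {r : ℕ} {a : Fin r → ℕ} {f : Fin r → MvPolynomial (Fin n) K}
    (hf : ∀ i, (f i).IsHomogeneous (a i)) {e : ℕ} (he : ∀ i, a i ≤ e) :
    gr (Ideal.span (Set.range f)) (e + 1) ≤ A1 (gr (Ideal.span (Set.range f)) e) := by
  intro p hp
  obtain ⟨h1, h2⟩ := mem_gr.mp hp
  obtain ⟨g, hg⟩ := (Ideal.mem_span_range_iff_exists_fun).mp h1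
  have h3 : homogeneousComponent (e + 1) p = p := by
    rw [homogeneousComponent_of_mem (m := e + 1) (n := e + 1) h2, if_pos rfl]
  rw [← h3, ← hg, map_sum]
  refine Submodule.sum_mem _ fun i _ => ?_
  have hi := he i
  rw [Run7.H941.hc_mul_right (g i) (f i) (hf i), if_pos (by omega)]
  have h5 : f i ∈ Ideal.span (Set.range f) := Ideal.subset_span ⟨i, rfl⟩
  apply mul_mem_A1 (hf i) h5 (k := e - a i) (by omega)
  have h4 : e + 1 - a i = e - a i + 1 := by omega
  rw [h4]
  exact homogeneousComponent_isHomogeneous _ _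

/-- the case in which all degrees are at most `e` -/
theorem finrank_A1_low {r : ℕ} (hr : r ≤ n) {a : Fin r → ℕ}
    {f : Fin r → MvPolynomial (Fin n) K} (hf : ∀ i, (f i).IsHomogeneous (a i))
    (hreg : Reg f) (hG : Growth (Ideal.span (Set.range f)) (capOf n a))
    {I : Ideal (MvPolynomial (Fin n) K)} (hfI : ∀ i, f i ∈ I) {e : ℕ} (he : ∀ i, a i ≤ e)
    {M : Finset (Mo n)} (hM : Ini (capOf n a) e M)
    (hc : (ncap (capOf n a) e).card + M.card = finrank K (gr I e))
    {T : Set (Fin n →₀ ℕ)} (hT : ∀ u ∈ T, ¬ Cap (capOf n a) (⇑u : Mo n) ∧ u.degree = e ∨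
      (⇑u : Mo n) ∈ M) :
    finrank K (A1 (restrictSupport K T)) ≤ finrank K (A1 (gr I e)) := by
  classical
  set c := capOf n a with hcdef
  set J := Ideal.span (Set.range f) with hJ
  have hJI : J ≤ I := by
    rw [hJ, Ideal.span_le]
    rintro _ ⟨i, rfl⟩
    exact hfI i
  have hle : ∀ e, gr J e ≤ gr I e := fun e x hx => mem_gr.mpr ⟨hJI (mem_gr.mp hx).1,
    (mem_gr.mp hx).2⟩
  have hp : Pair J e (gr I e) (A1 (gr I e)) :=
    ⟨inf_le_right, A1_le_hom inf_le_right, fun p hp i => X_mul_mem_A1 hp i, hle e,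
      (gr_span_le_A1 hf he).trans (A1_mono (hle e))⟩
  have k1 : finrank K (gr J e) = (ncap c e).card := by rw [hJ, finrank_gr hr hf hreg e]
  have k2 : finrank K (gr J (e + 1)) = (ncap c (e + 1)).card := by
    rw [hJ, finrank_gr hr hf hreg (e + 1)]
  have k3 := hG e _ _ hp M hM (by omega)
  have hT2 : finrank K (restrictSupport K {u : Fin n →₀ ℕ |
      (⇑u : Mo n) ∈ ncap c (e + 1) ∪ up c M}) = (ncap c (e + 1) ∪ up c M).card :=
    finrank_mono fun u => Iff.rfl
  have hdegT : ∀ u ∈ T, dg (⇑u : Mo n) = e := by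
    intro u hu
    rcases hT u hu with h | h
    · rw [dg_coe]
      exact h.2
    · exact hM.deg _ h
  have hle2 : A1 (restrictSupport K T) ≤ restrictSupport K {u : Fin n →₀ ℕ |
      (⇑u : Mo n) ∈ ncap c (e + 1) ∪ up c M} := by
    rw [A1_le]
    intro p hp i
    rw [mem_restrictSupport_iff] at hp ⊢
    intro v hv
    rw [Finset.mem_coe, MvPolynomial.mem_support_iff, coeff_X_mul'] at hv
    by_cases hi : i ∈ v.support
    · rw [if_pos hi] at hv
      have h1 : v - Finsupp.single i 1 ∈ p.support := MvPolynomial.mem_support_iff.mpr hv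
      have h2 := hT _ (hp h1)
      have h3 : (⇑v : Mo n) = (⇑(v - Finsupp.single i 1 : Fin n →₀ ℕ) : Mo n) + ee i := by
        funext j
        rw [Pi.add_apply, Finsupp.tsub_apply, ee_apply]
        rw [Finsupp.mem_support_iff] at hi
        by_cases hj : j = i
        · subst hj
          rw [Finsupp.single_eq_same, if_pos rfl]
          omega
        · rw [Finsupp.single_eq_of_ne hj, if_neg hj]
          omega
      have hd : dg (⇑v : Mo n) = e + 1 := by
        rw [h3, dg_add_ee, hdegT _ (hp h1)]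
      change (⇑v : Mo n) ∈ ncap c (e + 1) ∪ up c M
      rw [Finset.mem_union]
      by_cases hcap : Cap c (⇑v : Mo n)
      · right
        rw [mem_up]
        refine ⟨hcap, _, ?_, i, h3⟩
        rcases h2 with h4 | h4
        · exfalso
          apply h4.1
          apply hcap.mono
          intro j
          rw [Finsupp.tsub_apply]
          exact Nat.sub_le _ _
        · exact h4
      · left
        rw [mem_ncap]
        exact ⟨hd, hcap⟩
    · rw [if_neg hi] at hv
      exact absurd rfl hv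
  have f1 : FiniteDimensional K (restrictSupport K {u : Fin n →₀ ℕ |
      (⇑u : Mo n) ∈ ncap c (e + 1) ∪ up c M}) := by
    apply Submodule.finiteDimensional_of_le (S₂ := homogeneousSubmodule (Fin n) K (e + 1))
    intro p hp
    rw [mem_restrictSupport_iff] at hp
    rw [hom_eq, mem_restrictSupport_iff]
    intro u hu
    have h1 : (⇑u : Mo n) ∈ ncap c (e + 1) ∪ up c M := hp hu
    change u.degree = e + 1
    rw [← dg_coe]
    rcases Finset.mem_union.mp h1 with h2 | h2
    · exact (mem_ncap.mp h2).1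
    · exact hM.up.deg _ h2
  calc finrank K (A1 (restrictSupport K T)) ≤ _ := Submodule.finrank_mono hle2
    _ = (ncap c (e + 1) ∪ up c M).card := hT2
    _ ≤ (ncap c (e + 1)).card + (up c M).card := Finset.card_union_le _ _
    _ ≤ _ := by omega

/-- any cap agreeing with a shorter one in degree `e` -/
theorem cap_init_iff {r : ℕ} (hr : r + 1 ≤ n) {a : Fin (r + 1) → ℕ} {u : Mo n}
    (h : dg u < a (Fin.last r)) :
    Cap (capOf n a) u ↔ Cap (capOf n (Fin.init a)) u := by
  rw [← not_iff_not, not_cap_iff hr, not_cap_iff (by omega : r ≤ n)]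
  constructor
  · rintro ⟨i, hi⟩
    by_cases hl : i = Fin.last r
    · subst hl
      have h1 : u (Fin.castLE hr (Fin.last r)) ≤ dg u :=
        Finset.single_le_sum (f := u) (fun i _ => Nat.zero_le _) (Finset.mem_univ _)
      omega
    · obtain ⟨j, rfl⟩ := Fin.eq_castSucc_of_ne_last hl
      exact ⟨j, hi⟩
  · rintro ⟨i, hi⟩
    exact ⟨Fin.castSucc i, hi⟩

theorem Adm.init {r : ℕ} {a : Fin (r + 1) → ℕ} (h : Adm a) : Adm (Fin.init a) := by
  rcases h with h | ⟨h2, h⟩
  · exact Or.inl (by omega)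
  · refine Or.inr ⟨fun i => h2 _, fun i hi => ?_⟩
    have h3 := h (Fin.castSucc i) hi
    rw [sum_Iio_castSucc] at h3
    exact h3

theorem finrank_A1_le : ∀ {r : ℕ} (hr : r ≤ n) {a : Fin r → ℕ}, (∀ i, 1 ≤ a i) → Monotone a →
    Adm a → ∀ {f : Fin r → MvPolynomial (Fin n) K}, (∀ i, (f i).IsHomogeneous (a i)) → Reg f →
    ∀ {I : Ideal (MvPolynomial (Fin n) K)}, (∀ i, f i ∈ I) → ∀ {e : ℕ} {M : Finset (Mo n)},
    Ini (capOf n a) e M → (ncap (capOf n a) e).card + M.card = finrank K (gr I e) →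
    ∀ {T : Set (Fin n →₀ ℕ)}, (∀ u ∈ T, ¬ Cap (capOf n a) (⇑u : Mo n) ∧ u.degree = e ∨
      (⇑u : Mo n) ∈ M) →
    finrank K (A1 (restrictSupport K T)) ≤ finrank K (A1 (gr I e)) := by
  classical
  intro r
  induction r with
  | zero =>
    intro hr a ha hm hA f hf hreg I hfI e M hM hc T hT
    exact finrank_A1_low hr hf hreg (egr_adm hr ha hm hA K f hf hreg) hfI (fun i => i.elim0) hM
      hc hT
  | succ r ih =>
    intro hr a ha hm hA f hf hreg I hfI e M hM hc T hT
    by_cases he : a (Fin.last r) ≤ e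
    · exact finrank_A1_low hr hf hreg (egr_adm hr ha hm hA K f hf hreg) hfI
        (fun i => (hm (Fin.le_last i)).trans he) hM hc hT
    · have hcc : ∀ u : Mo n, dg u = e → (Cap (capOf n a) u ↔ Cap (capOf n (Fin.init a)) u) :=
        fun u hu => cap_init_iff hr (by omega)
      refine ih (by omega) (fun i => ha _) (fun i j hij => hm (Fin.castSucc_le_castSucc_iff.mpr hij))
        hA.init (fun i => hf (Fin.castSucc i)) (reg_init hreg) (fun i => hfI _)
        (ini_congr hcc hM) ?_ ?_
      · rw [← hc]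
        congr 2
        ext u
        rw [mem_ncap, mem_ncap]
        constructor
        · rintro ⟨h1, h2⟩
          exact ⟨h1, fun h3 => h2 ((hcc u h1).mp h3)⟩
        · rintro ⟨h1, h2⟩
          exact ⟨h1, fun h3 => h2 ((hcc u h1).mpr h3)⟩
      · intro u hu
        rcases hT u hu with ⟨h1, h2⟩ | h
        · left
          refine ⟨fun h3 => h1 ((hcc _ ?_).mpr h3), h2⟩
          rw [dg_coe, h2]
        · exact Or.inr h

/-- `H(𝔪 LPP) ≤ H(𝔪 I)` -/
theorem finrank_mul_le {r : ℕ} (hr : r ≤ n) {a : Fin r → ℕ} (ha : ∀ i, 1 ≤ a i) (hm : Monotone a)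
    (hA : Adm a) {f : Fin r → MvPolynomial (Fin n) K} (hf : ∀ i, (f i).IsHomogeneous (a i))
    (hreg : Reg f) {I : Ideal (MvPolynomial (Fin n) K)} (hI : Homog I) (hfI : ∀ i, f i ∈ I)
    {L : ℕ → Finset (Mo n)} (hL : LFam (capOf n a) L)
    (h : ∀ e, finrank K (gr I e) = (ncap (capOf n a) e).card + (L e).card) (e : ℕ) :
    finrank K (gr (Ideal.span (Set.range (X : Fin n → MvPolynomial (Fin n) K)) *
      (MI K (LS (capOf n a) L) ⊔ PI K hr a)) e) ≤
    finrank K (gr (Ideal.span (Set.range (X : Fin n → MvPolynomial (Fin n) K)) * I) e) := by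
  rcases Nat.eq_zero_or_pos e with rfl | hpos
  · rw [gr_mul_zero, finrank_bot]
    exact Nat.zero_le _
  · obtain ⟨e, rfl⟩ := Nat.exists_eq_succ_of_ne_zero hpos.ne'
    have hP := exists_isLPP hr hL h
    have hPh : Homog (MI K (LS (capOf n a) L) ⊔ PI K hr a) := hP.homog
    rw [Nat.succ_eq_add_one, gr_mul_succ hI, gr_mul_succ hPh]
    have h1 : gr (MI K (LS (capOf n a) L) ⊔ PI K hr a) e = restrictSupport K
        {u | u ∈ {u : Fin n →₀ ℕ | (⇑u : Mo n) ∈ LS (capOf n a) L ∪
          {u : Mo n | ¬ Cap (capOf n a) u}} ∧ u.degree = e} := by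
      apply gr_of_mono
      intro p
      rw [PI_eq, MI_union, mem_MI (upC_union (LS_upC hL) (upC_ncap _))]
      rfl
    rw [h1]
    apply finrank_A1_le hr ha hm hA hf hreg hfI (hL.ini e) (h e).symm
    rintro u ⟨h2, h3⟩
    by_cases hcap : Cap (capOf n a) (⇑u : Mo n)
    · right
      have h4 : (⇑u : Mo n) ∈ LS (capOf n a) L := by
        rcases h2 with h5 | h5
        · exact h5
        · exact absurd hcap h5
      rw [cap_mem_LS hL hcap, dg_coe, h3] at h4
      exact h4
    · exact Or.inl ⟨hcap, h3⟩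

end Run7.H941.N
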