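import Pool.Agent.Run7.h941.CB5

/-!
Graded Betti numbers by the Koszul complex, and the lex-plus-powers theorems.
-/

set_option autoImplicit false

namespace Run7.H941.N

open MvPolynomial Module
open H503R3.QCI (gr mem_gr NZD Reg Homog homog_span)

universe u

/-- the Koszul differential: chains are families of polynomials indexed by sets of variables -/
noncomputable def kosD (k : Type*) [Field k] (n : ℕ) :
    (Finset (Fin n) → MvPolynomial (Fin n) k) →ₗ[k] (Finset (Fin n) → MvPolynomial (Fin n) k) :=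
  LinearMap.pi (fun B : Finset (Fin n) => ∑ a ∈ Finset.univ \ B,
    (LinearMap.mulLeft k ((-1 : MvPolynomial (Fin n) k) ^ (B.filter (fun b => b < a)).card
        * MvPolynomial.X a)) ∘ₗ
    (LinearMap.proj (R := k) (φ := fun _ : Finset (Fin n) => MvPolynomial (Fin n) k) (insert a B)))

/-- the Koszul chains of homological degree `i` and internal degree `j` with coefficients in `J` -/
noncomputable def kosC {k : Type*} [Field k] {n : ℕ} (J : Ideal (MvPolynomial (Fin n) k))
    (i j : ℕ) : Submodule k (Finset (Fin n) → MvPolynomial (Fin n) k) :=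
  ⨅ A : Finset (Fin n), Submodule.comap
    (LinearMap.proj (R := k) (φ := fun _ : Finset (Fin n) => MvPolynomial (Fin n) k) A)
    (if A.card = i ∧ i ≤ j then
      Submodule.restrictScalars k J ⊓ MvPolynomial.homogeneousSubmodule (Fin n) k (j - i)
    else ⊥)

/-- the graded Betti number `β_ij(J)`: the dimension of the Koszul homology of `J` in homological
degree `i` and internal degree `j` -/
noncomputable def betti {k : Type*} [Field k] {n : ℕ} (J : Ideal (MvPolynomial (Fin n) k))
    (i j : ℕ) : ℕ :=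
  finrank k ↥(LinearMap.ker (kosD k n) ⊓ kosC J i j) -
    finrank k ↥(Submodule.map (kosD k n) (kosC J (i + 1) j))

/-- the Hilbert function of an ideal -/
noncomputable def hilbI {k : Type*} [Field k] {n : ℕ} (J : Ideal (MvPolynomial (Fin n) k))
    (e : ℕ) : ℕ :=
  finrank k ↥(Submodule.restrictScalars k J ⊓ homogeneousSubmodule (Fin n) k e)

/-- the maximal ideal `(x_1, …, x_n)` -/
noncomputable def maxI (k : Type*) [Field k] (n : ℕ) : Ideal (MvPolynomial (Fin n) k) :=
  Ideal.span (Set.range (X : Fin n → MvPolynomial (Fin n) k))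

/-- `I` is homogeneous and contains a regular sequence of forms of degrees
`1 ≤ a_1 ≤ … ≤ a_r` -/
def HasReg {k : Type*} [Field k] {n r : ℕ} (a : Fin r → ℕ)
    (I : Ideal (MvPolynomial (Fin n) k)) : Prop :=
  (∀ p ∈ I, ∀ e : ℕ, homogeneousComponent e p ∈ I) ∧ (∀ t, 1 ≤ a t) ∧ Monotone a ∧
    ∃ f : Fin r → MvPolynomial (Fin n) k, (∀ t, f t ∈ I) ∧ (∀ t, (f t).IsHomogeneous (a t)) ∧
      RingTheory.Sequence.IsRegular (MvPolynomial (Fin n) k) (List.ofFn f)

variable {K : Type u} [Field K]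

theorem lpp_three_vars {r : ℕ} (hr : r ≤ 3) (a : Fin r → ℕ) (I : Ideal (MvPolynomial (Fin 3) K))
    (h : HasReg a I) : ∃ P, IsLPP hr a I P ∧ ∀ i j, betti I i j ≤ betti P i j := by
  obtain ⟨_, ha, hm, hex⟩ := h
  obtain ⟨L, ⟨M, hM⟩, hlex, hH, hβL⟩ :=
    Run7.H941.lpp_three K (kosD K 3) rfl kosC (fun _ _ _ => rfl) betti (fun _ _ _ => rfl) r hr a
      ha hm I hex
  have hML := MI_of_span hM
  refine ⟨L + Ideal.span (Set.range fun t : Fin r =>
      (MvPolynomial.X (Fin.castLE hr t) : MvPolynomial (Fin 3) K) ^ a t), ?_, hβL⟩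
  have h1 := isLPP_of (K := K) hr (a := a) (upC_of_ideal L) (I := I) ?_ ?_
  · rw [hML] at h1
    exact h1
  · intro u v hd hlt hv
    exact hlex (fs u) (fs v) hd (lex_lt_iff.mp hlt) hv
  · intro e
    rw [hML]
    exact hH e

theorem lpp_ends {n r : ℕ} (hr : r ≤ n) (a : Fin r → ℕ) (I : Ideal (MvPolynomial (Fin n) K))
    (h : HasReg a I) (hA : Adm a) :
    ∃ P, IsLPP hr a I P ∧ (∀ e, hilbI (maxI K n * P) e ≤ hilbI (maxI K n * I) e) ∧
      ∀ e, finrank K ↥(SO I e) ≤ finrank K ↥(SO P e) := by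
  obtain ⟨hI, ha, hm, f, hfI, hf, hreg⟩ := h
  have hR : H503R3.QCI.Reg f := H503R3.QCI.reg_of_isWeaklyRegular hreg.toIsWeaklyRegular
  obtain ⟨L, hL, h⟩ := exists_fam hr ha hm hA hf hR hfI
  exact ⟨_, exists_isLPP hr hL h, finrank_mul_le hr ha hm hA hf hR hI hfI hL h,
    finrank_SO_le hr ha hm hA hf hR hfI hL h⟩

end Run7.H941.N
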