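import Pool.Agent.Run7.h941.CB6

/-!
The first and the last graded Betti numbers by the Koszul complex.
-/

set_option autoImplicit false

namespace Run7.H941.N

open MvPolynomial Module
open H503R3.QCI (gr mem_gr NZD Reg Homog homog_span)

universe u

variable {K : Type u} [Field K] {n : ℕ}

/-- the number of elements of `B` below `a` -/
def nb (a : Fin n) (B : Finset (Fin n)) : ℕ := (B.filter (fun b => b < a)).card

theorem nb_insert {a c : Fin n} {B : Finset (Fin n)} (h : a ∉ B) :
    nb c (insert a B) = nb c B + if a < c then 1 else 0 := by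
  unfold nb
  rw [Finset.filter_insert]
  split_ifs with h1
  · rw [Finset.card_insert_of_notMem (by simp [h])]
  · rfl

theorem kosD_apply (g : Finset (Fin n) → MvPolynomial (Fin n) K) (B : Finset (Fin n)) :
    kosD K n g B = ∑ a ∈ Finset.univ \ B, (-1 : MvPolynomial (Fin n) K) ^ nb a B * X a *
      g (insert a B) := by
  unfold kosD nb
  rw [LinearMap.pi_apply, LinearMap.sum_apply]
  rfl

theorem mem_kosC {J : Ideal (MvPolynomial (Fin n) K)} {i j : ℕ}
    {g : Finset (Fin n) → MvPolynomial (Fin n) K} :
    g ∈ kosC J i j ↔ ∀ A, g A ∈ (if A.card = i ∧ i ≤ j then gr J (j - i) else ⊥ :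
      Submodule K (MvPolynomial (Fin n) K)) := by
  unfold kosC
  rw [Submodule.mem_iInf]
  rfl

theorem kosD_sq (g : Finset (Fin n) → MvPolynomial (Fin n) K) : kosD K n (kosD K n g) = 0 := by
  funext B
  rw [kosD_apply, Pi.zero_apply]
  have h1 : ∀ a ∈ Finset.univ \ B, (-1 : MvPolynomial (Fin n) K) ^ nb a B * X a *
      kosD K n g (insert a B) = ∑ c ∈ Finset.univ \ insert a B,
        (-1 : MvPolynomial (Fin n) K) ^ nb a B * X a *
          ((-1 : MvPolynomial (Fin n) K) ^ nb c (insert a B) * X c *
            g (insert c (insert a B))) := by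
    intro a _
    rw [kosD_apply, Finset.mul_sum]
  rw [Finset.sum_congr rfl h1, Finset.sum_sigma']
  refine Finset.sum_involution (fun x _ => ⟨x.2, x.1⟩) ?_ ?_ ?_ ?_
  · rintro ⟨a, c⟩ hx
    rw [Finset.mem_sigma] at hx
    obtain ⟨h2, h3⟩ := hx
    simp only [Finset.mem_sdiff, Finset.mem_univ, true_and, Finset.mem_insert, not_or] at h2 h3
    obtain ⟨h4, h5⟩ := h3
    dsimp only
    rw [nb_insert h2, nb_insert h5, Finset.insert_comm a c B]
    rcases lt_or_gt_of_ne h4 with h6 | h6
    · rw [if_neg (not_lt.mpr h6.le), if_pos h6]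
      ring
    · rw [if_pos h6, if_neg (not_lt.mpr h6.le)]
      ring
  · rintro ⟨a, c⟩ hx _ heq
    rw [Finset.mem_sigma] at hx
    simp only [Finset.mem_sdiff, Finset.mem_univ, true_and, Finset.mem_insert, not_or] at hx
    have h2 : c = a := congrArg Sigma.fst heq
    exact hx.2.1 h2
  · rintro ⟨a, c⟩ hx
    rw [Finset.mem_sigma] at hx ⊢
    simp only [Finset.mem_sdiff, Finset.mem_univ, true_and, Finset.mem_insert, not_or] at hx ⊢
    exact ⟨hx.2.2, fun h => hx.2.1 h.symm, hx.1⟩
  · rintro ⟨a, c⟩ _
    rfl

/-! ### homological degree zero -/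

theorem kosC_zero_mem {J : Ideal (MvPolynomial (Fin n) K)} {j : ℕ}
    {g : Finset (Fin n) → MvPolynomial (Fin n) K} :
    g ∈ kosC J 0 j ↔ g ∈ Submodule.map (LinearMap.single K
      (fun _ : Finset (Fin n) => MvPolynomial (Fin n) K) ∅) (gr J j) := by
  rw [mem_kosC]
  constructor
  · intro h
    refine ⟨g ∅, ?_, ?_⟩
    · have := h ∅
      simpa using this
    · funext A
      rw [LinearMap.single_apply]
      by_cases hA : A = ∅
      · subst hA
        rw [Pi.single_eq_same]
      · rw [Pi.single_eq_of_ne hA]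
        have := h A
        rw [if_neg (by
          rintro ⟨h1, _⟩
          exact hA (Finset.card_eq_zero.mp h1))] at this
        exact ((Submodule.mem_bot K).mp this).symm
  · rintro ⟨p, hp, rfl⟩ A
    rw [LinearMap.single_apply]
    by_cases hA : A = ∅
    · subst hA
      rw [Pi.single_eq_same]
      simpa using hp
    · rw [Pi.single_eq_of_ne hA]
      exact zero_mem _

theorem finrank_map_inj {V W : Type*} [AddCommGroup V] [Module K V] [AddCommGroup W] [Module K W]
    (φ : V →ₗ[K] W) (h : Function.Injective φ) (S : Submodule K V) :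
    finrank K (Submodule.map φ S) = finrank K S :=
  (Submodule.equivMapOfInjective φ h S).finrank_eq.symm

theorem single_inj (A : Finset (Fin n)) : Function.Injective (LinearMap.single K
    (fun _ : Finset (Fin n) => MvPolynomial (Fin n) K) A) := by
  intro p q h
  have h1 := congrFun h A
  simpa using h1

theorem kosC_zero_le (J : Ideal (MvPolynomial (Fin n) K)) (j : ℕ) :
    kosC J 0 j ≤ LinearMap.ker (kosD K n) := by
  intro g hg
  rw [LinearMap.mem_ker]
  funext B
  rw [kosD_apply, Pi.zero_apply]
  apply Finset.sum_eq_zero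
  intro a _
  have h1 := mem_kosC.mp hg (insert a B)
  rw [if_neg (by
    rintro ⟨h1, _⟩
    exact (Finset.insert_nonempty a B).ne_empty (Finset.card_eq_zero.mp h1))] at h1
  rw [(Submodule.mem_bot K).mp h1, mul_zero]

theorem betti_zero {J : Ideal (MvPolynomial (Fin n) K)} (hJ : Homog J) (j : ℕ) :
    betti J 0 j = hilbI J j - hilbI (maxI K n * J) j := by
  have e1 : LinearMap.ker (kosD K n) ⊓ kosC J 0 j = Submodule.map (LinearMap.single K
      (fun _ : Finset (Fin n) => MvPolynomial (Fin n) K) ∅) (gr J j) := by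
    rw [inf_eq_right.mpr (kosC_zero_le J j)]
    ext g
    exact kosC_zero_mem
  have e2 : Submodule.map (kosD K n) (kosC J (0 + 1) j) = Submodule.map (LinearMap.single K
      (fun _ : Finset (Fin n) => MvPolynomial (Fin n) K) ∅) (gr (maxI K n * J) j) := by
    rcases Nat.eq_zero_or_pos j with rfl | hpos
    · have h1 : kosC J (0 + 1) 0 = ⊥ := by
        rw [eq_bot_iff]
        intro g hg
        rw [Submodule.mem_bot]
        funext A
        have h2 := mem_kosC.mp hg A
        rw [if_neg (by omega)] at h2
        exact (Submodule.mem_bot K).mp h2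
      have h2 : gr (maxI K n * J) 0 = ⊥ := gr_mul_zero J
      rw [h1, h2, Submodule.map_bot, Submodule.map_bot]
    · obtain ⟨e, rfl⟩ := Nat.exists_eq_succ_of_ne_zero hpos.ne'
      have h2 : gr (maxI K n * J) (e + 1) = A1 (gr J e) := gr_mul_succ hJ e
      rw [Nat.succ_eq_add_one, h2]
      apply le_antisymm
      · rintro _ ⟨g, hg, rfl⟩
        have hg' := mem_kosC.mp hg
        refine ⟨∑ a : Fin n, X a * g {a}, ?_, ?_⟩
        · refine Submodule.sum_mem _ fun a _ => X_mul_mem_A1 ?_ a
          have := hg' {a}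
          simpa using this
        · funext B
          rw [LinearMap.single_apply, kosD_apply]
          by_cases hB : B = ∅
          · subst hB
            rw [Pi.single_eq_same, Finset.sdiff_empty]
            apply Finset.sum_congr rfl
            intro a _
            simp [nb]
          · rw [Pi.single_eq_of_ne hB]
            symm
            apply Finset.sum_eq_zero
            intro a ha
            rw [Finset.mem_sdiff] at ha
            have h3 := hg' (insert a B)
            rw [if_neg (by
              rintro ⟨h4, _⟩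
              rw [Finset.card_insert_of_notMem ha.2] at h4
              exact hB (Finset.card_eq_zero.mp (by omega)))] at h3
            rw [(Submodule.mem_bot K).mp h3, mul_zero]
      · rw [Submodule.map_le_iff_le_comap, A1_le]
        intro p hp i
        rw [Submodule.mem_comap]
        refine ⟨Pi.single {i} p, ?_, ?_⟩
        · rw [SetLike.mem_coe, mem_kosC]
          intro A
          by_cases hA : A = {i}
          · subst hA
            rw [Pi.single_eq_same]
            simpa using hp
          · rw [Pi.single_eq_of_ne hA]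
            exact zero_mem _
        · funext B
          rw [LinearMap.single_apply, kosD_apply]
          by_cases hB : B = ∅
          · subst hB
            rw [Pi.single_eq_same, Finset.sdiff_empty, Finset.sum_eq_single i]
            · simp [nb]
            · intro a _ hai
              rw [Pi.single_eq_of_ne (by simpa using hai), mul_zero]
            · simp
          · rw [Pi.single_eq_of_ne hB]
            apply Finset.sum_eq_zero
            intro a ha
            rw [Finset.mem_sdiff] at ha
            rw [Pi.single_eq_of_ne, mul_zero]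
            intro h4
            have h5 := congrArg Finset.card h4
            rw [Finset.card_insert_of_notMem ha.2, Finset.card_singleton] at h5
            exact hB (Finset.card_eq_zero.mp (by omega))
  unfold betti hilbI
  rw [e1, e2, finrank_map_inj _ (single_inj ∅), finrank_map_inj _ (single_inj ∅)]
  rfl

/-! ### homological degree `n - 1` -/

/-- the boundary of a top chain -/
noncomputable def topM (K : Type u) [Field K] (n : ℕ) :
    MvPolynomial (Fin n) K →ₗ[K] (Finset (Fin n) → MvPolynomial (Fin n) K) :=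
  (kosD K n) ∘ₗ (LinearMap.single K (fun _ : Finset (Fin n) => MvPolynomial (Fin n) K)
    Finset.univ)

theorem topM_compl (p : MvPolynomial (Fin n) K) (a : Fin n) :
    topM K n p {a}ᶜ = (-1 : MvPolynomial (Fin n) K) ^ nb a {a}ᶜ * X a * p := by
  change kosD K n (Pi.single Finset.univ p) {a}ᶜ = _
  rw [kosD_apply, Finset.sum_eq_single a]
  · have h1 : insert a ({a}ᶜ : Finset (Fin n)) = Finset.univ := by
      ext x
      simp only [Finset.mem_insert, Finset.mem_compl, Finset.mem_singleton, Finset.mem_univ,
        iff_true]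
      exact em _
    rw [h1, Pi.single_eq_same]
  · intro b hb hne
    exfalso
    apply hne
    simpa using hb
  · intro h
    exfalso
    apply h
    simp

theorem topM_ne (p : MvPolynomial (Fin n) K) {B : Finset (Fin n)} (h : ∀ a, B ≠ {a}ᶜ) :
    topM K n p B = 0 := by
  change kosD K n (Pi.single Finset.univ p) B = _
  rw [kosD_apply]
  apply Finset.sum_eq_zero
  intro a ha
  rw [Finset.mem_sdiff] at ha
  rw [Pi.single_eq_of_ne, mul_zero]
  intro h1
  apply h a
  ext x
  rw [Finset.mem_compl, Finset.mem_singleton]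
  constructor
  · rintro hx rfl
    exact ha.2 hx
  · intro hx
    have h2 : x ∈ insert a B := by
      rw [h1]
      exact Finset.mem_univ x
    exact Finset.mem_of_mem_insert_of_ne h2 hx

theorem sq_one (m : ℕ) : (-1 : MvPolynomial (Fin n) K) ^ m * (-1 : MvPolynomial (Fin n) K) ^ m =
    1 := by
  rw [← mul_pow]
  simp

theorem exists_compl {B : Finset (Fin n)} (hn : 1 ≤ n) (h : B.card = n - 1) : ∃ a, B = {a}ᶜ := by
  have h1 : Bᶜ.card = 1 := by
    rw [Finset.card_compl, Fintype.card_fin, h]
    omega
  obtain ⟨a, ha⟩ := Finset.card_eq_one.mp h1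
  exact ⟨a, by rw [← ha, compl_compl]⟩

theorem exists_top (hn : 2 ≤ n) {g : Finset (Fin n) → MvPolynomial (Fin n) K}
    (hk : kosD K n g = 0) (hg : ∀ A, A.card ≠ n - 1 → g A = 0) : ∃ p, topM K n p = g := by
  set G : Fin n → MvPolynomial (Fin n) K :=
    fun a => (-1 : MvPolynomial (Fin n) K) ^ nb a {a}ᶜ * g {a}ᶜ with hG
  have key : ∀ a b, a ≠ b → X a * G b = X b * G a := by
    intro a b hab
    have hB := congrFun hk ({a, b}ᶜ : Finset (Fin n))
    have hs : Finset.univ \ ({a, b}ᶜ : Finset (Fin n)) = {a, b} := by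
      ext x
      simp
      tauto
    have haB : a ∉ ({a, b}ᶜ : Finset (Fin n)) := by simp
    have hbB : b ∉ ({a, b}ᶜ : Finset (Fin n)) := by simp
    have ia : insert a ({a, b}ᶜ : Finset (Fin n)) = {b}ᶜ := by
      ext x
      simp only [Finset.mem_insert, Finset.mem_compl, Finset.mem_singleton, not_or]
      constructor
      · rintro (rfl | h)
        · exact hab
        · exact h.2
      · intro h
        by_cases hx : x = a
        · exact Or.inl hx
        · exact Or.inr ⟨hx, h⟩
    have ib : insert b ({a, b}ᶜ : Finset (Fin n)) = {a}ᶜ := by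
      ext x
      simp only [Finset.mem_insert, Finset.mem_compl, Finset.mem_singleton, not_or]
      constructor
      · rintro (rfl | h)
        · exact hab.symm
        · exact h.1
      · intro h
        by_cases hx : x = b
        · exact Or.inl hx
        · exact Or.inr ⟨h, hx⟩
    have na : nb a {a}ᶜ = nb a ({a, b}ᶜ : Finset (Fin n)) + if b < a then 1 else 0 := by
      rw [← ib, nb_insert hbB]
    have nbb : nb b {b}ᶜ = nb b ({a, b}ᶜ : Finset (Fin n)) + if a < b then 1 else 0 := by
      rw [← ia, nb_insert haB]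
    rw [kosD_apply, Pi.zero_apply, hs, Finset.sum_pair hab, ia, ib] at hB
    have s1 := sq_one (K := K) (n := n) (nb a ({a, b}ᶜ : Finset (Fin n)))
    have s2 := sq_one (K := K) (n := n) (nb b ({a, b}ᶜ : Finset (Fin n)))
    change X a * ((-1 : MvPolynomial (Fin n) K) ^ nb b {b}ᶜ * g {b}ᶜ) =
      X b * ((-1 : MvPolynomial (Fin n) K) ^ nb a {a}ᶜ * g {a}ᶜ)
    rw [na, nbb]
    rcases lt_or_gt_of_ne hab with h | h
    · rw [if_pos h, if_neg (not_lt.mpr h.le)]
      linear_combination
        (-((-1 : MvPolynomial (Fin n) K) ^ nb a ({a, b}ᶜ : Finset (Fin n)) *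
          (-1 : MvPolynomial (Fin n) K) ^ nb b ({a, b}ᶜ : Finset (Fin n)))) * hB +
        ((-1 : MvPolynomial (Fin n) K) ^ nb b ({a, b}ᶜ : Finset (Fin n)) * X a * g {b}ᶜ) * s1 +
        ((-1 : MvPolynomial (Fin n) K) ^ nb a ({a, b}ᶜ : Finset (Fin n)) * X b * g {a}ᶜ) * s2
    · rw [if_neg (not_lt.mpr h.le), if_pos h]
      linear_combination
        ((-1 : MvPolynomial (Fin n) K) ^ nb a ({a, b}ᶜ : Finset (Fin n)) *
          (-1 : MvPolynomial (Fin n) K) ^ nb b ({a, b}ᶜ : Finset (Fin n))) * hB -
        ((-1 : MvPolynomial (Fin n) K) ^ nb b ({a, b}ᶜ : Finset (Fin n)) * X a * g {b}ᶜ) * s1 -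
        ((-1 : MvPolynomial (Fin n) K) ^ nb a ({a, b}ᶜ : Finset (Fin n)) * X b * g {a}ᶜ) * s2
  let z : Fin n := ⟨0, by omega⟩
  let w : Fin n := ⟨1, by omega⟩
  have hzw : z ≠ w := by
    intro h
    have := congrArg Fin.val h
    simp [z, w] at this
  have hdvd : (X z : MvPolynomial (Fin n) K) ∣ X w * G z := ⟨G w, (key z w hzw).symm⟩
  rw [X_dvd_mul_iff, X_dvd_X] at hdvd
  rcases hdvd with h | ⟨p, hp⟩
  · exact absurd h hzw
  have hGa : ∀ a, G a = X a * p := by
    intro a
    by_cases ha : a = z
    · rw [ha]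
      exact hp
    · have h1 := key z a (fun h => ha h.symm)
      rw [hp] at h1
      have h2 : X z * G a = X z * (X a * p) := by
        rw [h1]
        ring
      exact mul_left_cancel₀ (X_ne_zero z) h2
  refine ⟨p, ?_⟩
  funext B
  by_cases hB : ∃ a, B = {a}ᶜ
  · obtain ⟨a, rfl⟩ := hB
    rw [topM_compl, mul_assoc, ← hGa a]
    change (-1 : MvPolynomial (Fin n) K) ^ nb a {a}ᶜ *
      ((-1 : MvPolynomial (Fin n) K) ^ nb a {a}ᶜ * g {a}ᶜ) = g {a}ᶜ
    rw [← mul_assoc, sq_one, one_mul]
  · push Not at hB
    rw [topM_ne p hB]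
    symm
    apply hg
    intro hc
    obtain ⟨a, ha⟩ := exists_compl (by omega) hc
    exact hB a ha

theorem topM_inj (hn : 1 ≤ n) : Function.Injective (topM K n) := by
  rw [injective_iff_map_eq_zero]
  intro p hp
  let z : Fin n := ⟨0, by omega⟩
  have h1 := congrFun hp ({z}ᶜ : Finset (Fin n))
  rw [topM_compl, Pi.zero_apply] at h1
  have h2 : (-1 : MvPolynomial (Fin n) K) ^ nb z {z}ᶜ ≠ 0 := by
    intro h0
    have := sq_one (K := K) (n := n) (nb z {z}ᶜ)
    rw [h0, zero_mul] at this
    exact zero_ne_one this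
  rcases mul_eq_zero.mp h1 with h3 | h3
  · rcases mul_eq_zero.mp h3 with h4 | h4
    · exact absurd h4 h2
    · exact absurd h4 (X_ne_zero z)
  · exact h3

theorem sign_mem {V : Submodule K (MvPolynomial (Fin n) K)} (m : ℕ) {q : MvPolynomial (Fin n) K} :
    (-1 : MvPolynomial (Fin n) K) ^ m * q ∈ V ↔ q ∈ V := by
  rcases Nat.even_or_odd m with h | h
  · rw [h.neg_one_pow, one_mul]
  · rw [h.neg_one_pow, neg_one_mul, Submodule.neg_mem_iff]

theorem hom_of_X_mul {p : MvPolynomial (Fin n) K} {e : ℕ} (i : Fin n)
    (h : (X i * p).IsHomogeneous (e + 1)) : p.IsHomogeneous e := by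
  have h1 : homogeneousComponent (e + 1) (X i * p) = X i * p := by
    rw [homogeneousComponent_of_mem (m := e + 1) (n := e + 1) h, if_pos rfl]
  rw [comp_X_mul] at h1
  have h2 := mul_left_cancel₀ (X_ne_zero i) h1
  rw [← h2]
  exact homogeneousComponent_isHomogeneous e p

theorem eq_zero_of_X_mul {p : MvPolynomial (Fin n) K} (i : Fin n)
    (h : (X i * p).IsHomogeneous 0) : p = 0 := by
  have h1 : homogeneousComponent 0 (X i * p) = X i * p := by
    rw [homogeneousComponent_of_mem (m := 0) (n := 0) h, if_pos rfl]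
  rw [homogeneousComponent_zero, coeff_X_mul', if_neg (by simp), map_zero] at h1
  exact (mul_eq_zero.mp h1.symm).resolve_left (X_ne_zero i)

theorem ker_inf_eq (hn : 2 ≤ n) (J : Ideal (MvPolynomial (Fin n) K)) (e : ℕ) :
    LinearMap.ker (kosD K n) ⊓ kosC J (n - 1) (e + n) = Submodule.map (topM K n) (SO J e) := by
  apply le_antisymm
  · rintro g ⟨h1, h2⟩
    have h2' := mem_kosC.mp h2
    obtain ⟨p, rfl⟩ := exists_top hn (LinearMap.mem_ker.mp h1) (fun A hA => by
      have := h2' A
      rw [if_neg (fun h => hA h.1)] at this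
      exact (Submodule.mem_bot K).mp this)
    refine ⟨p, ?_, rfl⟩
    have h3 : ∀ i, X i * p ∈ gr J (e + 1) := by
      intro i
      have h4 := h2' {i}ᶜ
      rw [if_pos ⟨by rw [Finset.card_compl, Fintype.card_fin, Finset.card_singleton], by omega⟩,
        topM_compl, mul_assoc, sign_mem] at h4
      rwa [show e + n - (n - 1) = e + 1 by omega] at h4
    refine mem_SO.mpr ⟨fun i => (mem_gr.mp (h3 i)).1, ?_⟩
    exact hom_of_X_mul ⟨0, by omega⟩ (mem_gr.mp (h3 ⟨0, by omega⟩)).2
  · rintro _ ⟨p, hp, rfl⟩
    obtain ⟨h1, h2⟩ := mem_SO.mp hp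
    refine ⟨?_, ?_⟩
    · rw [SetLike.mem_coe, LinearMap.mem_ker]
      exact kosD_sq _
    · rw [SetLike.mem_coe, mem_kosC]
      intro A
      by_cases hA : ∃ a, A = {a}ᶜ
      · obtain ⟨a, rfl⟩ := hA
        rw [if_pos ⟨by rw [Finset.card_compl, Fintype.card_fin, Finset.card_singleton], by omega⟩,
          topM_compl, mul_assoc, sign_mem, show e + n - (n - 1) = e + 1 by omega]
        refine mem_gr.mpr ⟨h1 a, ?_⟩
        have := (isHomogeneous_X K a).mul h2
        rwa [add_comm] at this
      · push Not at hA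
        rw [topM_ne p hA]
        exact zero_mem _

theorem map_top_eq (hn : 1 ≤ n) (J : Ideal (MvPolynomial (Fin n) K)) (e : ℕ) :
    Submodule.map (kosD K n) (kosC J (n - 1 + 1) (e + n)) =
      Submodule.map (topM K n) (gr J e) := by
  have h0 : n - 1 + 1 = n := by omega
  rw [h0]
  have h1 : kosC J n (e + n) = Submodule.map (LinearMap.single K
      (fun _ : Finset (Fin n) => MvPolynomial (Fin n) K) Finset.univ) (gr J e) := by
    ext g
    rw [mem_kosC]
    constructor
    · intro h
      refine ⟨g Finset.univ, ?_, ?_⟩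
      · have := h Finset.univ
        rw [if_pos ⟨by rw [Finset.card_univ, Fintype.card_fin], by omega⟩] at this
        rwa [show e + n - n = e by omega] at this
      · funext A
        rw [LinearMap.single_apply]
        by_cases hA : A = Finset.univ
        · subst hA
          rw [Pi.single_eq_same]
        · rw [Pi.single_eq_of_ne hA]
          have := h A
          rw [if_neg (by
            rintro ⟨h1, _⟩
            apply hA
            rw [← Finset.card_eq_iff_eq_univ, h1, Fintype.card_fin])] at this
          exact ((Submodule.mem_bot K).mp this).symm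
    · rintro ⟨p, hp, rfl⟩ A
      rw [LinearMap.single_apply]
      by_cases hA : A = Finset.univ
      · subst hA
        rw [Pi.single_eq_same, if_pos ⟨by rw [Finset.card_univ, Fintype.card_fin], by omega⟩]
        rwa [show e + n - n = e by omega]
      · rw [Pi.single_eq_of_ne hA]
        exact zero_mem _
  rw [h1, topM, Submodule.map_comp]

theorem betti_last (hn : 2 ≤ n) (J : Ideal (MvPolynomial (Fin n) K)) (e : ℕ) :
    betti J (n - 1) (e + n) = finrank K (SO J e) - hilbI J e := by
  unfold betti hilbI
  rw [ker_inf_eq hn, map_top_eq (by omega), finrank_map_inj _ (topM_inj (by omega)),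
    finrank_map_inj _ (topM_inj (by omega))]
  rfl

theorem betti_last_low (hn : 2 ≤ n) (J : Ideal (MvPolynomial (Fin n) K)) {j : ℕ} (hj : j < n) :
    betti J (n - 1) j = 0 := by
  have h1 : LinearMap.ker (kosD K n) ⊓ kosC J (n - 1) j = ⊥ := by
    rw [eq_bot_iff]
    rintro g ⟨h1, h2⟩
    have h2' := mem_kosC.mp h2
    obtain ⟨p, rfl⟩ := exists_top hn (LinearMap.mem_ker.mp h1) (fun A hA => by
      have := h2' A
      rw [if_neg (fun h => hA h.1)] at this
      exact (Submodule.mem_bot K).mp this)
    have h4 := h2' {(⟨0, by omega⟩ : Fin n)}ᶜ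
    have h5 : p = 0 := by
      by_cases hc : n - 1 ≤ j
      · rw [if_pos ⟨by rw [Finset.card_compl, Fintype.card_fin, Finset.card_singleton], hc⟩,
          topM_compl, mul_assoc, sign_mem, show j - (n - 1) = 0 by omega] at h4
        exact eq_zero_of_X_mul _ (mem_gr.mp h4).2
      · rw [if_neg (fun h => hc h.2), topM_compl, mul_assoc, sign_mem, Submodule.mem_bot] at h4
        exact (mul_eq_zero.mp h4).resolve_left (X_ne_zero _)
    rw [h5, map_zero]
    exact zero_mem _
  unfold betti
  rw [h1, finrank_bot, Nat.zero_sub]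

/-- the first and the last graded Betti numbers -/
theorem lpp_ends_betti {n r : ℕ} (hr : r ≤ n) (a : Fin r → ℕ) (I : Ideal (MvPolynomial (Fin n) K))
    (h : HasReg a I) (hA : Adm a) :
    ∃ P, IsLPP hr a I P ∧ ∀ j, betti I 0 j ≤ betti P 0 j ∧
      betti I (n - 1) j ≤ betti P (n - 1) j := by
  obtain ⟨P, hP, h1, h2⟩ := lpp_ends hr a I h hA
  have hH : ∀ e, hilbI P e = hilbI I e := hP.hilb
  have h0 : ∀ j, betti I 0 j ≤ betti P 0 j := by
    intro j
    have e1 := betti_zero (J := I) h.1 j
    have e2 := betti_zero (J := P) hP.homog j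
    have e3 := h1 j
    have e4 := hH j
    omega
  refine ⟨P, hP, fun j => ⟨h0 j, ?_⟩⟩
  by_cases hn : 2 ≤ n
  · by_cases hj : j < n
    · rw [betti_last_low hn I hj]
      exact Nat.zero_le _
    · obtain ⟨e, rfl⟩ : ∃ e, j = e + n := ⟨j - n, by omega⟩
      rw [betti_last hn, betti_last hn]
      have e3 := h2 e
      have e4 := hH e
      omega
  · have h3 : n - 1 = 0 := by omega
    rw [h3]
    exact h0 j

end Run7.H941.N
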