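import Pool.Agent.Run7.h941.DetTrick

/-!
Chains of subspaces with injective multiplication, and the non existence of flat pairs.
-/

set_option autoImplicit false

open Module Polynomial

namespace Run7.H941

variable {k Λ : Type*} [Field k] [CommRing Λ] [Algebra k Λ]

/-- span of shifted generators -/
def Sp (k : Type*) {Λ : Type*} [Field k] [CommRing Λ] [Algebra k Λ] (y : Λ)
    (G : Finset (Λ × ℕ)) (m : ℕ) : Submodule k Λ :=
  Submodule.span k {w | ∃ g ∈ G, ∃ i : ℕ, g.2 + i ≤ m ∧ w = y ^ i * g.1}

theorem Sp_mono_right {y : Λ} (G : Finset (Λ × ℕ)) {m m' : ℕ} (h : m ≤ m') :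
    Sp k y G m ≤ Sp k y G m' := by
  apply Submodule.span_mono
  rintro w ⟨g, hg, i, hi, rfl⟩
  exact ⟨g, hg, i, by omega, rfl⟩

theorem Sp_mono_left {y : Λ} {G G' : Finset (Λ × ℕ)} (h : G ⊆ G') (m : ℕ) :
    Sp k y G m ≤ Sp k y G' m := by
  apply Submodule.span_mono
  rintro w ⟨g, hg, i, hi, rfl⟩
  exact ⟨g, h hg, i, hi, rfl⟩

theorem mul_mem_Sp {y : Λ} {G : Finset (Λ × ℕ)} {m : ℕ} {w : Λ} (hw : w ∈ Sp k y G m) :
    y * w ∈ Sp k y G (m + 1) := by
  have h : Sp k y G m ≤ (Sp k y G (m + 1)).comap (LinearMap.mulLeft k y) := by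
    unfold Sp
    rw [Submodule.span_le]
    rintro w ⟨g, hg, i, hi, rfl⟩
    apply Submodule.subset_span
    exact ⟨g, hg, i + 1, by omega, by simp only [LinearMap.mulLeft_apply]; ring⟩
  exact h hw

theorem gen_mem_Sp {y : Λ} {G : Finset (Λ × ℕ)} {g : Λ × ℕ} (hg : g ∈ G) {m : ℕ}
    (hm : g.2 ≤ m) : g.1 ∈ Sp k y G m :=
  Submodule.subset_span ⟨g, hg, 0, by omega, by simp⟩

/-- membership in terms of polynomial coefficients -/
theorem exists_coeff_of_mem_Sp {y : Λ} {G : Finset (Λ × ℕ)} {m : ℕ} {w : Λ}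
    (hw : w ∈ Sp k y G m) : ∃ c : ↥G → k[X], (∀ q j, (c q).coeff j ≠ 0 → q.1.2 + j ≤ m) ∧
      w = ∑ q, aeval y (c q) * q.1.1 := by
  classical
  unfold Sp at hw
  induction hw using Submodule.span_induction with
  | mem w hw =>
    obtain ⟨g, hg, i, hi, rfl⟩ := hw
    refine ⟨fun q => if q = ⟨g, hg⟩ then X ^ i else 0, ?_, ?_⟩
    · intro q j hj
      simp only at hj
      split_ifs at hj with h
      · rw [coeff_X_pow] at hj
        split_ifs at hj with h'
        · subst h; subst h'; exact hi
        · exact absurd rfl hj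
      · simp at hj
    · rw [Finset.sum_eq_single (⟨g, hg⟩ : ↥G)]
      · simp
      · intro q _ hq
        simp [hq]
      · intro h
        exact absurd (Finset.mem_univ _) h
  | zero =>
    refine ⟨fun _ => 0, ?_, ?_⟩
    · intro q j hj
      simp at hj
    · simp
  | add w1 w2 _ _ h1 h2 =>
    obtain ⟨c1, hc1, rfl⟩ := h1
    obtain ⟨c2, hc2, rfl⟩ := h2
    refine ⟨fun q => c1 q + c2 q, ?_, ?_⟩
    · intro q j hj
      rw [coeff_add] at hj
      by_cases h : (c1 q).coeff j = 0
      · rw [h, zero_add] at hj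
        exact hc2 q j hj
      · exact hc1 q j h
    · rw [← Finset.sum_add_distrib]
      apply Finset.sum_congr rfl
      intro q _
      rw [map_add, add_mul]
  | smul r w1 _ h1 =>
    obtain ⟨c1, hc1, rfl⟩ := h1
    refine ⟨fun q => r • c1 q, ?_, ?_⟩
    · intro q j hj
      rw [coeff_smul] at hj
      exact hc1 q j (fun h => hj (by rw [h, smul_zero]))
    · rw [Finset.smul_sum]
      apply Finset.sum_congr rfl
      intro q _
      rw [map_smul, smul_mul_assoc]

variable [FiniteDimensional k Λ]

/-- complements spanned by few elements -/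
theorem exists_complement_finset (Z W : Submodule k Λ) (h : Z ≤ W) :
    ∃ B : Finset Λ, B.card + finrank k Z ≤ finrank k W ∧
      Z ⊔ Submodule.span k (B : Set Λ) = W := by
  classical
  obtain ⟨Z', hZ'⟩ := Submodule.exists_isCompl Z
  let Z2 : Submodule k Λ := Z' ⊓ W
  have hsup : Z ⊔ Z2 = W := by
    change Z ⊔ (Z' ⊓ W) = W
    rw [← sup_inf_assoc_of_le _ h, hZ'.sup_eq_top, top_inf_eq]
  have hinf : Z ⊓ Z2 = ⊥ := by
    rw [eq_bot_iff]
    intro v hv
    rw [← hZ'.inf_eq_bot]
    exact ⟨hv.1, hv.2.1⟩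
  have hdim := Submodule.finrank_sup_add_finrank_inf_eq Z Z2
  rw [hsup, hinf, finrank_bot, add_zero] at hdim
  let bs := Module.finBasis k Z2
  refine ⟨Finset.univ.image (fun i => (bs i : Λ)), ?_, ?_⟩
  · have : (Finset.univ.image (fun i => (bs i : Λ))).card ≤ finrank k Z2 := by
      calc (Finset.univ.image (fun i => (bs i : Λ))).card ≤ (Finset.univ : Finset (Fin _)).card :=
            Finset.card_image_le
        _ = finrank k Z2 := by simp
    omega
  · have hspan : Submodule.span k ((Finset.univ.image (fun i => (bs i : Λ)) : Finset Λ) : Set Λ) =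
        Z2 := by
      rw [Finset.coe_image, Finset.coe_univ, Set.image_univ]
      have h1 := bs.span_eq
      have h2 := congrArg (Submodule.map Z2.subtype) h1
      rw [Submodule.map_span, Submodule.map_top, Submodule.range_subtype] at h2
      refine Eq.trans ?_ h2
      rw [← Set.range_comp]
      rfl
    rw [hspan, hsup]

/-- dimension of `W + yW` -/
theorem finrank_add_mul (y : Λ) (W P : Submodule k Λ) (hP : ∀ n ∈ W, y * n ∈ W → n ∈ P) :
    2 * finrank k W ≤
      finrank k (W ⊔ W.map (LinearMap.mulLeft k y) : Submodule k Λ) + finrank k P := by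
  let φ : W →ₗ[k] (Λ ⧸ W) := W.mkQ.comp ((LinearMap.mulLeft k y).comp W.subtype)
  have h1 := LinearMap.finrank_range_add_finrank_ker φ
  have h2 : LinearMap.range φ ≤ (W ⊔ W.map (LinearMap.mulLeft k y) : Submodule k Λ).map W.mkQ := by
    rintro _ ⟨n, rfl⟩
    exact ⟨y * n, Submodule.mem_sup_right ⟨n, n.2, rfl⟩, rfl⟩
  have h3 := Submodule.finrank_mono h2
  have h4 := fr_map W (W ⊔ W.map (LinearMap.mulLeft k y) : Submodule k Λ) le_sup_left
  have h5 : finrank k (LinearMap.ker φ) ≤ finrank k P := by
    let j : LinearMap.ker φ →ₗ[k] P := LinearMap.codRestrict _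
      (W.subtype.comp (LinearMap.ker φ).subtype) (by
        rintro ⟨n, hn⟩
        rw [LinearMap.mem_ker] at hn
        have hn' : W.mkQ (y * (n : Λ)) = 0 := hn
        rw [Submodule.mkQ_apply, Submodule.Quotient.mk_eq_zero] at hn'
        exact hP n n.2 hn')
    apply LinearMap.finrank_le_finrank_of_injective (f := j)
    intro e e' h
    apply Subtype.ext
    apply Subtype.ext
    exact congrArg (fun z : P => (z : Λ)) h
  omega

/-- generators of a chain with injective multiplication by `y` -/
theorem chain_generators (y : Λ) (W : ℕ → Submodule k Λ) (h0 : W 0 = ⊥) : ∀ M : ℕ,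
    (∀ m < M, W m ≤ W (m + 1)) → (∀ m < M, ∀ n ∈ W m, y * n ∈ W (m + 1)) →
    (∀ m < M, ∀ n ∈ W m, y * n ∈ W m → n ∈ W (m - 1)) →
    ∃ G : Finset (Λ × ℕ), G.card + finrank k (W (M - 1)) ≤ finrank k (W M) ∧
      (∀ g ∈ G, g.2 ≤ M) ∧ ∀ m ≤ M, W m = Sp k y G m := by
  classical
  intro M
  induction M with
  | zero =>
    intro _ _ _
    refine ⟨∅, by simp, by simp, ?_⟩
    intro m hm
    have : m = 0 := by omega
    subst this
    rw [h0]
    symm
    rw [eq_bot_iff]
    unfold Sp
    rw [Submodule.span_le]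
    rintro w ⟨g, hg, _⟩
    simp at hg
  | succ M ih =>
    intro hmono hy hinj
    obtain ⟨G, hG1, hG2, hG3⟩ := ih (fun m hm => hmono m (by omega)) (fun m hm => hy m (by omega))
      (fun m hm => hinj m (by omega))
    let Z : Submodule k Λ := W M ⊔ (W M).map (LinearMap.mulLeft k y)
    have hZ : Z ≤ W (M + 1) := by
      apply sup_le (hmono M (by omega))
      rintro _ ⟨n, hn, rfl⟩
      exact hy M (by omega) n hn
    obtain ⟨B, hB1, hB2⟩ := exists_complement_finset Z (W (M + 1)) hZ
    have hdim := finrank_add_mul y (W M) (W (M - 1)) (hinj M (by omega))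
    have hdim' : 2 * finrank k (W M) ≤ finrank k Z + finrank k (W (M - 1)) := hdim
    let G' : Finset (Λ × ℕ) := G ∪ B.image (fun w => (w, M + 1))
    have hG'card : G'.card ≤ G.card + B.card :=
      (Finset.card_union_le _ _).trans (Nat.add_le_add_left Finset.card_image_le _)
    refine ⟨G', ?_, ?_, ?_⟩
    · have : M + 1 - 1 = M := by omega
      rw [this]
      omega
    · intro g hg
      rcases Finset.mem_union.mp hg with hg | hg
      · exact (hG2 g hg).trans (by omega)
      · obtain ⟨w, _, rfl⟩ := Finset.mem_image.mp hg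
        exact le_rfl
    · intro m hm
      rcases Nat.lt_or_ge M m with hm' | hm'
      · have hmM : m = M + 1 := by omega
        subst hmM
        apply le_antisymm
        · rw [← hB2]
          apply sup_le
          · apply sup_le
            · rw [hG3 M le_rfl]
              exact (Sp_mono_right G (by omega)).trans (Sp_mono_left Finset.subset_union_left _)
            · rintro _ ⟨n, hn, rfl⟩
              rw [hG3 M le_rfl] at hn
              exact Sp_mono_left Finset.subset_union_left _ (mul_mem_Sp hn)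
          · rw [Submodule.span_le]
            intro w hw
            exact gen_mem_Sp (g := (w, M + 1)) (Finset.mem_union_right _
              (Finset.mem_image.mpr ⟨w, hw, rfl⟩)) le_rfl
        · unfold Sp
          rw [Submodule.span_le]
          rintro w ⟨g, hg, i, hi, rfl⟩
          rcases Finset.mem_union.mp hg with hg' | hg'
          · have hgM := hG2 g hg'
            rcases Nat.eq_zero_or_pos i with hi0 | hi0
            · subst hi0
              rw [pow_zero, one_mul]
              apply hmono M (by omega)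
              rw [hG3 M le_rfl]
              exact gen_mem_Sp hg' hgM
            · obtain ⟨i', rfl⟩ : ∃ i', i = i' + 1 := ⟨i - 1, by omega⟩
              have : y ^ (i' + 1) * g.1 = y * (y ^ i' * g.1) := by ring
              rw [this]
              apply hy M (by omega)
              rw [hG3 M le_rfl]
              exact Submodule.subset_span ⟨g, hg', i', by omega, rfl⟩
          · obtain ⟨w, hw, rfl⟩ := Finset.mem_image.mp hg'
            simp only at hi ⊢
            have : i = 0 := by omega
            subst this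
            rw [pow_zero, one_mul, ← hB2]
            exact Submodule.mem_sup_right (Submodule.subset_span hw)
      · rw [hG3 m hm']
        apply le_antisymm (Sp_mono_left Finset.subset_union_left _)
        unfold Sp
        rw [Submodule.span_le]
        rintro w ⟨g, hg, i, hi, rfl⟩
        rcases Finset.mem_union.mp hg with hg' | hg'
        · exact Submodule.subset_span ⟨g, hg', i, hi, rfl⟩
        · obtain ⟨w, _, rfl⟩ := Finset.mem_image.mp hg'
          simp only at hi
          omega

theorem Bq_eq_T {a b n : ℕ} (hn : n < a) (hab : a ≤ b) : Bq a b (n + 1) = T n := by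
  ext p
  rw [mem_Bq, mem_T]
  omega

variable {x y h : Λ} {a b c : ℕ} {E : ℕ → Submodule k Λ}

/-- `E (r+1)` is spanned by monomials -/
theorem AffSys.E_le_span (S : AffSys x y h a b c E) (r : ℕ) :
    E (r + 1) ≤ Submodule.span k ((fun p : ℕ × ℕ => x ^ p.1 * y ^ p.2) ''
      ((T r : Finset (ℕ × ℕ)) : Set (ℕ × ℕ))) := by
  induction r with
  | zero =>
    rw [S.E1]
    apply Submodule.span_mono
    intro w hw
    rw [Set.mem_singleton_iff] at hw
    refine ⟨(0, 0), ?_, ?_⟩
    · rw [Finset.mem_coe, mem_T]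
      simp
    · simp [hw]
  | succ r ih =>
    have hS : Submodule.span k ((fun p : ℕ × ℕ => x ^ p.1 * y ^ p.2) ''
      ((T r : Finset (ℕ × ℕ)) : Set (ℕ × ℕ))) ≤ pv x y (Submodule.span k
        ((fun p : ℕ × ℕ => x ^ p.1 * y ^ p.2) ''
          ((T (r + 1) : Finset (ℕ × ℕ)) : Set (ℕ × ℕ)))) := by
      rw [Submodule.span_le]
      rintro _ ⟨p, hp, rfl⟩
      rw [Finset.mem_coe, mem_T] at hp
      rw [SetLike.mem_coe, mem_pv]
      refine ⟨Submodule.subset_span ⟨p, ?_, rfl⟩, Submodule.subset_span ⟨(p.1 + 1, p.2), ?_, ?_⟩,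
        Submodule.subset_span ⟨(p.1, p.2 + 1), ?_, ?_⟩⟩
      · rw [Finset.mem_coe, mem_T]; omega
      · rw [Finset.mem_coe, mem_T]; simp only; omega
      · simp only; ring
      · rw [Finset.mem_coe, mem_T]; simp only; omega
      · simp only; ring
    have e : E (r + 1 + 1) = nx x y (E (r + 1)) := S.Es r
    rw [e, ← le_pv_iff]
    exact ih.trans hS

/-- no relation of degree `n < a` -/
theorem AffSys.no_relation (S : AffSys x y h a b c E) {n : ℕ} (hn : n < a) :
    x ^ n ∉ Submodule.span k ((fun p : ℕ × ℕ => x ^ p.1 * y ^ p.2) ''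
      ((T n).filter (fun p => p.1 < n) : Finset (ℕ × ℕ))) := by
  classical
  intro hmem
  have h1 : E (n + 1) ≤ Submodule.span k ((fun p : ℕ × ℕ => x ^ p.1 * y ^ p.2) ''
      ((T n).filter (fun p => p.1 < n) : Finset (ℕ × ℕ))) := by
    refine (S.E_le_span n).trans ?_
    rw [Submodule.span_le]
    rintro _ ⟨p, hp, rfl⟩
    rw [Finset.mem_coe, mem_T] at hp
    by_cases h : p.1 < n
    · apply Submodule.subset_span
      refine ⟨p, ?_, rfl⟩
      rw [Finset.mem_coe, Finset.mem_filter, mem_T]
      exact ⟨hp, h⟩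
    · have h1 : p.1 = n := by omega
      have h2 : p.2 = 0 := by omega
      rw [SetLike.mem_coe]
      simp only [h1, h2, pow_zero, mul_one]
      exact hmem
  have h2 := Submodule.finrank_mono h1
  have h3 : finrank k (Submodule.span k ((fun p : ℕ × ℕ => x ^ p.1 * y ^ p.2) ''
      ((T n).filter (fun p => p.1 < n) : Finset (ℕ × ℕ)))) ≤
        ((T n).filter (fun p => p.1 < n)).card := by
    have := finrank_span_finset_le_card (R := k)
      (((T n).filter (fun p => p.1 < n)).image (fun p : ℕ × ℕ => x ^ p.1 * y ^ p.2))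
    rw [Finset.coe_image] at this
    exact this.trans Finset.card_image_le
  have h4 : ((T n).filter (fun p => p.1 < n)).card < (T n).card := by
    apply Finset.card_lt_card
    rw [Finset.filter_ssubset]
    refine ⟨(n, 0), ?_, ?_⟩
    · rw [mem_T]
      simp
    · simp
  rw [S.dE, Bq_eq_T hn S.hab] at h2
  omega

/-- iterated `pv` -/
def Wd (x y : Λ) (V : Submodule k Λ) : ℕ → Submodule k Λ
  | 0 => V
  | j + 1 => pv x y (Wd x y V j)

theorem Wd_inj {V : Submodule k Λ} (hinj : ∀ n ∈ V, y * n ∈ V → x * n ∈ V) :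
    ∀ j, ∀ n ∈ Wd x y V j, y * n ∈ Wd x y V j → n ∈ Wd x y V (j + 1) := by
  intro j
  induction j with
  | zero =>
    intro n hn hyn
    exact mem_pv.mpr ⟨hn, hinj n hn hyn, hyn⟩
  | succ j ih =>
    intro n hn hyn
    have hn' := mem_pv.mp hn
    have hyn' := mem_pv.mp hyn
    refine mem_pv.mpr ⟨hn, ?_, hyn⟩
    apply ih (x * n) hn'.2.1
    have : y * (x * n) = x * (y * n) := by ring
    rw [this]
    exact hyn'.2.1

theorem AffSys.Wd_le (S : AffSys x y h a b c E) {D : ℕ} (hD : D + 2 ≤ a + b)
    {V : Submodule k Λ} (hV : V ≤ E D) : ∀ j, j ≤ D → Wd x y V j ≤ E (D - j) := by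
  intro j
  induction j with
  | zero =>
    intro _
    exact hV
  | succ j ih =>
    intro hj n hn
    have hn' := mem_pv.mp hn
    have ih' := ih (by omega)
    have e : D - j = D - (j + 1) + 1 := by omega
    rw [e] at ih'
    exact S.soc _ _ (by omega) (ih' hn'.1) (ih' hn'.2.1) (ih' hn'.2.2)

/-- There is no flat pair with injective multiplication. -/
theorem AffSys.no_flat (S : AffSys x y h a b c E) {D : ℕ} (hD : D + 2 ≤ a + b) (hD1 : 1 ≤ D)
    {V U : Submodule k Λ} (hV : V ≤ E D) (hVU : nx x y V ≤ U)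
    (hhU : h ∈ U) (hinj : ∀ n ∈ V, y * n ∈ V → x * n ∈ V)
    (hflat : finrank k U + finrank k (pv x y V) ≤ 2 * finrank k V)
    (hg : finrank k V < finrank k (pv x y V) + a) : False := by
  classical
  let W : ℕ → Submodule k Λ := fun m => Wd x y V (D - m)
  have hWD : W D = V := by
    change Wd x y V (D - D) = V
    rw [Nat.sub_self]
    rfl
  have hWD1 : W (D - 1) = pv x y V := by
    change Wd x y V (D - (D - 1)) = _
    have : D - (D - 1) = 0 + 1 := by omega
    rw [this]
    rfl
  have hstep : ∀ m < D, W m = pv x y (W (m + 1)) := by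
    intro m hm
    change Wd x y V (D - m) = pv x y (Wd x y V (D - (m + 1)))
    have : D - m = D - (m + 1) + 1 := by omega
    rw [this]
    rfl
  have h0 : W 0 = ⊥ := by
    rw [eq_bot_iff, ← S.E0]
    have := S.Wd_le hD hV D le_rfl
    rw [Nat.sub_self] at this
    exact this
  obtain ⟨G, hG1, hG2, hG3⟩ := chain_generators y W h0 D
    (fun m hm => by rw [hstep m hm]; exact pv_le _)
    (fun m hm n hn => by
      rw [hstep m hm] at hn
      exact (mem_pv.mp hn).2.2)
    (fun m hm n hn hyn => by
      rcases Nat.eq_zero_or_pos m with hm0 | hm0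
      · subst hm0
        exact hn
      · have := Wd_inj hinj (D - m) n hn hyn
        change n ∈ Wd x y V (D - (m - 1))
        have e : D - (m - 1) = D - m + 1 := by omega
        rw [e]
        exact this)
  rw [hWD, hWD1] at hG1
  -- `U` is spanned by the same generators
  have hUeq : U = V ⊔ V.map (LinearMap.mulLeft k y) := by
    symm
    apply Submodule.eq_of_le_of_finrank_le
    · apply sup_le ((le_nx V).trans hVU)
      rintro _ ⟨n, hn, rfl⟩
      exact hVU (y_mem_nx hn)
    · have := finrank_add_mul y V (pv x y V) (fun n hn hyn => mem_pv.mpr ⟨hn, hinj n hn hyn, hyn⟩)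
      omega
  have hUSp : U ≤ Sp k y G (D + 1) := by
    rw [hUeq]
    have hVSp : V = Sp k y G D := by rw [← hWD]; exact hG3 D le_rfl
    apply sup_le
    · rw [hVSp]; exact Sp_mono_right G (by omega)
    · rintro _ ⟨n, hn, rfl⟩
      rw [hVSp] at hn
      exact mul_mem_Sp hn
  -- multiplication by `x`
  have hx : ∀ g : ↥G, x * g.1.1 ∈ Sp k y G (g.1.2 + 1) := by
    intro g
    have hgD := hG2 g.1 g.2
    have hgW : g.1.1 ∈ W g.1.2 := by
      rw [hG3 _ hgD]
      exact gen_mem_Sp g.2 le_rfl
    rcases Nat.lt_or_ge g.1.2 D with hlt | hge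
    · rw [← hG3 _ hlt]
      rw [hstep _ hlt] at hgW
      exact (mem_pv.mp hgW).2.1
    · have : g.1.2 = D := by omega
      rw [this] at hgW ⊢
      rw [hWD] at hgW
      exact hUSp (hVU (x_mem_nx hgW))
  choose cc hcc1 hcc2 using fun g : ↥G => exists_coeff_of_mem_Sp (hx g)
  let A : Matrix ↥G ↥G k[X] := fun p q => cc p q
  have hA : ∀ p q j, (A p q).coeff j ≠ 0 → (j : ℤ) ≤ (p.1.2 : ℤ) + 1 - (q.1.2 : ℤ) := by
    intro p q j hj
    have := hcc1 p q j hj
    have h2 : ((q.1.2 + j : ℕ) : ℤ) ≤ ((p.1.2 + 1 : ℕ) : ℤ) := by exact_mod_cast this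
    push_cast at h2
    linarith
  have hTD := TD_charpoly (fun g : ↥G => (g.1.2 : ℤ)) A hA
  have hdet := det_trick x y (fun g : ↥G => g.1.1) A (fun p => hcc2 p)
  -- kills `h`
  obtain ⟨ch, _, hch⟩ := exists_coeff_of_mem_Sp (hUSp hhU)
  have hkill : ev2 (k := k) x y A.charpoly * h = 0 := by
    rw [hch, Finset.mul_sum]
    apply Finset.sum_eq_zero
    intro q _
    have : ev2 (k := k) x y A.charpoly * (aeval y (ch q) * q.1.1) =
        aeval y (ch q) * (ev2 (k := k) x y A.charpoly * q.1.1) := by ring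
    rw [this, hdet q, mul_zero]
  have hzero : ev2 (k := k) x y A.charpoly = 0 := by
    obtain ⟨u, hu⟩ := S.hu
    rw [← hu] at hkill
    exact (Units.mul_left_eq_zero u).mp hkill
  have hcard : Fintype.card ↥G = G.card := Fintype.card_coe G
  have := relation_span x y G.card A.charpoly A.charpoly_monic
    (by
      have hnt : Nontrivial k[X] := inferInstance
      rw [Matrix.charpoly_natDegree_eq_dim, hcard]) (by rw [← hcard]; exact hTD) hzero
  exact S.no_relation (by omega) this

end Run7.H941
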