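import Pool.Agent.Run7.h941.Comb

/-!
Counting functions for lexicographic thresholds with a bottom layer.
-/

set_option autoImplicit false

namespace Run7.H941

/-- elements of the box of degree `< D` which are `≥ t` or have degree `< e` -/
def Qs (a b D e : ℕ) (t : ℕ × ℕ) : Finset (ℕ × ℕ) :=
  (Finset.range a ×ˢ Finset.range b).filter
    (fun p => p.1 + p.2 < D ∧ (lx t p ∨ p.1 + p.2 < e))

theorem mem_Qs {a b D e : ℕ} {t p : ℕ × ℕ} :
    p ∈ Qs a b D e t ↔ (p.1 < a ∧ p.2 < b) ∧ p.1 + p.2 < D ∧ (lx t p ∨ p.1 + p.2 < e) := by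
  simp [Qs]

/-- elements of the box of degree `< m` -/
def Bq (a b m : ℕ) : Finset (ℕ × ℕ) :=
  (Finset.range a ×ˢ Finset.range b).filter (fun p => p.1 + p.2 < m)

theorem mem_Bq {a b m : ℕ} {p : ℕ × ℕ} :
    p ∈ Bq a b m ↔ (p.1 < a ∧ p.2 < b) ∧ p.1 + p.2 < m := by
  simp [Bq]

/-- elements of the box of degree `e`, not `≥ t` -/
def botS (a b e : ℕ) (t : ℕ × ℕ) : Finset (ℕ × ℕ) :=
  (AD e).filter (fun p => p.1 < a ∧ p.2 < b ∧ ¬ lx t p)

theorem mem_botS {a b m : ℕ} {t p : ℕ × ℕ} :
    p ∈ botS a b m t ↔ p.1 + p.2 = m ∧ p.1 < a ∧ p.2 < b ∧ ¬ lx t p := by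
  simp [botS, mem_AD]

theorem Bq_succ (a b m : ℕ) : Bq a b (m + 1) = Bx a b m := by
  ext p
  rw [mem_Bq, mem_Bx]
  omega

theorem Qs_mono {a b D e : ℕ} {s t : ℕ × ℕ} (h : lx s t) : Qs a b D e t ⊆ Qs a b D e s := by
  intro p hp
  rw [mem_Qs] at hp ⊢
  refine ⟨hp.1, hp.2.1, ?_⟩
  rcases hp.2.2 with h1 | h1
  · exact Or.inl (lx_trans h h1)
  · exact Or.inr h1

theorem Qs_top {a b D e : ℕ} {t : ℕ × ℕ} (ht : a ≤ t.1) (he : e ≤ D) :
    Qs a b D e t = Bq a b e := by
  ext p
  rw [mem_Qs, mem_Bq]
  unfold lx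
  omega

theorem Qs_subset {a b D e : ℕ} {t : ℕ × ℕ} : Qs a b D e t ⊆ Bq a b D := by
  intro p hp
  rw [mem_Qs] at hp
  rw [mem_Bq]
  exact ⟨hp.1, hp.2.1⟩

theorem Bq_subset_Qs {a b D e : ℕ} (he : e ≤ D) {t : ℕ × ℕ} : Bq a b e ⊆ Qs a b D e t := by
  intro p hp
  rw [mem_Bq] at hp
  rw [mem_Qs]
  exact ⟨hp.1, by omega, Or.inr hp.2⟩

/-- growth of the lexicographic pair -/
theorem Qs_growth {a b D e : ℕ} (he : e < D) (t : ℕ × ℕ) :
    (Qs a b (D + 1) (e + 1) t).card =
      (Qs a b D e t).card + (topS a b D t).card + (botS a b e t).card := by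
  classical
  have hd1 : Disjoint (Qs a b D e t) (topS a b D t) := by
    rw [Finset.disjoint_left]
    intro p hp hq
    rw [mem_Qs] at hp
    rw [mem_topS] at hq
    omega
  have hd2 : Disjoint (Qs a b D e t ∪ topS a b D t) (botS a b e t) := by
    rw [Finset.disjoint_left]
    intro p hp hq
    rw [Finset.mem_union, mem_Qs, mem_topS] at hp
    rw [mem_botS] at hq
    rcases hp with hp | hp
    · rcases hp.2.2 with h | h
      · exact hq.2.2.2 h
      · omega
    · exact hq.2.2.2 hp.2.2.2
  rw [← Finset.card_union_of_disjoint hd1, ← Finset.card_union_of_disjoint hd2]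
  congr 1
  ext p
  simp only [Finset.mem_union, mem_Qs, mem_topS, mem_botS]
  constructor
  · rintro ⟨h1, h2, h3⟩
    by_cases hl : lx t p
    · left
      by_cases h : p.1 + p.2 < D
      · left; exact ⟨h1, h, Or.inl hl⟩
      · right; exact ⟨by omega, h1.1, h1.2, hl⟩
    · have h3' : p.1 + p.2 < e + 1 := by
        rcases h3 with h3 | h3
        · exact absurd h3 hl
        · exact h3
      by_cases h : p.1 + p.2 < e
      · left; left; exact ⟨h1, by omega, Or.inr h⟩
      · right; exact ⟨by omega, h1.1, h1.2, hl⟩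
  · rintro ((⟨h1, h2, h3⟩ | ⟨h1, h2, h3, h4⟩) | ⟨h1, h2, h3, h4⟩)
    · refine ⟨h1, by omega, ?_⟩
      rcases h3 with h3 | h3
      · exact Or.inl h3
      · exact Or.inr (by omega)
    · exact ⟨⟨h2, h3⟩, by omega, Or.inl h4⟩
    · exact ⟨⟨h2, h3⟩, by omega, Or.inr (by omega)⟩

/-- growth without bottom layer -/
theorem Qs_growth0 {a b D : ℕ} (t : ℕ × ℕ) :
    (Qs a b (D + 1) 0 t).card = (Qs a b D 0 t).card + (topS a b D t).card := by
  classical
  have hd1 : Disjoint (Qs a b D 0 t) (topS a b D t) := by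
    rw [Finset.disjoint_left]
    intro p hp hq
    rw [mem_Qs] at hp
    rw [mem_topS] at hq
    omega
  rw [← Finset.card_union_of_disjoint hd1]
  congr 1
  ext p
  simp only [Finset.mem_union, mem_Qs, mem_topS]
  constructor
  · rintro ⟨h1, h2, h3⟩
    have hl : lx t p := by
      rcases h3 with h3 | h3
      · exact h3
      · omega
    by_cases h : p.1 + p.2 < D
    · left; exact ⟨h1, h, Or.inl hl⟩
    · right; exact ⟨by omega, h1.1, h1.2, hl⟩
  · rintro (⟨h1, h2, h3⟩ | ⟨h1, h2, h3, h4⟩)
    · exact ⟨h1, by omega, h3⟩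
    · exact ⟨⟨h2, h3⟩, by omega, Or.inl h4⟩

theorem botS_succ_le (a b e : ℕ) (t : ℕ × ℕ) :
    (botS a b (e + 1) t).card ≤ (botS a b e t).card + 1 := by
  classical
  have h1 : ((botS a b (e + 1) t).filter (fun p => 1 ≤ p.1)).card ≤ (botS a b e t).card := by
    apply Finset.card_le_card_of_injOn (fun p => (p.1 - 1, p.2))
    · intro p hp
      simp only [Finset.coe_filter, Set.mem_ofPred_eq, mem_botS] at hp
      simp only [Finset.mem_coe, mem_botS]
      unfold lx at *
      simp only
      omega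
    · intro p hp q hq h
      simp only [Finset.coe_filter, Set.mem_ofPred_eq] at hp hq
      simp only [Prod.mk.injEq] at h
      apply Prod.ext <;> omega
  have h2 : ((botS a b (e + 1) t).filter (fun p => ¬ 1 ≤ p.1)).card ≤ 1 := by
    rw [Finset.card_le_one]
    intro p hp q hq
    simp only [Finset.mem_filter, mem_botS] at hp hq
    apply Prod.ext <;> omega
  have h3 := Finset.card_filter_add_card_filter_not (s := botS a b (e + 1) t) (fun p => 1 ≤ p.1)
  omega

theorem botS_le_succ {a b e : ℕ} {t : ℕ × ℕ} (hb : e + 1 < b)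
    (ht : e + 1 < t.1 + t.2 ∨ t.2 = 0) :
    (botS a b e t).card ≤ (botS a b (e + 1) t).card := by
  apply Finset.card_le_card_of_injOn (fun p => (p.1, p.2 + 1))
  · intro p hp
    simp only [Finset.mem_coe, mem_botS] at hp ⊢
    unfold lx at *
    simp only
    omega
  · intro p hp q hq h
    simp only [Prod.mk.injEq] at h
    apply Prod.ext <;> omega

theorem botS_zero_le (a b : ℕ) (t : ℕ × ℕ) : (botS a b 0 t).card ≤ 1 := by
  rw [Finset.card_le_one]
  intro p hp q hq
  rw [mem_botS] at hp hq
  apply Prod.ext <;> omega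

theorem botS_mono {a b e : ℕ} {s t : ℕ × ℕ} (h : lx s t) :
    (botS a b e s).card ≤ (botS a b e t).card := by
  apply Finset.card_le_card
  intro p hp
  rw [mem_botS] at hp ⊢
  exact ⟨hp.1, hp.2.1, hp.2.2.1, fun h' => hp.2.2.2 (lx_trans h h')⟩

theorem topS_anti {a b e : ℕ} {s t : ℕ × ℕ} (h : lx s t) :
    (topS a b e t).card ≤ (topS a b e s).card := by
  apply Finset.card_le_card
  intro p hp
  rw [mem_topS] at hp ⊢
  exact ⟨hp.1, hp.2.1, hp.2.2.1, lx_trans h hp.2.2.2⟩

/-- monotonicity of thresholds, forwards -/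
theorem Qs_forward {a b D e : ℕ} {t s : ℕ × ℕ} (he : e < D) (haD : a ≤ D)
    (ht : t.1 + t.2 < D) (h : (Qs a b D e t).card ≤ (Qs a b D e s).card) :
    (Qs a b (D + 1) (e + 1) t).card ≤ (Qs a b (D + 1) (e + 1) s).card := by
  rcases lx_total s t with hst | hts
  · exact Finset.card_le_card (Qs_mono hst)
  · have heq : Qs a b D e s = Qs a b D e t := Finset.eq_of_subset_of_card_le (Qs_mono hts) h
    apply Finset.card_le_card
    intro p hp
    rw [mem_Qs] at hp ⊢
    obtain ⟨hp1, hp2, hp3⟩ := hp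
    refine ⟨hp1, hp2, ?_⟩
    rcases hp3 with hp3 | hp3
    · by_cases hpe : p.1 + p.2 < e + 1
      · exact Or.inr hpe
      left
      by_cases hpD : p.1 + p.2 < D
      · have : p ∈ Qs a b D e s := by
          rw [heq, mem_Qs]
          exact ⟨hp1, hpD, Or.inl hp3⟩
        rw [mem_Qs] at this
        rcases this.2.2 with h4 | h4
        · exact h4
        · omega
      · have : (p.1, p.2 - 1) ∈ Qs a b D e s := by
          rw [heq, mem_Qs]
          unfold lx at *
          simp only
          omega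
        rw [mem_Qs] at this
        unfold lx at *
        simp only at this
        omega
    · exact Or.inr hp3

/-- monotonicity of thresholds, backwards -/
theorem Qs_backward {a b D e : ℕ} {t s : ℕ × ℕ} (hb : e + 1 < b) (heD : e + 1 < D)
    (ht : e + 1 < t.1 + t.2 ∨ t.2 = 0)
    (h : (Qs a b (D + 1) (e + 1) s).card ≤ (Qs a b (D + 1) (e + 1) t).card) :
    (Qs a b D e s).card ≤ (Qs a b D e t).card := by
  rcases lx_total t s with hst | hts
  · exact Finset.card_le_card (Qs_mono hst)
  · have heq : Qs a b (D + 1) (e + 1) t = Qs a b (D + 1) (e + 1) s :=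
      Finset.eq_of_subset_of_card_le (Qs_mono hts) h
    apply Finset.card_le_card
    intro p hp
    rw [mem_Qs] at hp ⊢
    obtain ⟨hp1, hp2, hp3⟩ := hp
    refine ⟨hp1, hp2, ?_⟩
    rcases hp3 with hp3 | hp3
    · by_cases hpe : p.1 + p.2 < e
      · exact Or.inr hpe
      left
      by_cases hpD : p.1 + p.2 < e + 1
      · have : (p.1, p.2 + 1) ∈ Qs a b (D + 1) (e + 1) t := by
          rw [heq, mem_Qs]
          unfold lx at *
          simp only
          omega
        rw [mem_Qs] at this
        unfold lx at *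
        simp only at this
        omega
      · have : p ∈ Qs a b (D + 1) (e + 1) t := by
          rw [heq, mem_Qs]
          exact ⟨hp1, by omega, Or.inl hp3⟩
        rw [mem_Qs] at this
        rcases this.2.2 with h4 | h4
        · exact h4
        · omega
    · exact Or.inr hp3

/-- monotonicity of thresholds, backwards, without bottom layer -/
theorem Qs_backward0 {a b D : ℕ} {t s : ℕ × ℕ}
    (h : (Qs a b (D + 1) 0 s).card ≤ (Qs a b (D + 1) 0 t).card) :
    (Qs a b D 0 s).card ≤ (Qs a b D 0 t).card := by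
  rcases lx_total t s with hst | hts
  · exact Finset.card_le_card (Qs_mono hst)
  · have heq : Qs a b (D + 1) 0 t = Qs a b (D + 1) 0 s :=
      Finset.eq_of_subset_of_card_le (Qs_mono hts) h
    apply Finset.card_le_card
    intro p hp
    have : p ∈ Qs a b (D + 1) 0 t := by
      rw [heq]
      rw [mem_Qs] at hp ⊢
      exact ⟨hp.1, by omega, hp.2.2⟩
    rw [mem_Qs] at this hp ⊢
    exact ⟨hp.1, hp.2.1, this.2.2⟩

/-- normalised exact thresholds -/
theorem exists_exact_Qs {a b D e : ℕ} (he : e ≤ D) {n : ℕ} (h1 : (Bq a b e).card ≤ n)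
    (h2 : n ≤ (Bq a b D).card) :
    ∃ t : ℕ × ℕ, ((t.1 < a ∧ t.2 < b ∧ t.1 + t.2 < D) ∨ t = (a, 0)) ∧
      (e < t.1 + t.2 ∨ t.2 = 0) ∧ (Qs a b D e t).card = n := by
  classical
  rcases h1.eq_or_lt with h1 | h1
  · refine ⟨(a, 0), Or.inr rfl, Or.inr rfl, ?_⟩
    rw [Qs_top (t := (a, 0)) (le_refl a) he, h1]
  · let R := (Bq a b D).filter (fun p => e ≤ p.1 + p.2)
    have hR : (Bq a b e).card + R.card = (Bq a b D).card := by
      rw [← Finset.card_union_of_disjoint]
      · congr 1
        ext p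
        simp only [R, Finset.mem_union, mem_Bq, Finset.mem_filter]
        omega
      · rw [Finset.disjoint_left]
        intro p hp hq
        simp only [R, mem_Bq, Finset.mem_filter] at hp hq
        omega
    have hcard : ∀ t : ℕ × ℕ, (Qs a b D e t).card = (Bq a b e).card + (up_of R t).card := by
      intro t
      rw [← Finset.card_union_of_disjoint]
      · congr 1
        ext p
        simp only [R, Finset.mem_union, mem_Bq, Finset.mem_filter, mem_up_of, mem_Qs]
        constructor
        · rintro ⟨h1, h2, h3⟩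
          by_cases h : p.1 + p.2 < e
          · exact Or.inl ⟨h1, h⟩
          · right
            rcases h3 with h3 | h3
            · exact ⟨⟨⟨h1, h2⟩, by omega⟩, h3⟩
            · exact absurd h3 h
        · rintro (⟨h1, h2⟩ | ⟨⟨⟨h1, h2⟩, h3⟩, h4⟩)
          · exact ⟨h1, by omega, Or.inr h2⟩
          · exact ⟨h1, h2, Or.inl h4⟩
      · rw [Finset.disjoint_left]
        intro p hp hq
        simp only [R, mem_Bq, Finset.mem_filter, mem_up_of] at hp hq
        omega
    obtain ⟨t, ht, htn⟩ := exists_exact R (n - (Bq a b e).card) (by omega) (by omega)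
    have htn' : (Qs a b D e t).card = n := by
      rw [hcard, htn]; omega
    simp only [R, mem_Bq, Finset.mem_filter] at ht
    by_cases hte : e < t.1 + t.2
    · exact ⟨t, Or.inl ⟨ht.1.1.1, ht.1.1.2, ht.1.2⟩, Or.inl hte, htn'⟩
    · refine ⟨(t.1, 0), Or.inl ⟨ht.1.1.1, by simp only; omega, by simp only; omega⟩,
        Or.inr rfl, ?_⟩
      rw [← htn']
      congr 1
      ext p
      rw [mem_Qs, mem_Qs]
      unfold lx
      simp only
      omega

/-- The first lexicographic contradiction. -/
theorem lex_top {a b D e : ℕ} {s t : ℕ × ℕ} (hst : lx s t) (h2a : 2 * e + 1 ≤ D)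
    (haD : a + e ≤ D)
    (h : (topS a b D t).card + 2 ≤ (topS a b D s).card) :
    (Qs a b D e t).card + e + 1 ≤ (Qs a b D e s).card := by
  classical
  -- two elements between
  have hsub : topS a b D t ⊆ topS a b D s := by
    intro p hp
    rw [mem_topS] at hp ⊢
    exact ⟨hp.1, hp.2.1, hp.2.2.1, lx_trans hst hp.2.2.2⟩
  have hcard : 2 ≤ (topS a b D s \ topS a b D t).card := by
    rw [Finset.card_sdiff_of_subset hsub]; omega
  have hex : ∃ p ∈ topS a b D s \ topS a b D t, ∃ q ∈ topS a b D s \ topS a b D t, p.1 < q.1 := by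
    obtain ⟨p, hp, q, hq, hne⟩ := Finset.one_lt_card.mp hcard
    have hp' := hp
    have hq' := hq
    rw [Finset.mem_sdiff, mem_topS] at hp' hq'
    rcases Nat.lt_trichotomy p.1 q.1 with h | h | h
    · exact ⟨p, hp, q, hq, h⟩
    · exact absurd (Prod.ext h (by omega)) hne
    · exact ⟨q, hq, p, hp, h⟩
  obtain ⟨p, hp, q, hq, hpq⟩ := hex
  rw [Finset.mem_sdiff, mem_topS, mem_topS] at hp hq
  have hsubQ := Qs_mono (a := a) (b := b) (D := D) (e := e) hst
  have hdiff : e + 1 ≤ (Qs a b D e s \ Qs a b D e t).card := by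
    have himg : (Finset.range (e + 1)).image (fun j => (q.1, q.2 - 1 - j)) ⊆
        Qs a b D e s \ Qs a b D e t := by
      intro r hr
      rw [Finset.mem_image] at hr
      obtain ⟨j, hj, rfl⟩ := hr
      rw [Finset.mem_range] at hj
      rw [Finset.mem_sdiff, mem_Qs, mem_Qs]
      unfold lx at *
      simp only
      omega
    refine le_trans ?_ (Finset.card_le_card himg)
    rw [Finset.card_image_of_injOn, Finset.card_range]
    intro i hi j hj hij
    simp only [Finset.coe_range, Set.mem_Iio] at hi hj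
    simp only [Prod.mk.injEq] at hij
    omega
  have := Finset.card_sdiff_add_card_eq_card hsubQ
  omega

/-- The second lexicographic contradiction. -/
theorem lex_bot {a b D e r : ℕ} {s t : ℕ × ℕ} (hst : lx s t) (h1 : e + r < b)
    (h2 : e + r < D)
    (h : (botS a b e s).card + 2 ≤ (botS a b e t).card) :
    (Qs a b D e t).card + r ≤ (Qs a b D e s).card := by
  classical
  have hsub : botS a b e s ⊆ botS a b e t := by
    intro p hp
    rw [mem_botS] at hp ⊢
    exact ⟨hp.1, hp.2.1, hp.2.2.1, fun h' => hp.2.2.2 (lx_trans hst h')⟩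
  have hcard : 2 ≤ (botS a b e t \ botS a b e s).card := by
    rw [Finset.card_sdiff_of_subset hsub]; omega
  have hex : ∃ p ∈ botS a b e t \ botS a b e s, ∃ q ∈ botS a b e t \ botS a b e s, p.1 < q.1 := by
    obtain ⟨p, hp, q, hq, hne⟩ := Finset.one_lt_card.mp hcard
    have hp' := hp
    have hq' := hq
    rw [Finset.mem_sdiff, mem_botS] at hp' hq'
    rcases Nat.lt_trichotomy p.1 q.1 with h | h | h
    · exact ⟨p, hp, q, hq, h⟩
    · exact absurd (Prod.ext h (by omega)) hne
    · exact ⟨q, hq, p, hp, h⟩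
  obtain ⟨p, hp, q, hq, hpq⟩ := hex
  rw [Finset.mem_sdiff, mem_botS, mem_botS] at hp hq
  have hsubQ := Qs_mono (a := a) (b := b) (D := D) (e := e) hst
  have hdiff : r ≤ (Qs a b D e s \ Qs a b D e t).card := by
    have himg : (Finset.range r).image (fun j => (p.1, p.2 + 1 + j)) ⊆
        Qs a b D e s \ Qs a b D e t := by
      intro r' hr
      rw [Finset.mem_image] at hr
      obtain ⟨j, hj, rfl⟩ := hr
      rw [Finset.mem_range] at hj
      rw [Finset.mem_sdiff, mem_Qs, mem_Qs]
      unfold lx at *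
      simp only
      omega
    refine le_trans ?_ (Finset.card_le_card himg)
    rw [Finset.card_image_of_injOn, Finset.card_range]
    intro i hi j hj hij
    simp only [Prod.mk.injEq] at hij
    omega
  have := Finset.card_sdiff_add_card_eq_card hsubQ
  omega

/-- bounds for the two growth terms -/
theorem card_botS_le (a b e : ℕ) (t : ℕ × ℕ) : (botS a b e t).card ≤ e + 1 := by
  rw [← card_AD e]
  exact Finset.card_le_card (Finset.filter_subset _ _)

theorem card_topS_le {a b D : ℕ} (t : ℕ × ℕ) (h : D + 1 ≤ a + b) :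
    (topS a b D t).card ≤ a + b - 1 - D := by
  have : (topS a b D t).card ≤ (Finset.range (a + b - 1 - D)).card := by
    apply Finset.card_le_card_of_injOn (fun p => a - 1 - p.1)
    · intro p hp
      rw [Finset.mem_coe, mem_topS] at hp
      simp only [Finset.coe_range, Set.mem_Iio]
      omega
    · intro p hp q hq h
      rw [Finset.mem_coe, mem_topS] at hp hq
      simp only at h
      apply Prod.ext <;> omega
  simpa using this

end Run7.H941
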