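import Pool.Agent.Run7.h941.Kron

/-!
The determinant trick with degree bounds.
-/

set_option autoImplicit false

open Module Polynomial

namespace Run7.H941

section TD

variable {k : Type*} [Field k]

/-- total degree (in both variables) at most `n` -/
def TD (n : ℤ) (p : k[X][X]) : Prop := ∀ i j : ℕ, (p.coeff i).coeff j ≠ 0 → (i + j : ℤ) ≤ n

theorem TD.add {n : ℤ} {p q : k[X][X]} (hp : TD n p) (hq : TD n q) : TD n (p + q) := by
  intro i j h
  rw [coeff_add, coeff_add] at h
  by_cases h1 : (p.coeff i).coeff j = 0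
  · by_cases h2 : (q.coeff i).coeff j = 0
    · rw [h1, h2, add_zero] at h
      exact absurd rfl h
    · exact hq i j h2
  · exact hp i j h1

theorem TD.neg {n : ℤ} {p : k[X][X]} (hp : TD n p) : TD n (-p) := by
  intro i j h
  rw [coeff_neg, coeff_neg, neg_ne_zero] at h
  exact hp i j h

theorem TD.zero {n : ℤ} : TD n (0 : k[X][X]) := by
  intro i j h
  simp at h

theorem TD.sub {n : ℤ} {p q : k[X][X]} (hp : TD n p) (hq : TD n q) : TD n (p - q) := by
  rw [sub_eq_add_neg]; exact hp.add hq.neg

theorem TD.one : TD 0 (1 : k[X][X]) := by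
  intro i j h
  rw [coeff_one] at h
  split_ifs at h with hi
  · subst hi
    rw [coeff_one] at h
    split_ifs at h with hj
    · subst hj; simp
    · exact absurd rfl h
  · simp at h

theorem TD.mul {n m : ℤ} {p q : k[X][X]} (hp : TD n p) (hq : TD m q) : TD (n + m) (p * q) := by
  intro i j h
  rw [coeff_mul, finsetSum_coeff] at h
  obtain ⟨⟨i1, i2⟩, hi, h1⟩ := Finset.exists_ne_zero_of_sum_ne_zero h
  rw [coeff_mul] at h1
  obtain ⟨⟨j1, j2⟩, hj, h2⟩ := Finset.exists_ne_zero_of_sum_ne_zero h1
  rw [Finset.HasAntidiagonal.mem_antidiagonal] at hi hj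
  have h3 := hp i1 j1 (left_ne_zero_of_mul h2)
  have h4 := hq i2 j2 (right_ne_zero_of_mul h2)
  have : ((i1 + i2 : ℕ) : ℤ) = i := by exact_mod_cast hi
  have : ((j1 + j2 : ℕ) : ℤ) = j := by exact_mod_cast hj
  push_cast at *
  linarith

theorem TD.prod {ι : Type*} (s : Finset ι) (n : ι → ℤ) (p : ι → k[X][X])
    (h : ∀ i ∈ s, TD (n i) (p i)) : TD (∑ i ∈ s, n i) (∏ i ∈ s, p i) := by
  classical
  induction s using Finset.induction_on with
  | empty => simpa using TD.one
  | insert a s ha ih =>
    rw [Finset.sum_insert ha, Finset.prod_insert ha]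
    exact (h a (Finset.mem_insert_self _ _)).mul
      (ih (fun i hi => h i (Finset.mem_insert_of_mem hi)))

theorem TD.sum {ι : Type*} (s : Finset ι) {n : ℤ} (p : ι → k[X][X])
    (h : ∀ i ∈ s, TD n (p i)) : TD n (∑ i ∈ s, p i) := by
  classical
  induction s using Finset.induction_on with
  | empty => simpa using TD.zero
  | insert a s ha ih =>
    rw [Finset.sum_insert ha]
    exact (h a (Finset.mem_insert_self _ _)).add
      (ih (fun i hi => h i (Finset.mem_insert_of_mem hi)))

theorem TD.X1 : TD 1 (X : k[X][X]) := by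
  intro i j h
  rw [coeff_X] at h
  split_ifs at h with hi
  · rw [coeff_one] at h
    split_ifs at h with hj
    · subst hj; subst hi; simp
    · exact absurd rfl h
  · simp at h

theorem TD.C1 {n : ℤ} {p : k[X]} (h : ∀ j : ℕ, p.coeff j ≠ 0 → (j : ℤ) ≤ n) :
    TD n (C p : k[X][X]) := by
  intro i j hij
  rw [coeff_C] at hij
  split_ifs at hij with hi
  · subst hi
    have := h j hij
    simpa using this
  · simp at hij

/-- the characteristic polynomial of a graded matrix -/
theorem TD_charpoly {ι : Type*} [Fintype ι] [DecidableEq ι] (d : ι → ℤ) (A : Matrix ι ι k[X])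
    (hA : ∀ p q j, (A p q).coeff j ≠ 0 → (j : ℤ) ≤ d p + 1 - d q) :
    TD (Fintype.card ι : ℤ) A.charpoly := by
  unfold Matrix.charpoly
  rw [Matrix.det_apply]
  apply TD.sum
  intro σ _
  have h1 : TD (∑ i, (d (σ i) + 1 - d i)) (∏ i, A.charmatrix (σ i) i) := by
    apply TD.prod
    intro i _
    rw [Matrix.charmatrix_apply]
    apply TD.sub
    · by_cases h : σ i = i
      · rw [h, Matrix.diagonal_apply_eq]
        have : d i + 1 - d i = 1 := by ring
        rw [this]
        exact TD.X1
      · rw [Matrix.diagonal_apply_ne _ h]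
        exact TD.zero
    · exact TD.C1 (hA _ _)
  have h2 : ∑ i, (d (σ i) + 1 - d i) = (Fintype.card ι : ℤ) := by
    have h3 : ∑ i, (d (σ i) + 1 - d i) = ∑ i, d (σ i) + ∑ _i : ι, (1 : ℤ) - ∑ i, d i := by
      rw [Finset.sum_sub_distrib, Finset.sum_add_distrib]
    rw [h3, Equiv.sum_comp σ d]
    simp
  rw [h2] at h1
  rcases Int.units_eq_one_or (Equiv.Perm.sign σ) with h | h
  · rw [h, one_smul]; exact h1
  · rw [h, Units.neg_smul, one_smul]; exact h1.neg

end TD

variable {k Λ : Type*} [Field k] [CommRing Λ] [Algebra k Λ]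

/-- evaluation of a polynomial in two variables -/
noncomputable def ev2 (x y : Λ) : k[X][X] →+* Λ := eval₂RingHom (aeval (R := k) y).toRingHom x

theorem ev2_X (x y : Λ) : ev2 (k := k) x y X = x := by
  unfold ev2
  simp

theorem ev2_C (x y : Λ) (p : k[X]) : ev2 (k := k) x y (C p) = aeval y p := by
  unfold ev2
  simp

/-- The determinant trick. -/
theorem det_trick {ι : Type*} [Fintype ι] [DecidableEq ι] (x y : Λ) (e : ι → Λ)
    (A : Matrix ι ι k[X]) (h : ∀ p, x * e p = ∑ q, aeval y (A p q) * e q) (p : ι) :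
    ev2 x y A.charpoly * e p = 0 := by
  let M : Matrix ι ι Λ := (ev2 (k := k) x y).mapMatrix A.charmatrix
  have hM : M.mulVec e = 0 := by
    funext p
    change ∑ q, M p q * e q = 0
    have : ∀ q, M p q * e q = (if p = q then x * e q else 0) - aeval y (A p q) * e q := by
      intro q
      change ev2 (k := k) x y (A.charmatrix p q) * e q = _
      rw [Matrix.charmatrix_apply, map_sub, ev2_C, sub_mul]
      by_cases hpq : p = q
      · subst hpq
        rw [Matrix.diagonal_apply_eq, ev2_X, if_pos rfl]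
      · rw [Matrix.diagonal_apply_ne _ hpq, map_zero, zero_mul, if_neg hpq]
    simp_rw [this]
    rw [Finset.sum_sub_distrib, Finset.sum_ite_eq, if_pos (Finset.mem_univ _), h p, sub_self]
  have hdet : M.det • e = 0 := by
    have h1 : (M.adjugate * M).mulVec e = 0 := by
      rw [← Matrix.mulVec_mulVec, hM, Matrix.mulVec_zero]
    rw [Matrix.adjugate_mul, Matrix.smul_mulVec, Matrix.one_mulVec] at h1
    exact h1
  have h2 : M.det = ev2 x y A.charpoly := by
    unfold Matrix.charpoly
    rw [RingHom.map_det]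
  rw [← h2]
  exact congrFun hdet p

/-- A monic relation of total degree `n` forces `x ^ n` into the span of other monomials. -/
theorem relation_span (x y : Λ) (n : ℕ) (Δ : k[X][X]) (hm : Δ.Monic) (hn : Δ.natDegree = n)
    (hT : TD (n : ℤ) Δ) (h0 : ev2 (k := k) x y Δ = 0) :
    x ^ n ∈ Submodule.span k ((fun p : ℕ × ℕ => x ^ p.1 * y ^ p.2) ''
      ((T n).filter (fun p => p.1 < n) : Finset (ℕ × ℕ))) := by
  have h1 : ev2 (k := k) x y Δ = ∑ i ∈ Finset.range (n + 1), aeval y (Δ.coeff i) * x ^ i := by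
    unfold ev2
    rw [coe_eval₂RingHom, eval₂_eq_sum_range, hn]
    rfl
  rw [Finset.sum_range_succ] at h1
  have h2 : Δ.coeff n = 1 := by
    have := hm.coeff_natDegree
    rwa [hn] at this
  rw [h2, map_one, one_mul, h0] at h1
  have h3 : x ^ n = -∑ i ∈ Finset.range n, aeval y (Δ.coeff i) * x ^ i := by
    rw [eq_neg_iff_add_eq_zero, add_comm]
    exact h1.symm
  rw [h3]
  apply Submodule.neg_mem
  apply Submodule.sum_mem
  intro i hi
  rw [Finset.mem_range] at hi
  rw [aeval_eq_sum_range, Finset.sum_mul]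
  apply Submodule.sum_mem
  intro j _
  by_cases hc : (Δ.coeff i).coeff j = 0
  · rw [hc, zero_smul, zero_mul]
    exact Submodule.zero_mem _
  · rw [smul_mul_assoc]
    apply Submodule.smul_mem
    apply Submodule.subset_span
    refine ⟨(i, j), ?_, ?_⟩
    · rw [Finset.mem_coe, Finset.mem_filter, mem_T]
      have := hT i j hc
      simp only
      refine ⟨by exact_mod_cast this, hi⟩
    · change x ^ i * y ^ j = y ^ j * x ^ i
      ring

end Run7.H941
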