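import Pool.Agent.Run7.h941.EUDer

/-!
Polynomials with fixed coefficients, transcendence degrees (helper file for the piece D1m).
-/

set_option autoImplicit false

open MvPolynomial
open scoped Cardinal

namespace Run7.h941.EU

section fx

variable {Ω : Type} [Field Ω] [Algebra ℂ Ω] {τ τ' : Type} {ρ : ℂ →+* Ω}

/-- the coefficients are mapped to the same elements -/
def Fx (ρ : ℂ →+* Ω) (G : MvPolynomial τ ℂ) : Prop := map ρ G = map (algebraMap ℂ Ω) G

theorem Fx.ev {G : MvPolynomial τ ℂ} (h : Fx ρ G) (x : τ → Ω) : eval₂ ρ x G = aeval x G := by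
  rw [← eval_map, show map ρ G = map (algebraMap ℂ Ω) G from h, eval_map]
  rfl

theorem fx_of_coeffs {G : MvPolynomial τ ℂ} (h : ∀ c ∈ G.coeffs, ρ c = algebraMap ℂ Ω c) :
    Fx ρ G := by
  unfold Fx
  ext s
  rw [coeff_map, coeff_map]
  by_cases h0 : coeff s G = 0
  · rw [h0, map_zero, map_zero]
  · apply h
    rw [MvPolynomial.mem_coeffs_iff]
    exact ⟨s, MvPolynomial.mem_support_iff.2 h0, rfl⟩

theorem Fx.pd {G : MvPolynomial τ ℂ} (h : Fx ρ G) (k : τ) : Fx ρ (pderiv k G) := by
  unfold Fx at *
  rw [← pderiv_map, ← pderiv_map, h]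

theorem Fx.ren {G : MvPolynomial τ ℂ} (h : Fx ρ G) (f : τ → τ') : Fx ρ (rename f G) := by
  unfold Fx at *
  rw [map_rename, map_rename, h]

theorem Fx.mulX {G : MvPolynomial τ ℂ} (h : Fx ρ G) (k : τ) : Fx ρ (G * X k) := by
  unfold Fx at *
  rw [map_mul, map_mul, map_X, map_X, h]

theorem Fx.sum {ι : Type} {S : Finset ι} {G : ι → MvPolynomial τ ℂ} (h : ∀ i ∈ S, Fx ρ (G i)) :
    Fx ρ (∑ i ∈ S, G i) := by
  unfold Fx at *
  rw [map_sum, map_sum]
  exact Finset.sum_congr rfl h

/-- the differential as a polynomial -/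
noncomputable def Dt {n : ℕ} (G : MvPolynomial (Fin (n + 1)) ℂ) :
    MvPolynomial (Fin (n + 1) ⊕ Fin (n + 1)) ℂ :=
  ∑ k, rename Sum.inl (pderiv k G) * X (Sum.inr k)

theorem Fx.dt {n : ℕ} {G : MvPolynomial (Fin (n + 1)) ℂ} (h : Fx ρ G) : Fx ρ (Dt G) :=
  Fx.sum fun k _ => ((h.pd k).ren _).mulX _

theorem dt_add {n : ℕ} (G G' : MvPolynomial (Fin (n + 1)) ℂ) : Dt (G + G') = Dt G + Dt G' := by
  unfold Dt
  rw [← Finset.sum_add_distrib]
  refine Finset.sum_congr rfl fun k _ => ?_
  rw [map_add, map_add, add_mul]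

theorem dt_mul {n : ℕ} (A G : MvPolynomial (Fin (n + 1)) ℂ) :
    Dt (A * G) = Dt A * rename Sum.inl G + rename Sum.inl A * Dt G := by
  unfold Dt
  rw [Finset.sum_mul, Finset.mul_sum, ← Finset.sum_add_distrib]
  refine Finset.sum_congr rfl fun k _ => ?_
  rw [pderiv_mul, map_add, map_mul, map_mul]
  ring

/-- the new structure satisfies the same equations -/
theorem eqs_new {n : ℕ} {ι : Type} {F : ι → MvPolynomial (Fin (n + 1)) ℂ} {T : Set ι}
    (hT : ∀ i, F i ∈ Ideal.span (F '' T)) (hfx : ∀ i ∈ T, Fx ρ (F i))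
    {x : Fin (n + 1) ⊕ Fin (n + 1) → Ω} (h1 : ∀ i, aeval (x ∘ Sum.inl) (F i) = 0)
    (h2 : ∀ i, aeval x (Dt (F i)) = 0) (i : ι) :
    eval₂ ρ (x ∘ Sum.inl) (F i) = 0 ∧ eval₂ ρ x (Dt (F i)) = 0 := by
  have hr : ∀ G : MvPolynomial (Fin (n + 1)) ℂ, eval₂ ρ x (rename Sum.inl G) =
      eval₂ ρ (x ∘ Sum.inl) G := fun G => eval₂_rename _ _ _ _
  let I : Ideal (MvPolynomial (Fin (n + 1)) ℂ) :=
    { carrier := {G | eval₂ ρ (x ∘ Sum.inl) G = 0 ∧ eval₂ ρ x (Dt G) = 0}
      add_mem' := by
        rintro G G' ⟨a1, a2⟩ ⟨b1, b2⟩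
        refine ⟨?_, ?_⟩
        · rw [eval₂_add, a1, b1, add_zero]
        · rw [dt_add, eval₂_add, a2, b2, add_zero]
      zero_mem' := by
        refine ⟨eval₂_zero _ _, ?_⟩
        have : Dt (0 : MvPolynomial (Fin (n + 1)) ℂ) = 0 := by
          unfold Dt
          simp
        rw [this, eval₂_zero]
      smul_mem' := by
        rintro A G ⟨a1, a2⟩
        refine ⟨?_, ?_⟩
        · rw [smul_eq_mul, eval₂_mul, a1, mul_zero]
        · rw [smul_eq_mul, dt_mul, eval₂_add, eval₂_mul, eval₂_mul, hr, hr, a1, a2, mul_zero,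
            mul_zero, add_zero] }
  have hle : Ideal.span (F '' T) ≤ I := by
    rw [Ideal.span_le]
    rintro _ ⟨j, hj, rfl⟩
    refine ⟨?_, ?_⟩
    · rw [(hfx j hj).ev]
      exact h1 j
    · rw [(hfx j hj).dt.ev]
      exact h2 j
  exact hle (hT i)

end fx

section alg

/-- change of the field of coefficients -/
theorem alg_map {L1 L2 Ω : Type} [Field L1] [Field L2] [Field Ω] [Algebra L1 Ω] [Algebra L2 Ω]
    (φ : L1 →+* L2) (h : ∀ y, algebraMap L2 Ω (φ y) = algebraMap L1 Ω y) {x : Ω}
    (hx : IsAlgebraic L1 x) : IsAlgebraic L2 x := by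
  obtain ⟨p, hp0, hp⟩ := hx
  refine ⟨p.map φ, ?_, ?_⟩
  · rw [Ne, Polynomial.map_eq_zero_iff φ.injective]
    exact hp0
  · rw [Polynomial.aeval_def, Polynomial.eval₂_map]
    rw [Polynomial.aeval_def] at hp
    have h1 : (algebraMap L2 Ω).comp φ = algebraMap L1 Ω := RingHom.ext h
    rw [h1]
    exact hp

open scoped IntermediateField.algebraAdjoinAdjoin in
/-- the transcendence degree of a field with a given transcendence basis -/
theorem trdeg_of {k Ω ω : Type} [Field k] [Field Ω] [Algebra k Ω] (a : ω → Ω) {d : ℕ}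
    (t : Fin d → ω) (hi : AlgebraicIndependent k (fun b => a (t b)))
    (ha : ∀ l, IsAlgebraic (IntermediateField.adjoin k (Set.range fun b => a (t b))) (a l)) :
    Algebra.trdeg k (IntermediateField.adjoin k (Set.range a)) = d := by
  classical
  set M := IntermediateField.adjoin k (Set.range a) with hM
  let y : Fin d → M := fun b => ⟨a (t b), IntermediateField.subset_adjoin k _ ⟨t b, rfl⟩⟩
  have hy : AlgebraicIndependent k y := by
    rw [← AlgHom.algebraicIndependent_iff M.val M.val.injective]
    exact hi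
  set L := IntermediateField.adjoin k (Set.range y) with hL
  -- the embedding of the small field
  have hsub : ∀ z ∈ IntermediateField.adjoin k (Set.range fun b => a (t b)),
      ∃ hz : z ∈ M, (⟨z, hz⟩ : M) ∈ L := by
    intro z hz
    have h1 : L.map M.val = IntermediateField.adjoin k (Set.range fun b => a (t b)) := by
      rw [hL, IntermediateField.adjoin_map]
      have h5 : M.val '' (Set.range y) = Set.range fun b => a (t b) := by
        rw [← Set.range_comp]
        rfl
      rw [h5]
    rw [← h1] at hz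
    obtain ⟨w, hw, hwz⟩ := hz
    refine ⟨by rw [← hwz]; exact w.2, ?_⟩
    have : (⟨z, by rw [← hwz]; exact w.2⟩ : M) = w := Subtype.ext hwz.symm
    rw [this]
    exact hw
  have halg : ∀ l, IsAlgebraic L (⟨a l, IntermediateField.subset_adjoin k _ ⟨l, rfl⟩⟩ : M) := by
    intro l
    let φ : IntermediateField.adjoin k (Set.range fun b => a (t b)) →+* L :=
      { toFun := fun z => ⟨⟨z.1, (hsub z.1 z.2).1⟩, (hsub z.1 z.2).2⟩
        map_one' := rfl
        map_mul' := fun _ _ => rfl
        map_zero' := rfl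
        map_add' := fun _ _ => rfl }
    obtain ⟨p, hp0, hp⟩ := ha l
    refine ⟨p.map φ, ?_, ?_⟩
    · rw [Ne, Polynomial.map_eq_zero_iff φ.injective]
      exact hp0
    · rw [Polynomial.aeval_def, Polynomial.eval₂_map]
      apply M.val.injective
      rw [map_zero]
      change (algebraMap M Ω) _ = 0
      rw [Polynomial.hom_eval₂]
      rw [Polynomial.aeval_def] at hp
      exact hp
  have halg2 : Algebra.IsAlgebraic L M := by
    constructor
    intro f
    let C : IntermediateField k M := (algebraicClosure L M).restrictScalars k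
    have h1 : (⊤ : IntermediateField k M) ≤ C := by
      have h2 : IntermediateField.adjoin k (Set.range a) ≤ C.map M.val := by
        rw [IntermediateField.adjoin_le_iff]
        rintro _ ⟨l, rfl⟩
        exact ⟨⟨a l, IntermediateField.subset_adjoin k _ ⟨l, rfl⟩⟩,
          mem_algebraicClosure_iff.2 (halg l), rfl⟩
      intro z _
      obtain ⟨w, hw, hwz⟩ := h2 z.2
      have : w = z := Subtype.ext hwz
      rwa [← this]
    exact mem_algebraicClosure_iff.1 (h1 (show f ∈ (⊤ : IntermediateField k M) from trivial))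
  have halg3 : Algebra.IsAlgebraic (Algebra.adjoin k (Set.range y)) M := by
    exact (IsFractionRing.comap_isAlgebraic_iff (A := Algebra.adjoin k (Set.range y))
      (K := IntermediateField.adjoin k (Set.range y)) (C := M)).2 halg2
  have hb : IsTranscendenceBasis k y := hy.isTranscendenceBasis_iff_isAlgebraic.2 halg3
  rw [← hb.cardinalMk_eq_trdeg, Cardinal.mk_fin]

/-- transport of the transcendence degree -/
theorem trdeg_new {k1 k2 Ω1 Ω2 ω : Type} [Field k1] [Field k2] [Field Ω1] [Field Ω2]
    [Algebra k1 Ω1] [Algebra k2 Ω2] (ψ : k1 ≃+* k2) (ε : Ω1 →+* Ω2)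
    (hε : ∀ x, ε (algebraMap k1 Ω1 x) = algebraMap k2 Ω2 (ψ x)) (a : ω → Ω1) {d : ℕ}
    (t : Fin d → ω) (hi : AlgebraicIndependent k1 (fun b => a (t b)))
    (ha : ∀ l, IsAlgebraic (IntermediateField.adjoin k1 (Set.range fun b => a (t b))) (a l)) :
    Algebra.trdeg k2 (IntermediateField.adjoin k2 (Set.range fun l => ε (a l))) = d := by
  refine trdeg_of (fun l => ε (a l)) t ?_ fun l => ?_
  · exact hi.ringHom_of_comp_eq (f := (ψ : k1 →+* k2)) (g := ε) ψ.surjective ε.injective
      (RingHom.ext fun x => (hε x).symm)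
  · have h2 : ∀ z ∈ IntermediateField.adjoin k1 (Set.range fun b => a (t b)),
        ε z ∈ IntermediateField.adjoin k2 (Set.range fun b => ε (a (t b))) := by
      intro z hz
      induction hz using IntermediateField.adjoin_induction with
      | mem x hx =>
        obtain ⟨b, rfl⟩ := hx
        exact IntermediateField.subset_adjoin _ _ ⟨b, rfl⟩
      | algebraMap x =>
        rw [hε]
        exact IntermediateField.algebraMap_mem _ _
      | add x y _ _ hx hy =>
        rw [map_add]
        exact add_mem hx hy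
      | inv x _ hx =>
        rw [map_inv₀]
        exact inv_mem hx
      | mul x y _ _ hx hy =>
        rw [map_mul]
        exact mul_mem hx hy
    let φ : IntermediateField.adjoin k1 (Set.range fun b => a (t b)) →+*
        IntermediateField.adjoin k2 (Set.range fun b => ε (a (t b))) :=
      { toFun := fun z => ⟨ε z.1, h2 z.1 z.2⟩
        map_one' := Subtype.ext (map_one ε)
        map_mul' := fun u v => Subtype.ext (map_mul ε u.1 v.1)
        map_zero' := Subtype.ext (map_zero ε)
        map_add' := fun u v => Subtype.ext (map_add ε u.1 v.1) }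
    obtain ⟨p, hp0, hp⟩ := ha l
    refine ⟨p.map φ, ?_, ?_⟩
    · rw [Ne, Polynomial.map_eq_zero_iff φ.injective]
      exact hp0
    · rw [Polynomial.aeval_def, Polynomial.eval₂_map]
      rw [Polynomial.aeval_def] at hp
      have h3 := congrArg ε hp
      rw [Polynomial.hom_eval₂, map_zero] at h3
      exact h3

/-- an embedding which is linear over a homomorphism of the fields of constants -/
theorem hom_new {k0 k2 K Ω2 ω : Type} [Field k0] [Field k2] [Field K] [Field Ω2] [Algebra k0 K]
    [Algebra k2 Ω2] [Finite ω] (y : ω → K) (hgen : IntermediateField.adjoin k0 (Set.range y) = ⊤)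
    (e : K →+* Ω2) (φ : k0 →+* k2) (h : ∀ c, e (algebraMap k0 K c) = algebraMap k2 Ω2 (φ c))
    {x : ω → Ω2} (hx : ∀ i, e (y i) = x i) :
    ∃ θ : K →+* IntermediateField.adjoin k2 (Set.range x),
      (∀ c, θ (algebraMap k0 K c) = algebraMap k2 _ (φ c)) ∧
      IntermediateField.adjoin k2 (Set.range θ) = ⊤ ∧ Algebra.EssFiniteType k0 K ∧
      Algebra.EssFiniteType k2 (IntermediateField.adjoin k2 (Set.range x)) := by
  classical
  have hmem : ∀ z : K, e z ∈ IntermediateField.adjoin k2 (Set.range x) := by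
    intro z
    have hz : z ∈ IntermediateField.adjoin k0 (Set.range y) := by
      rw [hgen]
      trivial
    induction hz using IntermediateField.adjoin_induction with
    | mem z hz =>
      obtain ⟨b, rfl⟩ := hz
      rw [hx]
      exact IntermediateField.subset_adjoin _ _ ⟨b, rfl⟩
    | algebraMap z =>
      rw [h]
      exact IntermediateField.algebraMap_mem _ _
    | add x y _ _ hx hy =>
      rw [map_add]
      exact add_mem hx hy
    | inv x _ hx =>
      rw [map_inv₀]
      exact inv_mem hx
    | mul x y _ _ hx hy =>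
      rw [map_mul]
      exact mul_mem hx hy
  set R := IntermediateField.adjoin k2 (Set.range x) with hR
  let θ : K →+* R :=
    { toFun := fun z => ⟨e z, hmem z⟩
      map_one' := Subtype.ext (map_one e)
      map_mul' := fun x y => Subtype.ext (map_mul e x y)
      map_zero' := Subtype.ext (map_zero e)
      map_add' := fun x y => Subtype.ext (map_add e x y) }
  let xR : ω → R := fun i => ⟨x i, IntermediateField.subset_adjoin _ _ ⟨i, rfl⟩⟩
  have htop : IntermediateField.adjoin k2 (Set.range xR) = ⊤ := by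
    rw [eq_top_iff]
    intro z _
    have h2 : (IntermediateField.adjoin k2 (Set.range xR)).map R.val = R := by
      rw [IntermediateField.adjoin_map]
      have h5 : R.val '' (Set.range xR) = Set.range x := by
        rw [← Set.range_comp]
        rfl
      rw [h5]
    have h3 : (z : Ω2) ∈ (IntermediateField.adjoin k2 (Set.range xR)).map R.val := by
      rw [h2]
      exact z.2
    obtain ⟨w, hw, hwz⟩ := h3
    have : w = z := Subtype.ext hwz
    rwa [← this]
  refine ⟨θ, fun c => Subtype.ext (h c), ?_, ?_, ?_⟩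
  · rw [eq_top_iff, ← htop, IntermediateField.adjoin_le_iff]
    rintro _ ⟨i, rfl⟩
    exact IntermediateField.subset_adjoin _ _ ⟨y i, Subtype.ext (hx i)⟩
  · rw [← IntermediateField.fg_top_iff]
    exact ⟨(Set.finite_range y).toFinset, by rw [Set.Finite.coe_toFinset]; exact hgen⟩
  · rw [← IntermediateField.fg_top_iff]
    exact ⟨(Set.finite_range xR).toFinset, by rw [Set.Finite.coe_toFinset]; exact htop⟩

end alg

end Run7.h941.EU
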