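import Pool.Agent.Run7.h941.EUAlg
import Pool.Agent.Run7.h418.E.Ug

/-!
Piece D1m of helper418: the transport to a conjugated field.
-/

set_option autoImplicit false
set_option linter.unusedSectionVars false

open MvPolynomial

namespace Run7.h941.EU

theorem d1m : Run7.h418.E.D1m := by
  intro hD1a hD1b hC1 hC2 hC3 hC4 n ι κ τ F m σ js P H Ω _ _ _ 𝔉 i0 a d J h α hκ hF hm hσ him hcov
    hne hd ha1 ha2 hcone htan hval hal htrd ht K _ _ w y e hgen hey hgt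
  obtain ⟨t, hdet⟩ := ht
  classical
  have hch : CharZero 𝔉 := charZero_of_injective_algebraMap (algebraMap ℂ 𝔉).injective
  have hind : AlgebraicIndependent 𝔉 (fun b => a (t b)) := indep_of_det hdet
  have hτ : Finite τ := hcov.fin
  obtain ⟨𝔎, hac, htr, hh, halg, hik, hl⟩ := hD1a Ω 𝔉 (Fin (n + 1) ⊕ Fin (n + 1))
    (κ ⊕ (Fin d × κ)) a d t (Sum.elim h (fun p => α p.1 p.2)) htrd hind
  -- finitely many equations
  obtain ⟨T, hTf, hT⟩ : ∃ T : Set ι, T.Finite ∧ ∀ i, F i ∈ Ideal.span (F '' T) := by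
    have h1 : (Ideal.span (Set.range F)).FG := IsNoetherian.noetherian _
    obtain ⟨s, hs, hs2⟩ := Submodule.fg_span_iff_fg_span_finset_subset _ |>.1 h1
    obtain ⟨T, hT1, hT2⟩ : ∃ T : Set ι, T.Finite ∧ F '' T = (s : Set _) := by
      have h2 : ∀ g : (s : Set (MvPolynomial (Fin (n + 1)) ℂ)), ∃ i, F i = g := fun g => hs g.2
      choose f hf using h2
      refine ⟨Set.range f, Set.finite_range f, ?_⟩
      rw [← Set.range_comp]
      ext g
      constructor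
      · rintro ⟨x, rfl⟩
        rw [Function.comp_apply, hf]
        exact x.2
      · intro hg
        exact ⟨⟨g, hg⟩, hf _⟩
    refine ⟨T, hT1, fun i => ?_⟩
    rw [hT2]
    have h3 : F i ∈ Ideal.span (Set.range F) := Ideal.subset_span ⟨i, rfl⟩
    have h4 : Ideal.span (Set.range F) = Ideal.span (s : Set (MvPolynomial (Fin (n + 1)) ℂ)) := hs2
    rwa [h4] at h3
  set A : Set ℂ := (⋃ i ∈ T, ((F i).coeffs : Set ℂ)) ∪ ((⋃ s, ((P s).coeffs : Set ℂ)) ∪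
    ⋃ s, ((H s).coeffs : Set ℂ)) with hA
  have hAc : A.Countable := by
    refine Set.Finite.countable ?_
    refine (hTf.biUnion fun i _ => Finset.finite_toSet _).union
      ((Set.finite_iUnion fun s => Finset.finite_toSet _).union
        (Set.finite_iUnion fun s => Finset.finite_toSet _))
  obtain ⟨ψ, hψ, hfin⟩ := hD1b Ω 𝔎 hac htr A hAc
  -- the new structure
  set ρ : ℂ →+* Ω := (𝔎.val : 𝔎 →+* Ω).comp (ψ.symm : ℂ →+* 𝔎) with hρ
  have hρψ : ∀ z : 𝔎, ρ (ψ z) = z := fun z => by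
    rw [hρ]
    change ((ψ.symm (ψ z) : 𝔎) : Ω) = z
    rw [RingEquiv.symm_apply_apply]
  have hρA : ∀ c ∈ A, ρ c = algebraMap ℂ Ω c := by
    intro c hc
    conv_lhs => rw [← hψ c hc]
    rw [hρψ]
    rfl
  have hFF : ∀ i ∈ T, Fx ρ (F i) := fun i hi => fx_of_coeffs fun c hc => hρA c <| by
    rw [hA]
    exact Or.inl (Set.mem_biUnion hi hc)
  have hFP : ∀ s, Fx ρ (P s) := fun s => fx_of_coeffs fun c hc => hρA c <| by
    rw [hA]
    exact Or.inr (Or.inl (Set.mem_iUnion.2 ⟨s, hc⟩))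
  have hFH : ∀ s, Fx ρ (H s) := fun s => fx_of_coeffs fun c hc => hρA c <| by
    rw [hA]
    exact Or.inr (Or.inr (Set.mem_iUnion.2 ⟨s, hc⟩))
  have hJ0 : ∀ b (z : 𝔎), J b (z : Ω) = 0 := fun b z => der_algebraic (J b) (halg z z.2)
  have hh1 : ∀ j, (h j : Ω) ∈ 𝔎 := fun j => hh (Sum.inl j)
  have hh2 : ∀ b j, (α b j : Ω) ∈ 𝔎 := fun b j => hh (Sum.inr (b, j))
  let alg : Algebra ℂ (Run7.h418.U.CP Ω) := RingHom.toAlgebra (S := Run7.h418.U.CP Ω) ρ
  have hsm : ∀ (b : Fin d) (c : ℂ) (v : Ω), J b (ρ c * v) = ρ c * J b v := by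
    intro b c v
    have h1 := (J b).leibniz (ρ c) v
    have h2 : J b (ρ c) = 0 := hJ0 b (ψ.symm c)
    rw [h2, smul_zero, add_zero] at h1
    exact h1
  let J' : Fin d → Derivation ℂ (Run7.h418.U.CP Ω) (Run7.h418.U.CP Ω) := fun b =>
    Derivation.mk' (R := ℂ) (A := Run7.h418.U.CP Ω) (M := Run7.h418.U.CP Ω)
      { toFun := fun z => (J b (z : Ω) : Ω)
        map_add' := fun u v => map_add (J b) u v
        map_smul' := fun c v => hsm b c v } (fun u v => (J b).leibniz u v)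
  let a' : Fin (n + 1) ⊕ Fin (n + 1) → Run7.h418.U.CP Ω := a
  let ε : Ω →+* Run7.h418.U.CP Ω := RingHom.id Ω
  let e' : K →+* Run7.h418.U.CP Ω := ε.comp (e : K →+* Ω)
  set c : κ → ℂ := fun j => ψ ⟨h j, hh1 j⟩ with hc
  have hcρ : ∀ j, ρ (c j) = (h j : Ω) := fun j => hρψ ⟨h j, hh1 j⟩
  have htr' : Algebra.trdeg ℂ (IntermediateField.adjoin ℂ (Set.range a')) = d :=
    trdeg_new (k1 := 𝔎) (k2 := ℂ) (Ω1 := Ω) (Ω2 := Run7.h418.U.CP Ω) ψ ε (fun x => (hρψ x).symm) a t hik hl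
  have hHyp : Run7.h418.E.Hyp F m σ js P H c (Ω := Run7.h418.U.CP Ω) i0 a' J' (fun b j => ψ ⟨α b j, hh2 b j⟩) := by
    refine ⟨hκ, hF, hm, hσ, him, hcov, ?_, ?_, hd⟩
    · obtain ⟨j, hj⟩ := hne
      refine ⟨j, fun h0 => hj ?_⟩
      have h1 : (⟨h j, hh1 j⟩ : 𝔎) = 0 := (map_eq_zero_iff ψ ψ.injective).1 h0
      have h2 := congrArg (Subtype.val) h1
      exact Subtype.ext h2
    · have heq : ∀ k, a (Sum.inl k) ≠ 0 → ∀ i, eval₂ ρ (Run7.h418.E.ccM k a ∘ Sum.inl) (F i) = 0 ∧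
          eval₂ ρ (Run7.h418.E.ccM k a) (Dt (F i)) = 0 := fun k hk i =>
        eqs_new hT hFF (hcone k hk) (fun i => htan k hk i) i
      refine ⟨ha1, ha2, fun k hk i => (heq k hk i).1, fun k hk i => (heq k hk i).2,
        fun k hk s => ?_, fun k hk s b => ?_, htr', ?_⟩
      · have h1 := hval k hk s
        rw [← (hFP s).ev, ← (hFH s).ev, ← hcρ] at h1
        exact h1
      · have h1 := hal k hk s b
        rw [← (hFH s).ev, ← hρψ ⟨α b (js s), hh2 b (js s)⟩] at h1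
        refine Eq.trans ?_ h1
        refine Finset.sum_congr rfl fun l _ => ?_
        rw [← ((hFP s).pd _).ev]
        rfl
      · exact ⟨fun b => a' (t b), fun b => IntermediateField.subset_adjoin _ _ ⟨t b, rfl⟩, hdet⟩
  obtain ⟨hd1, hd2⟩ := hC4 hC1 hC2 hC3 n ι κ τ F m σ js P H c (Run7.h418.U.CP Ω) i0 a' d J' _ hHyp
  apply hd2
  obtain ⟨θ, hθ1, hθ2, hKf, hRf⟩ := hom_new (k0 := ℂ) (k2 := ℂ) (K := K) (Ω2 := Run7.h418.U.CP Ω) y hgen e'
    ((ψ : 𝔎 →+* ℂ).comp (algebraMap ℂ 𝔎)) (fun z => by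
      change (e (algebraMap ℂ K z) : Ω) = ρ (ψ (algebraMap ℂ 𝔎 z))
      rw [hρψ, AlgHom.commutes]
      rfl) (x := a' ∘ Sum.inl) (fun i => hey i)
  obtain ⟨d', rfl⟩ : ∃ d', d = d' + 1 := ⟨d - 1, by omega⟩
  exact Run7.h418.U.gt_up_hom hKf hRf hfin (ι := θ) hθ1 hθ2 hgt hd1

end Run7.h941.EU
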