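import Mathlib

/-!
Derivations, algebraic elements and algebraic independence (helper file for the piece D1m).
-/

set_option autoImplicit false

open scoped Cardinal

namespace Run7.h941.EU

section der

variable {F Ω : Type} [Field F] [Field Ω] [Algebra F Ω]

/-- the constants of a derivation -/
def dk (D : Derivation F Ω Ω) : IntermediateField F Ω where
  carrier := {x | D x = 0}
  mul_mem' := by
    intro a b ha hb
    simp only [Set.mem_ofPred_eq] at *
    rw [Derivation.leibniz, ha, hb, smul_zero, smul_zero, add_zero]
  one_mem' := by
    simp only [Set.mem_ofPred_eq]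
    exact D.map_one_eq_zero
  add_mem' := by
    intro a b ha hb
    simp only [Set.mem_ofPred_eq] at *
    rw [map_add, ha, hb, add_zero]
  zero_mem' := by
    simp only [Set.mem_ofPred_eq]
    exact map_zero D
  algebraMap_mem' := by
    intro r
    simp only [Set.mem_ofPred_eq]
    exact D.map_algebraMap r
  inv_mem' := by
    intro a ha
    simp only [Set.mem_ofPred_eq] at *
    rw [Derivation.leibniz_inv, ha, smul_zero]

theorem mem_dk {D : Derivation F Ω Ω} {x : Ω} : x ∈ dk D ↔ D x = 0 := Iff.rfl

variable [CharZero F]

/-- derivations kill algebraic elements over the field of constants -/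
theorem mem_dk_of_algebraic (D : Derivation F Ω Ω) {x : Ω} (hx : IsAlgebraic (dk D) x) :
    x ∈ dk D := by
  have h0 : CharZero (dk D) := charZero_of_injective_algebraMap (algebraMap F (dk D)).injective
  let D' : Derivation (dk D) Ω Ω :=
    Derivation.mk' { toFun := D
                     map_add' := map_add D
                     map_smul' := fun c y => by
                      rw [Algebra.smul_def, Derivation.leibniz]
                      have h1 : D (algebraMap (dk D) Ω c) = 0 := c.2
                      rw [h1, smul_zero, add_zero]
                      rfl } (fun a b => D.leibniz a b)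
  have h1 : D' (Polynomial.aeval x (minpoly (dk D) x)) = 0 := by
    rw [minpoly.aeval, map_zero]
  rw [Derivation.map_aeval] at h1
  have h2 : Polynomial.aeval x (Polynomial.derivative (minpoly (dk D) x)) ≠ 0 := by
    have h3 : (minpoly (dk D) x).Separable :=
      (minpoly.irreducible hx.isIntegral).separable
    exact h3.aeval_derivative_ne_zero (minpoly.aeval _ _)
  have h4 := (smul_eq_zero.1 h1).resolve_left h2
  exact h4

theorem der_algebraic (D : Derivation F Ω Ω) {x : Ω} (hx : IsAlgebraic F x) : D x = 0 :=
  mem_dk_of_algebraic D (hx.tower_top (dk D))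

theorem sum_der {ι : Type} [Fintype ι] (g : ι → Ω) (J : ι → Derivation F Ω Ω) (z : Ω) :
    (∑ s, g s • J s) z = ∑ s, g s * J s z := by
  classical
  have h1 : ∀ S : Finset ι, (∑ s ∈ S, g s • J s) z = ∑ s ∈ S, g s * J s z := by
    intro S
    induction S using Finset.cons_induction with
    | empty => simp
    | cons a s ha ih =>
      rw [Finset.sum_cons, Finset.sum_cons, Derivation.add_apply, Derivation.smul_apply, ih,
        smul_eq_mul]
  exact h1 _

open scoped IntermediateField.algebraAdjoinAdjoin in
/-- **The Jacobian criterion.** -/
theorem indep_of_det {d : ℕ} {x : Fin d → Ω} {J : Fin d → Derivation F Ω Ω}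
    (h : (Matrix.of fun s t => J s (x t) : Matrix (Fin d) (Fin d) Ω).det ≠ 0) :
    AlgebraicIndependent F x := by
  classical
  set M := IntermediateField.adjoin F (Set.range x) with hM
  let y : Fin d → M := fun t => ⟨x t, IntermediateField.subset_adjoin F _ ⟨t, rfl⟩⟩
  set S : Set M := Set.range y with hS
  have halg : Algebra.IsAlgebraic (Algebra.adjoin F S) M := by
    have h1 : IntermediateField.adjoin F S = ⊤ := by
      rw [eq_top_iff]
      intro z _
      have h2 : (IntermediateField.adjoin F S).map M.val = M := by
        rw [IntermediateField.adjoin_map]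
        have h5 : M.val '' S = Set.range x := by
          rw [hS, ← Set.range_comp]
          rfl
        rw [h5]
      have h3 : (z : Ω) ∈ (IntermediateField.adjoin F S).map M.val := by
        rw [h2]
        exact z.2
      obtain ⟨w, hw, hwz⟩ := h3
      have : w = z := Subtype.ext hwz
      rwa [← this]
    have h4 : Algebra.IsAlgebraic (IntermediateField.adjoin F S) M := by
      rw [h1]
      exact ⟨fun z => isAlgebraic_algebraMap (⟨z, trivial⟩ : (⊤ : IntermediateField F M))⟩
    exact (IsFractionRing.comap_isAlgebraic_iff (A := Algebra.adjoin F S)
      (K := IntermediateField.adjoin F S) (C := M)).2 h4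
  obtain ⟨t, hts, ht⟩ := exists_isTranscendenceBasis_subset (R := F) S
  have hSf : S.Finite := Set.finite_range y
  have htf : t.Finite := hSf.subset hts
  have : Fintype t := htf.fintype
  have hcard : Fintype.card t = d := by
    have h0 : Fintype.card t ≤ d := by
      have h1 : Fintype.card t ≤ Fintype.card (Set.range y) := by
        apply Set.card_le_card
        rw [← hS]; exact hts
      exact h1.trans ((Fintype.card_range_le y).trans (by simp))
    by_contra hne
    have hlt : Fintype.card t < d := lt_of_le_of_ne h0 hne
    -- a vector killing the columns of `t`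
    let A : (Fin d → Ω) →ₗ[Ω] (t → Ω) :=
      { toFun := fun g z => ∑ s, g s * J s ((z : M) : Ω)
        map_add' := fun g g' => by
          funext z
          simp only [Pi.add_apply, add_mul, Finset.sum_add_distrib]
        map_smul' := fun c g => by
          funext z
          simp only [Pi.smul_apply, smul_eq_mul, mul_assoc, Finset.mul_sum, RingHom.id_apply] }
    have hker : LinearMap.ker A ≠ ⊥ := by
      apply LinearMap.ker_ne_bot_of_finrank_lt
      rw [Module.finrank_fintype_fun_eq_card, Module.finrank_fintype_fun_eq_card, Fintype.card_fin]
      exact hlt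
    obtain ⟨g, hg, hg0⟩ := (Submodule.ne_bot_iff _).1 hker
    apply hg0
    refine Matrix.eq_zero_of_vecMul_eq_zero h ?_
    let D : Derivation F Ω Ω := ∑ s, g s • J s
    have hD : ∀ z, D z = ∑ s, g s * J s z := sum_der g J
    have h1 : ∀ z ∈ t, ((z : M) : Ω) ∈ dk D := by
      intro z hz
      rw [mem_dk, hD]
      exact congrFun (LinearMap.mem_ker.1 hg) ⟨z, hz⟩
    have h2 : ∀ z : M, (z : Ω) ∈ dk D := by
      intro z
      have h3 := ht.isAlgebraic_field.isAlgebraic z
      let E : IntermediateField F M := (dk D).comap M.val
      have h4 : IntermediateField.adjoin F (Set.range ((↑) : t → M)) ≤ E := by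
        rw [IntermediateField.adjoin_le_iff]
        rintro _ ⟨w, rfl⟩
        exact h1 _ w.2
      have h5 : IsAlgebraic E z := by
        obtain ⟨p, hp0, hp⟩ := h3
        refine ⟨p.map (IntermediateField.inclusion h4).toRingHom, ?_, ?_⟩
        · rw [Ne, Polynomial.map_eq_zero_iff (IntermediateField.inclusion h4).toRingHom.injective]
          exact hp0
        · rw [Polynomial.aeval_def, Polynomial.eval₂_map]
          rw [Polynomial.aeval_def] at hp
          exact hp
      have h6 : IsAlgebraic (dk D) (z : Ω) := by
        obtain ⟨p, hp0, hp⟩ := h5
        let φ : E →+* dk D :=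
          { toFun := fun w => ⟨((w : M) : Ω), w.2⟩
            map_one' := rfl
            map_mul' := fun _ _ => rfl
            map_zero' := rfl
            map_add' := fun _ _ => rfl }
        refine ⟨p.map φ, ?_, ?_⟩
        · rw [Ne, Polynomial.map_eq_zero_iff φ.injective]
          exact hp0
        · rw [Polynomial.aeval_def, Polynomial.eval₂_map]
          rw [Polynomial.aeval_def] at hp
          have h7 := congrArg (algebraMap M Ω) hp
          rw [Polynomial.hom_eval₂, map_zero] at h7
          exact h7
      exact mem_dk_of_algebraic D h6
    funext t'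
    have h3 := h2 (y t')
    rw [mem_dk, hD] at h3
    exact h3
  have hb : IsTranscendenceBasis F y := by
    have h9 : Algebra.IsAlgebraic (Algebra.adjoin F (Set.range y)) M := halg
    apply Algebra.IsAlgebraic.isTranscendenceBasis_of_le_trdeg_of_finite F y
    rw [← ht.cardinalMk_eq_trdeg, Cardinal.mk_fintype, Cardinal.mk_fintype, hcard,
      Fintype.card_fin]
  exact hb.1.map' (f := M.val) M.val.injective

end der

end Run7.h941.EU
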