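import Pool.Agent.Run7.h941.GrowthAux

/-!
A generic linear form is regular modulo the first two elements; growth theorem over infinite
fields.
-/

set_option autoImplicit false

open MvPolynomial Module

namespace Run7.H941

variable {k : Type*} [Field k]

/-- a curve of linear forms -/
noncomputable def zf (t : k) : P3 k := X 2 + C t * X 0 + C (t ^ 2) * X 1

theorem isUnit_C {t : k} (ht : t ≠ 0) : IsUnit (C t : P3 k) :=
  (IsUnit.mk0 t ht).map (C : k →+* P3 k)

theorem zf_finite (P : Ideal (P3 k)) (hX : ¬ ∀ i, (X i : P3 k) ∈ P) :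
    {t : k | zf t ∈ P}.Finite := by
  classical
  by_contra hinf
  apply hX
  obtain ⟨s, hs, hcard⟩ := Set.Infinite.exists_subset_card_eq hinf 3
  obtain ⟨t1, t2, t3, h12, h13, h23, rfl⟩ := Finset.card_eq_three.mp hcard
  have m1 : zf t1 ∈ P := hs (by simp)
  have m2 : zf t2 ∈ P := hs (by simp)
  have m3 : zf t3 ∈ P := hs (by simp)
  have key : ∀ s t : k, s ≠ t → zf s ∈ P → zf t ∈ P → X 0 + C (s + t) * X 1 ∈ P := by
    intro s t hst hs ht
    have e : zf s - zf t = C (s - t) * (X 0 + C (s + t) * X 1) := by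
      unfold zf
      simp only [map_sub, map_add, map_pow]
      ring
    have h1 : C (s - t) * (X 0 + C (s + t) * X 1) ∈ P := by
      rw [← e]; exact sub_mem hs ht
    exact (Ideal.unit_mul_mem_iff_mem P (isUnit_C (sub_ne_zero.mpr hst))).mp h1
  have k1 := key t1 t2 h12 m1 m2
  have k2 := key t1 t3 h13 m1 m3
  have hX1 : (X 1 : P3 k) ∈ P := by
    have e : (X 0 + C (t1 + t2) * X 1) - (X 0 + C (t1 + t3) * X 1) =
        C (t2 - t3) * (X 1 : P3 k) := by
      simp only [map_sub, map_add]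
      ring
    have h1 : C (t2 - t3) * (X 1 : P3 k) ∈ P := by
      rw [← e]; exact sub_mem k1 k2
    exact (Ideal.unit_mul_mem_iff_mem P (isUnit_C (sub_ne_zero.mpr h23))).mp h1
  have hX0 : (X 0 : P3 k) ∈ P := by
    have e : (X 0 : P3 k) = (X 0 + C (t1 + t2) * X 1) - C (t1 + t2) * X 1 := by ring
    rw [e]
    exact sub_mem k1 (P.mul_mem_left _ hX1)
  have hX2 : (X 2 : P3 k) ∈ P := by
    have e : (X 2 : P3 k) = zf t1 - C t1 * X 0 - C (t1 ^ 2) * X 1 := by
      unfold zf; ring
    rw [e]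
    exact sub_mem (sub_mem m1 (P.mul_mem_left _ hX0)) (P.mul_mem_left _ hX1)
  exact exists_fin3 hX0 hX1 hX2

theorem exists_regular_linear [Infinite k] {I : Ideal (P3 k)} {h : P3 k} {c : ℕ}
    (hc : 1 ≤ c) (hh : h.IsHomogeneous c) (hreg : ∀ p, h * p ∈ I → p ∈ I) :
    ∃ t : k, ∀ p, zf t * p ∈ I → p ∈ I := by
  classical
  have hfin := associatedPrimes.finite (P3 k) (P3 k ⧸ I)
  have hzd := biUnion_associatedPrimes_eq_zero_divisors (P3 k) (P3 k ⧸ I)
  have hbadfin : (⋃ P ∈ associatedPrimes (P3 k) (P3 k ⧸ I), {t : k | zf t ∈ P}).Finite := by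
    apply Set.Finite.biUnion hfin
    intro P hP
    apply zf_finite P
    intro hX
    have h1 : h ∈ P := by
      obtain ⟨c', rfl⟩ : ∃ c', c = c' + 1 := ⟨c - 1, by omega⟩
      have h2 : h ∈ up (Sd k c') := by rw [up_Sd]; exact hh
      obtain ⟨p, _, q, _, r, _, rfl⟩ := mem_up.mp h2
      exact add_mem (add_mem (P.mul_mem_right _ (hX 0)) (P.mul_mem_right _ (hX 1)))
        (P.mul_mem_right _ (hX 2))
    have h3 : h ∈ ⋃ p ∈ associatedPrimes (P3 k) (P3 k ⧸ I), (p : Set (P3 k)) :=
      Set.mem_biUnion hP h1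
    rw [hzd] at h3
    obtain ⟨x, hx0, hx⟩ := h3
    obtain ⟨p, rfl⟩ := Ideal.Quotient.mk_surjective x
    apply hx0
    rw [Ideal.Quotient.eq_zero_iff_mem]
    apply hreg
    rw [← Ideal.Quotient.eq_zero_iff_mem, map_mul]
    exact hx
  obtain ⟨t, ht⟩ := hbadfin.exists_notMem
  refine ⟨t, ?_⟩
  intro p hp
  by_contra hpI
  apply ht
  have h1 : zf t ∈ ⋃ p ∈ associatedPrimes (P3 k) (P3 k ⧸ I), (p : Set (P3 k)) := by
    rw [hzd]
    refine ⟨Ideal.Quotient.mk I p, ?_, ?_⟩
    · rw [Ne, Ideal.Quotient.eq_zero_iff_mem]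
      exact hpI
    · change Ideal.Quotient.mk I (zf t) * Ideal.Quotient.mk I p = 0
      rw [← map_mul, Ideal.Quotient.eq_zero_iff_mem]
      exact hp
  rw [Set.mem_iUnion₂] at h1 ⊢
  exact h1

/-- images of generators of the coordinate change -/
noncomputable def gz (t : k) : Fin 3 → P3 k := ![X 0, X 1, X 2 - C t * X 0 - C (t ^ 2) * X 1]

noncomputable def gz' (t : k) : Fin 3 → P3 k := ![X 0, X 1, zf t]

/-- the coordinate change -/
noncomputable def phz (t : k) : P3 k ≃ₐ[k] P3 k :=
  AlgEquiv.ofAlgHom (aeval (gz t)) (aeval (gz' t))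
    (by
      apply MvPolynomial.algHom_ext
      apply exists_fin3
      · simp [gz, gz']
      · simp [gz, gz']
      · simp [gz, gz', zf]
        ring)
    (by
      apply MvPolynomial.algHom_ext
      apply exists_fin3
      · simp [gz, gz']
      · simp [gz, gz']
      · simp [gz, gz', zf]
        ring)

theorem phz_hom (t : k) {m : ℕ} {p : P3 k} (hp : p.IsHomogeneous m) :
    (phz t p).IsHomogeneous m := by
  have h1 : ∀ i, (gz t i).IsHomogeneous 1 := by
    apply exists_fin3
    · exact isHomogeneous_X k 0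
    · exact isHomogeneous_X k 1
    · refine ((isHomogeneous_X k 2).sub ?_).sub ?_
      · have := (isHomogeneous_C (Fin 3) t).mul (isHomogeneous_X k 0)
        simpa using this
      · have := (isHomogeneous_C (Fin 3) (t ^ 2)).mul (isHomogeneous_X k 1)
        simpa using this
  have := hp.aeval (gz t) h1
  rw [one_mul] at this
  exact this

theorem phz_symm_hom (t : k) {m : ℕ} {p : P3 k} (hp : p.IsHomogeneous m) :
    ((phz t).symm p).IsHomogeneous m := by
  have h1 : ∀ i, (gz' t i).IsHomogeneous 1 := by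
    apply exists_fin3
    · exact isHomogeneous_X k 0
    · exact isHomogeneous_X k 1
    · refine ((isHomogeneous_X k 2).add ?_).add ?_
      · have := (isHomogeneous_C (Fin 3) t).mul (isHomogeneous_X k 0)
        simpa using this
      · have := (isHomogeneous_C (Fin 3) (t ^ 2)).mul (isHomogeneous_X k 1)
        simpa using this
  have := hp.aeval (gz' t) h1
  rw [one_mul] at this
  exact this

theorem phz_zf (t : k) : phz t (zf t) = X 2 := by
  change aeval (gz t) (zf t) = X 2
  simp [gz, zf]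
  ring

theorem phz_X0 (t : k) : phz t (X 0) = X 0 := by
  change aeval (gz t) (X 0) = X 0
  simp [gz]

theorem phz_X1 (t : k) : phz t (X 1) = X 1 := by
  change aeval (gz t) (X 1) = X 1
  simp [gz]

theorem equiv_mem_span (φ : P3 k ≃ₐ[k] P3 k) (s : Set (P3 k)) (p : P3 k) :
    φ p ∈ Ideal.span (φ '' s) ↔ p ∈ Ideal.span s := by
  rw [← Ideal.map_span]
  rw [Ideal.mem_map_of_equiv]
  constructor
  · rintro ⟨q, hq, h⟩
    rw [← φ.injective h]
    exact hq
  · intro h
    exact ⟨p, h, rfl⟩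

variable {f g h : P3 k} {a b c : ℕ}

theorem RegTriple.growth_inf [Infinite k] (R : RegTriple f g h a b c)
    {d : ℕ} {V U : Submodule k (P3 k)}
    (hp : PairAt (Ideal.span {f, g, h}) d V U) {t : ℕ × ℕ}
    (ht : t.1 < a ∧ t.2 < b ∧ t.1 + t.2 ≤ d)
    (hv : (Qs a b (d + 1) (d + 1 - c) t).card + (Pout a b d).card ≤ finrank k V) :
    (Qs a b (d + 2) (d + 2 - c) t).card + (Pout a b (d + 1)).card ≤ finrank k U := by
  have hc1 : 1 ≤ c := R.rp.ha.trans (R.rp.hab.trans R.hbc)
  obtain ⟨s, hs⟩ := exists_regular_linear hc1 R.hh R.hregh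
  let φ := phz s
  have e1 : ∀ p, φ p ∈ Ideal.span {φ f} ↔ p ∈ Ideal.span {f} := by
    intro p
    have := equiv_mem_span φ {f} p
    rwa [Set.image_singleton] at this
  have e2 : ∀ p, φ p ∈ Ideal.span {φ f, φ g} ↔ p ∈ Ideal.span {f, g} := by
    intro p
    have := equiv_mem_span φ {f, g} p
    rwa [Set.image_pair] at this
  have e3 : ∀ p, φ p ∈ Ideal.span {φ f, φ g, φ h} ↔ p ∈ Ideal.span {f, g, h} := by
    intro p
    have := equiv_mem_span φ {f, g, h} p
    rwa [Set.image_insert_eq, Set.image_pair] at this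
  have R' : RegTriple (φ f) (φ g) (φ h) a b c := by
    refine ⟨⟨phz_hom s R.rp.hf, phz_hom s R.rp.hg, ?_, ?_, ?_, R.rp.ha, R.rp.hab⟩,
      phz_hom s R.hh, R.hbc, ?_⟩
    · intro h0
      exact R.rp.hf0 (φ.injective (by rw [h0, map_zero]))
    · intro h0
      exact R.rp.hg0 (φ.injective (by rw [h0, map_zero]))
    · intro p hp
      obtain ⟨q, rfl⟩ := φ.surjective p
      rw [← map_mul, e1] at hp
      rw [e1]
      exact R.rp.hreg q hp
    · intro p hp
      obtain ⟨q, rfl⟩ := φ.surjective p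
      rw [← map_mul, e2] at hp
      rw [e2]
      exact R.hregh q hp
  have hz : ∀ p, X 2 * p ∈ Ideal.span {φ f, φ g} → p ∈ Ideal.span {φ f, φ g} := by
    intro p hp
    obtain ⟨q, rfl⟩ := φ.surjective p
    rw [← phz_zf s] at hp
    change φ (zf s) * φ q ∈ _ at hp
    rw [← map_mul, e2] at hp
    rw [e2]
    exact hs q hp
  have hJ : ∀ {m : ℕ} {W : Submodule k (P3 k)}, idg (Ideal.span {f, g, h}) m ≤ W →
      idg (Ideal.span {φ f, φ g, φ h}) m ≤ W.map φ.toLinearMap := by
    intro m W hW q hq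
    obtain ⟨p, rfl⟩ := φ.surjective q
    refine ⟨p, hW ⟨(e3 p).mp hq.1, ?_⟩, rfl⟩
    have := phz_symm_hom s hq.2
    change (φ.symm (φ p)).IsHomogeneous m at this
    rwa [φ.symm_apply_apply] at this
  have hup := up_le_iff.mp hp.hup
  have hp' : PairAt (Ideal.span {φ f, φ g, φ h}) d (V.map φ.toLinearMap)
      (U.map φ.toLinearMap) := by
    refine ⟨?_, ?_, ?_, hJ hp.hJV, hJ hp.hJU⟩
    · rintro _ ⟨p, hpp, rfl⟩
      exact phz_hom s (hp.hV hpp)
    · rintro _ ⟨p, hpp, rfl⟩
      exact phz_hom s (hp.hU hpp)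
    · rw [up_le_iff]
      rintro _ ⟨p, hpp, rfl⟩
      apply exists_fin3
      · refine ⟨X 0 * p, hup p hpp 0, ?_⟩
        change φ (X 0 * p) = X 0 * φ p
        rw [map_mul]
        congr 1
        exact phz_X0 s
      · refine ⟨X 1 * p, hup p hpp 1, ?_⟩
        change φ (X 1 * p) = X 1 * φ p
        rw [map_mul]
        congr 1
        exact phz_X1 s
      · refine ⟨zf s * p, ?_, ?_⟩
        · have e : zf s * p = X 2 * p + s • (X 0 * p) + (s ^ 2) • (X 1 * p) := by
            unfold zf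
            rw [smul_eq_C_mul, smul_eq_C_mul]
            ring
          rw [e]
          exact add_mem (add_mem (hup p hpp 2) (U.smul_mem _ (hup p hpp 0)))
            (U.smul_mem _ (hup p hpp 1))
        · change φ (zf s * p) = X 2 * φ p
          rw [map_mul]
          congr 1
          exact phz_zf s
  have f1 : finrank k (V.map φ.toLinearMap) = finrank k V :=
    LinearEquiv.finrank_map_eq φ.toLinearEquiv V
  have f2 : finrank k (U.map φ.toLinearMap) = finrank k U :=
    LinearEquiv.finrank_map_eq φ.toLinearEquiv U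
  have := R'.growth_aux hz hp' ht (by rw [f1]; exact hv)
  rw [f2] at this
  exact this

end Run7.H941
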