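import Pool.Agent.Run7.h941.Lpp
import Pool.Agent.Run7.h941.BaseChange

/-!
Growth data for ideals containing a regular sequence of length at most three.
-/

set_option autoImplicit false

open MvPolynomial Module

namespace Run7.H941

/-- monomials of degree `m` divisible by one of the first `r` powers -/
def PP (r a b c m : ℕ) : Finset (ℕ × ℕ) :=
  (T m).filter (fun p => (1 ≤ r ∧ a ≤ p.1) ∨ (2 ≤ r ∧ b ≤ p.2) ∨ (3 ≤ r ∧ c ≤ m - p.1 - p.2))

theorem mem_PP {r a b c m : ℕ} {p : ℕ × ℕ} : p ∈ PP r a b c m ↔ p ∈ T m ∧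
    ((1 ≤ r ∧ a ≤ p.1) ∨ (2 ≤ r ∧ b ≤ p.2) ∨ (3 ≤ r ∧ c ≤ m - p.1 - p.2)) := by
  unfold PP; rw [Finset.mem_filter]

variable {k : Type*} [Field k]

/-- The three properties of the ideal generated by the first `r` generators. -/
structure Good (J : Ideal (P3 k)) (r a b c : ℕ) : Prop where
  growth : ∀ (m : ℕ) (V U : Submodule k (P3 k)), PairAt J m V U → ∀ t ∈ T m, t ∉ PP r a b c m →
    MM (PP r a b c m) m t ≤ finrank k V → MM (PP r a b c (m + 1)) (m + 1) t ≤ finrank k U
  dim : ∀ m, (PP r a b c m).card ≤ finrank k (idg J m)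
  gen : ∀ m, (1 ≤ r → a ≤ m) → (2 ≤ r → b ≤ m) → (3 ≤ r → c ≤ m) →
    idg J (m + 1) ≤ up (idg J m)

theorem Bx_full {m : ℕ} : Bx (m + 2) (m + 2) m = T m := by
  ext p
  rw [mem_Bx, mem_T]
  omega

theorem Bx_full' {m : ℕ} : Bx (m + 2) (m + 2) (m + 1) = T (m + 1) := by
  ext p
  rw [mem_Bx, mem_T]
  omega

/-- Macaulay's theorem in three variables -/
theorem macaulay_growth {m : ℕ} {V U : Submodule k (P3 k)} (hV : V ≤ Sd k m)
    (hU : U ≤ Sd k (m + 1)) (hup : up V ≤ U) {t : ℕ × ℕ} (ht : t ∈ T m)
    (hv : (up_of (T m) t).card ≤ finrank k V) :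
    (up_of (T (m + 1)) t).card ≤ finrank k U := by
  have hVf : FiniteDimensional k V := finite_of_le hV
  have hUf : FiniteDimensional k U := finite_of_le hU
  have h1 : 1 ≤ (up_of (T m) t).card := Finset.card_pos.mpr ⟨t, mem_up_of.mpr ⟨ht, lx_refl t⟩⟩
  have hVT : finrank k V ≤ (T m).card := by
    rw [← finrank_Sd (k := k)]
    exact Submodule.finrank_mono hV
  obtain ⟨s, hs, hsv⟩ := exists_exact (T m) (finrank k V) (by omega) hVT
  have hst : lx s t := lx_of_card_le ht (by omega)
  refine le_trans (up_of_mono hst) ?_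
  have hsT := mem_T.mp hs
  by_contra hcon
  push Not at hcon
  have hupU := Submodule.finrank_mono hup
  have hVne : V ≠ ⊥ := by
    rintro rfl
    rw [finrank_bot] at hv
    omega
  have hVup := finrank_le_up V
  have hmac := macaulay3 (finrank k (up V) - finrank k V) V hVne (by omega)
  have hsucc := Bx_up_succ (m + 2) (m + 2) m s
  rw [Bx_full, Bx_full', hsv, card_row_top (by omega) le_rfl (by omega)] at hsucc
  have hrows := card_rows (a := m + 2) (b := m + 2) (d := m) (t := s) (by omega) le_rfl (by omega)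
  rw [Bx_full, hsv] at hrows
  have h3 : finrank k (up V) - finrank k V ≤ m - s.1 + 1 := by omega
  have h4 : (finrank k (up V) - finrank k V) * (finrank k (up V) - finrank k V - 1) ≤
      (m - s.1 + 1) * (m - s.1) := Nat.mul_le_mul h3 (by omega)
  have h5 : (m - s.1 + 1) * (m - s.1) = (m - s.1) * (m - s.1 + 1) := by ring
  omega

theorem good_zero (a b c : ℕ) : Good (⊥ : Ideal (P3 k)) 0 a b c where
  growth m V U hp t ht _ hv := by
    have e : ∀ m, MM (PP 0 a b c m) m t = (up_of (T m) t).card := by
      intro m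
      unfold MM up_of
      congr 1
      ext p
      rw [Finset.mem_filter, Finset.mem_filter, mem_PP]
      constructor
      · rintro ⟨h1, h2⟩
        refine ⟨h1, ?_⟩
        rcases h2 with h2 | h2
        · omega
        · exact h2
      · rintro ⟨h1, h2⟩
        exact ⟨h1, Or.inr h2⟩
    rw [e] at hv ⊢
    exact macaulay_growth hp.hV hp.hU hp.hup ht hv
  dim m := by
    have : PP 0 a b c m = ∅ := by
      rw [Finset.eq_empty_iff_forall_notMem]
      intro p hp
      rw [mem_PP] at hp
      omega
    rw [this]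
    simp
  gen m _ _ _ := by
    rintro p ⟨hp, _⟩
    have hp' : p = 0 := hp
    rw [hp']
    exact Submodule.zero_mem _

theorem up_of_eq_of_row {a m : ℕ} {t : ℕ × ℕ} (ht : t.1 < a) (Pr : ℕ × ℕ → Prop)
    [DecidablePred Pr] (h : ∀ p, Pr p → a ≤ p.1) :
    (T m).filter (fun p => Pr p ∨ lx t p) = up_of (T m) t := by
  ext p
  unfold up_of
  rw [Finset.mem_filter, Finset.mem_filter]
  constructor
  · rintro ⟨h1, h2 | h2⟩
    · exact ⟨h1, Or.inl (lt_of_lt_of_le ht (h p h2))⟩
    · exact ⟨h1, h2⟩
  · rintro ⟨h1, h2⟩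
    exact ⟨h1, Or.inr h2⟩

theorem card_PP_one (a b c m : ℕ) : (PP 1 a b c m).card = cT m a := by
  unfold cT
  split_ifs with h
  · have e : PP 1 a b c m = (T (m - a)).image (fun p => (p.1 + a, p.2)) := by
      ext p
      rw [mem_PP, Finset.mem_image, mem_T]
      constructor
      · rintro ⟨h1, h2⟩
        refine ⟨(p.1 - a, p.2), ?_, ?_⟩
        · rw [mem_T]; simp only; omega
        · apply Prod.ext
          · simp only; omega
          · rfl
      · rintro ⟨q, hq, rfl⟩
        rw [mem_T] at hq
        simp only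
        omega
    rw [e, Finset.card_image_of_injective]
    intro p q hpq
    simp only [Prod.mk.injEq] at hpq
    apply Prod.ext <;> omega
  · rw [Finset.card_eq_zero, Finset.eq_empty_iff_forall_notMem]
    intro p hp
    rw [mem_PP, mem_T] at hp
    omega

theorem good_one {f : P3 k} {a : ℕ} (hf : f.IsHomogeneous a) (hf0 : f ≠ 0) (b c : ℕ) :
    Good (Ideal.span {f}) 1 a b c where
  growth m V U hp t ht htP hv := by
    have hta : t.1 < a := by
      by_contra h
      exact htP (mem_PP.mpr ⟨ht, Or.inl ⟨le_rfl, by omega⟩⟩)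
    have e : ∀ m, MM (PP 1 a b c m) m t = (up_of (T m) t).card := by
      intro m
      unfold MM
      rw [up_of_eq_of_row hta (fun p => p ∈ PP 1 a b c m)]
      intro p hp
      rw [mem_PP] at hp
      omega
    rw [e] at hv ⊢
    exact macaulay_growth hp.hV hp.hU hp.hup ht hv
  dim m := by
    rw [card_PP_one, ← finrank_Sdm (k := k)]
    have hinj : Function.Injective (LinearMap.mulRight k f) := by
      intro p q h
      exact mul_right_cancel₀ hf0 h
    have h1 : (Sdm k m a).map (LinearMap.mulRight k f) ≤ idg (Ideal.span {f}) m := by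
      rintro _ ⟨p, hp, rfl⟩
      refine ⟨?_, Sdm_mul_mem hp hf⟩
      exact Ideal.mul_mem_left _ _ (Ideal.mem_span_singleton_self f)
    rw [(Submodule.equivMapOfInjective (LinearMap.mulRight k f) hinj (Sdm k m a)).finrank_eq]
    exact Submodule.finrank_mono h1
  gen m h1 _ _ := by
    have ham := h1 le_rfl
    rintro p ⟨hp, hpm⟩
    obtain ⟨q, rfl⟩ := Ideal.mem_span_singleton'.mp hp
    have hq := isHomogeneous_of_mul hf hf0 hpm
    have := Sdm_succ_mul_mem hf (Ideal.mem_span_singleton_self f) hq
    rw [if_neg (by omega), sup_bot_eq] at this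
    exact this

theorem MM_two {a b c m : ℕ} {t : ℕ × ℕ} :
    MM (PP 2 a b c m) m t = (Qs a b (m + 1) 0 t).card + (Pout a b m).card := by
  classical
  unfold MM
  rw [← Finset.card_union_of_disjoint]
  · congr 1
    ext p
    rw [Finset.mem_filter, mem_PP, Finset.mem_union, mem_Qs, mem_Pout, mem_T]
    constructor
    · rintro ⟨h1, h2⟩
      by_cases h3 : a ≤ p.1 ∨ b ≤ p.2
      · exact Or.inr ⟨h1, h3⟩
      · left
        refine ⟨by omega, by omega, ?_⟩
        rcases h2 with h2 | h2
        · omega
        · exact Or.inl h2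
    · rintro (⟨h1, h2, h3⟩ | ⟨h1, h2⟩)
      · refine ⟨by omega, Or.inr ?_⟩
        rcases h3 with h3 | h3
        · exact h3
        · omega
      · exact ⟨h1, Or.inl ⟨h1, by omega⟩⟩
  · rw [Finset.disjoint_left]
    intro p hp hq
    rw [mem_Qs] at hp
    rw [mem_Pout] at hq
    omega

theorem MM_three {a b c m : ℕ} (_ : 1 ≤ c) {t : ℕ × ℕ} :
    MM (PP 3 a b c m) m t = (Qs a b (m + 1) (m + 1 - c) t).card + (Pout a b m).card := by
  classical
  unfold MM
  rw [← Finset.card_union_of_disjoint]
  · congr 1
    ext p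
    rw [Finset.mem_filter, mem_PP, Finset.mem_union, mem_Qs, mem_Pout, mem_T]
    constructor
    · rintro ⟨h1, h2⟩
      by_cases h3 : a ≤ p.1 ∨ b ≤ p.2
      · exact Or.inr ⟨h1, h3⟩
      · left
        refine ⟨by omega, by omega, ?_⟩
        rcases h2 with h2 | h2
        · right; omega
        · exact Or.inl h2
    · rintro (⟨h1, h2, h3⟩ | ⟨h1, h2⟩)
      · refine ⟨by omega, ?_⟩
        rcases h3 with h3 | h3
        · exact Or.inr h3
        · left; exact ⟨by omega, by omega⟩
      · exact ⟨h1, Or.inl ⟨h1, by omega⟩⟩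
  · rw [Finset.disjoint_left]
    intro p hp hq
    rw [mem_Qs] at hp
    rw [mem_Pout] at hq
    omega

variable {f g h : P3 k} {a b c : ℕ}

theorem PP_two_eq (a b c m : ℕ) : PP 2 a b c m = Pout a b m := by
  ext p
  rw [mem_PP, mem_Pout, mem_T]
  omega

theorem good_two (R : RegPair f g a b) (c : ℕ) : Good (Ideal.span {f, g}) 2 a b c where
  growth m V U hp t ht htP hv := by
    rw [mem_PP, not_and] at htP
    have h1 := htP ht
    rw [mem_T] at ht
    rw [MM_two] at hv ⊢
    exact R.growth2' hp (by omega) hv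
  dim m := by rw [PP_two_eq, R.dim]
  gen m h1 h2 _ := by
    have h1' := h1 (by omega)
    have h2' := h2 (by omega)
    have := R.newgen m
    rw [if_neg (by omega), if_neg (by omega), sup_bot_eq, sup_bot_eq] at this
    exact this

theorem mem_span_triple {f g h p : P3 k} : p ∈ Ideal.span {f, g, h} ↔
    ∃ α β γ : P3 k, p = α * f + β * g + γ * h := by
  rw [Ideal.mem_span_insert]
  constructor
  · rintro ⟨α, z, hz, rfl⟩
    obtain ⟨β, γ, rfl⟩ := Ideal.mem_span_pair.mp hz
    exact ⟨α, β, γ, by ring⟩
  · rintro ⟨α, β, γ, rfl⟩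
    exact ⟨α, β * g + γ * h, Ideal.mem_span_pair.mpr ⟨β, γ, rfl⟩, by ring⟩

theorem RegTriple.hh0 (R : RegTriple f g h a b c) : h ≠ 0 := by
  rintro rfl
  -- then everything is in the ideal
  have h1 : (1 : P3 k) ∈ Ideal.span {f, g} := R.hregh 1 (by rw [zero_mul]; exact Ideal.zero_mem _)
  have h2 : (1 : P3 k) ∈ idg (Ideal.span {f, g}) 0 := ⟨h1, isHomogeneous_one _ _⟩
  have h3 := R.rp.dim 0
  rw [Pout_empty (by have := R.rp.ha; omega) (by have := R.rp.ha; have := R.rp.hab; omega),
    Finset.card_empty] at h3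
  rw [Submodule.finrank_eq_zero] at h3
  rw [h3, Submodule.mem_bot] at h2
  exact one_ne_zero h2

theorem good_three (R : RegTriple f g h a b c) : Good (Ideal.span {f, g, h}) 3 a b c where
  growth m V U hp t ht htP hv := by
    have ha := R.rp.ha
    have hab := R.rp.hab
    have hbc := R.hbc
    rw [mem_PP, not_and] at htP
    have h1 := htP ht
    rw [mem_T] at ht
    rw [MM_three (by omega)] at hv ⊢
    exact R.growth hp (by omega) hv
  dim m := by
    classical
    have ha := R.rp.ha
    have hab := R.rp.hab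
    have hbc := R.hbc
    have hsub : Ideal.span {f, g} ≤ Ideal.span {f, g, h} := by
      apply Ideal.span_mono
      intro x hx
      simp only [Set.mem_insert_iff, Set.mem_singleton_iff] at hx ⊢
      tauto
    rcases Nat.lt_or_ge m c with hm | hm
    · have e : PP 3 a b c m = Pout a b m := by
        ext p
        rw [mem_PP, mem_Pout, mem_T]
        omega
      rw [e, ← R.rp.dim]
      exact Submodule.finrank_mono (idg_mono hsub m)
    · have hcard : (PP 3 a b c m).card = (Pout a b m).card + (Bx a b (m - c)).card := by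
        rw [← Finset.card_union_of_disjoint]
        · congr 1
          ext p
          rw [mem_PP, Finset.mem_union, mem_Pout, mem_Bx, mem_T]
          omega
        · rw [Finset.disjoint_left]
          intro p hp hq
          rw [mem_Pout] at hp
          rw [mem_Bx] at hq
          omega
      rw [hcard]
      let H : P3 k →ₗ[k] P3 k := LinearMap.mulLeft k h
      have hinj : Function.Injective H := by
        intro p q hpq
        exact mul_left_cancel₀ R.hh0 hpq
      have hle : idg (Ideal.span {f, g}) m ⊔ (Sd k (m - c)).map H ≤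
          idg (Ideal.span {f, g, h}) m := by
        apply sup_le (idg_mono hsub m)
        rintro _ ⟨p, hp, rfl⟩
        refine ⟨?_, ?_⟩
        · exact Ideal.mul_mem_right _ _ (Ideal.subset_span (by simp))
        · have := R.hh.mul hp
          have e : c + (m - c) = m := by omega
          rw [e] at this
          exact this
      have hinf : idg (Ideal.span {f, g}) m ⊓ (Sd k (m - c)).map H ≤
          (idg (Ideal.span {f, g}) (m - c)).map H := by
        rintro _ ⟨h1, p, hp, rfl⟩
        exact ⟨p, ⟨R.hregh p h1.1, hp⟩, rfl⟩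
      have d1 := Submodule.finrank_sup_add_finrank_inf_eq (idg (Ideal.span {f, g}) m)
        ((Sd k (m - c)).map H)
      have d2 := Submodule.finrank_mono hinf
      have d3 : finrank k ((idg (Ideal.span {f, g}) (m - c)).map H) = (Pout a b (m - c)).card := by
        rw [← R.rp.dim]
        exact (Submodule.equivMapOfInjective H hinj _).finrank_eq.symm
      have d4 : finrank k ((Sd k (m - c)).map H) = (T (m - c)).card := by
        rw [← finrank_Sd (k := k)]
        exact (Submodule.equivMapOfInjective H hinj _).finrank_eq.symm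
      have d5 := card_Pout_add_Bx a b (m - c)
      have d6 := Submodule.finrank_mono hle
      have d7 := R.rp.dim m
      omega
  gen m h1 h2 h3 := by
    have h1' := h1 (by omega)
    have h2' := h2 (by omega)
    have h3' := h3 (by omega)
    rintro p ⟨hp, hpm⟩
    obtain ⟨α, β, γ, hαβγ⟩ := mem_span_triple.mp hp
    have h4 : homogeneousComponent (m + 1) p = p := homogeneousComponent_eq_self hpm
    rw [hαβγ, map_add, map_add, hc_mul_right' α f R.rp.hf, hc_mul_right' β g R.rp.hg,
      hc_mul_right' γ h R.hh, ← hαβγ] at h4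
    rw [← h4]
    have f1 := Sdm_succ_mul_mem (J := Ideal.span {f, g, h}) R.rp.hf
      (Ideal.subset_span (by simp)) (hc_mem_Sdm (m + 1) a α)
    have f2 := Sdm_succ_mul_mem (J := Ideal.span {f, g, h}) R.rp.hg
      (Ideal.subset_span (by simp)) (hc_mem_Sdm (m + 1) b β)
    have f3 := Sdm_succ_mul_mem (J := Ideal.span {f, g, h}) R.hh
      (Ideal.subset_span (by simp)) (hc_mem_Sdm (m + 1) c γ)
    rw [if_neg (by omega), sup_bot_eq] at f1 f2 f3
    exact add_mem (add_mem f1 f2) f3

end Run7.H941
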