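import Pool.Agent.Run7.h941.AffOf

/-!
The growth theorem for regular sequences of length three, when the last variable is regular
modulo the first two elements and the field is infinite.
-/

set_option autoImplicit false

open MvPolynomial Module

namespace Run7.H941

variable {k : Type*} [Field k]

/-- A homogeneous regular sequence of length three. -/
structure RegTriple (f g h : P3 k) (a b c : ℕ) : Prop where
  rp : RegPair f g a b
  hh : h.IsHomogeneous c
  hbc : b ≤ c
  hregh : ∀ p, h * p ∈ Ideal.span {f, g} → p ∈ Ideal.span {f, g}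

variable {f g h : P3 k} {a b c : ℕ}

theorem mulX_hom {i : Fin 3} {p : P3 k} {m : ℕ} (hp : p.IsHomogeneous m) :
    (X i * p).IsHomogeneous (m + 1) := by
  have := (isHomogeneous_X k i).mul hp
  rwa [add_comm] at this

theorem EE_one (f g : P3 k) : EE f g 1 = Submodule.span k {1} := by
  apply le_antisymm
  · rintro _ ⟨p, hp, rfl⟩
    have h1 : p.totalDegree = 0 := by
      have := IsHomogeneous.totalDegree_le (show p.IsHomogeneous 0 from hp)
      omega
    rw [totalDegree_eq_zero_iff_eq_C] at h1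
    rw [Submodule.mem_span_singleton]
    refine ⟨coeff 0 p, ?_⟩
    rw [← pr_one f g, ← map_smul, smul_eq_C_mul, mul_one, ← h1]
  · rw [Submodule.span_singleton_le_iff_mem, ← pr_one f g]
    exact ⟨1, isHomogeneous_one _ _, rfl⟩

theorem EE_nx (f g : P3 k) (m : ℕ) :
    EE f g (m + 2) = nx (pr f g (X 0)) (pr f g (X 1)) (EE f g (m + 1)) := by
  apply le_antisymm
  · rintro _ ⟨p, hp, rfl⟩
    have hp' : p ∈ up (Sd k m) := by rw [up_Sd]; exact hp
    obtain ⟨q0, h0, q1, h1, q2, h2, rfl⟩ := mem_up.mp hp'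
    rw [map_add, map_add, pr_mul, pr_mul, pr_mul, pr_X2, one_mul]
    refine add_mem (add_mem (x_mem_nx ⟨q0, h0, rfl⟩) (y_mem_nx ⟨q1, h1, rfl⟩))
      (le_nx _ ⟨q2, h2, rfl⟩)
  · rw [nx_le]
    refine ⟨EE_mono_succ f g (m + 1), ?_⟩
    rintro _ ⟨p, hp, rfl⟩
    rw [← pr_mul, ← pr_mul]
    exact ⟨⟨_, mulX_hom hp, rfl⟩, ⟨_, mulX_hom hp, rfl⟩⟩

theorem RegTriple.affSys (R : RegTriple f g h a b c)
    (hz : ∀ p, X 2 * p ∈ Ideal.span {f, g} → p ∈ Ideal.span {f, g})
    [FiniteDimensional k (Lam f g)] :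
    AffSys (k := k) (pr f g (X 0)) (pr f g (X 1)) (pr f g h) a b c (EE f g) where
  ha := R.rp.ha
  hab := R.rp.hab
  hbc := R.hbc
  E1 := EE_one f g
  Es := EE_nx f g
  dE := R.rp.finrank_EE hz
  soc m n hm h1 h2 h3 := by
    obtain ⟨p, hp, rfl⟩ := h1
    obtain ⟨q1, hq1, e1⟩ := h2
    obtain ⟨q2, hq2, e2⟩ := h3
    have hI1 : X 0 * p - X 2 * q1 ∈ Ideal.span {f, g} := by
      apply R.rp.hom_mem hz (m := m + 1) ((mulX_hom hp).sub (mulX_hom hq1))
      rw [← pr_eq_zero, map_sub, pr_mul, pr_mul, pr_X2, one_mul, e1, sub_self]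
    have hI2 : X 1 * p - X 2 * q2 ∈ Ideal.span {f, g} := by
      apply R.rp.hom_mem hz (m := m + 1) ((mulX_hom hp).sub (mulX_hom hq2))
      rw [← pr_eq_zero, map_sub, pr_mul, pr_mul, pr_X2, one_mul, e2, sub_self]
    obtain ⟨s, t, τ, hp'⟩ := R.rp.soc_aux hz hm hp hq1 hq2 hI1 hI2
    have hpm : homogeneousComponent m p = p := homogeneousComponent_eq_self hp
    have hst : s * f + t * g ∈ Ideal.span {f, g} := Ideal.mem_span_pair.mpr ⟨s, t, rfl⟩
    have e3 : p = (if 1 ≤ m then homogeneousComponent (m - 1) τ else 0) * X 2 +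
        homogeneousComponent m (s * f + t * g) := by
      rw [← hc_mul_right' τ (X 2) (isHomogeneous_X k 2), ← map_add, ← hpm]
      congr 1
      linear_combination hp'
    have e4 : pr f g p = pr f g (if 1 ≤ m then homogeneousComponent (m - 1) τ else 0) := by
      have h5 : pr f g (homogeneousComponent m (s * f + t * g)) = 0 := by
        rw [pr_eq_zero]
        exact Ideal.mem_sup_left (R.rp.hc_mem hst m)
      conv_lhs => rw [e3]
      rw [map_add, h5, add_zero, pr_mul, pr_X2, mul_one]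
    rw [e4]
    rcases m with _ | m
    · rw [if_neg (by omega), map_zero]
      exact Submodule.zero_mem _
    · rw [if_pos (by omega)]
      exact ⟨_, homogeneousComponent_mem _ _, rfl⟩
  hE m n hn := by
    rcases m with _ | m
    · have : n = 0 := hn
      rw [this, mul_zero]
      exact Submodule.zero_mem _
    · obtain ⟨p, hp, rfl⟩ := hn
      rw [← pr_mul]
      have e : m + 1 + c = (c + m) + 1 := by omega
      rw [e]
      exact ⟨_, R.hh.mul hp, rfl⟩
  hu := by
    have hinj : Function.Injective (LinearMap.mulLeft k (pr f g h)) := by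
      rw [injective_iff_map_eq_zero]
      intro n hn
      have hn' : n ∈ EE f g (a + b - 1) := by
        rw [R.rp.EE_top hz]; trivial
      have ha := R.rp.ha
      have hab := R.rp.hab
      have e : a + b - 1 = (a + b - 2) + 1 := by omega
      rw [e] at hn'
      obtain ⟨p, hp, rfl⟩ := hn'
      change pr f g h * pr f g p = 0 at hn
      rw [← pr_mul, pr_eq_zero] at hn
      have h1 := R.rp.hom_mem hz (m := c + (a + b - 2)) (R.hh.mul hp) hn
      rw [pr_eq_zero]
      exact Ideal.mem_sup_left (R.hregh p h1)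
    have hsurj := LinearMap.surjective_of_injective hinj
    obtain ⟨n, hn⟩ := hsurj 1
    exact IsUnit.of_mul_eq_one n hn

theorem Qs_zero_eq (a b d : ℕ) (t : ℕ × ℕ) : Qs a b (d + 1) 0 t = up_of (Bx a b d) t := by
  ext p
  rw [mem_Qs, mem_up_of, mem_Bx]
  constructor
  · rintro ⟨h1, h2, h3⟩
    refine ⟨⟨by omega, h1.1, h1.2⟩, ?_⟩
    rcases h3 with h3 | h3
    · exact h3
    · omega
  · rintro ⟨⟨h1, h2, h3⟩, h4⟩
    exact ⟨⟨h2, h3⟩, by omega, Or.inl h4⟩

theorem RegPair.growth2' (h : RegPair f g a b) {d : ℕ} {V U : Submodule k (P3 k)}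
    (hp : PairAt (Ideal.span {f, g}) d V U) {t : ℕ × ℕ} (ht : t.1 < a ∧ t.2 < b ∧ t.1 + t.2 ≤ d)
    (hv : (Qs a b (d + 1) 0 t).card + (Pout a b d).card ≤ finrank k V) :
    (Qs a b (d + 2) 0 t).card + (Pout a b (d + 1)).card ≤ finrank k U := by
  have h1 := h.growth_nonneg hp
  have h2 : vd a b (d + 1) U = vd a b d V + ((vd a b (d + 1) U - vd a b d V).toNat : ℤ) := by
    rw [Int.toNat_of_nonneg (by unfold vd; linarith)]
    ring
  have h3 := h.growth2 _ d V U hp h2 t (by rw [mem_Bx]; omega)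
  rw [← Qs_zero_eq, ← Qs_zero_eq] at h3
  have h4 : ((Qs a b (d + 1) 0 t).card : ℤ) ≤ vd a b d V := by
    unfold vd cP
    have : (((Qs a b (d + 1) 0 t).card + (Pout a b d).card : ℕ) : ℤ) ≤ (finrank k V : ℤ) := by
      exact_mod_cast hv
    push_cast at this
    linarith
  have h5 := h3 h4
  unfold vd cP at h5
  have h6 : (((Qs a b (d + 2) 0 t).card + (Pout a b (d + 1)).card : ℕ) : ℤ) ≤
      (finrank k U : ℤ) := by
    push_cast
    have e : d + 2 = d + 1 + 1 := rfl
    rw [e]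
    linarith
  exact_mod_cast h6

theorem RegTriple.G2 (R : RegTriple f g h a b c)
    (hz : ∀ p, X 2 * p ∈ Ideal.span {f, g} → p ∈ Ideal.span {f, g}) :
    G2 (k := k) (pr f g (X 0)) (pr f g (X 1)) a b (EE f g) := by
  intro D V U hV hU hn t ht1 ht2 ht3 hc
  obtain ⟨d, rfl⟩ : ∃ d, D = d + 1 := ⟨D - 1, by omega⟩
  let V' : Submodule k (P3 k) := Sd k d ⊓ V.comap (pr f g)
  let U' : Submodule k (P3 k) := Sd k (d + 1) ⊓ U.comap (pr f g)
  have hn' := nx_le.mp hn
  have hJ : ∀ {m : ℕ} (W : Submodule k (Lam f g)),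
      idg (Ideal.span {f, g}) m ≤ Sd k m ⊓ W.comap (pr f g) := by
    intro m W p hp
    refine ⟨hp.2, ?_⟩
    change pr f g p ∈ W
    rw [pr_eq_zero.mpr (Ideal.mem_sup_left hp.1)]
    exact Submodule.zero_mem _
  have hpair : PairAt (Ideal.span {f, g}) d V' U' := by
    refine ⟨inf_le_left, inf_le_left, ?_, hJ V, hJ U⟩
    rw [up_le_iff]
    intro p hp i
    refine ⟨mulX_hom hp.1, ?_⟩
    change pr f g (X i * p) ∈ U
    rw [pr_mul]
    revert i
    apply exists_fin3
    · exact (hn'.2 _ hp.2).1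
    · exact (hn'.2 _ hp.2).2
    · rw [pr_X2, one_mul]
      exact hn'.1 hp.2
  have hVmap : V'.map (pr f g) = V := by
    apply le_antisymm
    · rintro _ ⟨p, hp, rfl⟩
      exact hp.2
    · intro n hn
      obtain ⟨p, hp, rfl⟩ := hV hn
      exact ⟨p, ⟨hp, hn⟩, rfl⟩
  have hUmap : U'.map (pr f g) = U := by
    apply le_antisymm
    · rintro _ ⟨p, hp, rfl⟩
      exact hp.2
    · intro n hn
      obtain ⟨p, hp, rfl⟩ := hU hn
      exact ⟨p, ⟨hp, hn⟩, rfl⟩
  have f1 := R.rp.fr_map hz (V := V') inf_le_left (hJ V)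
  have f2 := R.rp.fr_map hz (V := U') inf_le_left (hJ U)
  rw [hVmap] at f1
  rw [hUmap] at f2
  have h1 := R.rp.growth2' hpair (t := t) ⟨ht1, ht2, by omega⟩ (by omega)
  have e : d + 1 + 1 = d + 2 := rfl
  rw [e]
  omega

/-- The growth theorem, first version. -/
theorem RegTriple.growth_aux [Infinite k] (R : RegTriple f g h a b c)
    (hz : ∀ p, X 2 * p ∈ Ideal.span {f, g} → p ∈ Ideal.span {f, g})
    {d : ℕ} {V U : Submodule k (P3 k)}
    (hp : PairAt (Ideal.span {f, g, h}) d V U) {t : ℕ × ℕ}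
    (ht : t.1 < a ∧ t.2 < b ∧ t.1 + t.2 ≤ d)
    (hv : (Qs a b (d + 1) (d + 1 - c) t).card + (Pout a b d).card ≤ finrank k V) :
    (Qs a b (d + 2) (d + 2 - c) t).card + (Pout a b (d + 1)).card ≤ finrank k U := by
  have hsub : Ideal.span {f, g} ≤ Ideal.span {f, g, h} := by
    apply Ideal.span_mono
    intro x hx
    simp only [Set.mem_insert_iff, Set.mem_singleton_iff] at hx ⊢
    tauto
  have hp2 : PairAt (Ideal.span {f, g}) d V U :=
    ⟨hp.hV, hp.hU, hp.hup, (idg_mono hsub d).trans hp.hJV, (idg_mono hsub (d + 1)).trans hp.hJU⟩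
  rcases Nat.lt_or_ge (d + 1) c with hc | hc
  · have e1 : d + 1 - c = 0 := by omega
    have e2 : d + 2 - c = 0 := by omega
    rw [e1] at hv
    rw [e2]
    exact R.rp.growth2' hp2 ht hv
  · have := R.rp.Lam_finite hz
    have S := R.affSys hz
    have hhmem : h ∈ Ideal.span {f, g, h} := Ideal.subset_span (by simp)
    have hAP : AP (k := k) (pr f g (X 0)) (pr f g (X 1)) (pr f g h) c (EE f g) (d + 1)
        (V.map (pr f g)) (U.map (pr f g)) := by
      refine ⟨Submodule.map_mono hp.hV, Submodule.map_mono hp.hU, ?_, ?_, ?_⟩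
      · rw [nx_le]
        have hup := up_le_iff.mp hp.hup
        constructor
        · rintro _ ⟨p, hp, rfl⟩
          refine ⟨X 2 * p, hup p hp 2, ?_⟩
          rw [pr_mul, pr_X2, one_mul]
        · rintro _ ⟨p, hp, rfl⟩
          exact ⟨⟨X 0 * p, hup p hp 0, pr_mul _ _ _ _⟩, ⟨X 1 * p, hup p hp 1, pr_mul _ _ _ _⟩⟩
      · intro n hn
        rcases hm : d + 1 - c with _ | m
        · rw [hm] at hn
          have : n = 0 := hn
          rw [this, mul_zero]
          exact Submodule.zero_mem _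
        · rw [hm] at hn
          obtain ⟨p, hpp, rfl⟩ := hn
          refine ⟨h * p, hp.hJV ⟨Ideal.mul_mem_right _ _ hhmem, ?_⟩, pr_mul _ _ _ _⟩
          have e : d = c + m := by omega
          rw [e]
          exact R.hh.mul hpp
      · intro n hn
        have hm : d + 1 + 1 - c = (d + 1 - c) + 1 := by omega
        rw [hm] at hn
        obtain ⟨p, hpp, rfl⟩ := hn
        refine ⟨h * p, hp.hJU ⟨Ideal.mul_mem_right _ _ hhmem, ?_⟩, pr_mul _ _ _ _⟩
        have e : d + 1 = c + (d + 1 - c) := by omega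
        rw [e]
        exact R.hh.mul hpp
    have f1 := R.rp.fr_map hz hp2.hV hp2.hJV
    have f2 := R.rp.fr_map hz hp2.hU hp2.hJU
    have hle := hAP.fin_le
    have h1 := S.G3 (R.rp.EE_top hz) (R.G2 hz) _ (d + 1) _ _ hc hAP (Nat.le_add_left _ _)
      t ht.1 ht.2.1 (by omega) (by omega)
    have e : d + 1 + 1 = d + 2 := rfl
    rw [e] at h1
    omega

end Run7.H941
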