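import Pool.Agent.Run7.h941.PairTwo

/-!
The growth inequality for ideals containing a regular sequence of length two,
in three variables.
-/

set_option autoImplicit false

open MvPolynomial Module

namespace Run7.H941

variable {k : Type*} [Field k]

/-- relative dimension -/
noncomputable def vd (a b d : ℕ) (V : Submodule k (P3 k)) : ℤ := (finrank k V : ℤ) - cP a b d

theorem card_row_top {a b d : ℕ} {t : ℕ × ℕ} (hd : d + 1 < a) (hab : a ≤ b)
    (ht : t.1 + t.2 ≤ d) : (topS a b (d + 1) t).card = d + 2 - t.1 := by
  have e : topS a b (d + 1) t = (Finset.range (d + 2 - t.1)).image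
      (fun i => (t.1 + i, d + 1 - t.1 - i)) := by
    ext ⟨i, j⟩
    simp only [mem_topS, Finset.mem_image, Finset.mem_range, Prod.mk.injEq, lx]
    constructor
    · rintro ⟨h1, h2, h3, h4⟩
      exact ⟨i - t.1, by omega, by omega, by omega⟩
    · rintro ⟨i', h1, rfl, rfl⟩
      omega
  rw [e, Finset.card_image_of_injective, Finset.card_range]
  intro i j h
  simp only [Prod.mk.injEq] at h
  omega

theorem card_rows {a b d : ℕ} {t : ℕ × ℕ} (hd : d + 1 < a) (hab : a ≤ b)
    (ht : t.1 + t.2 ≤ d) :
    (d - t.1) * (d - t.1 + 1) + 2 ≤ 2 * (up_of (Bx a b d) t).card := by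
  -- the rows above `t.1`
  have h1 : ((T (d - t.1 - 1)).card + (if t.1 < d then 0 else 0)) = (T (d - t.1 - 1)).card := by
    split_ifs <;> rfl
  by_cases h : t.1 < d
  · have h2 : (T (d - t.1 - 1)).card + 1 ≤ (up_of (Bx a b d) t).card := by
      have hsub : insert t ((T (d - t.1 - 1)).image (fun p => (t.1 + 1 + p.1, p.2))) ⊆
          up_of (Bx a b d) t := by
        intro p hp
        rw [Finset.mem_insert] at hp
        rw [mem_up_of, mem_Bx]
        rcases hp with rfl | hp
        · exact ⟨⟨ht, by omega, by omega⟩, lx_refl _⟩
        · rw [Finset.mem_image] at hp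
          obtain ⟨q, hq, rfl⟩ := hp
          rw [mem_T] at hq
          refine ⟨⟨?_, ?_, ?_⟩, ?_⟩
          · simp only; omega
          · simp only; omega
          · simp only; omega
          · left; simp only; omega
      refine le_trans ?_ (Finset.card_le_card hsub)
      rw [Finset.card_insert_of_notMem, Finset.card_image_of_injective]
      · intro p q hpq
        simp only [Prod.mk.injEq] at hpq
        apply Prod.ext <;> omega
      · rw [Finset.mem_image]
        rintro ⟨q, _, hq⟩
        have := congrArg Prod.fst hq
        simp only at this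
        omega
    have h3 := two_card_T (d - t.1 - 1)
    have e1 : d - t.1 - 1 + 1 = d - t.1 := by omega
    have e2 : d - t.1 - 1 + 2 = d - t.1 + 1 := by omega
    rw [e1, e2] at h3
    omega
  · have e : d - t.1 = 0 := by omega
    have h2 : 1 ≤ (up_of (Bx a b d) t).card := by
      rw [Nat.one_le_iff_ne_zero, Ne, Finset.card_eq_zero]
      intro he
      have : t ∈ up_of (Bx a b d) t := by
        rw [mem_up_of, mem_Bx]
        exact ⟨⟨ht, by omega, by omega⟩, lx_refl _⟩
      rw [he] at this
      simp at this
    rw [e]
    omega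

theorem Pout_empty {a b m : ℕ} (h1 : m < a) (h2 : m < b) : Pout a b m = ∅ := by
  rw [Finset.eq_empty_iff_forall_notMem]
  intro p hp
  rw [mem_Pout] at hp
  omega

theorem vd_le {J : Ideal (P3 k)} {d : ℕ} {V U : Submodule k (P3 k)}
    (hp : PairAt J d V U) (a b : ℕ) : vd a b d V ≤ (Bx a b d).card := v_le hp a b

theorem vdU_le {J : Ideal (P3 k)} {d : ℕ} {V U : Submodule k (P3 k)}
    (hp : PairAt J d V U) (a b : ℕ) : vd a b (d + 1) U ≤ (Bx a b (d + 1)).card := by
  have h1 : finrank k U ≤ (T (d + 1)).card := by
    rw [← finrank_Sd (k := k)]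
    exact Submodule.finrank_mono hp.hU
  unfold vd
  rw [cP_eq]
  have : (finrank k U : ℤ) ≤ (T (d + 1)).card := by exact_mod_cast h1
  linarith

/-- Growth theorem for two generators. -/
theorem RegPair.growth2 {f g : P3 k} {a b : ℕ} (h : RegPair f g a b) (n : ℕ) :
    ∀ (d : ℕ) (V U : Submodule k (P3 k)), PairAt (Ideal.span {f, g}) d V U →
      vd a b (d + 1) U = vd a b d V + n → ∀ t ∈ Bx a b d,
      ((up_of (Bx a b d) t).card : ℤ) ≤ vd a b d V →
      ((up_of (Bx a b (d + 1)) t).card : ℤ) ≤ vd a b (d + 1) U := by
  induction n using Nat.strong_induction_on with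
  | _ n ihn =>
  intro d
  induction d with
  | zero =>
    intro V U hp hn t ht hv
    rw [mem_Bx] at ht
    have ht0 : t = (0, 0) := by apply Prod.ext <;> simp only <;> omega
    -- V is everything
    have := hp.finV
    have := hp.finU
    have h1 : (up_of (Bx a b 0) t).card = 1 := by
      have hle : (up_of (Bx a b 0) t).card ≤ 1 := by
        rw [Finset.card_le_one]
        intro p hp q hq
        rw [mem_up_of, mem_Bx] at hp hq
        apply Prod.ext <;> omega
      have hge : 1 ≤ (up_of (Bx a b 0) t).card := by
        rw [Nat.one_le_iff_ne_zero, Ne, Finset.card_eq_zero]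
        intro he
        have : t ∈ up_of (Bx a b 0) t := by
          rw [mem_up_of, mem_Bx]
          exact ⟨ht, lx_refl _⟩
        rw [he] at this
        simp at this
      omega
    have hP0 : cP a b 0 = 0 := by
      unfold cP
      rw [Pout_empty (by omega) (by omega)]
      simp
    rw [h1] at hv
    unfold vd at hv
    rw [hP0] at hv
    have h2 : finrank k (Sd k 0) = 1 := by
      rw [finrank_Sd]
      have := two_card_T 0
      omega
    have hVeq : V = Sd k 0 := by
      apply Submodule.eq_of_le_of_finrank_le hp.hV
      rw [h2]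
      push_cast at hv
      omega
    have hUeq : U = Sd k (0 + 1) := by
      apply le_antisymm hp.hU
      rw [← up_Sd, ← hVeq]
      exact hp.hup
    unfold vd
    rw [cP_eq, hUeq, finrank_Sd]
    have := up_of_card_le (Bx a b (0 + 1)) t
    have h3 : ((up_of (Bx a b (0 + 1)) t).card : ℤ) ≤ (Bx a b (0 + 1)).card := by
      exact_mod_cast this
    linarith
  | succ d ihd =>
    intro V U hp hn t0 ht0 hv0
    have := hp.finV
    have := hp.finU
    by_contra hcon
    push Not at hcon
    have ha := h.ha
    have hab := h.hab
    -- exact threshold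
    have hvpos : 1 ≤ (up_of (Bx a b (d + 1)) t0).card := by
      rw [Nat.one_le_iff_ne_zero, Ne, Finset.card_eq_zero]
      intro he
      have : t0 ∈ up_of (Bx a b (d + 1)) t0 := by
        rw [mem_up_of]
        exact ⟨ht0, lx_refl _⟩
      rw [he] at this
      simp at this
    have hv1 : (1 : ℤ) ≤ vd a b (d + 1) V := by
      have : (1 : ℤ) ≤ ((up_of (Bx a b (d + 1)) t0).card : ℤ) := by exact_mod_cast hvpos
      linarith
    have hvle := vd_le hp a b
    obtain ⟨v, hvv⟩ : ∃ v : ℕ, vd a b (d + 1) V = v := ⟨(vd a b (d + 1) V).toNat, by omega⟩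
    rw [hvv] at hv1 hv0 hn hvle
    obtain ⟨t, ht, htv⟩ := exists_exact (Bx a b (d + 1)) v (by omega) (by omega)
    have htt0 : lx t t0 := by
      apply lx_of_card_le ht0
      rw [htv]
      exact_mod_cast hv0
    have hcon' : vd a b (d + 1 + 1) U < ((up_of (Bx a b (d + 1 + 1)) t).card : ℤ) := by
      have h1 := up_of_mono (Q := Bx a b (d + 1 + 1)) htt0
      have h2 : ((up_of (Bx a b (d + 1 + 1)) t0).card : ℤ) ≤
        ((up_of (Bx a b (d + 1 + 1)) t).card : ℤ) := by exact_mod_cast h1
      linarith
    clear hcon hv0 htt0 ht0 hvpos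
    clear t0
    have htB := ht
    rw [mem_Bx] at ht
    have hsucc := Bx_up_succ a b (d + 1) t
    -- growth smaller than the top antidiagonal
    have hntop : n + 1 ≤ (topS a b (d + 1 + 1) t).card := by
      have h1 : (v : ℤ) + n < ((up_of (Bx a b (d + 1 + 1)) t).card : ℤ) := by linarith
      have h2 : v + n < (up_of (Bx a b (d + 1 + 1)) t).card := by exact_mod_cast h1
      omega
    rcases Nat.lt_or_ge (d + 1 + 1) a with hda | hda
    · -- polynomial range
      have hP1 : cP a b (d + 1) = 0 := by
        unfold cP
        rw [Pout_empty (by omega) (by omega)]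
        simp
      have hP2 : cP a b (d + 1 + 1) = 0 := by
        unfold cP
        rw [Pout_empty (by omega) (by omega)]
        simp
      have hvf : finrank k V = v := by
        unfold vd at hvv
        rw [hP1] at hvv
        omega
      have huf : finrank k U = v + n := by
        unfold vd at hn
        rw [hP2] at hn
        omega
      have hVne : V ≠ ⊥ := by
        rintro rfl
        rw [finrank_bot] at hvf
        omega
      have hm := macaulay3 n V hVne (by
        rw [hvf, ← huf]
        exact Submodule.finrank_mono hp.hup)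
      have h1 := card_row_top (b := b) hda hab (ht.1)
      have h2 := card_rows (b := b) hda hab (ht.1)
      rw [htv] at h2
      rw [hvf] at hm
      have h3 : n ≤ d + 1 - t.1 + 1 := by omega
      have h4 : n * (n - 1) ≤ (d + 1 - t.1 + 1) * (d + 1 - t.1 + 1 - 1) :=
        Nat.mul_le_mul h3 (by omega)
      have e : d + 1 - t.1 + 1 - 1 = d + 1 - t.1 := by omega
      rw [e] at h4
      have h5 : (d + 1 - t.1 + 1) * (d + 1 - t.1) = (d + 1 - t.1) * (d + 1 - t.1 + 1) := by ring
      omega
    · -- the range `a ≤ degree`
      -- right neighbour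
      have hr := hp.right
      have hru := h.growth_nonneg hr
      obtain ⟨n1, hn1⟩ : ∃ n1 : ℕ, vd a b (d + 1 + 1 + 1)
          (up U ⊔ idg (Ideal.span {f, g}) (d + 1 + 2)) = vd a b (d + 1 + 1) U + n1 := by
        refine ⟨(vd a b (d + 1 + 1 + 1) (up U ⊔ idg (Ideal.span {f, g}) (d + 1 + 2)) -
          vd a b (d + 1 + 1) U).toNat, ?_⟩
        rw [Int.toNat_of_nonneg]
        · ring
        · unfold vd; linarith
      have hn1n : n ≤ n1 := by
        by_contra hlt
        push Not at hlt
        have hule := vdU_le hp a b
        obtain ⟨u, huu⟩ : ∃ u : ℕ, vd a b (d + 1 + 1) U = u := ⟨v + n, by rw [hn]; push_cast; ring⟩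
        rw [huu] at hule hn1 hcon' hn
        obtain ⟨t', ht', htu⟩ := exists_exact (Bx a b (d + 1 + 1)) u (by omega) (by omega)
        have hIH := ihn n1 hlt (d + 1 + 1) U _ hr (by rw [huu]; exact hn1) t' ht'
          (by rw [htu, huu])
        rw [hn1] at hIH
        have hs' := Bx_up_succ a b (d + 1 + 1) t'
        have hs'' := Bx_up_succ a b (d + 1) t'
        have htop := topS_succ_ge a b (d + 1 + 1) t'
        -- t < t'
        have hltt : lx t t' := by
          apply lx_of_card_le ht'
          rw [htu]
          have : (u : ℤ) < _ := hcon'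
          have : u < (up_of (Bx a b (d + 1 + 1)) t).card := by exact_mod_cast this
          omega
        have hne : ¬ lx t' t := by
          intro hh
          have hte := lx_antisymm hltt hh
          rw [← hte] at htu
          rw [htu] at hcon'
          exact lt_irrefl _ hcon'
        have hst := up_of_strict hltt hne htB
        rw [htv] at hst
        have h6 : (up_of (Bx a b (d + 1 + 1 + 1)) t').card ≤ u + n1 := by exact_mod_cast hIH
        have h7 : u = v + n := by exact_mod_cast hn
        omega
      -- left neighbour
      have hl := hp.left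
      have hlu := h.growth_nonneg hl
      obtain ⟨nl, hnl⟩ : ∃ nl : ℕ, vd a b (d + 1) V = vd a b d (dn V) + nl := by
        refine ⟨(vd a b (d + 1) V - vd a b d (dn V)).toNat, ?_⟩
        rw [Int.toNat_of_nonneg]
        · ring
        · unfold vd; linarith
      have hnab : d + 3 ≠ a + b := by
        intro he
        have := topS_empty (a := a) (b := b) (m := d + 1 + 1) (t := t) (by omega)
        omega
      have hkos := h.koszul hp
      rw [if_neg hnab] at hkos
      have hnln : nl ≤ n := by
        have e1 : d + 1 + 1 + 1 = d + 3 := by omega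
        have e2 : d + 1 + 2 = d + 3 := by omega
        have e3 : d + 1 + 1 = d + 2 := by omega
        rw [e2, e1, e3] at hn1
        rw [e3] at hn
        unfold vd at hn1 hn hnl hvv
        have h8 : (n : ℤ) ≤ n1 := by exact_mod_cast hn1n
        have : (nl : ℤ) ≤ n := by linarith
        exact_mod_cast this
      have hIHl : ∀ t1 ∈ Bx a b d, ((up_of (Bx a b d) t1).card : ℤ) ≤ vd a b d (dn V) →
          ((up_of (Bx a b (d + 1)) t1).card : ℤ) ≤ vd a b (d + 1) V := by
        intro t1 ht1 h1
        rcases Nat.lt_or_ge nl n with hlt | hge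
        · exact ihn nl hlt d (dn V) V hl hnl t1 ht1 h1
        · have he : nl = n := by omega
          exact ihd (dn V) V hl (by rw [hnl, he]) t1 ht1 h1
      have hvl : vd a b d (dn V) ≤ ((up_of (Bx a b d) t).card : ℤ) := by
        by_contra hc
        push Not at hc
        have hpos : (0 : ℤ) ≤ ((up_of (Bx a b d) t).card : ℤ) := by positivity
        have hle := vd_le hl a b
        obtain ⟨vl, hvl⟩ : ∃ vl : ℕ, vd a b d (dn V) = vl := ⟨(vd a b d (dn V)).toNat, by omega⟩
        rw [hvl] at hc hle hIHl
        obtain ⟨t1, ht1, ht1v⟩ := exists_exact (Bx a b d) vl (by omega) (by omega)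
        have h9 := hIHl t1 ht1 (by rw [ht1v])
        rw [hvv, ← htv] at h9
        have h10 : lx t t1 := by
          apply lx_of_card_le (Q := Bx a b (d + 1))
          · have := mem_Bx.mp ht1
            rw [mem_Bx]
            omega
          · exact_mod_cast h9
        have h11 := up_of_mono (Q := Bx a b d) h10
        rw [ht1v] at h11
        have : (up_of (Bx a b d) t).card < vl := by exact_mod_cast hc
        omega
      have hs0 := Bx_up_succ a b d t
      have htop2 := topS_succ_le (a := a) (b := b) (m := d + 1) (t := t) (by omega) ht.1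
      have h12 : v ≤ (up_of (Bx a b d) t).card + nl := by
        have : (v : ℤ) ≤ (up_of (Bx a b d) t).card + nl := by linarith
        exact_mod_cast this
      omega

end Run7.H941
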