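import Mathlib

/-!
Subspaces of `k[x,y,z]`, the operators `up` and `dn`, and the basic growth inequality
coming from the Koszul complex.
-/

set_option autoImplicit false

open MvPolynomial Module

namespace Run7.H941

/-- For a complex `E → F → G`, a dimension inequality. -/
theorem complex_ineq {k E F G : Type*} [Field k] [AddCommGroup E] [Module k E]
    [AddCommGroup F] [Module k F] [AddCommGroup G] [Module k G]
    [FiniteDimensional k E] [FiniteDimensional k F]
    (ψ : E →ₗ[k] F) (φ : F →ₗ[k] G) (h : ∀ e, φ (ψ e) = 0) :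
    finrank k (LinearMap.range φ) + finrank k E ≤ finrank k F + finrank k (LinearMap.ker ψ) := by
  have h1 := LinearMap.finrank_range_add_finrank_ker φ
  have h2 := LinearMap.finrank_range_add_finrank_ker ψ
  have h3 : finrank k (LinearMap.range ψ) ≤ finrank k (LinearMap.ker φ) := by
    apply Submodule.finrank_mono
    rintro _ ⟨e, rfl⟩
    exact h e
  omega

variable {k : Type*} [Field k]

/-- Polynomial ring in three variables. -/
abbrev P3 (k : Type*) [Field k] := MvPolynomial (Fin 3) k

/-- Multiplication by a variable. -/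
noncomputable def mx (i : Fin 3) : P3 k →ₗ[k] P3 k := LinearMap.mulLeft k (X i)

@[simp] theorem mx_apply (i : Fin 3) (p : P3 k) : mx i p = X i * p := rfl

theorem mx_injective (i : Fin 3) : Function.Injective (mx (k := k) i) := by
  intro p q h
  simp only [mx_apply] at h
  exact mul_left_cancel₀ (X_ne_zero i) h

/-- The space spanned by all `X i * p`, `p ∈ V`. -/
noncomputable def up (V : Submodule k (P3 k)) : Submodule k (P3 k) :=
  V.map (mx 0) ⊔ V.map (mx 1) ⊔ V.map (mx 2)

/-- The space of all `p` with all `X i * p ∈ V`. -/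
noncomputable def dn (V : Submodule k (P3 k)) : Submodule k (P3 k) :=
  V.comap (mx 0) ⊓ V.comap (mx 1) ⊓ V.comap (mx 2)

theorem mem_dn {V : Submodule k (P3 k)} {p : P3 k} :
    p ∈ dn V ↔ X 0 * p ∈ V ∧ X 1 * p ∈ V ∧ X 2 * p ∈ V := by
  simp [dn, Submodule.mem_inf, and_assoc]

theorem mem_dn' {V : Submodule k (P3 k)} {p : P3 k} :
    p ∈ dn V ↔ ∀ i, X i * p ∈ V := by
  rw [mem_dn]
  constructor
  · rintro ⟨h0, h1, h2⟩ i
    fin_cases i <;> assumption
  · intro h
    exact ⟨h 0, h 1, h 2⟩

theorem mul_mem_up {V : Submodule k (P3 k)} {p : P3 k} (i : Fin 3) (hp : p ∈ V) :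
    X i * p ∈ up V := by
  have h : X i * p ∈ V.map (mx i) := ⟨p, hp, rfl⟩
  fin_cases i
  · exact Submodule.mem_sup_left (Submodule.mem_sup_left h)
  · exact Submodule.mem_sup_left (Submodule.mem_sup_right h)
  · exact Submodule.mem_sup_right h

theorem mem_up {V : Submodule k (P3 k)} {p : P3 k} :
    p ∈ up V ↔ ∃ a ∈ V, ∃ b ∈ V, ∃ c ∈ V, p = X 0 * a + X 1 * b + X 2 * c := by
  constructor
  · intro h
    obtain ⟨q, hq, r, hr, rfl⟩ := Submodule.mem_sup.mp h
    obtain ⟨s, hs, t, ht, rfl⟩ := Submodule.mem_sup.mp hq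
    obtain ⟨a, ha, rfl⟩ := hs
    obtain ⟨b, hb, rfl⟩ := ht
    obtain ⟨c, hc, rfl⟩ := hr
    exact ⟨a, ha, b, hb, c, hc, rfl⟩
  · rintro ⟨a, ha, b, hb, c, hc, rfl⟩
    exact add_mem (add_mem (mul_mem_up 0 ha) (mul_mem_up 1 hb)) (mul_mem_up 2 hc)

theorem up_le_iff {V U : Submodule k (P3 k)} : up V ≤ U ↔ ∀ p ∈ V, ∀ i, X i * p ∈ U := by
  constructor
  · intro h p hp i
    exact h (mul_mem_up i hp)
  · intro h p hp
    obtain ⟨a, ha, b, hb, c, hc, rfl⟩ := mem_up.mp hp
    exact add_mem (add_mem (h a ha 0) (h b hb 1)) (h c hc 2)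

theorem up_le_iff_le_dn {V U : Submodule k (P3 k)} : up V ≤ U ↔ V ≤ dn U := by
  rw [up_le_iff]
  constructor
  · intro h p hp
    exact mem_dn'.mpr (h p hp)
  · intro h p hp
    exact mem_dn'.mp (h hp)

theorem up_mono {V W : Submodule k (P3 k)} (h : V ≤ W) : up V ≤ up W :=
  up_le_iff.mpr fun _ hp i => mul_mem_up i (h hp)

theorem dn_mono {V W : Submodule k (P3 k)} (h : V ≤ W) : dn V ≤ dn W := by
  intro p hp
  rw [mem_dn'] at hp ⊢
  exact fun i => h (hp i)

instance up_finite (V : Submodule k (P3 k)) [FiniteDimensional k V] :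
    FiniteDimensional k (up V) := by
  unfold up
  infer_instance

instance dn_finite (V : Submodule k (P3 k)) [FiniteDimensional k V] :
    FiniteDimensional k (dn V) := by
  let f : dn V →ₗ[k] V := (mx 0).restrict (p := dn V) (q := V)
    (fun p hp => (mem_dn.mp hp).1)
  refine FiniteDimensional.of_injective f ?_
  intro p q h
  apply Subtype.ext
  apply mx_injective (k := k) 0
  exact congrArg Subtype.val h

theorem finrank_dn_le (V : Submodule k (P3 k)) [FiniteDimensional k V] :
    finrank k (dn V) ≤ finrank k V := by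
  let f : dn V →ₗ[k] V := (mx 0).restrict (p := dn V) (q := V)
    (fun p hp => (mem_dn.mp hp).1)
  refine LinearMap.finrank_le_finrank_of_injective (f := f) ?_
  intro p q h
  apply Subtype.ext
  apply mx_injective (k := k) 0
  exact congrArg Subtype.val h

/-- The Koszul growth inequality. -/
theorem koszul_ineq (V U : Submodule k (P3 k)) [FiniteDimensional k V] [FiniteDimensional k U]
    (h : up V ≤ U) :
    finrank k (up U) + 3 * finrank k V ≤ 3 * finrank k U + finrank k (dn V) := by
  have hm : ∀ i : Fin 3, ∀ v : V, X i * (v : P3 k) ∈ U := fun i v => h (mul_mem_up i v.2)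
  let m : Fin 3 → (V →ₗ[k] U) := fun i => (mx i).restrict (p := V) (q := U)
    (fun p hp => h (mul_mem_up i hp))
  have hmv : ∀ i (v : V), ((m i v : U) : P3 k) = X i * (v : P3 k) := fun i v => rfl
  let φ : (U × U × U) →ₗ[k] P3 k :=
    ((mx 0).comp (U.subtype.comp (LinearMap.fst k U (U × U)))) +
    ((mx 1).comp (U.subtype.comp ((LinearMap.fst k U U).comp (LinearMap.snd k U (U × U))))) +
    ((mx 2).comp (U.subtype.comp ((LinearMap.snd k U U).comp (LinearMap.snd k U (U × U)))))
  have hφ : ∀ a b c : U, φ (a, b, c) = X 0 * (a : P3 k) + X 1 * (b : P3 k) + X 2 * (c : P3 k) := by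
    intro a b c
    rfl
  let ψ : (V × V × V) →ₗ[k] (U × U × U) :=
    LinearMap.prod
      ((m 1).comp ((LinearMap.snd k V V).comp (LinearMap.snd k V (V × V))) -
        (m 2).comp ((LinearMap.fst k V V).comp (LinearMap.snd k V (V × V))))
      (LinearMap.prod
        ((m 2).comp (LinearMap.fst k V (V × V)) -
          (m 0).comp ((LinearMap.snd k V V).comp (LinearMap.snd k V (V × V))))
        ((m 0).comp ((LinearMap.fst k V V).comp (LinearMap.snd k V (V × V))) -
          (m 1).comp (LinearMap.fst k V (V × V))))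
  have hψ : ∀ p q r : V, ψ (p, q, r) = (m 1 r - m 2 q, m 2 p - m 0 r, m 0 q - m 1 p) := by
    intro p q r
    rfl
  have hcomp : ∀ e, φ (ψ e) = 0 := by
    rintro ⟨p, q, r⟩
    rw [hψ, hφ]
    push_cast
    simp only [hmv]
    ring
  have key := complex_ineq ψ φ hcomp
  have hrange : LinearMap.range φ = up U := by
    ext x
    rw [mem_up]
    constructor
    · rintro ⟨⟨a, b, c⟩, rfl⟩
      exact ⟨a, a.2, b, b.2, c, c.2, hφ a b c⟩
    · rintro ⟨a, ha, b, hb, c, hc, rfl⟩
      exact ⟨(⟨a, ha⟩, ⟨b, hb⟩, ⟨c, hc⟩), hφ _ _ _⟩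
  rw [hrange] at key
  have hE : finrank k (V × V × V) = 3 * finrank k V := by
    rw [Module.finrank_prod, Module.finrank_prod]; ring
  have hF : finrank k (U × U × U) = 3 * finrank k U := by
    rw [Module.finrank_prod, Module.finrank_prod]; ring
  rw [hE, hF] at key
  have hker : finrank k (LinearMap.ker ψ) ≤ finrank k (dn V) := by
    -- surjection from `dn V`
    let m' : Fin 3 → (dn V →ₗ[k] V) := fun i => (mx i).restrict (p := dn V) (q := V)
      (fun p hp => mem_dn'.mp hp i)
    let θ : dn V →ₗ[k] (V × V × V) := LinearMap.prod (m' 0) (LinearMap.prod (m' 1) (m' 2))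
    have hle : LinearMap.ker ψ ≤ LinearMap.range θ := by
      rintro ⟨p, q, r⟩ hpqr
      rw [LinearMap.mem_ker, hψ] at hpqr
      simp only [Prod.mk_eq_zero] at hpqr
      obtain ⟨h1, h2, h3⟩ := hpqr
      have e1 : (X 1 : P3 k) * (r : P3 k) = X 2 * (q : P3 k) := by
        have := congrArg (Subtype.val) h1
        simpa [sub_eq_zero, hmv] using this
      have e2 : (X 2 : P3 k) * (p : P3 k) = X 0 * (r : P3 k) := by
        have := congrArg (Subtype.val) h2
        simpa [sub_eq_zero, hmv] using this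
      have e3 : (X 0 : P3 k) * (q : P3 k) = X 1 * (p : P3 k) := by
        have := congrArg (Subtype.val) h3
        simpa [sub_eq_zero, hmv] using this
      have hdvd : (X 0 : P3 k) ∣ (p : P3 k) := by
        have h0 : (X 0 : P3 k) ∣ X 1 * (p : P3 k) := ⟨_, e3.symm⟩
        rcases (X_prime (R := k) (i := (0 : Fin 3))).dvd_or_dvd h0 with h | h
        · exfalso
          rw [X_dvd_X] at h
          exact absurd h (by decide)
        · exact h
      obtain ⟨w, hw⟩ := hdvd
      have hq : (q : P3 k) = X 1 * w := by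
        apply mul_left_cancel₀ (X_ne_zero (R := k) (0 : Fin 3))
        rw [e3, hw]; ring
      have hr : (r : P3 k) = X 2 * w := by
        apply mul_left_cancel₀ (X_ne_zero (R := k) (0 : Fin 3))
        rw [← e2, hw]; ring
      have hwd : w ∈ dn V := by
        rw [mem_dn]
        exact ⟨hw ▸ p.2, hq ▸ q.2, hr ▸ r.2⟩
      refine ⟨⟨w, hwd⟩, ?_⟩
      refine Prod.ext (Subtype.ext ?_) (Prod.ext (Subtype.ext ?_) (Subtype.ext ?_))
      · exact hw.symm
      · exact hq.symm
      · exact hr.symm
    calc finrank k (LinearMap.ker ψ) ≤ finrank k (LinearMap.range θ) := Submodule.finrank_mono hle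
      _ ≤ finrank k (dn V) := LinearMap.finrank_range_le θ
  omega

end Run7.H941
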