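import Pool.Agent.Run7.h941.Sys

/-!
Kronecker pencils over an infinite field.
-/

set_option autoImplicit false

open Module

namespace Run7.H941

/-- If every member of a pencil is non injective, some subspace is shrunk. -/
theorem kron {k E F : Type*} [Field k] [Infinite k] [AddCommGroup E] [Module k E]
    [AddCommGroup F] [Module k F] [FiniteDimensional k E] (A B : E →ₗ[k] F)
    (h : ∀ t : k, ∃ v : E, v ≠ 0 ∧ A v + t • B v = 0) :
    ∃ M : Submodule k E, finrank k (M.map A ⊔ M.map B : Submodule k F) < finrank k M := by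
  classical
  let M : Submodule k E := ⨆ t : k, LinearMap.ker (A + t • B)
  refine ⟨M, ?_⟩
  by_contra hcon
  push Not at hcon
  have hAB : M.map A ≤ M.map B := by
    rw [Submodule.map_iSup]
    apply iSup_le
    rintro t _ ⟨v, hv, rfl⟩
    have hv' : A v + t • B v = 0 := hv
    refine ⟨-(t • v), ?_, ?_⟩
    · apply Submodule.neg_mem
      apply Submodule.smul_mem
      exact Submodule.mem_iSup_of_mem t hv
    · rw [map_neg, map_smul]
      exact (eq_neg_of_add_eq_zero_left hv').symm
  rw [sup_eq_right.mpr hAB] at hcon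
  -- `B` is injective on `M`
  let B1 : M →ₗ[k] (M.map B) := (B.domRestrict M).codRestrict (M.map B) (fun v => ⟨v, v.2, rfl⟩)
  have hB1s : Function.Surjective B1 := by
    rintro ⟨_, v, hv, rfl⟩
    exact ⟨⟨v, hv⟩, rfl⟩
  have hfin : finrank k M = finrank k (M.map B) := by
    apply le_antisymm hcon
    exact LinearMap.finrank_le_finrank_of_surjective hB1s
  have hB1i : Function.Injective B1 :=
    (LinearMap.injective_iff_surjective_of_finrank_eq_finrank hfin).mpr hB1s
  let e : M ≃ₗ[k] (M.map B) := LinearEquiv.ofBijective B1 ⟨hB1i, hB1s⟩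
  let A1 : M →ₗ[k] (M.map B) := (A.domRestrict M).codRestrict (M.map B)
    (fun v => hAB ⟨v, v.2, rfl⟩)
  let C : Module.End k M := e.symm.toLinearMap.comp A1
  have heig : ∀ t : k, C.HasEigenvalue (-t) := by
    intro t
    obtain ⟨v, hv0, hv⟩ := h t
    have hvM : v ∈ M := Submodule.mem_iSup_of_mem t hv
    apply Module.End.hasEigenvalue_of_hasEigenvector (x := ⟨v, hvM⟩)
    rw [Module.End.hasEigenvector_iff]
    refine ⟨?_, ?_⟩
    · rw [Module.End.mem_eigenspace_iff]
      change e.symm (A1 ⟨v, hvM⟩) = _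
      rw [LinearEquiv.symm_apply_eq]
      apply Subtype.ext
      change A v = (B1 ((-t) • ⟨v, hvM⟩) : F)
      rw [map_smul]
      change A v = (-t) • B v
      rw [neg_smul]
      exact eq_neg_of_add_eq_zero_left hv
    · intro h0
      exact hv0 (congrArg Subtype.val h0)
  have hinf : Set.Infinite {μ | C.HasEigenvalue μ} := by
    have : {μ | C.HasEigenvalue μ} = Set.univ := by
      ext μ
      simp only [Set.mem_ofPred_eq, Set.mem_univ, iff_true]
      have := heig (-μ)
      rwa [neg_neg] at this
    rw [this]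
    exact Set.infinite_univ
  exact hinf C.finite_hasEigenvalue

theorem fr_map {k E : Type*} [Field k] [AddCommGroup E] [Module k E] [FiniteDimensional k E]
    (P W : Submodule k E) (h : P ≤ W) :
    finrank k (W.map P.mkQ) + finrank k P = finrank k W := by
  have h1 := LinearMap.finrank_range_add_finrank_ker (P.mkQ.domRestrict W)
  have h2 : LinearMap.range (P.mkQ.domRestrict W) = W.map P.mkQ := LinearMap.range_domRestrict _ _
  have h3 : finrank k (LinearMap.ker (P.mkQ.domRestrict W)) = finrank k P := by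
    rw [LinearMap.ker_domRestrict, Submodule.ker_mkQ]
    exact (Submodule.comapSubtypeEquivOfLe h).finrank_eq
  rw [h2, h3] at h1
  exact h1

theorem fr_comap {k E : Type*} [Field k] [AddCommGroup E] [Module k E] [FiniteDimensional k E]
    (P : Submodule k E) (M : Submodule k (E ⧸ P)) :
    finrank k (M.comap P.mkQ) = finrank k M + finrank k P := by
  have h : P ≤ M.comap P.mkQ := by
    intro v hv
    rw [Submodule.mem_comap]
    have : P.mkQ v = 0 := by
      rw [Submodule.mkQ_apply, Submodule.Quotient.mk_eq_zero]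
      exact hv
    rw [this]
    exact M.zero_mem
  have h1 := fr_map P (M.comap P.mkQ) h
  rw [Submodule.map_comap_eq, Submodule.range_mkQ, top_inf_eq] at h1
  exact h1.symm

variable {k Λ : Type*} [Field k] [CommRing Λ] [Algebra k Λ] [FiniteDimensional k Λ]

/-- Application to multiplication maps. -/
theorem kron_aff [Infinite k] (x y : Λ) (P V : Submodule k Λ) (hPV : P ≤ V)
    (hxP : ∀ n ∈ P, x * n ∈ V) (hyP : ∀ n ∈ P, y * n ∈ V)
    (h : ∀ t : k, ∃ n ∈ V, n ∉ P ∧ x * n + t • (y * n) ∈ V) :
    ∃ V1 : Submodule k Λ, P ≤ V1 ∧ V1 ≤ V ∧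
      finrank k (V ⊔ nx x y V1 : Submodule k Λ) + finrank k P < finrank k V + finrank k V1 := by
  let P' : Submodule k V := P.comap V.subtype
  have hP' : finrank k P' = finrank k P := (Submodule.comapSubtypeEquivOfLe hPV).finrank_eq
  let A : (V ⧸ P') →ₗ[k] (Λ ⧸ V) := P'.mapQ V ((LinearMap.mulLeft k x).comp V.subtype)
    (fun n hn => hxP n hn)
  let B : (V ⧸ P') →ₗ[k] (Λ ⧸ V) := P'.mapQ V ((LinearMap.mulLeft k y).comp V.subtype)
    (fun n hn => hyP n hn)
  obtain ⟨M, hM⟩ := kron A B (by
    intro t
    obtain ⟨n, hnV, hnP, hn⟩ := h t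
    refine ⟨P'.mkQ ⟨n, hnV⟩, ?_, ?_⟩
    · rw [Ne, Submodule.mkQ_apply, Submodule.Quotient.mk_eq_zero]
      exact hnP
    · change V.mkQ (x * n) + t • V.mkQ (y * n) = 0
      rw [← map_smul, ← map_add, Submodule.mkQ_apply, Submodule.Quotient.mk_eq_zero]
      exact hn)
  let M1 : Submodule k V := M.comap P'.mkQ
  let V1 : Submodule k Λ := M1.map V.subtype
  have hV1V : V1 ≤ V := by
    rintro _ ⟨v, _, rfl⟩
    exact v.2
  have hPV1 : P ≤ V1 := by
    intro n hn
    refine ⟨⟨n, hPV hn⟩, ?_, rfl⟩
    change P'.mkQ ⟨n, hPV hn⟩ ∈ M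
    have : P'.mkQ ⟨n, hPV hn⟩ = 0 := by
      rw [Submodule.mkQ_apply, Submodule.Quotient.mk_eq_zero]
      exact hn
    rw [this]
    exact M.zero_mem
  refine ⟨V1, hPV1, hV1V, ?_⟩
  -- dimension of V1
  have hdimV1 : finrank k V1 = finrank k M + finrank k P := by
    have h1 : finrank k V1 = finrank k M1 := Submodule.finrank_map_subtype_eq V M1
    rw [h1, fr_comap, hP']
  -- dimension of the growth
  have hle : (V ⊔ nx x y V1 : Submodule k Λ).map V.mkQ ≤ M.map A ⊔ M.map B := by
    rw [Submodule.map_sup]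
    apply sup_le
    · rw [Submodule.map_le_iff_le_comap]
      intro v hv
      rw [Submodule.mem_comap]
      have : V.mkQ v = 0 := by
        rw [Submodule.mkQ_apply, Submodule.Quotient.mk_eq_zero]
        exact hv
      rw [this]
      exact Submodule.zero_mem _
    · rw [Submodule.map_le_iff_le_comap, nx_le]
      constructor
      · intro v hv
        rw [Submodule.mem_comap]
        have : V.mkQ v = 0 := by
          rw [Submodule.mkQ_apply, Submodule.Quotient.mk_eq_zero]
          exact hV1V hv
        rw [this]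
        exact Submodule.zero_mem _
      · rintro _ ⟨v, hv, rfl⟩
        constructor
        · exact Submodule.mem_sup_left ⟨P'.mkQ v, hv, rfl⟩
        · exact Submodule.mem_sup_right ⟨P'.mkQ v, hv, rfl⟩
  have hfin := Submodule.finrank_mono hle
  have h5 := fr_map V (V ⊔ nx x y V1 : Submodule k Λ) le_sup_left
  omega

end Run7.H941
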