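import Pool.Agent.Run7.h941.Assembly

/-!
The lex-plus-powers ideal.
-/

set_option autoImplicit false

open MvPolynomial Module

namespace Run7.H941

variable {k : Type*} [Field k]

/-- monomials divisible by one of the powers -/
def isP (c : ℕ) (hc : c ≤ 3) (d : Fin c → ℕ) (u : Fin 3 →₀ ℕ) : Prop :=
  ∃ t : Fin c, d t ≤ u (Fin.castLE hc t)

open Classical in
/-- the monomials of degree `m` divisible by one of the powers -/
noncomputable def Pm (c : ℕ) (hc : c ≤ 3) (d : Fin c → ℕ) (m : ℕ) : Finset (ℕ × ℕ) :=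
  (T m).filter (fun p => isP c hc d (enc m p))

theorem mem_Pm {c : ℕ} {hc : c ≤ 3} {d : Fin c → ℕ} {m : ℕ} {p : ℕ × ℕ} :
    p ∈ Pm c hc d m ↔ p ∈ T m ∧ isP c hc d (enc m p) := by
  classical
  unfold Pm; rw [Finset.mem_filter]

theorem isP_mono {c : ℕ} {hc : c ≤ 3} {d : Fin c → ℕ} {u v : Fin 3 →₀ ℕ} (h : u ≤ v)
    (hu : isP c hc d u) : isP c hc d v := by
  obtain ⟨t, ht⟩ := hu
  exact ⟨t, ht.trans (h _)⟩

theorem enc_z {m : ℕ} {p : ℕ × ℕ} (hp : p ∈ T m) :
    enc (m + 1) p = enc m p + Finsupp.single 2 1 := by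
  rw [mem_T] at hp
  ext j
  fin_cases j <;> simp [enc, ex] <;> omega

theorem enc_x {m : ℕ} {p : ℕ × ℕ} (hp : p ∈ T m) :
    enc (m + 1) (p.1 + 1, p.2) = enc m p + Finsupp.single 0 1 := by
  rw [mem_T] at hp
  ext j
  fin_cases j <;> simp [enc, ex] <;> omega

theorem enc_y {m : ℕ} {p : ℕ × ℕ} (hp : p ∈ T m) :
    enc (m + 1) (p.1, p.2 + 1) = enc m p + Finsupp.single 1 1 := by
  rw [mem_T] at hp
  ext j
  fin_cases j <;> simp [enc, ex] <;> omega

theorem Pm_fam (c : ℕ) (hc : c ≤ 3) (d : Fin c → ℕ) : PFam (Pm c hc d) where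
  sub m := fun p hp => (mem_Pm.mp hp).1
  z := by
    intro m p hp
    obtain ⟨h1, h2⟩ := mem_Pm.mp hp
    refine mem_Pm.mpr ⟨mem_T.mpr (by have := mem_T.mp h1; omega), ?_⟩
    rw [enc_z h1]
    exact isP_mono le_self_add h2
  x := by
    intro m p hp
    obtain ⟨h1, h2⟩ := mem_Pm.mp hp
    refine mem_Pm.mpr ⟨mem_T.mpr (by have := mem_T.mp h1; simp only; omega), ?_⟩
    rw [enc_x h1]
    exact isP_mono le_self_add h2
  y := by
    intro m p hp
    obtain ⟨h1, h2⟩ := mem_Pm.mp hp
    refine mem_Pm.mpr ⟨mem_T.mpr (by have := mem_T.mp h1; simp only; omega), ?_⟩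
    rw [enc_y h1]
    exact isP_mono le_self_add h2

/-- the lex part -/
def Lset (I : Ideal (P3 k)) (P : ℕ → Finset (ℕ × ℕ)) : Set (Fin 3 →₀ ℕ) :=
  {u | MM (P u.degree) u.degree (u 0, u 1) ≤ finrank k (idg I u.degree)}

theorem Lset_step {I : Ideal (P3 k)} {P : ℕ → Finset (ℕ × ℕ)} (G : GrowthData I P)
    {u : Fin 3 →₀ ℕ} (hu : u ∈ Lset I P) (i : Fin 3) : u + Finsupp.single i 1 ∈ Lset I P := by
  unfold Lset at hu ⊢
  rw [Set.mem_ofPred_eq] at hu ⊢
  have hdeg : (u + Finsupp.single i 1).degree = u.degree + 1 := by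
    rw [map_add, Finsupp.degree_single]
  rw [hdeg]
  have hT : (u 0, u 1) ∈ T u.degree := by
    rw [mem_T, degree_eq]
    simp only
    omega
  have h1 := G.step hT hu
  refine le_trans (MM_anti ?_) h1
  unfold lx
  simp only [Finsupp.add_apply]
  by_cases h0 : i = 0
  · subst h0
    left
    simp
  · right
    have e0 : (Finsupp.single i 1 : Fin 3 →₀ ℕ) 0 = 0 := by
      rw [Finsupp.single_apply, if_neg h0]
    rw [e0]
    refine ⟨rfl, by omega⟩

theorem exists_pos_of_degree {w : Fin 3 →₀ ℕ} {n : ℕ} (h : w.degree = n + 1) :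
    ∃ i : Fin 3, 0 < w i := by
  by_contra hcon
  push Not at hcon
  rw [degree_eq] at h
  have h0 := hcon 0
  have h1 := hcon 1
  have h2 := hcon 2
  omega

theorem Lset_add {I : Ideal (P3 k)} {P : ℕ → Finset (ℕ × ℕ)} (G : GrowthData I P) (n : ℕ) :
    ∀ w : Fin 3 →₀ ℕ, w.degree = n → ∀ u ∈ Lset I P, u + w ∈ Lset I P := by
  induction n with
  | zero =>
    intro w hw u hu
    rw [Finsupp.degree_eq_zero_iff] at hw
    rw [hw, add_zero]
    exact hu
  | succ n ih =>
    intro w hw u hu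
    obtain ⟨i, hi⟩ := exists_pos_of_degree hw
    have hw' : w = (w - Finsupp.single i 1) + Finsupp.single i 1 := by
      ext j
      rw [Finsupp.add_apply, Finsupp.tsub_apply]
      by_cases hij : i = j
      · subst hij
        rw [Finsupp.single_eq_same]
        omega
      · rw [Finsupp.single_apply, if_neg hij]
        omega
    have hdeg : (w - Finsupp.single i 1).degree = n := by
      have h1 := hw
      rw [hw', map_add, Finsupp.degree_single] at h1
      omega
    rw [hw', ← add_assoc]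
    exact Lset_step G (ih _ hdeg u hu) i

theorem Lset_up {I : Ideal (P3 k)} {P : ℕ → Finset (ℕ × ℕ)} (G : GrowthData I P)
    {u v : Fin 3 →₀ ℕ} (hu : u ∈ Lset I P) (h : u ≤ v) : v ∈ Lset I P := by
  obtain ⟨w, rfl⟩ := le_iff_exists_add.mp h
  exact Lset_add G _ w rfl u hu

/-- the lex ideal -/
noncomputable def LL (I : Ideal (P3 k)) (P : ℕ → Finset (ℕ × ℕ)) : Ideal (P3 k) :=
  Ideal.span ((fun s => monomial s (1 : k)) '' Lset I P)

theorem mem_LL {I : Ideal (P3 k)} {P : ℕ → Finset (ℕ × ℕ)} (G : GrowthData I P) {p : P3 k} :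
    p ∈ LL I P ↔ ∀ u ∈ p.support, u ∈ Lset I P := by
  unfold LL
  rw [mem_ideal_span_monomial_image]
  constructor
  · intro h u hu
    obtain ⟨s, hs, hsu⟩ := h u hu
    exact Lset_up G hs hsu
  · intro h u hu
    exact ⟨u, h u hu, le_rfl⟩

theorem monomial_mem_LL {I : Ideal (P3 k)} {P : ℕ → Finset (ℕ × ℕ)} (G : GrowthData I P)
    {u : Fin 3 →₀ ℕ} : monomial u (1 : k) ∈ LL I P ↔ u ∈ Lset I P := by
  classical
  rw [mem_LL G]
  constructor
  · intro h
    apply h
    rw [MvPolynomial.mem_support_iff, coeff_monomial, if_pos rfl]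
    exact one_ne_zero
  · intro h v hv
    have := support_monomial_subset hv
    rw [Finset.mem_singleton] at this
    rw [this]
    exact h

/-- the ideal of powers -/
noncomputable def QQ (k : Type*) [Field k] (c : ℕ) (hc : c ≤ 3) (d : Fin c → ℕ) : Ideal (P3 k) :=
  Ideal.span (Set.range fun t : Fin c => X (Fin.castLE hc t) ^ d t)

theorem mem_LQ {c : ℕ} {hc : c ≤ 3} {d : Fin c → ℕ} {I : Ideal (P3 k)}
    (G : GrowthData I (Pm c hc d)) {p : P3 k} :
    p ∈ LL I (Pm c hc d) + QQ k c hc d ↔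
      ∀ u ∈ p.support, u ∈ Lset I (Pm c hc d) ∨ isP c hc d u := by
  classical
  have hQ : QQ k c hc d = Ideal.span ((fun s => monomial s (1 : k)) ''
      Set.range (fun t : Fin c => Finsupp.single (Fin.castLE hc t) (d t))) := by
    unfold QQ
    congr 1
    ext q
    constructor
    · rintro ⟨t, rfl⟩
      exact ⟨_, ⟨t, rfl⟩, (X_pow_eq_monomial).symm⟩
    · rintro ⟨_, ⟨t, rfl⟩, rfl⟩
      exact ⟨t, X_pow_eq_monomial⟩
  rw [hQ]
  unfold LL
  rw [Submodule.add_eq_sup, ← Ideal.span_union, ← Set.image_union,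
    mem_ideal_span_monomial_image]
  constructor
  · intro h u hu
    obtain ⟨s, hs | hs, hsu⟩ := h u hu
    · exact Or.inl (Lset_up G hs hsu)
    · right
      obtain ⟨t, rfl⟩ := hs
      refine ⟨t, ?_⟩
      have := hsu (Fin.castLE hc t)
      rwa [Finsupp.single_eq_same] at this
  · intro h u hu
    rcases h u hu with h1 | ⟨t, ht⟩
    · exact ⟨u, Or.inl h1, le_rfl⟩
    · refine ⟨_, Or.inr ⟨t, rfl⟩, ?_⟩
      rw [Finsupp.single_le_iff]
      exact ht

theorem idg_LQ {c : ℕ} {hc : c ≤ 3} {d : Fin c → ℕ} {I : Ideal (P3 k)}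
    (G : GrowthData I (Pm c hc d)) (m : ℕ) :
    idg (LL I (Pm c hc d) + QQ k c hc d) m =
      MS k m (AA (Pm c hc d m) m (finrank k (idg I m))) := by
  ext p
  rw [mem_idg, mem_LQ G, mem_MS]
  constructor
  · rintro ⟨h1, h2⟩ u hu
    have hdeg : u.degree = m := by
      have := h2 (MvPolynomial.mem_support_iff.mp hu)
      rw [← this, Finsupp.degree_eq_weight_one]
      rfl
    have hu' : u ∈ enc m '' (T m : Set (ℕ × ℕ)) := by
      rw [enc_image_T]; exact hdeg
    obtain ⟨q, hq, rfl⟩ := hu'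
    refine ⟨q, ?_, rfl⟩
    rw [mem_AA]
    refine ⟨hq, ?_⟩
    rcases h1 _ hu with h3 | h3
    · right
      unfold Lset at h3
      rw [Set.mem_ofPred_eq, hdeg] at h3
      have e : ((enc m q) 0, (enc m q) 1) = q := by
        unfold enc
        rw [ex_zero, ex_one]
      rw [e] at h3
      exact h3
    · left
      exact mem_Pm.mpr ⟨hq, h3⟩
  · intro h
    have hdeg : ∀ u ∈ p.support, u.degree = m := by
      intro u hu
      obtain ⟨q, hq, rfl⟩ := h u hu
      have hqT := (mem_AA.mp hq).1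
      have : enc m q ∈ enc m '' (T m : Set (ℕ × ℕ)) := ⟨q, hqT, rfl⟩
      rw [enc_image_T] at this
      exact this
    refine ⟨?_, ?_⟩
    · intro u hu
      obtain ⟨q, hq, rfl⟩ := h u hu
      obtain ⟨hqT, hq'⟩ := mem_AA.mp hq
      rcases hq' with h3 | h3
      · exact Or.inr (mem_Pm.mp h3).2
      · left
        unfold Lset
        rw [Set.mem_ofPred_eq, hdeg _ hu]
        have e : ((enc m q) 0, (enc m q) 1) = q := by
          unfold enc
          rw [ex_zero, ex_one]
        rw [e]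
        exact h3
    · intro u hu
      have := hdeg u (MvPolynomial.mem_support_iff.mpr hu)
      rw [← this, Finsupp.degree_eq_weight_one]
      rfl

theorem dn_Sd_zero' {V : Submodule k (P3 k)} (h : V ≤ Sd k 0) : dn V = ⊥ := by
  rw [eq_bot_iff]
  intro p hp
  have h1 := h (mem_dn.mp hp).1
  have h2 : (p * X 0 : P3 k).IsHomogeneous 0 := by
    rw [mul_comm]; exact h1
  have h3 := isHomogeneous_of_mul (isHomogeneous_X k (0 : Fin 3)) (X_ne_zero _) h2
  unfold Sdm at h3
  rw [if_neg (by omega)] at h3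
  exact h3

/-- Lex-plus-powers theorem from growth data. -/
theorem lpp_of_growth {c : ℕ} {hc : c ≤ 3} {d : Fin c → ℕ} {I : Ideal (P3 k)}
    (G : GrowthData I (Pm c hc d)) :
    (∀ u v : Fin 3 →₀ ℕ, ∑ t, u t = ∑ t, v t → (∃ t, (∀ s, s < t → v s = u s) ∧ v t < u t) →
      monomial v (1 : k) ∈ LL I (Pm c hc d) → monomial u (1 : k) ∈ LL I (Pm c hc d)) ∧
    (∀ e, finrank k (idg (LL I (Pm c hc d) + QQ k c hc d) e) = finrank k (idg I e)) ∧
    ∀ i j, bet I i j ≤ bet (LL I (Pm c hc d) + QQ k c hc d) i j := by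
  have hHF : ∀ e, finrank k (idg (LL I (Pm c hc d) + QQ k c hc d) e) = finrank k (idg I e) := by
    intro e
    rw [idg_LQ G, finrank_MS, G.card_A]
  refine ⟨?_, hHF, ?_⟩
  · intro u v huv hex hv
    rw [monomial_mem_LL G] at hv ⊢
    have hdeg : u.degree = v.degree := by
      rw [degree_eq, degree_eq]
      rw [Fin.sum_univ_three, Fin.sum_univ_three] at huv
      exact huv
    unfold Lset at hv ⊢
    rw [Set.mem_ofPred_eq] at hv ⊢
    rw [hdeg]
    refine le_trans (MM_anti ?_) hv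
    rw [degree_eq, degree_eq] at hdeg
    obtain ⟨t, ht1, ht2⟩ := hex
    unfold lx
    simp only
    fin_cases t
    · left; exact ht2
    · right
      exact ⟨ht1 0 (by decide), le_of_lt ht2⟩
    · exfalso
      have h0 := ht1 0 (by decide)
      have h1 := ht1 1 (by decide)
      have h2 : v 2 < u 2 := ht2
      omega
  · apply betti_le
    · intro m
      exact (hHF m).symm
    · intro m
      rw [idg_LQ G]
      have h1 : AA (Pm c hc d m) m (finrank k (idg I m)) ⊆ T m := Finset.filter_subset _ _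
      have h2 := Submodule.finrank_mono (up_MS_le (k := k) h1)
      rw [finrank_MS] at h2
      exact h2.trans (G.card_up m)
    · intro m
      rcases m with _ | m
      · rw [dn_Sd_zero' (idg_le_Sd _ _), finrank_bot]
        exact Nat.zero_le _
      · refine (G.card_dn m).trans ?_
        rw [idg_LQ G, ← finrank_MS (k := k) m]
        exact Submodule.finrank_mono MS_dnP_le

end Run7.H941
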