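import Pool.Agent.Run7.h941.Mono

/-!
Growth in the polynomial ring in three variables: a nonzero finite dimensional space `V`
whose growth `dim (up V) - dim V` is at most `g` has dimension at most `g (g-1) / 2`.
-/

set_option autoImplicit false

open MvPolynomial Module

namespace Run7.H941

variable {k : Type*} [Field k]

theorem finrank_le_up (V : Submodule k (P3 k)) [FiniteDimensional k V] :
    finrank k V ≤ finrank k (up V) := by
  let f : V →ₗ[k] up V := (mx 0).restrict (p := V) (q := up V)
    (fun p hp => mul_mem_up 0 hp)
  refine LinearMap.finrank_le_finrank_of_injective (f := f) ?_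
  intro p q h
  apply Subtype.ext
  apply mx_injective (k := k) 0
  exact congrArg Subtype.val h

/-- iterate of `up` -/
noncomputable def upn (V : Submodule k (P3 k)) : ℕ → Submodule k (P3 k)
  | 0 => V
  | n + 1 => up (upn V n)

instance upn_finite (V : Submodule k (P3 k)) [FiniteDimensional k V] (n : ℕ) :
    FiniteDimensional k (upn V n) := by
  induction n with
  | zero => exact inferInstanceAs (FiniteDimensional k V)
  | succ n ih => exact inferInstanceAs (FiniteDimensional k (up (upn V n)))

theorem mul_mem_upn {V : Submodule k (P3 k)} {p : P3 k} (hp : p ∈ V) (n : ℕ) :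
    (Sd k n).map (LinearMap.mulRight k p) ≤ upn V n := by
  induction n with
  | zero =>
    rintro _ ⟨q, hq, rfl⟩
    have hq' : q ∈ homogeneousSubmodule (Fin 3) k 0 := hq
    rw [homogeneousSubmodule_zero, Submodule.mem_one] at hq'
    obtain ⟨c, rfl⟩ := hq'
    change (algebraMap k (P3 k) c) * p ∈ V
    rw [← Algebra.smul_def]
    exact V.smul_mem c hp
  | succ n ih =>
    rintro _ ⟨q, hq, rfl⟩
    have hq' : q ∈ up (Sd k n) := by rw [up_Sd]; exact hq
    obtain ⟨a, ha, b, hb, c, hc, rfl⟩ := mem_up.mp hq'
    change (X 0 * a + X 1 * b + X 2 * c) * p ∈ up (upn V n)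
    rw [mem_up]
    refine ⟨a * p, ih ⟨a, ha, rfl⟩, b * p, ih ⟨b, hb, rfl⟩, c * p, ih ⟨c, hc, rfl⟩, by ring⟩

theorem card_T_le_upn {V : Submodule k (P3 k)} [FiniteDimensional k V] (hV : V ≠ ⊥) (n : ℕ) :
    (T n).card ≤ finrank k (upn V n) := by
  obtain ⟨p, hp, hp0⟩ := Submodule.exists_mem_ne_zero_of_ne_bot hV
  rw [← finrank_Sd (k := k) n]
  have hinj : Function.Injective (LinearMap.mulRight k p) := by
    intro a b h
    exact mul_right_cancel₀ hp0 h
  rw [(Submodule.equivMapOfInjective (LinearMap.mulRight k p) hinj (Sd k n)).finrank_eq]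
  exact Submodule.finrank_mono (mul_mem_upn hp n)

theorem up_ne_bot {V : Submodule k (P3 k)} (hV : V ≠ ⊥) : up V ≠ ⊥ := by
  obtain ⟨p, hp, hp0⟩ := Submodule.exists_mem_ne_zero_of_ne_bot hV
  intro h
  have h1 := mul_mem_up (0 : Fin 3) hp
  rw [h, Submodule.mem_bot] at h1
  rcases mul_eq_zero.mp h1 with h2 | h2
  · exact X_ne_zero _ h2
  · exact hp0 h2

theorem macaulay3 (g : ℕ) : ∀ (V : Submodule k (P3 k)) [FiniteDimensional k V], V ≠ ⊥ →
    finrank k (up V) ≤ finrank k V + g → 2 * finrank k V ≤ g * (g - 1) := by
  induction g using Nat.strong_induction_on with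
  | _ g ih =>
    -- a bad space propagates
    have step : ∀ (V : Submodule k (P3 k)) [FiniteDimensional k V], V ≠ ⊥ →
        finrank k (up V) ≤ finrank k V + g → g * (g - 1) < 2 * finrank k V →
        finrank k (up V) = finrank k V + g ∧
        finrank k (up (up V)) ≤ finrank k (up V) + g := by
      intro V _ hV hle hbad
      have h1 : finrank k (up V) = finrank k V + g := by
        by_contra hne
        have hlt : finrank k (up V) < finrank k V + g := lt_of_le_of_ne hle hne
        have hup := finrank_le_up V
        have hg : 1 ≤ g := by omega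
        have := ih (g - 1) (by omega) V hV (by omega)
        have h2 : (g - 1) * (g - 1 - 1) ≤ g * (g - 1) := Nat.mul_le_mul (by omega) (by omega)
        omega
      refine ⟨h1, ?_⟩
      have hk := koszul_ineq V (up V) le_rfl
      have hvpos : 0 < finrank k V := by
        rw [Module.finrank_pos_iff_exists_ne_zero]
        obtain ⟨p, hp, hp0⟩ := Submodule.exists_mem_ne_zero_of_ne_bot hV
        exact ⟨⟨p, hp⟩, fun h => hp0 (congrArg Subtype.val h)⟩
      have hdn := finrank_dn_le V
      -- the left growth is at least g
      have hleft : finrank k (dn V) + g ≤ finrank k V := by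
        by_contra hcon
        push Not at hcon
        set gm := finrank k V - finrank k (dn V) with hgm
        have hgm' : finrank k V = finrank k (dn V) + gm := by omega
        have hlt : gm < g := by omega
        by_cases hbot : dn V = ⊥
        · have h0 : finrank k (dn V) = 0 := by rw [hbot]; exact finrank_bot k _
          have hg2 : gm ≤ g - 1 := by omega
          have : g ≠ 1 := by rintro rfl; omega
          have hg : 2 ≤ g := by omega
          have : 2 * (g - 1) ≤ g * (g - 1) := Nat.mul_le_mul hg le_rfl
          omega
        · have hle' : finrank k (up (dn V)) ≤ finrank k (dn V) + gm := by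
            rw [← hgm']
            exact Submodule.finrank_mono (up_le_iff_le_dn.mpr le_rfl)
          have h3 := ih gm hlt (dn V) hbot hle'
          have h4 : gm * (gm - 1) + 2 * gm ≤ g * (g - 1) := by
            obtain ⟨d, rfl⟩ : ∃ d, g = gm + 1 + d := ⟨g - gm - 1, by omega⟩
            rcases gm with _ | n
            · simp
            · have e1 : n + 1 - 1 = n := by omega
              have e2 : n + 1 + 1 + d - 1 = n + 1 + d := by omega
              rw [e1, e2]
              nlinarith
          omega
      omega
    intro V _ hV hle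
    by_contra hcon
    push Not at hcon
    have chain : ∀ n, finrank k (upn V n) = finrank k V + n * g ∧
        finrank k (up (upn V n)) ≤ finrank k (upn V n) + g ∧ upn V n ≠ ⊥ := by
      intro n
      induction n with
      | zero => exact ⟨by rw [zero_mul, add_zero]; rfl, hle, hV⟩
      | succ n ihn =>
        obtain ⟨h1, h2, h3⟩ := ihn
        have hb : g * (g - 1) < 2 * finrank k (upn V n) := by
          rw [h1]; nlinarith
        obtain ⟨h4, h5⟩ := step (upn V n) h3 h2 hb
        refine ⟨?_, h5, up_ne_bot h3⟩
        change finrank k (up (upn V n)) = _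
        rw [h4, h1]; ring
    set v := finrank k V with hv
    have h1 := (chain (2 * (v + g))).1
    have h2 := card_T_le_upn hV (2 * (v + g))
    have h3 := two_card_T (2 * (v + g))
    nlinarith

end Run7.H941
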