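import Pool.Agent.Run7.h941.MainStep

/-!
The main region of the growth theorem: conclusion.
-/

set_option autoImplicit false
set_option linter.unusedSectionVars false

open Module

namespace Run7.H941

variable {k Λ : Type*} [Field k] [CommRing Λ] [Algebra k Λ] [FiniteDimensional k Λ]
variable {x y h : Λ} {a b c : ℕ} {E : ℕ → Submodule k Λ}

theorem fr_sup_inf (V W : Submodule k Λ) : finrank k (V ⊔ W : Submodule k Λ) +
    finrank k (V ⊓ W : Submodule k Λ) = finrank k V + finrank k W :=
  Submodule.finrank_sup_add_finrank_inf_eq V W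

theorem AffSys.fr_hmap (S : AffSys x y h a b c E) (W : Submodule k Λ) :
    finrank k (W.map (LinearMap.mulLeft k h)) = finrank k W :=
  (Submodule.equivMapOfInjective _ S.h_inj W).finrank_eq.symm

/-- First case: a subspace of small codimension. -/
theorem case_small (S : AffSys x y h a b c E) {D e : ℕ} (hDe : D = c + e)
    (hDab : D + 2 ≤ a + b) {V U : Submodule k Λ} (hp : AP x y h c E D V U) {t : ℕ × ℕ}
    (ht : t.1 < a ∧ t.2 < b ∧ t.1 + t.2 < D)
    (htv : (Qs a b D e t).card = finrank k V)
    (hviol : finrank k U < (Qs a b (D + 1) (e + 1) t).card)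
    (hcl : ∀ V' U' : Submodule k Λ, AP x y h c E D V' U' →
      finrank k U' + finrank k V < finrank k V' + finrank k U →
      Cl a b c D (finrank k V') (finrank k U'))
    {V1 : Submodule k Λ} (hPV1 : pv x y V ≤ V1) (hV1V : V1 ≤ V)
    (hV1 : finrank k (V ⊔ nx x y V1 : Submodule k Λ) + finrank k V < finrank k U + finrank k V1)
    (hmax : ∀ W : Submodule k Λ, pv x y V ≤ W → W ≤ V →
      finrank k (V ⊔ nx x y W : Submodule k Λ) + finrank k V < finrank k U + finrank k W →
      finrank k W ≤ finrank k V1)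
    (hsmall : finrank k V < finrank k V1 + e) (hhP : 1 ≤ e → ∀ n ∈ E (e - 1), h * n ∈ pv x y V) :
    False := by
  have ha := S.ha
  have hab := S.hab
  have hbc := S.hbc
  have hV1le := Submodule.finrank_mono hV1V
  have he1 : 1 ≤ e := by omega
  obtain ⟨e', rfl⟩ : ∃ e', e = e' + 1 := ⟨e - 1, by omega⟩
  have eD : D - c = e' + 1 := by omega
  have eD1 : D + 1 - c = e' + 2 := by omega
  have hhP' : ∀ n ∈ E e', h * n ∈ pv x y V := hhP he1
  have hhV : ∀ n ∈ E (e' + 1), h * n ∈ V := by rw [← eD]; exact hp.hhV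
  have hhU : ∀ n ∈ E (e' + 2), h * n ∈ U := by rw [← eD1]; exact hp.hhU
  let H : Λ →ₗ[k] Λ := LinearMap.mulLeft k h
  let W' : Submodule k Λ := E (e' + 1) ⊓ V1.comap H
  let V2 : Submodule k Λ := V1 ⊔ (E (e' + 1)).map H
  have hV2V : V2 ≤ V := by
    apply sup_le hV1V
    rintro _ ⟨n, hn, rfl⟩
    exact hhV n hn
  have hPV2 : pv x y V ≤ V2 := hPV1.trans le_sup_left
  -- dimension of V2
  have hinf : V1 ⊓ (E (e' + 1)).map H = W'.map H := by
    ext w
    constructor
    · rintro ⟨hw1, n, hn, rfl⟩
      exact ⟨n, ⟨hn, hw1⟩, rfl⟩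
    · rintro ⟨n, hn, rfl⟩
      exact ⟨hn.2, n, hn.1, rfl⟩
  have hd1 := fr_sup_inf V1 ((E (e' + 1)).map H)
  rw [hinf, S.fr_hmap, S.fr_hmap] at hd1
  have hd1' : finrank k V2 + finrank k W' = finrank k V1 + finrank k (E (e' + 1)) := hd1
  have hV2le := Submodule.finrank_mono hV2V
  -- L1 for W'
  have hEW : E e' ≤ W' := fun n hn => ⟨S.mono _ hn, hPV1 (hhP' n hn)⟩
  have hWE : W' ≤ E (e' + 1) := fun n hn => hn.1
  have f0 := S.dE e'
  have f1 := S.dE (e' + 1)
  have f2 := S.dE (e' + 2)
  have g1 := Bq_card_succ a b e'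
  have g2 := Bq_card_succ a b (e' + 1)
  rw [dg_small (by omega) hab] at g1 g2
  change (Bq a b (e' + 2)).card = _ at g2
  have hne : W' ≠ E e' := by
    intro heq
    rw [heq] at hd1'
    omega
  have hL1 := S.L1 e' (by omega) W' hEW hWE hne
  -- dimension of the growth of V2
  have hsup : V ⊔ nx x y V2 ≤ (V ⊔ nx x y V1) ⊔ (E (e' + 2)).map H := by
    apply sup_le (le_sup_left.trans le_sup_left)
    rw [nx_le]
    constructor
    · exact hV2V.trans (le_sup_left.trans le_sup_left)
    · intro n hn
      obtain ⟨n1, hn1, _, ⟨m, hm, rfl⟩, rfl⟩ := Submodule.mem_sup.mp hn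
      constructor
      · rw [mul_add]
        apply add_mem
        · exact Submodule.mem_sup_left (Submodule.mem_sup_right (x_mem_nx hn1))
        · refine Submodule.mem_sup_right ⟨x * m, S.xE hm, ?_⟩
          change h * (x * m) = x * (h * m)
          ring
      · rw [mul_add]
        apply add_mem
        · exact Submodule.mem_sup_left (Submodule.mem_sup_right (y_mem_nx hn1))
        · refine Submodule.mem_sup_right ⟨y * m, S.yE hm, ?_⟩
          change h * (y * m) = y * (h * m)
          ring
  have hsup' := Submodule.finrank_mono hsup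
  have hd2 := fr_sup_inf (V ⊔ nx x y V1) ((E (e' + 2)).map H)
  have hinf2 : (E (e' + 1) ⊔ nx x y W').map H ≤ (V ⊔ nx x y V1) ⊓ (E (e' + 2)).map H := by
    rintro _ ⟨n, hn, rfl⟩
    constructor
    · obtain ⟨n1, hn1, n2, hn2, rfl⟩ := Submodule.mem_sup.mp hn
      change h * (n1 + n2) ∈ _
      rw [mul_add]
      apply add_mem
      · exact Submodule.mem_sup_left (hhV n1 hn1)
      · apply Submodule.mem_sup_right
        exact nx_h (V := V1) (W := W') (fun n hn => hn.2) le_rfl n2 hn2
    · refine ⟨n, ?_, rfl⟩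
      have : (E (e' + 1) ⊔ nx x y W' : Submodule k Λ) ≤ E (e' + 2) :=
        sup_le (S.mono _) ((nx_mono hWE).trans (S.nxE _))
      exact this hn
  have hinf2' := Submodule.finrank_mono hinf2
  rw [S.fr_hmap] at hinf2' hd2
  have hV2good : finrank k (V ⊔ nx x y V2 : Submodule k Λ) + finrank k V <
      finrank k U + finrank k V2 := by omega
  have hmax2 := hmax V2 hPV2 hV2V hV2good
  have hV2eq : V1 = V2 := Submodule.eq_of_le_of_finrank_le le_sup_left hmax2
  have hhV1 : ∀ n ∈ E (e' + 1), h * n ∈ V1 := by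
    intro n hn
    rw [hV2eq]
    exact Submodule.mem_sup_right ⟨n, hn, rfl⟩
  -- the smaller pair
  have hp1 : AP x y h c E D V1 (V ⊔ nx x y V1) := by
    refine ⟨hV1V.trans hp.hV, ?_, le_sup_right, ?_, ?_⟩
    · exact (sup_le hp.V_le_U ((nx_mono hV1V).trans hp.hn)).trans hp.hU
    · rw [eD]; exact hhV1
    · rw [eD1, S.Es]
      exact nx_h hhV1 le_sup_right
  have hcl1 := hcl V1 _ hp1 (by omega)
  have hlow : (Bq a b (e' + 1)).card ≤ finrank k V1 := S.card_le_of_h hhV1
  have hhigh : finrank k V1 ≤ (Bq a b D).card := by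
    rw [← S.dE]; exact Submodule.finrank_mono hp1.hV
  obtain ⟨s, hs1, _, hs3⟩ := exists_exact_Qs (a := a) (b := b) (D := D) (e := e' + 1)
    (by omega) hlow hhigh
  have h1 := S.cl_ext (D := D) (by omega) hp1 hcl1 hs1 (by rw [eD, hs3])
  rw [eD1] at h1
  have e4 : e' + 2 = e' + 1 + 1 := rfl
  rw [e4] at h1
  by_cases hv : finrank k V ≤ finrank k V1
  · have h2 := Qs_forward (a := a) (b := b) (D := D) (e := e' + 1) (t := t) (s := s) (by omega)
      (by omega) ht.2.2 (by omega)
    omega
  · have hlx : lx t s := by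
      rcases lx_total t s with h2 | h2
      · exact h2
      · have := Finset.card_le_card (Qs_mono (a := a) (b := b) (D := D) (e := e' + 1) h2)
        omega
    rw [Qs_growth (by omega)] at h1 hviol
    have h3 := botS_mono (a := a) (b := b) (e := e' + 1) hlx
    have h4 := lex_top (a := a) (b := b) (D := D) (e := e' + 1) hlx (by omega) (by omega)
      (by omega)
    omega

/-- Second case. -/
theorem case_large (S : AffSys x y h a b c E) {D e : ℕ} (hDe : D = c + e)
    (hDab : D + 2 ≤ a + b) {V U : Submodule k Λ} (hp : AP x y h c E D V U) {t : ℕ × ℕ}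
    (ht : t.1 < a ∧ t.2 < b ∧ t.1 + t.2 < D)
    (htv : (Qs a b D e t).card = finrank k V)
    (hviol : finrank k U < (Qs a b (D + 1) (e + 1) t).card)
    (hcl : ∀ V' U' : Submodule k Λ, AP x y h c E D V' U' →
      finrank k U' + finrank k V < finrank k V' + finrank k U →
      Cl a b c D (finrank k V') (finrank k U'))
    {X : Submodule k Λ} (hVX : V ≤ X) (hXU : X ≤ U)
    (hX : finrank k (U ⊔ nx x y X : Submodule k Λ) + finrank k V < finrank k U + finrank k X)
    (hmin : ∀ W : Submodule k Λ, V ≤ W → W ≤ U →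
      finrank k (U ⊔ nx x y W : Submodule k Λ) + finrank k V < finrank k U + finrank k W →
      finrank k X ≤ finrank k W)
    (hsmall : finrank k X + D + 1 < finrank k V + a + b) :
    False := by
  have ha := S.ha
  have hab := S.hab
  have hbc := S.hbc
  have hVXle := Submodule.finrank_mono hVX
  have eD : D - c = e := by omega
  have eD1 : D + 1 - c = e + 1 := by omega
  -- X ≤ E D
  have hXE : X ≤ E D := by
    let X2 : Submodule k Λ := X ⊓ E D
    let W : Submodule k Λ := X ⊔ E D
    have hVX2 : V ≤ X2 := le_inf hVX hp.hV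
    have hX2U : X2 ≤ U := inf_le_left.trans hXU
    have hd1 : finrank k W + finrank k X2 = finrank k X + finrank k (E D) := fr_sup_inf X (E D)
    have hX2le := Submodule.finrank_mono hVX2
    have hWE : W ≤ E (D + 1) := sup_le (hXU.trans hp.hU) (S.mono D)
    have f0 := S.dE D
    have f1 := S.dE (D + 1)
    have g1 := Bq_card_succ a b D
    have g2 := dg_large (a := a) (b := b) (m := D) (by omega) hab
    have hne : W ≠ E (D + 1) := by
      intro heq
      rw [heq] at hd1
      omega
    have hL2 := S.L2 (a + b - (D + 2)) D (by omega) W le_sup_right hWE hne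
    have hle1 : (E (D + 1) ⊔ nx x y W : Submodule k Λ) ≤ E (D + 1) ⊔ (U ⊔ nx x y X) := by
      apply sup_le le_sup_left
      rw [nx_le]
      constructor
      · exact sup_le (hXU.trans (le_sup_left.trans le_sup_right)) ((S.mono D).trans le_sup_left)
      · intro n hn
        obtain ⟨n1, hn1, n2, hn2, rfl⟩ := Submodule.mem_sup.mp hn
        constructor
        · rw [mul_add]
          exact add_mem (Submodule.mem_sup_right (Submodule.mem_sup_right (x_mem_nx hn1)))
            (Submodule.mem_sup_left (S.xE hn2))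
        · rw [mul_add]
          exact add_mem (Submodule.mem_sup_right (Submodule.mem_sup_right (y_mem_nx hn1)))
            (Submodule.mem_sup_left (S.yE hn2))
    have hle1' := Submodule.finrank_mono hle1
    have hd2 := fr_sup_inf (E (D + 1)) (U ⊔ nx x y X)
    have hle2 : (U ⊔ nx x y X2 : Submodule k Λ) ≤ E (D + 1) ⊓ (U ⊔ nx x y X) := by
      apply le_inf
      · exact sup_le hp.hU ((nx_mono inf_le_right).trans (S.nxE D))
      · exact sup_le_sup_left (nx_mono inf_le_left) U
    have hle2' := Submodule.finrank_mono hle2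
    have hgood : finrank k (U ⊔ nx x y X2 : Submodule k Λ) + finrank k V <
        finrank k U + finrank k X2 := by omega
    have h1 := hmin X2 hVX2 hX2U hgood
    have h2 : X2 = X := Submodule.eq_of_le_of_finrank_le inf_le_left h1
    rw [← h2]
    exact inf_le_right
  have hp1 : AP x y h c E D X (U ⊔ nx x y X) := by
    refine ⟨hXE, sup_le hp.hU ((nx_mono hXE).trans (S.nxE D)), le_sup_right, ?_, ?_⟩
    · intro n hn
      exact hVX (hp.hhV n hn)
    · intro n hn
      exact Submodule.mem_sup_left (hp.hhU n hn)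
  have hcl1 := hcl X _ hp1 (by omega)
  have hlow : (Bq a b e).card ≤ finrank k X := by
    apply S.card_le_of_h
    intro n hn
    apply hp1.hhV
    rw [eD]; exact hn
  have hhigh : finrank k X ≤ (Bq a b D).card := by
    rw [← S.dE]; exact Submodule.finrank_mono hXE
  obtain ⟨s, hs1, _, hs3⟩ := exists_exact_Qs (a := a) (b := b) (D := D) (e := e)
    (by omega) hlow hhigh
  have h1 := S.cl_ext (D := D) (by omega) hp1 hcl1 hs1 (by rw [eD, hs3])
  rw [eD1] at h1
  by_cases hv : finrank k X ≤ finrank k V
  · have h2 := Qs_forward (a := a) (b := b) (D := D) (e := e) (t := t) (s := s) (by omega)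
      (by omega) ht.2.2 (by omega)
    omega
  · have hlx : lx s t := by
      rcases lx_total t s with h2 | h2
      · have := Finset.card_le_card (Qs_mono (a := a) (b := b) (D := D) (e := e) h2)
        omega
      · exact h2
    rw [Qs_growth (by omega)] at h1 hviol
    have h3 := topS_anti (a := a) (b := b) (e := D) hlx
    have h4 := lex_bot (a := a) (b := b) (D := D) (e := e) (r := a + b - 1 - D) hlx (by omega)
      (by omega) (by omega)
    omega

/-- The induction step in the main region. -/
theorem main_step [Infinite k] (S : AffSys x y h a b c E) (hG2 : G2 x y a b E) {D : ℕ}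
    (hcD : c ≤ D)
    (hDab : D + 2 ≤ a + b) {V U : Submodule k Λ} (hp : AP x y h c E D V U)
    (hcl : ∀ (D' : ℕ) (V' U' : Submodule k Λ), c ≤ D' → AP x y h c E D' V' U' →
      finrank k U' + finrank k V < finrank k V' + finrank k U →
      Cl a b c D' (finrank k V') (finrank k U')) :
    Cl a b c D (finrank k V) (finrank k U) := by
  have ha := S.ha
  have hab := S.hab
  have hbc := S.hbc
  obtain ⟨e, hDe⟩ : ∃ e, D = c + e := ⟨D - c, by omega⟩
  have eD : D - c = e := by omega
  have eD1 : D + 1 - c = e + 1 := by omega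
  intro t0 ht01 ht02 ht03 ht0v
  rw [eD] at ht0v
  rw [eD1]
  by_contra hcon
  push Not at hcon
  have hVle := Submodule.finrank_mono hp.V_le_U
  have hhV : ∀ n ∈ E e, h * n ∈ V := by rw [← eD]; exact hp.hhV
  have hhU : ∀ n ∈ E (e + 1), h * n ∈ U := by rw [← eD1]; exact hp.hhU
  have hlow : (Bq a b e).card ≤ finrank k V := S.card_le_of_h hhV
  have hhigh : finrank k V ≤ (Bq a b D).card := by
    rw [← S.dE]; exact Submodule.finrank_mono hp.hV
  obtain ⟨t, ht1, hnorm, htv⟩ := exists_exact_Qs (a := a) (b := b) (D := D) (e := e)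
    (by omega) hlow hhigh
  have hviol : finrank k U < (Qs a b (D + 1) (e + 1) t).card := by
    refine lt_of_lt_of_le hcon ?_
    exact Qs_forward (by omega) (by omega) ht03 (by omega)
  have ht : t.1 < a ∧ t.2 < b ∧ t.1 + t.2 < D := by
    rcases ht1 with ht1 | ht1
    · exact ht1
    · exfalso
      rw [ht1, Qs_top (t := (a, 0)) (le_refl a) (by omega)] at hviol
      have := S.card_le_of_h hhU
      omega
  have hright := right_growth S hDe hDab hp ht.2.2 htv hviol
    (fun hlt => hcl (D + 1) U _ (by omega) (hp.right S hcD) hlt)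
  have hleft := left_growth S hG2 hDe hDab hp ht hnorm htv hviol
    (fun h1 h2 h3 => hcl (D - 1) _ _ h1 h2 h3)
  have hkos := koszul_aff x y V U hp.hn
  have hflat : finrank k U + finrank k (pv x y V) = 2 * finrank k V := by omega
  have hgrow : finrank k U + c + 1 ≤ finrank k V + a + b := by
    have h1 := hviol
    rw [Qs_growth (by omega), htv] at h1
    have h2 := card_topS_le (a := a) (b := b) (D := D) t (by omega)
    have h3 := card_botS_le a b e t
    omega
  have hhP : 1 ≤ e → ∀ n ∈ E (e - 1), h * n ∈ pv x y V := by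
    intro he n hn
    have e1 : e - 1 + 1 = e := by omega
    rw [mem_pv]
    refine ⟨hhV n (S.monoE (by omega) hn), ?_, ?_⟩
    · have : x * (h * n) = h * (x * n) := by ring
      rw [this]
      apply hhV
      have := S.xE hn
      rwa [e1] at this
    · have : y * (h * n) = h * (y * n) := by ring
      rw [this]
      apply hhV
      have := S.yE hn
      rwa [e1] at this
  by_cases h3a : ∃ V1 : Submodule k Λ, pv x y V ≤ V1 ∧ V1 ≤ V ∧
      finrank k (V ⊔ nx x y V1 : Submodule k Λ) + finrank k V < finrank k U + finrank k V1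
  · obtain ⟨V1, ⟨hPV1, hV1V, hV1⟩, hmax⟩ := exists_max_fin _ h3a
    have hV1le := Submodule.finrank_mono hV1V
    by_cases hsmall : finrank k V < finrank k V1 + e
    · exact case_small S hDe hDab hp ht htv hviol
        (fun V' U' h1 h2 => hcl D V' U' hcD h1 h2) hPV1 hV1V hV1
        (fun W h1 h2 h3 => hmax W ⟨h1, h2, h3⟩) hsmall hhP
    · -- the other side
      let X0 : Submodule k Λ := V ⊔ nx x y V1
      have hVX0 : V ≤ X0 := le_sup_left
      have hX0U : X0 ≤ U := sup_le hp.V_le_U ((nx_mono hV1V).trans hp.hn)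
      have hpU : ∀ n ∈ V, x * n ∈ U ∧ y * n ∈ U := (nx_le.mp hp.hn).2
      have key := cx_ineq x y V1 V X0 U (U ⊔ nx x y X0)
        (fun n hn => ⟨Submodule.mem_sup_right (x_mem_nx hn), Submodule.mem_sup_right (y_mem_nx hn)⟩)
        hVX0 hpU le_sup_left
        (by
          intro w hw
          obtain ⟨w1, hw1, w2, hw2, rfl⟩ := Submodule.mem_sup.mp hw
          obtain ⟨w0, hw0, p, hp, q, hq, rfl⟩ := nx_decomp hw2
          refine ⟨p, hp, q, hq, ?_⟩
          have : w1 + (w0 + x * p + y * q) - (x * p + y * q) = w1 + w0 := by ring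
          rw [this]
          exact add_mem hw1 (hX0U hw0))
        (fun n hn => ⟨Submodule.mem_sup_right (x_mem_nx hn), Submodule.mem_sup_right (y_mem_nx hn)⟩)
      have hinf : finrank k (V1 ⊓ V.comap (LinearMap.mulLeft k x) ⊓
          V.comap (LinearMap.mulLeft k y) : Submodule k Λ) ≤ finrank k (pv x y V) := by
        apply Submodule.finrank_mono
        intro n hn
        exact mem_pv.mpr ⟨hV1V hn.1.1, hn.1.2, hn.2⟩
      have hV1' : finrank k X0 + finrank k V < finrank k U + finrank k V1 := hV1
      have hX0 : finrank k (U ⊔ nx x y X0 : Submodule k Λ) + finrank k V <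
          finrank k U + finrank k X0 := by omega
      obtain ⟨X, ⟨hVX, hXU, hX⟩, hmin⟩ := exists_min_fin (fun X : Submodule k Λ => V ≤ X ∧ X ≤ U ∧
        finrank k (U ⊔ nx x y X : Submodule k Λ) + finrank k V < finrank k U + finrank k X)
        ⟨X0, hVX0, hX0U, hX0⟩
      have hXX0 := hmin X0 ⟨hVX0, hX0U, hX0⟩
      exact case_large S hDe hDab hp ht htv hviol
        (fun V' U' h1 h2 => hcl D V' U' hcD h1 h2) hVX hXU hX
        (fun W h1 h2 h3 => hmin W ⟨h1, h2, h3⟩) (by omega)
  · -- flat case
    have hinj : ∃ t0 : k, ∀ n ∈ V, x * n + t0 • (y * n) ∈ V → n ∈ pv x y V := by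
      by_contra hc
      push Not at hc
      obtain ⟨V1, h1, h2, h3⟩ := kron_aff x y (pv x y V) V (pv_le V)
        (fun n hn => (mem_pv.mp hn).2.1) (fun n hn => (mem_pv.mp hn).2.2)
        (fun t => by
          obtain ⟨n, hn1, hn2, hn3⟩ := hc t
          exact ⟨n, hn1, hn3, hn2⟩)
      exact h3a ⟨V1, h1, h2, by omega⟩
    obtain ⟨t1, hinj⟩ := hinj
    have S' := S.change t1
    refine S'.no_flat (D := D) hDab (by omega) hp.hV (U := U) ?_ ?_ ?_ ?_ ?_
    · rw [nx_change]; exact hp.hn
    · have h1 : (1 : Λ) ∈ E (e + 1) := by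
        apply S.monoE (m := 1) (by omega)
        rw [S.E1]
        exact Submodule.mem_span_singleton_self _
      have := hhU 1 h1
      rwa [mul_one] at this
    · intro n hn hyn
      have e1 : (x + t1 • y) * n = x * n + t1 • (y * n) := by
        rw [add_mul, smul_mul_assoc]
      rw [e1] at hyn
      have := hinj n hn hyn
      exact (mem_pv.mp this).2.2
    · rw [pv_change]; omega
    · rw [pv_change]; omega

end Run7.H941
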