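import Pool.Agent.Run7.h941.Chain

/-!
The main region of the growth theorem.
-/

set_option autoImplicit false
set_option linter.unusedSectionVars false

open Module

namespace Run7.H941

variable {k Λ : Type*} [Field k] [CommRing Λ] [Algebra k Λ] [FiniteDimensional k Λ]

/-- a pair of consecutive subspaces, containing the multiples of `h` -/
structure AP (x y h : Λ) (c : ℕ) (E : ℕ → Submodule k Λ) (D : ℕ) (V U : Submodule k Λ) :
    Prop where
  hV : V ≤ E D
  hU : U ≤ E (D + 1)
  hn : nx x y V ≤ U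
  hhV : ∀ n ∈ E (D - c), h * n ∈ V
  hhU : ∀ n ∈ E (D + 1 - c), h * n ∈ U

/-- the growth statement for a pair -/
def Cl (a b c D : ℕ) (v u : ℕ) : Prop := ∀ t : ℕ × ℕ, t.1 < a → t.2 < b → t.1 + t.2 < D →
  (Qs a b D (D - c) t).card ≤ v → (Qs a b (D + 1) (D + 1 - c) t).card ≤ u

/-- the growth theorem without third generator -/
def G2 (x y : Λ) (a b : ℕ) (E : ℕ → Submodule k Λ) : Prop :=
  ∀ (D : ℕ) (V U : Submodule k Λ), V ≤ E D → U ≤ E (D + 1) → nx x y V ≤ U →
    ∀ t : ℕ × ℕ, t.1 < a → t.2 < b → t.1 + t.2 < D →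
      (Qs a b D 0 t).card ≤ finrank k V → (Qs a b (D + 1) 0 t).card ≤ finrank k U

variable {x y h : Λ} {a b c : ℕ} {E : ℕ → Submodule k Λ}

theorem AffSys.h_inj (S : AffSys x y h a b c E) :
    Function.Injective (LinearMap.mulLeft k h) := by
  intro m n hmn
  exact S.hu.mul_left_cancel hmn

theorem AffSys.card_le_of_h (S : AffSys x y h a b c E) {m : ℕ} {V : Submodule k Λ}
    (hV : ∀ n ∈ E m, h * n ∈ V) : (Bq a b m).card ≤ finrank k V := by
  rw [← S.dE m]
  let j : E m →ₗ[k] V := LinearMap.codRestrict V ((LinearMap.mulLeft k h).comp (E m).subtype)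
    (fun n => hV n n.2)
  apply LinearMap.finrank_le_finrank_of_injective (f := j)
  intro n n' hn
  apply Subtype.ext
  apply S.h_inj
  exact congrArg (fun z : V => (z : Λ)) hn

theorem AffSys.monoE (S : AffSys x y h a b c E) {m m' : ℕ} (hm : m ≤ m') : E m ≤ E m' := by
  induction m', hm using Nat.le_induction with
  | base => exact le_rfl
  | succ n _ ih => exact ih.trans (S.mono n)

theorem AP.V_le_U {D : ℕ} {V U : Submodule k Λ} (hp : AP x y h c E D V U) : V ≤ U :=
  (le_nx V).trans hp.hn

theorem AP.fin_le {D : ℕ} {V U : Submodule k Λ} (hp : AP x y h c E D V U) :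
    finrank k V ≤ finrank k U := Submodule.finrank_mono hp.V_le_U

/-- thresholds outside of the box -/
theorem AffSys.cl_ext (S : AffSys x y h a b c E) {D : ℕ} (hD : c ≤ D) {V U : Submodule k Λ}
    (hp : AP x y h c E D V U) (hcl : Cl a b c D (finrank k V) (finrank k U)) {t : ℕ × ℕ}
    (ht : (t.1 < a ∧ t.2 < b ∧ t.1 + t.2 < D) ∨ t = (a, 0))
    (hc : (Qs a b D (D - c) t).card ≤ finrank k V) :
    (Qs a b (D + 1) (D + 1 - c) t).card ≤ finrank k U := by
  rcases ht with ht | ht
  · exact hcl t ht.1 ht.2.1 ht.2.2 hc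
  · rw [ht, Qs_top (t := (a, 0)) (le_refl a) (by omega)]
    exact S.card_le_of_h hp.hhU

theorem nx_h {V U : Submodule k Λ} {W : Submodule k Λ} (hV : ∀ n ∈ W, h * n ∈ V)
    (hU : nx x y V ≤ U) : ∀ n ∈ nx x y W, h * n ∈ U := by
  intro n hn
  obtain ⟨n0, hn0, p, hp, q, hq, rfl⟩ := nx_decomp hn
  have : h * (n0 + x * p + y * q) = h * n0 + x * (h * p) + y * (h * q) := by ring
  rw [this]
  exact add_mem (add_mem (hU (le_nx V (hV _ hn0))) (hU (x_mem_nx (hV _ hp))))
    (hU (y_mem_nx (hV _ hq)))

theorem AP.right (S : AffSys x y h a b c E) {D : ℕ} (hD : c ≤ D) {V U : Submodule k Λ}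
    (hp : AP x y h c E D V U) : AP x y h c E (D + 1) U (nx x y U) := by
  refine ⟨hp.hU, (nx_mono hp.hU).trans (S.nxE _), le_rfl, hp.hhU, ?_⟩
  have e : D + 1 + 1 - c = D - c + 2 := by omega
  have e' : D + 1 - c = D - c + 1 := by omega
  rw [e, S.Es]
  apply nx_h (V := U) _ le_rfl
  rw [← e']
  exact hp.hhU

theorem AP.left (S : AffSys x y h a b c E) {D : ℕ} (hD : c ≤ D) (hDab : D + 3 ≤ a + b)
    {V U : Submodule k Λ}
    (hp : AP x y h c E (D + 1) V U) : AP x y h c E D (pv x y V) V := by
  refine ⟨?_, hp.hV, nx_pv_le V, ?_, ?_⟩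
  · intro n hn
    have hn' := mem_pv.mp hn
    exact S.soc D n hDab (hp.hV hn'.1) (hp.hV hn'.2.1) (hp.hV hn'.2.2)
  · intro n hn
    have e : D + 1 - c = D - c + 1 := by omega
    have h1 := hp.hhV
    rw [e] at h1
    rw [mem_pv]
    refine ⟨h1 n (S.mono _ hn), ?_, ?_⟩
    · have : x * (h * n) = h * (x * n) := by ring
      rw [this]
      exact h1 _ (S.xE hn)
    · have : y * (h * n) = h * (y * n) := by ring
      rw [this]
      exact h1 _ (S.yE hn)
  · exact hp.hhV

/-- Right neighbour. -/
theorem right_growth (S : AffSys x y h a b c E) {D e : ℕ} (hDe : D = c + e) (hDab : D + 2 ≤ a + b)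
    {V U : Submodule k Λ} (hp : AP x y h c E D V U) {t : ℕ × ℕ}
    (htD : t.1 + t.2 < D)
    (htv : (Qs a b D e t).card = finrank k V)
    (hviol : finrank k U < (Qs a b (D + 1) (e + 1) t).card)
    (hcl : finrank k (nx x y U) + finrank k V < finrank k U + finrank k U →
      Cl a b c (D + 1) (finrank k U) (finrank k (nx x y U))) :
    2 * finrank k U ≤ finrank k (nx x y U) + finrank k V := by
  have ha := S.ha
  have hab := S.hab
  have hbc := S.hbc
  by_contra hcon
  push Not at hcon
  have hcl' := hcl (by omega)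
  have hpr := hp.right S (by omega)
  have e1 : D + 1 - c = e + 1 := by omega
  have e2 : D + 1 + 1 - c = e + 1 + 1 := by omega
  have hlow : (Bq a b (e + 1)).card ≤ finrank k U := by
    rw [← e1]; exact S.card_le_of_h hp.hhU
  have hhigh : finrank k U ≤ (Bq a b (D + 1)).card := by
    rw [← S.dE]; exact Submodule.finrank_mono hp.hU
  obtain ⟨s, hs1, hs2, hs3⟩ := exists_exact_Qs (a := a) (b := b) (D := D + 1) (e := e + 1)
    (by omega) hlow hhigh
  have h1 := S.cl_ext (D := D + 1) (by omega) hpr hcl' hs1 (by rw [e1, hs3])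
  rw [e2, Qs_growth (by omega), hs3] at h1
  have h2 := Qs_growth (a := a) (b := b) (D := D) (e := e) (by omega) s
  rw [hs3] at h2
  have h3 := topS_succ_ge a b D s
  have h4 := botS_le_succ (a := a) (b := b) (e := e) (t := s) (by omega) hs2
  have h5 : (Qs a b D e s).card + 1 ≤ finrank k V := by
    by_contra hc
    push Not at hc
    have := Qs_forward (a := a) (b := b) (D := D) (e := e) (t := t) (s := s) (by omega) (by omega)
      htD (by omega)
    omega
  omega

/-- Left neighbour. -/
theorem left_growth (S : AffSys x y h a b c E) (hG2 : G2 x y a b E) {D e : ℕ} (hDe : D = c + e)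
    (hDab : D + 2 ≤ a + b)
    {V U : Submodule k Λ} (hp : AP x y h c E D V U) {t : ℕ × ℕ}
    (ht : t.1 < a ∧ t.2 < b ∧ t.1 + t.2 < D)
    (hnorm : e < t.1 + t.2 ∨ t.2 = 0)
    (htv : (Qs a b D e t).card = finrank k V)
    (hviol : finrank k U < (Qs a b (D + 1) (e + 1) t).card)
    (hcl : c ≤ D - 1 → AP x y h c E (D - 1) (pv x y V) V →
      finrank k V + finrank k V < finrank k (pv x y V) + finrank k U →
      Cl a b c (D - 1) (finrank k (pv x y V)) (finrank k V)) :
    finrank k U + finrank k (pv x y V) ≤ 2 * finrank k V := by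
  have ha := S.ha
  have hab := S.hab
  have hbc := S.hbc
  by_contra hcon
  push Not at hcon
  rw [Qs_growth (by omega), htv] at hviol
  obtain ⟨D', rfl⟩ : ∃ D', D = D' + 1 := ⟨D - 1, by omega⟩
  have e0 : D' + 1 - 1 = D' := by omega
  rw [e0] at hcl
  have hPle : pv x y V ≤ E D' := by
    intro n hn
    have hn' := mem_pv.mp hn
    exact S.soc D' n (by omega) (hp.hV hn'.1) (hp.hV hn'.2.1) (hp.hV hn'.2.2)
  have hPcard : finrank k (pv x y V) ≤ (Bq a b D').card := by
    rw [← S.dE]; exact Submodule.finrank_mono hPle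
  have hts := topS_succ_le (a := a) (b := b) (m := D') (t := t) (by omega) (by omega)
  rcases Nat.eq_zero_or_pos e with he | he
  · -- no bottom layer
    subst he
    have hb0 := botS_zero_le a b t
    have hkey : finrank k (pv x y V) ≤ (Qs a b D' 0 t).card := by
      by_contra hc
      push Not at hc
      obtain ⟨s, hs1, _, hs3⟩ := exists_exact_Qs (a := a) (b := b) (D := D') (e := 0)
        (by omega) (n := finrank k (pv x y V)) (by rw [Bq_zero]; omega) hPcard
      rcases hs1 with hs1 | hs1
      · have h1 := hG2 D' (pv x y V) V hPle hp.hV (nx_pv_le V) s hs1.1 hs1.2.1 hs1.2.2 (by omega)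
        rw [← htv] at h1
        have := Qs_backward0 h1
        omega
      · rw [hs1, Qs_top (t := (a, 0)) (le_refl a) (by omega), Bq_zero] at hs3
        omega
    have h2 := Qs_growth0 (a := a) (b := b) (D := D') t
    omega
  · obtain ⟨e', rfl⟩ : ∃ e', e = e' + 1 := ⟨e - 1, by omega⟩
    have hpl := AP.left S (by omega) (by omega) hp
    have hcl' := hcl (by omega) hpl (by omega)
    have e1 : D' - c = e' := by omega
    have e2 : D' + 1 - c = e' + 1 := by omega
    have hkey : finrank k (pv x y V) ≤ (Qs a b D' e' t).card := by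
      by_contra hc
      push Not at hc
      have hlow : (Bq a b e').card ≤ finrank k (pv x y V) := by
        rw [← e1]; exact S.card_le_of_h hpl.hhV
      obtain ⟨s, hs1, _, hs3⟩ := exists_exact_Qs (a := a) (b := b) (D := D') (e := e')
        (by omega) (n := finrank k (pv x y V)) hlow hPcard
      rcases hs1 with hs1 | hs1
      · have h1 := hcl' s hs1.1 hs1.2.1 hs1.2.2 (by rw [e1, hs3])
        rw [e2, ← htv] at h1
        have := Qs_backward (a := a) (b := b) (D := D') (e := e') (t := t) (s := s) (by omega)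
          (by omega) hnorm h1
        omega
      · rw [hs1, Qs_top (t := (a, 0)) (le_refl a) (by omega)] at hs3
        have := Finset.card_le_card (Bq_subset_Qs (a := a) (b := b) (D := D') (e := e')
          (by omega) (t := t))
        omega
    have h2 := Qs_growth (a := a) (b := b) (D := D') (e := e') (by omega) t
    have h3 := botS_succ_le a b e' t
    omega

theorem exists_max_fin (Pr : Submodule k Λ → Prop) (hex : ∃ W, Pr W) :
    ∃ W, Pr W ∧ ∀ W', Pr W' → finrank k W' ≤ finrank k W := by
  obtain ⟨W, hW, hmin⟩ := WellFounded.has_min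
    (measure (fun W : Submodule k Λ => finrank k Λ - finrank k W)).wf {W | Pr W} hex
  refine ⟨W, hW, ?_⟩
  intro W' hW'
  have h1 := hmin W' hW'
  change ¬ (finrank k Λ - finrank k W' < finrank k Λ - finrank k W) at h1
  have h2 := Submodule.finrank_le W
  have h3 := Submodule.finrank_le W'
  omega

theorem exists_min_fin (Pr : Submodule k Λ → Prop) (hex : ∃ W, Pr W) :
    ∃ W, Pr W ∧ ∀ W', Pr W' → finrank k W ≤ finrank k W' := by
  obtain ⟨W, hW, hmin⟩ := WellFounded.has_min
    (measure (fun W : Submodule k Λ => finrank k W)).wf {W | Pr W} hex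
  refine ⟨W, hW, ?_⟩
  intro W' hW'
  have h1 := hmin W' hW'
  change ¬ (finrank k W' < finrank k W) at h1
  omega

/-- change of coordinates -/
theorem nx_change (t : k) (W : Submodule k Λ) : nx y (x + t • y) W = nx x y W := by
  apply le_antisymm
  · rw [nx_le]
    refine ⟨le_nx W, fun n hn => ⟨y_mem_nx hn, ?_⟩⟩
    have : (x + t • y) * n = x * n + t • (y * n) := by
      rw [add_mul, smul_mul_assoc]
    rw [this]
    exact add_mem (x_mem_nx hn) (Submodule.smul_mem _ _ (y_mem_nx hn))
  · rw [nx_le]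
    refine ⟨le_nx W, fun n hn => ⟨?_, x_mem_nx hn⟩⟩
    have : x * n = (x + t • y) * n - t • (y * n) := by
      rw [add_mul, smul_mul_assoc]; ring
    rw [this]
    exact sub_mem (y_mem_nx hn) (Submodule.smul_mem _ _ (x_mem_nx hn))

theorem pv_change (t : k) (W : Submodule k Λ) : pv y (x + t • y) W = pv x y W := by
  apply le_antisymm
  · rw [le_pv_iff, ← nx_change t]
    exact nx_pv_le W
  · rw [le_pv_iff, nx_change t]
    exact nx_pv_le W

theorem AffSys.change (S : AffSys x y h a b c E) (t : k) : AffSys y (x + t • y) h a b c E where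
  ha := S.ha
  hab := S.hab
  hbc := S.hbc
  E1 := S.E1
  Es m := by rw [nx_change]; exact S.Es m
  dE := S.dE
  soc m n hm h1 h2 h3 := by
    apply S.soc m n hm h1 _ h2
    have : x * n = (x + t • y) * n - t • (y * n) := by
      rw [add_mul, smul_mul_assoc]; ring
    rw [this]
    exact sub_mem h3 (Submodule.smul_mem _ _ h2)
  hE := S.hE
  hu := S.hu

end Run7.H941
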