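import Pool.Agent.Run7.h941.Koszul

/-!
Monomials of degree `m` in three variables are encoded by pairs `(i,j)` with `i + j ≤ m`.
-/

set_option autoImplicit false

open MvPolynomial Module

namespace Run7.H941

variable {k : Type*} [Field k]

/-- Pairs `(i,j)` with `i + j ≤ m`. -/
def T (m : ℕ) : Finset (ℕ × ℕ) :=
  (Finset.range (m + 1) ×ˢ Finset.range (m + 1)).filter (fun p => p.1 + p.2 ≤ m)

theorem mem_T {m : ℕ} {p : ℕ × ℕ} : p ∈ T m ↔ p.1 + p.2 ≤ m := by
  simp only [T, Finset.mem_filter, Finset.mem_product, Finset.mem_range]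
  omega

/-- Pairs `(i,j)` with `i + j = m`. -/
def AD (m : ℕ) : Finset (ℕ × ℕ) := (T m).filter (fun p => p.1 + p.2 = m)

theorem mem_AD {m : ℕ} {p : ℕ × ℕ} : p ∈ AD m ↔ p.1 + p.2 = m := by
  simp only [AD, Finset.mem_filter, mem_T]
  omega

theorem card_AD (m : ℕ) : (AD m).card = m + 1 := by
  have h : (AD m) = (Finset.range (m + 1)).image (fun i => (i, m - i)) := by
    ext ⟨i, j⟩
    simp only [mem_AD, Finset.mem_image, Finset.mem_range, Prod.mk.injEq]
    constructor
    · intro h
      exact ⟨i, by omega, rfl, by omega⟩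
    · rintro ⟨a, ha, rfl, rfl⟩
      omega
  rw [h, Finset.card_image_of_injective, Finset.card_range]
  intro a b hab
  simpa using congrArg Prod.fst hab

theorem T_succ (m : ℕ) : T (m + 1) = T m ∪ AD (m + 1) := by
  ext p
  simp only [Finset.mem_union, mem_T, mem_AD]
  omega

theorem T_disj (m : ℕ) : Disjoint (T m) (AD (m + 1)) := by
  rw [Finset.disjoint_left]
  intro p hp hq
  rw [mem_T] at hp
  rw [mem_AD] at hq
  omega

theorem card_T_succ (m : ℕ) : (T (m + 1)).card = (T m).card + (m + 2) := by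
  rw [T_succ, Finset.card_union_of_disjoint (T_disj m), card_AD]

theorem two_card_T (m : ℕ) : 2 * (T m).card = (m + 1) * (m + 2) := by
  induction m with
  | zero =>
    have : T 0 = {(0, 0)} := by
      ext ⟨i, j⟩
      simp only [mem_T, Finset.mem_singleton, Prod.mk.injEq]
      omega
    rw [this]; simp
  | succ m ih =>
    rw [card_T_succ]
    nlinarith [ih]

/-- The exponent vector `(i, j, l)`. -/
noncomputable def ex (i j l : ℕ) : Fin 3 →₀ ℕ :=
  Finsupp.single 0 i + Finsupp.single 1 j + Finsupp.single 2 l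

@[simp] theorem ex_zero (i j l : ℕ) : ex i j l 0 = i := by simp [ex]
@[simp] theorem ex_one (i j l : ℕ) : ex i j l 1 = j := by simp [ex]
@[simp] theorem ex_two (i j l : ℕ) : ex i j l 2 = l := by simp [ex]

theorem ex_eta (u : Fin 3 →₀ ℕ) : ex (u 0) (u 1) (u 2) = u := by
  ext i
  fin_cases i <;> simp

theorem ex_inj {i j l i' j' l' : ℕ} : ex i j l = ex i' j' l' ↔ i = i' ∧ j = j' ∧ l = l' := by
  constructor
  · intro h
    refine ⟨?_, ?_, ?_⟩
    · simpa using DFunLike.congr_fun h 0
    · simpa using DFunLike.congr_fun h 1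
    · simpa using DFunLike.congr_fun h 2
  · rintro ⟨rfl, rfl, rfl⟩
    rfl

theorem degree_eq (u : Fin 3 →₀ ℕ) : u.degree = u 0 + u 1 + u 2 := by
  rw [Finsupp.degree_eq_sum, Fin.sum_univ_three]

@[simp] theorem degree_ex (i j l : ℕ) : (ex i j l).degree = i + j + l := by
  rw [degree_eq]; simp

/-- Encoding of a pair as an exponent vector of degree `m`. -/
noncomputable def enc (m : ℕ) (p : ℕ × ℕ) : Fin 3 →₀ ℕ := ex p.1 p.2 (m - p.1 - p.2)

theorem enc_inj {m : ℕ} {p q : ℕ × ℕ} (h : enc m p = enc m q) : p = q := by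
  unfold enc at h
  rw [ex_inj] at h
  exact Prod.ext h.1 h.2.1

theorem enc_image_T (m : ℕ) : enc m '' (T m : Set (ℕ × ℕ)) = {d | d.degree = m} := by
  ext u
  simp only [Set.mem_image, Finset.mem_coe, Set.mem_setOf_eq]
  constructor
  · rintro ⟨p, hp, rfl⟩
    rw [mem_T] at hp
    simp only [enc, degree_ex]
    omega
  · intro h
    rw [degree_eq] at h
    refine ⟨(u 0, u 1), ?_, ?_⟩
    · rw [mem_T]; simp only; omega
    · simp only [enc]
      rw [← ex_eta u]
      simp only [ex_zero, ex_one, ex_two]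
      congr 1
      omega

/-- The homogeneous polynomials of degree `m`. -/
noncomputable abbrev Sd (k : Type*) [Field k] (m : ℕ) : Submodule k (P3 k) :=
  homogeneousSubmodule (Fin 3) k m

theorem Sd_eq (m : ℕ) : Sd k m = restrictSupport k {d | d.degree = m} :=
  homogeneousSubmodule_eq_finsupp_supported _ _ _

theorem finrank_restrictSupport (s : Set (Fin 3 →₀ ℕ)) :
    finrank k (restrictSupport k s) = s.ncard := by
  rw [Module.finrank_eq_nat_card_basis (basisRestrictSupport k s)]
  rfl

/-- Span of the degree `m` monomials encoded by `Q`. -/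
noncomputable def MS (k : Type*) [Field k] (m : ℕ) (Q : Finset (ℕ × ℕ)) : Submodule k (P3 k) :=
  restrictSupport k (enc m '' (Q : Set (ℕ × ℕ)))

theorem finrank_MS (m : ℕ) (Q : Finset (ℕ × ℕ)) :
    finrank k (MS k m Q) = Q.card := by
  unfold MS
  rw [finrank_restrictSupport, Set.ncard_image_of_injective _ (fun a b h => enc_inj h),
    Set.ncard_coe_finset]

theorem Sd_eq_MS (m : ℕ) : Sd k m = MS k m (T m) := by
  rw [Sd_eq, MS, enc_image_T]

theorem finrank_Sd (m : ℕ) : finrank k (Sd k m) = (T m).card := by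
  rw [Sd_eq_MS, finrank_MS]

instance MS_finite (m : ℕ) (Q : Finset (ℕ × ℕ)) : FiniteDimensional k (MS k m Q) := by
  have : Finite (enc m '' (Q : Set (ℕ × ℕ))) := (Q.finite_toSet.image _).to_subtype
  exact Module.Finite.of_basis (basisRestrictSupport k (enc m '' (Q : Set (ℕ × ℕ))))

instance Sd_finite (m : ℕ) : FiniteDimensional k (Sd k m) := by
  rw [Sd_eq_MS]
  infer_instance

theorem finite_of_le {m : ℕ} {V : Submodule k (P3 k)} (h : V ≤ Sd k m) :
    FiniteDimensional k V :=
  Submodule.finiteDimensional_of_le h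

theorem mem_MS {m : ℕ} {Q : Finset (ℕ × ℕ)} {p : P3 k} :
    p ∈ MS k m Q ↔ ∀ u ∈ p.support, ∃ q ∈ Q, enc m q = u := by
  unfold MS
  rw [mem_restrictSupport_iff]
  constructor
  · intro h u hu
    obtain ⟨q, hq, rfl⟩ := h hu
    exact ⟨q, hq, rfl⟩
  · intro h u hu
    obtain ⟨q, hq, rfl⟩ := h u hu
    exact ⟨q, hq, rfl⟩

theorem up_le_Sd {m : ℕ} {V : Submodule k (P3 k)} (h : V ≤ Sd k m) : up V ≤ Sd k (m + 1) := by
  rw [up_le_iff]
  intro p hp i
  have h1 : (p : P3 k).IsHomogeneous m := h hp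
  have h2 := (isHomogeneous_X k i).mul h1
  rw [add_comm] at h2
  exact h2

theorem up_Sd (m : ℕ) : up (Sd k m) = Sd k (m + 1) := by
  apply le_antisymm (up_le_Sd le_rfl)
  rw [Sd_eq (m + 1), restrictSupport_eq_span, Submodule.span_le]
  rintro _ ⟨u, hu, rfl⟩
  simp only [Set.mem_setOf_eq] at hu
  rw [degree_eq] at hu
  have key : ∃ i : Fin 3, 0 < u i := by
    by_contra hcon
    push_neg at hcon
    have h0 := hcon 0
    have h1 := hcon 1
    have h2 := hcon 2
    omega
  obtain ⟨i, hi⟩ := key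
  have hu' : u = Finsupp.single i 1 + (u - Finsupp.single i 1) := by
    ext j
    simp only [Finsupp.add_apply, Finsupp.tsub_apply]
    by_cases hij : i = j
    · subst hij; simp; omega
    · simp [Finsupp.single_apply, hij]
  have hmono : (monomial u (1 : k)) = X i * monomial (u - Finsupp.single i 1) (1 : k) := by
    conv_lhs => rw [hu']
    rw [X, monomial_mul, one_mul]
  change monomial u (1 : k) ∈ up (Sd k m)
  rw [hmono]
  apply mul_mem_up
  rw [mem_homogeneousSubmodule]
  apply isHomogeneous_monomial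
  have : (Finsupp.single i 1 + (u - Finsupp.single i 1)).degree = m + 1 := by
    rw [← hu', degree_eq]; exact hu
  rw [map_add] at this
  simp at this
  omega

end Run7.H941
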