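import Pool.Agent.Run7.h941.NFull

/-!
From the growth inequality to the lex-plus-powers ideal.
-/

set_option autoImplicit false

namespace Run7.H941.N

open MvPolynomial Module
open H503R3.QCI (gr mem_gr NZD Reg Homog homog_span)

variable {K : Type*} [Field K] {n : ℕ}

/-- the monomial ideal of a set of exponents -/
noncomputable def MI (K : Type*) [Field K] (S : Set (Mo n)) : Ideal (MvPolynomial (Fin n) K) :=
  Ideal.span ((fun s => monomial s (1 : K)) '' (fs '' S))

/-- closed under multiplication by variables -/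
def UpC (S : Set (Mo n)) : Prop := ∀ v ∈ S, ∀ i, v + ee i ∈ S

theorem UpC.add {S : Set (Mo n)} (h : UpC S) : ∀ (k : ℕ) (w : Mo n), dg w = k → ∀ v ∈ S,
    v + w ∈ S := by
  intro k
  induction k with
  | zero =>
    intro w hw v hv
    have : w = 0 := by
      funext i
      have h1 : w i ≤ dg w := Finset.single_le_sum (f := w) (fun i _ => Nat.zero_le _)
        (Finset.mem_univ i)
      rw [Pi.zero_apply]
      omega
    rw [this, add_zero]
    exact hv
  | succ k ih =>
    intro w hw v hv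
    obtain ⟨i, hi⟩ := exists_lst (u := w) (by omega)
    have h1 : v + w = (v + (w - ee i)) + ee i := by
      rw [add_assoc, sub_add_ee hi.1]
    rw [h1]
    exact h _ (ih _ (by have := dg_sub_ee hi.1; omega) v hv) i

theorem UpC.le {S : Set (Mo n)} (h : UpC S) {u v : Mo n} (hv : v ∈ S) (huv : v ≤ u) : u ∈ S := by
  have h1 : u = v + (u - v) := by
    funext i
    rw [Pi.add_apply, Pi.sub_apply]
    have e1 : v i ≤ u i := huv i
    omega
  rw [h1]
  exact h.add _ _ rfl v hv

theorem mem_MI {S : Set (Mo n)} (h : UpC S) {p : MvPolynomial (Fin n) K} :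
    p ∈ MI K S ↔ ∀ u ∈ p.support, (⇑u : Mo n) ∈ S := by
  unfold MI
  rw [mem_ideal_span_monomial_image]
  apply forall₂_congr
  intro u _
  constructor
  · rintro ⟨_, ⟨v, hv, rfl⟩, hvu⟩
    exact h.le hv (fun i => hvu i)
  · intro hu
    exact ⟨fs (⇑u), ⟨_, hu, rfl⟩, by rw [fs_coe]⟩

theorem MI_union (S T : Set (Mo n)) : MI K S ⊔ MI K T = MI K (S ∪ T) := by
  unfold MI
  rw [Set.image_union, Set.image_union, Ideal.span_union]

theorem upC_ncap (c : Fin n → ℕ∞) : UpC {u : Mo n | ¬ Cap c u} := by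
  intro v hv i hc
  apply hv
  exact hc.mono (fun j => Nat.le_add_right _ _)

theorem PI_eq {r : ℕ} (hr : r ≤ n) (a : Fin r → ℕ) :
    PI K hr a = MI K {u : Mo n | ¬ Cap (capOf n a) u} := by
  ext p
  rw [mem_PI hr, mem_MI (upC_ncap _)]
  rfl

/-- a family of initial segments closed under shadows -/
structure LFam (c : Fin n → ℕ∞) (L : ℕ → Finset (Mo n)) : Prop where
  ini : ∀ e, Ini c e (L e)
  up : ∀ e, up c (L e) ⊆ L (e + 1)

/-- the largest lex set whose capped part is the given family -/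
def LS (c : Fin n → ℕ∞) (L : ℕ → Finset (Mo n)) : Set (Mo n) :=
  {v | ∀ u, Cap c u → dg u = dg v → toLex v ≤ toLex u → u ∈ L (dg v)}

theorem LS_lex {c : Fin n → ℕ∞} {L : ℕ → Finset (Mo n)} {u v : Mo n} (hd : dg u = dg v)
    (h : toLex v ≤ toLex u) (hv : v ∈ LS c L) : u ∈ LS c L := by
  intro w hw hdw huw
  rw [hd]
  exact hv w hw (by omega) (h.trans huw)

theorem LS_upC {c : Fin n → ℕ∞} {L : ℕ → Finset (Mo n)} (hL : LFam c L) : UpC (LS c L) := by
  intro v hv i u hu hd huv
  rw [dg_add_ee] at hd ⊢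
  obtain ⟨j, hj⟩ := exists_lst (u := u) (by omega)
  have h1 : toLex v < toLex u := lt_of_lt_of_le (lex_lt_add_ee v i) huv
  have h2 := lex_lst hj h1 (by omega)
  have h3 := hv (u - ee j) (hu.sub _) (by have := dg_sub_ee hj.1; omega) h2
  apply hL.up
  rw [mem_up]
  exact ⟨hu, _, h3, j, (sub_add_ee hj.1).symm⟩

theorem cap_mem_LS {c : Fin n → ℕ∞} {L : ℕ → Finset (Mo n)} (hL : LFam c L) {v : Mo n}
    (hv : Cap c v) : v ∈ LS c L ↔ v ∈ L (dg v) := by
  constructor
  · intro h
    exact h v hv rfl le_rfl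
  · intro h u hu hd huv
    exact (hL.ini _).ini v h u hu hd huv

theorem finrank_gr_MI {S : Set (Mo n)} (h : UpC S) {q : ℕ} {T : Finset (Mo n)}
    (hT : ∀ u, u ∈ T ↔ u ∈ S ∧ dg u = q) : finrank K (gr (MI K S) q) = T.card := by
  rw [gr_of_mono (s := {u | (⇑u : Mo n) ∈ S}) (fun p => mem_MI h) q]
  apply finrank_mono
  intro u
  rw [hT, Set.mem_ofPred_eq, Set.mem_ofPred_eq, degree_fs]
  rfl

theorem upC_union {S T : Set (Mo n)} (hS : UpC S) (hT : UpC T) : UpC (S ∪ T) := by
  rintro v (hv | hv) i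
  · exact Or.inl (hS v hv i)
  · exact Or.inr (hT v hv i)

theorem finrank_LS {r : ℕ} (hr : r ≤ n) {a : Fin r → ℕ} {L : ℕ → Finset (Mo n)}
    (hL : LFam (capOf n a) L) (q : ℕ) :
    finrank K (gr (MI K (LS (capOf n a) L) ⊔ PI K hr a) q) =
      (ncap (capOf n a) q).card + (L q).card := by
  classical
  rw [PI_eq, MI_union]
  have hdis : Disjoint (ncap (capOf n a) q) (L q) := by
    rw [Finset.disjoint_left]
    intro u hu hu2
    exact (mem_ncap.mp hu).2 ((hL.ini q).cap u hu2)
  rw [← Finset.card_union_of_disjoint hdis]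
  apply finrank_gr_MI (upC_union (LS_upC hL) (upC_ncap _))
  intro u
  rw [Finset.mem_union, mem_ncap]
  constructor
  · rintro (⟨h1, h2⟩ | h)
    · exact ⟨Or.inr h2, h1⟩
    · have hd := (hL.ini q).deg u h
      refine ⟨Or.inl ?_, hd⟩
      rw [cap_mem_LS hL ((hL.ini q).cap u h), hd]
      exact h
  · rintro ⟨h | h, hd⟩
    · by_cases hc : Cap (capOf n a) u
      · right
        rw [cap_mem_LS hL hc, hd] at h
        exact h
      · exact Or.inl ⟨hd, hc⟩
    · exact Or.inl ⟨hd, h⟩

/-- the lex-plus-powers ideal with the Hilbert function of `I` -/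
theorem exists_lex {r : ℕ} (hr : r ≤ n) {a : Fin r → ℕ} {f : Fin r → MvPolynomial (Fin n) K}
    (hf : ∀ i, (f i).IsHomogeneous (a i)) (hreg : Reg f)
    (hG : Growth (Ideal.span (Set.range f)) (capOf n a))
    {I : Ideal (MvPolynomial (Fin n) K)} (hfI : ∀ i, f i ∈ I) :
    ∃ L, LFam (capOf n a) L ∧ ∀ e, finrank K (gr (MI K (LS (capOf n a) L) ⊔ PI K hr a) e) =
      finrank K (gr I e) := by
  classical
  set J := Ideal.span (Set.range f) with hJ
  have hJI : J ≤ I := by
    rw [hJ, Ideal.span_le]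
    rintro _ ⟨i, rfl⟩
    exact hfI i
  have hle : ∀ e, gr J e ≤ gr I e := fun e x hx => mem_gr.mpr ⟨hJI (mem_gr.mp hx).1,
    (mem_gr.mp hx).2⟩
  have hH := finrank_hom_eq hr hf hreg
  have hfin : ∀ e, finrank K (gr J e) ≤ finrank K (gr I e) := fun e =>
    Submodule.finrank_mono (hle e)
  have hex : ∀ e, ∃ L, Ini (capOf n a) e L ∧
      L.card = finrank K (gr I e) - finrank K (gr J e) := by
    intro e
    apply exists_ini
    have h1 : finrank K (gr I e) ≤ finrank K (homogeneousSubmodule (Fin n) K e) :=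
      finrank_le_hom inf_le_right
    have := hH e
    rw [← hJ] at this
    omega
  choose L hL1 hL2 using hex
  have hfam : LFam (capOf n a) L := by
    refine ⟨hL1, fun e => ?_⟩
    apply (hL1 e).up.subset_of_card (hL1 (e + 1))
    have hp : Pair J e (gr I e) (gr I (e + 1)) := by
      refine ⟨inf_le_right, inf_le_right, ?_, hle e, hle (e + 1)⟩
      intro p hp i
      obtain ⟨h1, h2⟩ := mem_gr.mp hp
      refine mem_gr.mpr ⟨I.mul_mem_left _ h1, ?_⟩
      have := (isHomogeneous_X K i).mul h2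
      rwa [add_comm] at this
    have := hG e _ _ hp (L e) (hL1 e) (by have := hfin e; have := hL2 e; omega)
    have := hL2 (e + 1)
    omega
  refine ⟨L, hfam, fun e => ?_⟩
  rw [finrank_LS hr hfam, hL2, ← finrank_gr hr hf hreg e]
  have := hfin e
  rw [← hJ]
  omega

end Run7.H941.N
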