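import Pool.Agent.Run7.h941.NHilb
import Pool.Agent.TH130.CI.Cb

/-!
Change of coordinates, extension of the base field, and the step from `n` to `n + 1` variables.
-/

set_option autoImplicit false

namespace Run7.H941.N

open MvPolynomial Module
open H503R3.QCI (gr mem_gr NZD Reg Homog homog_span)
open Pool.Agent.W515.SLP (lin)

variable {K : Type*} [Field K] {n : ℕ}

theorem Pair.lin_mul {J : Ideal (MvPolynomial (Fin n) K)} {q : ℕ}
    {V U : Submodule K (MvPolynomial (Fin n) K)} (h : Pair J q V U)
    {l : MvPolynomial (Fin n) K} (hl : l.IsHomogeneous 1) {p : MvPolynomial (Fin n) K}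
    (hp : p ∈ V) : l * p ∈ U := by
  obtain ⟨c, rfl⟩ := TH130CI.exists_linL hl
  change (∑ i, C (c i) * X i) * p ∈ U
  rw [Finset.sum_mul]
  apply Submodule.sum_mem
  intro i _
  have h1 : C (c i) * X i * p = c i • (X i * p) := by
    rw [smul_eq_C_mul]; ring
  rw [h1]
  exact U.smul_mem _ (h.hx p hp i)

/-- the growth property is invariant under graded automorphisms -/
theorem growth_of_equiv (φ : MvPolynomial (Fin n) K ≃ₐ[K] MvPolynomial (Fin n) K)
    (h1 : ∀ m (p : MvPolynomial (Fin n) K), p.IsHomogeneous m → (φ p).IsHomogeneous m)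
    (h2 : ∀ m (p : MvPolynomial (Fin n) K), p.IsHomogeneous m → (φ.symm p).IsHomogeneous m)
    {J : Ideal (MvPolynomial (Fin n) K)} {c : Fin n → ℕ∞}
    (hG : Growth (J.map φ) c) :
    Growth J c := by
  have hgr : ∀ q, gr (J.map φ) q =
      (gr J q).map φ.toLinearMap := by
    intro q
    ext y
    rw [mem_gr, Submodule.mem_map]
    constructor
    · rintro ⟨hy1, hy2⟩
      rw [Ideal.mem_map_iff_of_surjective _ φ.surjective] at hy1
      obtain ⟨x, hx, rfl⟩ := hy1
      refine ⟨x, mem_gr.mpr ⟨hx, ?_⟩, rfl⟩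
      have := h2 q _ hy2
      change (φ.symm (φ x)).IsHomogeneous q at this
      rwa [φ.symm_apply_apply] at this
    · rintro ⟨x, hx, rfl⟩
      obtain ⟨hx1, hx2⟩ := mem_gr.mp hx
      exact ⟨Ideal.mem_map_of_mem _ hx1, h1 q x hx2⟩
  intro q V U h L hL hc
  have hp : Pair (J.map φ) q
      (V.map φ.toLinearMap) (U.map φ.toLinearMap) := by
    refine ⟨?_, ?_, ?_, ?_, ?_⟩
    · rintro _ ⟨p, hpp, rfl⟩
      exact h1 q p (h.hV hpp)
    · rintro _ ⟨p, hpp, rfl⟩
      exact h1 (q + 1) p (h.hU hpp)
    · rintro _ ⟨p, hpp, rfl⟩ i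
      refine ⟨φ.symm (X i) * p, h.lin_mul (h2 1 _ (isHomogeneous_X K i)) hpp, ?_⟩
      change φ (φ.symm (X i) * p) = X i * φ p
      rw [map_mul, φ.apply_symm_apply]
    · rw [hgr]; exact Submodule.map_mono h.hJV
    · rw [hgr]; exact Submodule.map_mono h.hJU
  have f1 : ∀ W : Submodule K (MvPolynomial (Fin n) K),
      finrank K (W.map φ.toLinearMap) = finrank K W :=
    fun W => LinearEquiv.finrank_map_eq φ.toLinearEquiv W
  have := hG q _ _ hp L hL (by rw [hgr, f1, f1]; exact hc)
  rw [hgr, f1, f1] at this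
  exact this

/-! ### moving a linear form to the first variable -/

noncomputable def gz (c : Fin (n + 1) → K) : Fin (n + 1) → MvPolynomial (Fin (n + 1)) K :=
  Fin.cons (C (c 0)⁻¹ * (X 0 - ∑ i : Fin n, C (c i.succ) * X i.succ)) (fun i => X i.succ)

noncomputable def gz' (c : Fin (n + 1) → K) : Fin (n + 1) → MvPolynomial (Fin (n + 1)) K :=
  Fin.cons (lin c) (fun i => X i.succ)

theorem lin_succ (c : Fin (n + 1) → K) :
    (lin c : MvPolynomial (Fin (n + 1)) K) = C (c 0) * X 0 + ∑ i : Fin n, C (c i.succ) * X i.succ := by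
  unfold lin
  rw [Fin.sum_univ_succ]

theorem gz_lin {c : Fin (n + 1) → K} (h : c 0 ≠ 0) :
    aeval (gz c) (lin c) = (X 0 : MvPolynomial (Fin (n + 1)) K) := by
  rw [lin_succ, map_add, map_mul, map_sum, aeval_X]
  simp only [map_mul, aeval_X, gz, Fin.cons_zero, Fin.cons_succ, algHom_C, algebraMap_eq]
  rw [← mul_assoc, ← C_mul, mul_inv_cancel₀ h, C_1, one_mul, sub_add_cancel]

noncomputable def phz {c : Fin (n + 1) → K} (h : c 0 ≠ 0) :
    MvPolynomial (Fin (n + 1)) K ≃ₐ[K] MvPolynomial (Fin (n + 1)) K :=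
  AlgEquiv.ofAlgHom (aeval (gz c)) (aeval (gz' c))
    (by
      apply MvPolynomial.algHom_ext
      intro i
      rw [AlgHom.comp_apply, aeval_X, AlgHom.id_apply]
      refine Fin.cases ?_ (fun j => ?_) i
      · unfold gz'
        rw [Fin.cons_zero]
        exact gz_lin h
      · unfold gz'
        rw [Fin.cons_succ, aeval_X]
        unfold gz
        rw [Fin.cons_succ])
    (by
      apply MvPolynomial.algHom_ext
      intro i
      rw [AlgHom.comp_apply, aeval_X, AlgHom.id_apply]
      refine Fin.cases ?_ (fun j => ?_) i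
      · unfold gz
        rw [Fin.cons_zero, map_mul, map_sub, map_sum, aeval_X]
        simp only [map_mul, aeval_X, gz', Fin.cons_zero, Fin.cons_succ, algHom_C, algebraMap_eq]
        rw [lin_succ, add_sub_cancel_right, ← mul_assoc, ← C_mul, inv_mul_cancel₀ h, C_1, one_mul]
      · unfold gz
        rw [Fin.cons_succ, aeval_X]
        unfold gz'
        rw [Fin.cons_succ])

theorem phz_lin {c : Fin (n + 1) → K} (h : c 0 ≠ 0) : phz h (lin c) = X 0 := gz_lin h

theorem phz_hom {c : Fin (n + 1) → K} (h : c 0 ≠ 0) (m : ℕ) (p : MvPolynomial (Fin (n + 1)) K)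
    (hp : p.IsHomogeneous m) : (phz h p).IsHomogeneous m := by
  have h1 : ∀ i, (gz c i).IsHomogeneous 1 := by
    intro i
    refine Fin.cases ?_ (fun j => ?_) i
    · unfold gz
      rw [Fin.cons_zero]
      have h2 : (X 0 - ∑ i : Fin n, C (c i.succ) * X i.succ :
          MvPolynomial (Fin (n + 1)) K).IsHomogeneous 1 := by
        apply (isHomogeneous_X K _).sub
        apply IsHomogeneous.sum
        intro i _
        exact isHomogeneous_C_mul_X _ _
      have := (isHomogeneous_C (Fin (n + 1)) (c 0)⁻¹).mul h2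
      simpa using this
    · unfold gz
      rw [Fin.cons_succ]
      exact isHomogeneous_X K _
  have := hp.aeval (gz c) h1
  rw [one_mul] at this
  exact this

theorem phz_symm_hom {c : Fin (n + 1) → K} (h : c 0 ≠ 0) (m : ℕ)
    (p : MvPolynomial (Fin (n + 1)) K) (hp : p.IsHomogeneous m) :
    ((phz h).symm p).IsHomogeneous m := by
  have h1 : ∀ i, (gz' c i).IsHomogeneous 1 := by
    intro i
    refine Fin.cases ?_ (fun j => ?_) i
    · unfold gz'
      rw [Fin.cons_zero]
      exact TH130CI.linL_homog c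
    · unfold gz'
      rw [Fin.cons_succ]
      exact isHomogeneous_X K _
  have := hp.aeval (gz' c) h1
  rw [one_mul] at this
  exact this

theorem nzd_equiv (φ : MvPolynomial (Fin n) K ≃ₐ[K] MvPolynomial (Fin n) K)
    {J : Ideal (MvPolynomial (Fin n) K)} {g : MvPolynomial (Fin n) K} (h : NZD J g) :
    NZD (J.map φ) (φ g) := by
  intro p hp
  obtain ⟨x, rfl⟩ := φ.surjective p
  rw [← map_mul] at hp
  have key : ∀ y, φ y ∈ J.map φ ↔ y ∈ J := by
    intro y
    rw [Ideal.mem_map_iff_of_surjective _ φ.surjective]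
    constructor
    · rintro ⟨z, hz, hzy⟩
      rw [← φ.injective hzy]
      exact hz
    · intro hy
      exact ⟨y, hy, rfl⟩
  rw [key] at hp ⊢
  exact h x hp

/-! ### extension of the base field -/

section bc

variable {L : Type*} [Field L] [Algebra K L]

/-- extension of scalars on subspaces -/
noncomputable def bc (L : Type*) [Field L] [Algebra K L]
    (V : Submodule K (MvPolynomial (Fin n) K)) : Submodule L (MvPolynomial (Fin n) L) :=
  Submodule.span L (map (algebraMap K L) '' (V : Set (MvPolynomial (Fin n) K)))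

theorem cf_smul_map (ψ : L →ₗ[K] K) (c : L) (v : MvPolynomial (Fin n) K) :
    TH130CI.cf ψ (c • map (algebraMap K L) v) = ψ c • v := by
  ext m
  rw [TH130CI.coeff_cf, coeff_smul, coeff_smul, coeff_map, smul_eq_mul, mul_comm,
    ← Algebra.smul_def, map_smul, smul_eq_mul, smul_eq_mul, mul_comm]

theorem cf_sum {ι : Type*} (ψ : L →ₗ[K] K) (s : Finset ι) (p : ι → MvPolynomial (Fin n) L) :
    TH130CI.cf ψ (∑ i ∈ s, p i) = ∑ i ∈ s, TH130CI.cf ψ (p i) := by
  classical
  induction s using Finset.induction_on with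
  | empty => simp [TH130CI.cf_zero]
  | insert a s ha ih => rw [Finset.sum_insert ha, Finset.sum_insert ha, TH130CI.cf_add, ih]

theorem mem_bc_of_cf {W : Submodule K (MvPolynomial (Fin n) K)} {p : MvPolynomial (Fin n) L}
    (h : ∀ ψ : L →ₗ[K] K, TH130CI.cf ψ p ∈ W) : p ∈ bc L W := by
  classical
  let e := Basis.ofVectorSpace K L
  let Λ := p.support.biUnion (fun m => (e.repr (coeff m p)).support)
  have hp : p = ∑ l ∈ Λ, (e l) • map (algebraMap K L) (TH130CI.cf (e.coord l) p) := by
    ext m
    rw [coeff_sum]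
    simp_rw [coeff_smul, coeff_map, TH130CI.coeff_cf]
    by_cases hm : m ∈ p.support
    · have h1 := e.linearCombination_repr (coeff m p)
      rw [Finsupp.linearCombination_apply, Finsupp.sum] at h1
      conv_lhs => rw [← h1]
      have hsub : (e.repr (coeff m p)).support ⊆ Λ := by
        intro l hl
        exact Finset.mem_biUnion.mpr ⟨m, hm, hl⟩
      rw [Finset.sum_subset hsub]
      · apply Finset.sum_congr rfl
        intro l _
        rw [Basis.coord_apply, smul_eq_mul, Algebra.smul_def, mul_comm]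
      · intro l _ hl
        rw [Finsupp.notMem_support_iff] at hl
        rw [hl, zero_smul]
    · rw [MvPolynomial.notMem_support_iff] at hm
      rw [hm]
      symm
      apply Finset.sum_eq_zero
      intro l _
      rw [map_zero, map_zero, smul_zero]
  rw [hp]
  apply Submodule.sum_mem
  intro l _
  apply Submodule.smul_mem
  exact Submodule.subset_span ⟨_, h _, rfl⟩

theorem finrank_bc (V : Submodule K (MvPolynomial (Fin n) K)) [FiniteDimensional K V] :
    finrank L (bc L V) = finrank K V := by
  classical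
  let b := Module.finBasis K V
  have hspan : bc L V = Submodule.span L
      (Set.range (fun i => map (algebraMap K L) (b i : MvPolynomial (Fin n) K))) := by
    apply le_antisymm
    · unfold bc
      rw [Submodule.span_le]
      rintro _ ⟨v, hv, rfl⟩
      have h1 := b.sum_repr ⟨v, hv⟩
      have h2 : v = ∑ i, (b.repr ⟨v, hv⟩ i) • (b i : MvPolynomial (Fin n) K) := by
        have := congrArg (fun z : V => (z : MvPolynomial (Fin n) K)) h1
        simp only [Submodule.coe_sum, Submodule.coe_smul] at this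
        exact this.symm
      rw [SetLike.mem_coe, h2, map_sum]
      apply Submodule.sum_mem
      intro i _
      rw [smul_eq_C_mul, map_mul]
      have h3 : map (algebraMap K L) (C (b.repr ⟨v, hv⟩ i) : MvPolynomial (Fin n) K) =
          C (algebraMap K L (b.repr ⟨v, hv⟩ i)) :=
        MvPolynomial.map_C _ _
      rw [h3, ← smul_eq_C_mul]
      apply Submodule.smul_mem
      exact Submodule.subset_span ⟨i, rfl⟩
    · rw [Submodule.span_le]
      rintro _ ⟨i, rfl⟩
      exact Submodule.subset_span ⟨_, (b i).2, rfl⟩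
  have hli : LinearIndependent L
      (fun i => map (algebraMap K L) (b i : MvPolynomial (Fin n) K)) := by
    rw [Fintype.linearIndependent_iff]
    intro c hc i
    rw [← Module.forall_dual_apply_eq_zero_iff K]
    intro ψ
    have h1 : TH130CI.cf ψ (∑ i, c i • map (algebraMap K L) (b i : MvPolynomial (Fin n) K)) = 0 := by
      rw [hc, TH130CI.cf_zero]
    rw [cf_sum] at h1
    simp_rw [cf_smul_map] at h1
    have h2 : ∑ i, ψ (c i) • b i = 0 := by
      apply Subtype.ext
      simp only [Submodule.coe_sum, Submodule.coe_smul, Submodule.coe_zero]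
      exact h1
    exact (Fintype.linearIndependent_iff.mp b.linearIndependent) (fun i => ψ (c i)) h2 i
  rw [hspan, finrank_span_eq_card hli, Fintype.card_fin]

theorem cf_hom (ψ : L →ₗ[K] K) {p : MvPolynomial (Fin n) L} {m : ℕ} (hp : p.IsHomogeneous m) :
    (TH130CI.cf ψ p).IsHomogeneous m := by
  intro d hd
  rw [TH130CI.coeff_cf] at hd
  apply hp
  intro h0
  rw [h0, map_zero] at hd
  exact hd rfl

theorem bc_hom {V : Submodule K (MvPolynomial (Fin n) K)} {m : ℕ}
    (h : V ≤ homogeneousSubmodule (Fin n) K m) :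
    bc L V ≤ homogeneousSubmodule (Fin n) L m := by
  unfold bc
  rw [Submodule.span_le]
  rintro _ ⟨p, hp, rfl⟩
  exact (show p.IsHomogeneous m from h hp).map _

/-- the growth property descends along field extensions -/
theorem growth_of_bc {J : Ideal (MvPolynomial (Fin n) K)} {c : Fin n → ℕ∞}
    (hG : Growth (J.map (map (algebraMap K L) :
      MvPolynomial (Fin n) K →+* MvPolynomial (Fin n) L)) c) : Growth J c := by
  have hle : ∀ q (W : Submodule K (MvPolynomial (Fin n) K)), gr J q ≤ W →
      gr (J.map (map (algebraMap K L) : MvPolynomial (Fin n) K →+* MvPolynomial (Fin n) L)) q ≤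
        bc L W := by
    intro q W hW p hp
    obtain ⟨h1, h2⟩ := mem_gr.mp hp
    apply mem_bc_of_cf
    intro ψ
    exact hW (mem_gr.mpr ⟨TH130CI.cf_mem h1 ψ, cf_hom ψ h2⟩)
  have hgr : ∀ q, gr (J.map (map (algebraMap K L) :
      MvPolynomial (Fin n) K →+* MvPolynomial (Fin n) L)) q = bc L (gr J q) := by
    intro q
    apply le_antisymm (hle q _ le_rfl)
    unfold bc
    rw [Submodule.span_le]
    rintro _ ⟨v, hv, rfl⟩
    obtain ⟨h1, h2⟩ := mem_gr.mp hv
    exact mem_gr.mpr ⟨Ideal.mem_map_of_mem _ h1, h2.map _⟩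
  intro q V U h M hM hc
  have fV : FiniteDimensional K V := Submodule.finiteDimensional_of_le h.hV
  have fU : FiniteDimensional K U := Submodule.finiteDimensional_of_le h.hU
  have hp : Pair (J.map (map (algebraMap K L) :
      MvPolynomial (Fin n) K →+* MvPolynomial (Fin n) L)) q (bc L V) (bc L U) := by
    refine ⟨bc_hom h.hV, bc_hom h.hU, ?_, hle q V h.hJV, hle (q + 1) U h.hJU⟩
    intro p hp i
    have hle2 : bc L V ≤ (bc L U).comap (LinearMap.mulLeft L (X i)) := by
      unfold bc
      rw [Submodule.span_le]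
      rintro _ ⟨v, hv, rfl⟩
      rw [SetLike.mem_coe, Submodule.mem_comap, LinearMap.mulLeft_apply,
        ← MvPolynomial.map_X (algebraMap K L) i, ← map_mul]
      exact Submodule.subset_span ⟨_, h.hx v hv i, rfl⟩
    exact hle2 hp
  have := hG q _ _ hp M hM (by rw [hgr, finrank_bc, finrank_bc]; exact hc)
  rw [hgr, finrank_bc, finrank_bc] at this
  exact this

end bc

universe u

/-- the growth form of the Eisenbud-Green-Harris conjecture for a degree sequence -/
def EGr (n : ℕ) {r : ℕ} (a : Fin r → ℕ) : Prop :=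
  ∀ (K : Type u) [Field K] (f : Fin r → MvPolynomial (Fin n) K),
    (∀ i, (f i).IsHomogeneous (a i)) → Reg f → Growth (Ideal.span (Set.range f)) (capOf n a)

theorem EGr.succ_inf {n r : ℕ} (hr : r ≤ n) {a : Fin r → ℕ} (ha : ∀ i, 1 ≤ a i)
    (h : EGr.{u} n a) (K : Type u) [Field K] [Infinite K]
    (f : Fin r → MvPolynomial (Fin (n + 1)) K) (hf : ∀ i, (f i).IsHomogeneous (a i))
    (hreg : Reg f) : Growth (Ideal.span (Set.range f)) (capOf (n + 1) a) := by
  classical
  set J := Ideal.span (Set.range f) with hJ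
  obtain ⟨c, hc, hc0⟩ := TH130CI.exists_lin_nzd_avoid (J := J)
    (fun w hw => TH130CI.no_socle (by omega : r < n + 1) _ f a hf ha
      (TH130CI.sreg_of_reg hf ha hreg) rfl w hw) {Pi.single 0 1}
    (by
      intro z hz
      rw [Finset.mem_singleton] at hz
      rw [hz]
      intro h0
      have := congrFun h0 0
      simp at this)
  have hc1 : c 0 ≠ 0 := by
    have h1 := hc0 (Pi.single 0 1) (Finset.mem_singleton_self _)
    intro h0
    apply h1
    change eval (Pi.single 0 1) (lin c) = 0
    rw [lin_succ, h0]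
    simp
  let φ := phz hc1
  -- transport
  apply growth_of_equiv φ (phz_hom hc1) (phz_symm_hom hc1)
  have hz : NZD (J.map φ) (X 0) := by
    have := nzd_equiv φ hc
    change NZD _ (φ (lin c)) at this
    rw [show φ (lin c) = X 0 from phz_lin hc1] at this
    exact this
  have hJmap : J.map φ =
      Ideal.span (Set.range fun i => φ (f i)) := by
    rw [hJ, Ideal.map_span, ← Set.range_comp]
    rfl
  have hf' : ∀ i, (φ (f i)).IsHomogeneous (a i) := fun i => phz_hom hc1 _ _ (hf i)
  have hreg' : Reg (fun i => φ (f i)) := by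
    intro i
    have h1 := nzd_equiv φ (hreg i)
    rw [Ideal.map_span, ← Set.image_comp] at h1
    exact h1
  rw [hJmap] at hz ⊢
  have hJ2 : (Ideal.span (Set.range fun i => φ (f i))).map pi0 =
      Ideal.span (Set.range fun i => pi0 (φ (f i))) := by
    rw [Ideal.map_span, ← Set.range_comp]
    rfl
  have hreg2 := reg_pi0 hf' ha hreg' hz
  have hf2 : ∀ i, (pi0 (φ (f i))).IsHomogeneous (a i) := fun i => pi0_hom (hf' i)
  rw [capOf_succ hr]
  apply growth_of_X0 _ hz
  · rw [hJ2]
    exact h K _ hf2 hreg2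
  · intro q
    rw [hJ2]
    exact finrank_hom_eq hr hf2 hreg2 q
  · exact homog_span (by rintro _ ⟨j, rfl⟩; exact ⟨a j, hf' j⟩)

/-- one more variable -/
theorem EGr.succ {n r : ℕ} (hr : r ≤ n) {a : Fin r → ℕ} (ha : ∀ i, 1 ≤ a i)
    (h : EGr.{u} n a) : EGr.{u} (n + 1) a := by
  intro K _ f hf hreg
  have : Infinite (AlgebraicClosure K) := IsAlgClosed.instInfinite
  apply growth_of_bc (L := AlgebraicClosure K)
  have h1 := EGr.succ_inf hr ha h (AlgebraicClosure K)
    (fun i => map (algebraMap K (AlgebraicClosure K)) (f i)) (fun i => (hf i).map _)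
    (TH130CI.reg_map hreg)
  rw [Ideal.map_span, ← Set.range_comp]
  exact h1

end Run7.H941.N
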