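import Pool.Agent.Run7.h941.NDual

/-!
Combinatorics of the boundary case: segments in degrees `σ - 1` and `σ - 2`, where `σ` is the
socle degree of the first variables.
-/

set_option autoImplicit false

namespace Run7.H941.N

open Finset

variable {m : ℕ}

theorem eq_zero_of_dg {n : ℕ} {u : Mo n} (h : dg u = 0) : u = 0 := by
  funext i
  have h1 : u i ≤ dg u := Finset.single_le_sum (f := u) (fun i _ => Nat.zero_le _)
    (Finset.mem_univ i)
  rw [Pi.zero_apply]
  omega

theorem eq_ee_of_dg {n : ℕ} {u : Mo n} (h : dg u = 1) : ∃ i, u = ee i := by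
  obtain ⟨i, hi⟩ := exists_lst (u := u) (by omega)
  refine ⟨i, ?_⟩
  have h1 := dg_sub_ee hi.1
  have h2 : u - ee i = 0 := eq_zero_of_dg (by omega)
  rw [← sub_add_ee hi.1, h2, zero_add]

theorem card_mons_zero {n : ℕ} (c : Fin n → ℕ∞) : (mons c 0).card ≤ 1 := by
  classical
  have h : mons c 0 ⊆ {0} := by
    intro u hu
    rw [Finset.mem_singleton]
    exact eq_zero_of_dg (mem_mons.mp hu).2
  exact (Finset.card_le_card h).trans (by simp)

theorem card_mons_one {n : ℕ} (c : Fin n → ℕ∞) : (mons c 1).card ≤ n := by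
  classical
  have h : mons c 1 ⊆ (univ : Finset (Fin n)).image ee := by
    intro u hu
    obtain ⟨i, rfl⟩ := eq_ee_of_dg (mem_mons.mp hu).2
    exact Finset.mem_image_of_mem _ (Finset.mem_univ i)
  calc (mons c 1).card ≤ _ := Finset.card_le_card h
    _ ≤ _ := Finset.card_image_le
    _ = n := by simp

/-- peeling off the uncapped last variable -/
theorem card_mons_succ (c : Fin m → ℕ∞) (p : ℕ) :
    (mons (Fin.snoc c ⊤ : Fin (m + 1) → ℕ∞) (p + 1)).card ≤
      (mons (Fin.snoc c ⊤ : Fin (m + 1) → ℕ∞) p).card + (mons c (p + 1)).card := by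
  classical
  have hsub : mons (Fin.snoc c ⊤ : Fin (m + 1) → ℕ∞) (p + 1) ⊆
      (mons (Fin.snoc c ⊤ : Fin (m + 1) → ℕ∞) p).image (fun u => u + ee (Fin.last m)) ∪
        (mons c (p + 1)).image (fun u => (Fin.snoc u 0 : Mo (m + 1))) := by
    intro u hu
    obtain ⟨h1, h2⟩ := mem_mons.mp hu
    rw [Finset.mem_union, Finset.mem_image, Finset.mem_image]
    by_cases h0 : u (Fin.last m) = 0
    · right
      have hu' : u = Fin.snoc (Fin.init u) 0 := by rw [← h0, Fin.snoc_init_self]
      refine ⟨Fin.init u, ?_, hu'.symm⟩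
      rw [hu', cap_snoc] at h1
      rw [hu', dg_snoc] at h2
      exact mem_mons.mpr ⟨by simpa using h1.1, by simpa using h2⟩
    · left
      refine ⟨u - ee (Fin.last m), ?_, sub_add_ee (by omega)⟩
      rw [mem_mons]
      refine ⟨h1.sub _, ?_⟩
      have := dg_sub_ee (u := u) (i := Fin.last m) (by omega)
      omega
  calc _ ≤ _ := Finset.card_le_card hsub
    _ ≤ _ := Finset.card_union_le _ _
    _ ≤ _ := Nat.add_le_add Finset.card_image_le Finset.card_image_le

/-- the top of the box -/
def bm (b : Fin m → ℕ) : Mo m := fun i => b i - 1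

theorem boxCap_full {a : Fin m → ℕ} (ha : ∀ i, 1 ≤ a i) : BoxCap (capOf m a) (bm a) := by
  intro u
  unfold Cap capOf
  constructor
  · intro h1 i
    have h2 := h1 i
    rw [dif_pos i.2] at h2
    have h3 : u i < a i := by exact_mod_cast h2
    change u i ≤ a i - 1
    omega
  · intro h1 i
    rw [dif_pos i.2]
    have h2 : u i ≤ a i - 1 := h1 i
    have := ha i
    exact_mod_cast (show u i < a i by omega)

theorem exists_between {n : ℕ} {B : Mo n} (d : ℕ) : ∀ u : Mo n, u ≤ B → dg u + d ≤ dg B →
    ∃ z, u ≤ z ∧ z ≤ B ∧ dg z = dg u + d := by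
  induction d with
  | zero => intro u hu _; exact ⟨u, le_rfl, hu, rfl⟩
  | succ d ih =>
    intro u hu hd
    have hex : ∃ i, u i < B i := by
      by_contra hcon
      push Not at hcon
      have : dg B ≤ dg u := Finset.sum_le_sum fun i _ => hcon i
      omega
    obtain ⟨i, hi⟩ := hex
    have h1 : u + ee i ≤ B := by
      intro j
      change u j + ee i j ≤ B j
      by_cases hj : j = i
      · subst hj; rw [ee_self]; omega
      · rw [ee_ne hj]; exact hu j
    obtain ⟨z, hz1, hz2, hz3⟩ := ih (u + ee i) h1 (by rw [dg_add_ee]; omega)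
    refine ⟨z, fun j => ?_, hz2, by rw [hz3, dg_add_ee]; omega⟩
    have h2 : u j + ee i j ≤ z j := hz1 j
    change u j ≤ z j
    omega

/-- image of a segment under multiplication by the last variable -/
theorem image_last_subset {c : Fin m → ℕ∞} {p : ℕ} {D : Finset (Mo (m + 1))}
    (hD : Ini (Fin.snoc c ⊤) p D) :
    D.image (fun u => u + ee (Fin.last m)) ⊆ up (Fin.snoc c ⊤) D := by
  intro v hv
  obtain ⟨u, hu, rfl⟩ := Finset.mem_image.mp hv
  rw [mem_up]
  refine ⟨?_, u, hu, Fin.last m, rfl⟩
  intro i
  refine Fin.lastCases ?_ (fun j => ?_) i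
  · rw [Fin.snoc_last]; simp
  · have h1 := hD.cap u hu (Fin.castSucc j)
    have h2 : (u + ee (Fin.last m)) (Fin.castSucc j) = u (Fin.castSucc j) := by
      rw [Pi.add_apply, ee_ne (ne_of_lt (Fin.castSucc_lt_last j)), add_zero]
    rw [h2]
    exact h1

theorem card_up_ge_of_zero {c : Fin m → ℕ∞} {p : ℕ} {D : Finset (Mo (m + 1))}
    (hD : Ini (Fin.snoc c ⊤) p D) (S : Finset (Mo m))
    (hS : ∀ v ∈ S, (Fin.snoc v 0 : Mo (m + 1)) ∈ up (Fin.snoc c ⊤) D) :
    D.card + S.card ≤ (up (Fin.snoc c ⊤) D).card := by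
  classical
  have h1 := image_last_subset hD
  have hinj1 : (D.image (fun u => u + ee (Fin.last m))).card = D.card :=
    Finset.card_image_of_injective _ (fun a b hab => add_right_cancel hab)
  have hinj2 : (S.image (fun v => (Fin.snoc v 0 : Mo (m + 1)))).card = S.card := by
    apply Finset.card_image_of_injective
    intro a b hab
    have := congrArg Fin.init hab
    simpa using this
  rw [← hinj1, ← hinj2, ← Finset.card_union_of_disjoint]
  · apply Finset.card_le_card
    apply Finset.union_subset h1
    intro v hv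
    obtain ⟨u, hu, rfl⟩ := Finset.mem_image.mp hv
    exact hS u hu
  · rw [Finset.disjoint_left]
    intro v hv hv2
    obtain ⟨u, _, rfl⟩ := Finset.mem_image.mp hv
    obtain ⟨w, _, hw⟩ := Finset.mem_image.mp hv2
    have h2 := congrFun hw (Fin.last m)
    rw [Fin.snoc_last, Pi.add_apply, ee_self] at h2
    omega

/-- nonempty segments grow by at least one more -/
theorem card_up_succ {b : Fin m → ℕ} (hb : ∀ i, 1 ≤ b i) {p : ℕ} (hp : p < dg (bm b))
    {D : Finset (Mo (m + 1))} (hD : Ini (Fin.snoc (capOf m b) ⊤) p D) (hne : D.Nonempty) :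
    D.card + 1 ≤ (up (Fin.snoc (capOf m b) ⊤) D).card := by
  classical
  obtain ⟨u, hu⟩ := hne
  have hbox := boxCap_full hb
  have hcu := hD.cap u hu
  have hdu := hD.deg u hu
  rw [← Fin.snoc_init_self u, cap_snoc] at hcu
  rw [← Fin.snoc_init_self u, dg_snoc] at hdu
  have hle : Fin.init u ≤ bm b := (hbox _).mp (by simpa using hcu.1)
  have hdu' : dg (Fin.init u) + u (Fin.last m) = p := by simpa using hdu
  obtain ⟨z, hz1, hz2, hz3⟩ := exists_between (B := bm b) (u (Fin.last m)) (Fin.init u) hle
    (by omega)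
  have hzD : (Fin.snoc z 0 : Mo (m + 1)) ∈ D := by
    apply hD.ini u hu
    · rw [cap_snoc]; exact ⟨(hbox z).mpr hz2, by simp⟩
    · rw [dg_snoc]; omega
    · rcases eq_or_ne (Fin.init u) z with h | h
      · have h0 : u (Fin.last m) = 0 := by
          have := congrArg dg h
          omega
        apply le_of_eq
        congr 1
        rw [← h, ← h0, Fin.snoc_init_self]
      · apply le_of_lt
        have h2 : toLex (Fin.init u) < toLex z := by
          rcases lt_trichotomy (toLex (Fin.init u)) (toLex z) with h3 | h3 | h3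
          · exact h3
          · exact absurd (toLex.injective h3) h
          · obtain ⟨i, _, h5⟩ := lex_lt_iff.mp h3
            have h6 : Fin.init u i ≤ z i := hz1 i
            omega
        conv_lhs => rw [← Fin.snoc_init_self u]
        exact lex_snoc_lt h2
  obtain ⟨y, hy1, hy2, hy3⟩ := exists_between (B := bm b) 1 z hz2 (by omega)
  have h4 := card_up_ge_of_zero hD {y} (by
    intro v hv
    rw [Finset.mem_singleton] at hv
    subst hv
    rw [mem_up]
    refine ⟨cap_snoc.mpr ⟨(hbox v).mpr hy2, by simp⟩, Fin.snoc z 0, hzD, ?_⟩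
    obtain ⟨i, hi⟩ := eq_ee_of_dg (u := v - z) (by
      have : v = z + (v - z) := by
        funext j
        have e1 : z j ≤ v j := hy1 j
        rw [Pi.add_apply, Pi.sub_apply]
        omega
      have h5 := congrArg dg this
      rw [dg_add] at h5
      omega)
    refine ⟨Fin.castSucc i, ?_⟩
    funext j
    refine Fin.lastCases ?_ (fun j => ?_) j
    · rw [Pi.add_apply, Fin.snoc_last, Fin.snoc_last,
        ee_ne (ne_of_gt (Fin.castSucc_lt_last i))]
    · rw [Pi.add_apply, Fin.snoc_castSucc, Fin.snoc_castSucc, ee_apply]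
      have e1 : z j ≤ v j := hy1 j
      have e2 := congrFun hi j
      rw [Pi.sub_apply, ee_apply] at e2
      simp only [Fin.castSucc_inj]
      omega)
  simpa using h4

/-! ### three special coordinates -/

variable {k : ℕ}

theorem dg_split (u : Mo (k + 3)) : dg u =
    (∑ i : Fin k, u (i.castSucc.castSucc.castSucc)) + u ((Fin.last k).castSucc.castSucc) +
      u ((Fin.last (k + 1)).castSucc) + u (Fin.last (k + 2)) := by
  unfold dg
  rw [Fin.sum_univ_castSucc, Fin.sum_univ_castSucc, Fin.sum_univ_castSucc]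

theorem dg_split' (u : Mo (k + 2)) : dg u =
    (∑ i : Fin k, u (i.castSucc.castSucc)) + u ((Fin.last k).castSucc) +
      u (Fin.last (k + 1)) := by
  unfold dg
  rw [Fin.sum_univ_castSucc, Fin.sum_univ_castSucc]

/-- segments which are not small grow by at least two more -/
theorem card_up_two {b : Fin (k + 2) → ℕ} (hb : ∀ i, 2 ≤ b i) {p : ℕ} (hp : p + 2 = dg (bm b))
    {D : Finset (Mo (k + 3))} (hD : Ini (Fin.snoc (capOf (k + 2) b) ⊤) p D)
    (hc : b (Fin.last (k + 1)) - 1 ≤ D.card) :
    D.card + 2 ≤ (up (Fin.snoc (capOf (k + 2) b) ⊤) D).card := by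
  classical
  have hb1 : ∀ i, 1 ≤ b i := fun i => by have := hb i; omega
  have hbox := boxCap_full hb1
  set i1 : Fin (k + 2) := (Fin.last k).castSucc with hi1
  set i2 : Fin (k + 2) := Fin.last (k + 1) with hi2
  have hne : i1 ≠ i2 := ne_of_lt (Fin.castSucc_lt_last _)
  have hB := dg_split' (bm b)
  have hv1 : bm b i1 = b i1 - 1 := rfl
  have hv2 : bm b i2 = b i2 - 1 := rfl
  have hb_1 := hb i1
  have hb_2 := hb i2
  -- the special monomials
  let w' : Mo (k + 2) := bm b - ee i1 - ee i2
  have hw1 : w' + ee i2 = bm b - ee i1 := by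
    apply sub_add_ee
    rw [Pi.sub_apply, ee_ne hne.symm, hv2]; omega
  have hw2 : w' + ee i1 = bm b - ee i2 := by
    have h1 : w' = bm b - ee i2 - ee i1 := by
      funext j
      change bm b j - ee i1 j - ee i2 j = bm b j - ee i2 j - ee i1 j
      omega
    rw [h1]
    apply sub_add_ee
    rw [Pi.sub_apply, ee_ne hne, hv1]; omega
  have hdw : dg w' = p := by
    have e1 : dg (bm b - ee i1) + 1 = dg (bm b) := dg_sub_ee (by rw [hv1]; omega)
    have e2 := congrArg dg hw1
    rw [dg_add_ee] at e2
    omega
  have hw'le : w' ≤ bm b := fun j => (Nat.sub_le _ _).trans (Nat.sub_le _ _)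
  have hcw : Cap (Fin.snoc (capOf (k + 2) b) ⊤ : Fin (k + 3) → ℕ∞) (Fin.snoc w' 0 : Mo (k + 3)) :=
    cap_snoc.mpr ⟨(hbox w').mpr hw'le, by simp⟩
  have hw_i1 : w' i1 = b i1 - 2 := by
    change bm b i1 - ee i1 i1 - ee i2 i1 = _
    rw [ee_self, ee_ne hne, hv1]; omega
  have hw_i2 : w' i2 = b i2 - 2 := by
    change bm b i2 - ee i1 i2 - ee i2 i2 = _
    rw [ee_self, ee_ne hne.symm, hv2]; omega
  have hw_lt : ∀ i : Fin k, w' i.castSucc.castSucc = bm b i.castSucc.castSucc := by
    intro i
    change bm b _ - ee i1 _ - ee i2 _ = _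
    have h1 : i.castSucc.castSucc ≠ i1 := by
      rw [hi1]
      intro h
      exact (ne_of_lt (Fin.castSucc_lt_last i)) (Fin.castSucc_injective _ h)
    have h2 : i.castSucc.castSucc ≠ i2 := ne_of_lt (Fin.castSucc_lt_last _)
    rw [ee_ne h1, ee_ne h2]; omega
  -- the segment above `w`
  let E : Finset (Mo (k + 3)) := (mons (Fin.snoc (capOf (k + 2) b) ⊤) p).filter
    (fun u => toLex (Fin.snoc w' 0 : Mo (k + 3)) ≤ toLex u)
  have hE : ∀ u, u ∈ E ↔ (Cap (Fin.snoc (capOf (k + 2) b) ⊤) u ∧ dg u = p) ∧
      toLex (Fin.snoc w' 0 : Mo (k + 3)) ≤ toLex u := by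
    intro u; rw [Finset.mem_filter, mem_mons]
  have hEI : Ini (Fin.snoc (capOf (k + 2) b) ⊤) p E := by
    refine ⟨fun u hu => ((hE u).mp hu).1.1, fun u hu => ((hE u).mp hu).1.2, ?_⟩
    intro u hu v hv hd huv
    rw [hE] at hu ⊢
    exact ⟨⟨hv, hd⟩, hu.2.trans huv⟩
  have hstruct : ∀ u ∈ E, u = Fin.snoc w' 0 ∨
      ((∀ i : Fin k, u i.castSucc.castSucc.castSucc = bm b i.castSucc.castSucc) ∧
        u i1.castSucc = bm b i1) := by
    intro u hu
    obtain ⟨⟨h1, h2⟩, h3⟩ := (hE u).mp hu
    rw [← Fin.snoc_init_self u, cap_snoc] at h1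
    have hule : Fin.init u ≤ bm b := (hbox _).mp (by simpa using h1.1)
    have hul : ∀ j : Fin (k + 2), u j.castSucc ≤ bm b j := fun j => hule j
    rcases eq_or_lt_of_le h3 with h4 | h4
    · left; exact (toLex.injective h4).symm
    · right
      obtain ⟨j, h5, h6⟩ := lex_lt_iff.mp h4
      have hsp := dg_split u
      have hspw := dg_split' w'
      rw [hdw] at hspw
      refine Fin.lastCases (motive := fun j => (∀ l, l < j → (Fin.snoc w' 0 : Mo (k + 3)) l = u l) →
        (Fin.snoc w' 0 : Mo (k + 3)) j < u j → _) ?_ (fun j => ?_) j h5 h6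
      · intro h5 h6
        exfalso
        rw [Fin.snoc_last] at h6
        have e0 : ∀ l : Fin (k + 2), w' l = u l.castSucc := by
          intro l
          have := h5 l.castSucc (Fin.castSucc_lt_last l)
          rwa [Fin.snoc_castSucc] at this
        have e1 : ∑ i : Fin k, w' i.castSucc.castSucc =
            ∑ i : Fin k, u i.castSucc.castSucc.castSucc :=
          Finset.sum_congr rfl fun i _ => e0 _
        have e2 := e0 (Fin.last k).castSucc
        have e3 := e0 (Fin.last (k + 1))
        omega
      · intro h5 h6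
        rw [Fin.snoc_castSucc] at h6
        have e0 : ∀ l : Fin (k + 2), l < j → w' l = u l.castSucc := by
          intro l hl
          have := h5 l.castSucc (Fin.castSucc_lt_castSucc_iff.mpr hl)
          rwa [Fin.snoc_castSucc] at this
        refine Fin.lastCases (motive := fun j => (∀ l : Fin (k + 2), l < j → w' l = u l.castSucc) →
          w' j < u j.castSucc → _) ?_ (fun j => ?_) j e0 h6
        · intro e0 h6
          exfalso
          have e1 : ∑ i : Fin k, w' i.castSucc.castSucc =
              ∑ i : Fin k, u i.castSucc.castSucc.castSucc :=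
            Finset.sum_congr rfl fun i _ => e0 _ (Fin.castSucc_lt_last _)
          have e2 := e0 (Fin.last k).castSucc (Fin.castSucc_lt_last _)
          omega
        · intro e0 h6
          refine Fin.lastCases (motive := fun j : Fin (k + 1) =>
            (∀ l : Fin (k + 2), l < j.castSucc → w' l = u l.castSucc) →
            w' j.castSucc < u j.castSucc.castSucc → _) ?_ (fun j => ?_) j e0 h6
          · intro e0 h6
            refine ⟨fun i => ?_, ?_⟩
            · rw [← hw_lt i]
              exact (e0 _ (Fin.castSucc_lt_castSucc_iff.mpr (Fin.castSucc_lt_last i))).symm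
            · have e3 := hul i1
              change w' i1 < u i1.castSucc at h6
              omega
          · intro _ h6
            exfalso
            have e3 := hul j.castSucc.castSucc
            have e4 := hw_lt j
            omega
  have hEcard : E.card ≤ b i2 - 1 := by
    have hval : ∀ u ∈ E, u = Fin.snoc w' 0 ∨ (u i2.castSucc + u (Fin.last (k + 2)) + 3 = b i2 ∧
        (∀ i : Fin k, u i.castSucc.castSucc.castSucc = bm b i.castSucc.castSucc) ∧
        u i1.castSucc = bm b i1) := by
      intro u hu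
      rcases hstruct u hu with h | ⟨h1, h2⟩
      · exact Or.inl h
      · right
        refine ⟨?_, h1, h2⟩
        have h3 := ((hE u).mp hu).1.2
        have h4 := dg_split u
        have e1 : ∑ i : Fin k, u i.castSucc.castSucc.castSucc =
            ∑ i : Fin k, bm b i.castSucc.castSucc := Finset.sum_congr rfl fun i _ => h1 i
        change u ((Fin.last k).castSucc.castSucc) = bm b i1 at h2
        change u ((Fin.last (k + 1)).castSucc) + u (Fin.last (k + 2)) + 3 = b i2
        change dg (bm b) = _ + bm b i1 + bm b i2 at hB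
        omega
    have hwlast : (Fin.snoc w' 0 : Mo (k + 3)) i2.castSucc = b i2 - 2 := by
      rw [Fin.snoc_castSucc]; exact hw_i2
    have hcard := Finset.card_le_card_of_injOn (s := E) (t := Finset.range (b i2 - 1))
      (fun u => u i2.castSucc) (by
        intro u hu
        rw [Finset.mem_coe, Finset.mem_range]
        rcases hval u hu with h | ⟨h, _⟩
        · simp only
          rw [h, hwlast]; omega
        · simp only
          omega) (by
        intro u hu v hv huv
        simp only at huv
        rcases hval u hu with h | ⟨h1, h2, h3⟩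
        · rcases hval v hv with h' | ⟨h1', h2', h3'⟩
          · rw [h, h']
          · rw [h, hwlast] at huv; omega
        · rcases hval v hv with h' | ⟨h1', h2', h3'⟩
          · rw [h', hwlast] at huv; omega
          · funext j
            refine Fin.lastCases ?_ (fun j => ?_) j
            · omega
            · refine Fin.lastCases ?_ (fun j => ?_) j
              · exact huv
              · refine Fin.lastCases ?_ (fun j => ?_) j
                · exact h3.trans h3'.symm
                · exact (h2 j).trans (h2' j).symm)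
    rwa [Finset.card_range] at hcard
  have hwE : (Fin.snoc w' 0 : Mo (k + 3)) ∈ E := by
    rw [hE]
    exact ⟨⟨hcw, by rw [dg_snoc, hdw, add_zero]⟩, le_rfl⟩
  have hwD : (Fin.snoc w' 0 : Mo (k + 3)) ∈ D := hEI.subset_of_card hD (by omega) hwE
  have key := card_up_ge_of_zero hD {bm b - ee i1, bm b - ee i2} (by
    intro v hv
    rw [Finset.mem_insert, Finset.mem_singleton] at hv
    have hadd : ∀ i : Fin (k + 2), (Fin.snoc (w' + ee i) 0 : Mo (k + 3)) =
        Fin.snoc w' 0 + ee i.castSucc := by
      intro i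
      funext j
      refine Fin.lastCases ?_ (fun j => ?_) j
      · rw [Pi.add_apply, Fin.snoc_last, Fin.snoc_last, ee_ne (ne_of_gt (Fin.castSucc_lt_last i))]
      · rw [Pi.add_apply, Fin.snoc_castSucc, Fin.snoc_castSucc, Pi.add_apply, ee_apply, ee_apply]
        simp only [Fin.castSucc_inj]
    rw [mem_up]
    rcases hv with rfl | rfl
    · refine ⟨cap_snoc.mpr ⟨(hbox _).mpr (fun j => Nat.sub_le _ _), by simp⟩, _, hwD,
        i2.castSucc, ?_⟩
      rw [← hadd, hw1]
    · refine ⟨cap_snoc.mpr ⟨(hbox _).mpr (fun j => Nat.sub_le _ _), by simp⟩, _, hwD,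
        i1.castSucc, ?_⟩
      rw [← hadd, hw2])
  rw [Finset.card_pair] at key
  · exact key
  · intro h
    have := congrFun h i1
    rw [Pi.sub_apply, Pi.sub_apply, ee_self, ee_ne hne, hv1] at this
    omega

/-- there are many monomials of degree `σ - 1` -/
theorem two_mul_le_card {b : Fin (k + 2) → ℕ} (hb : ∀ i, 2 ≤ b i) (hk : 1 ≤ k) {q : ℕ}
    (hq : q + 1 = dg (bm b)) :
    2 * b (Fin.last (k + 1)) ≤ (mons (Fin.snoc (capOf (k + 2) b) ⊤ : Fin (k + 3) → ℕ∞) q).card := by
  classical
  have hb1 : ∀ i, 1 ≤ b i := fun i => by have := hb i; omega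
  have hbox := boxCap_full hb1
  set i0 : Fin (k + 2) := 0 with hi0
  set i2 : Fin (k + 2) := Fin.last (k + 1) with hi2
  have hne : i0 ≠ i2 := by
    rw [hi0, hi2]
    intro h
    have := congrArg Fin.val h
    simp at this
  have hB : b i2 + 1 ≤ dg (bm b) := by
    unfold dg
    rw [Fin.sum_univ_castSucc]
    have h1 : ∑ _i : Fin (k + 1), 1 ≤ ∑ i : Fin (k + 1), bm b i.castSucc := by
      apply Finset.sum_le_sum
      intro i _
      have := hb i.castSucc
      change 1 ≤ b i.castSucc - 1
      omega
    rw [Finset.sum_const, Finset.card_univ, Fintype.card_fin, smul_eq_mul, mul_one] at h1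
    have h2 : bm b (Fin.last (k + 1)) = b i2 - 1 := rfl
    have := hb i2
    omega
  let g : ℕ × ℕ → Mo (k + 3) := fun x =>
    Fin.snoc (Pi.single i0 x.1 + Pi.single i2 x.2 : Mo (k + 2)) (q - x.1 - x.2)
  have hg0 : ∀ x, g x i0.castSucc = x.1 := by
    intro x
    change (Fin.snoc _ _ : Mo (k + 3)) _ = _
    rw [Fin.snoc_castSucc, Pi.add_apply, Pi.single_eq_same, Pi.single_eq_of_ne hne, add_zero]
  have hg2 : ∀ x, g x i2.castSucc = x.2 := by
    intro x
    change (Fin.snoc _ _ : Mo (k + 3)) _ = _
    rw [Fin.snoc_castSucc, Pi.add_apply, Pi.single_eq_same, Pi.single_eq_of_ne hne.symm, zero_add]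
  have hcard := Finset.card_le_card_of_injOn
    (s := Finset.range 2 ×ˢ Finset.range (b i2))
    (t := mons (Fin.snoc (capOf (k + 2) b) ⊤ : Fin (k + 3) → ℕ∞) q) g (by
      rintro ⟨x, y⟩ hxy
      rw [Finset.mem_coe, Finset.mem_product, Finset.mem_range, Finset.mem_range] at hxy
      simp only at hxy
      rw [Finset.mem_coe, mem_mons]
      constructor
      · change Cap _ (Fin.snoc _ _ : Mo (k + 3))
        rw [cap_snoc, hbox]
        refine ⟨fun j => ?_, ENat.coe_lt_top _⟩
        change (Pi.single i0 x + Pi.single i2 y : Mo (k + 2)) j ≤ b j - 1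
        rw [Pi.add_apply]
        by_cases h0 : j = i0
        · subst h0
          rw [Pi.single_eq_same, Pi.single_eq_of_ne hne]
          have := hb i0
          omega
        · by_cases h2 : j = i2
          · subst h2
            rw [Pi.single_eq_same, Pi.single_eq_of_ne h0]
            omega
          · rw [Pi.single_eq_of_ne h0, Pi.single_eq_of_ne h2]
            omega
      · change dg (Fin.snoc _ _ : Mo (k + 3)) = q
        rw [dg_snoc, dg_add]
        have e1 : ∀ (i : Fin (k + 2)) (x : ℕ), dg (Pi.single i x : Mo (k + 2)) = x := by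
          intro i x
          simp [dg]
        rw [e1, e1]
        simp only
        omega) (by
      rintro ⟨x, y⟩ _ ⟨x', y'⟩ _ h
      have h1 := congrFun h i0.castSucc
      have h2 := congrFun h i2.castSucc
      rw [hg0, hg0] at h1
      rw [hg2, hg2] at h2
      exact Prod.ext h1 h2)
  rw [Finset.card_product, Finset.card_range, Finset.card_range] at hcard
  exact hcard

end Run7.H941.N
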