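import Pool.Agent.Run7.h941.NDual

/-!
The step from `(a_1, …, a_{n-1})` to `(a_1, …, a_n)` in `n` variables.
-/

set_option autoImplicit false

namespace Run7.H941.N

open MvPolynomial Module
open H503R3.QCI (gr mem_gr NZD Reg Homog homog_span gr_low isSocleDegree_ci)

variable {K : Type*} [Field K] {m : ℕ}

theorem reg_init {n : ℕ} {f : Fin (m + 1) → MvPolynomial (Fin n) K} (h : Reg f) :
    Reg (Fin.init f) := by
  intro i
  have h1 : Fin.init f '' {j | j < i} = f '' {k | k < Fin.castSucc i} := by
    ext x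
    constructor
    · rintro ⟨j, hj, rfl⟩
      exact ⟨Fin.castSucc j, Fin.castSucc_lt_castSucc_iff.mpr hj, rfl⟩
    · rintro ⟨k, hk, rfl⟩
      have hk' : k ≠ Fin.last m := by
        rintro rfl
        exact absurd hk (not_lt.mpr (Fin.le_last _))
      obtain ⟨k, rfl⟩ := Fin.eq_castSucc_of_ne_last hk'
      exact ⟨k, Fin.castSucc_lt_castSucc_iff.mp hk, rfl⟩
  rw [h1]
  exact h (Fin.castSucc i)

theorem span_eq_init {n : ℕ} (f : Fin (m + 1) → MvPolynomial (Fin n) K) :
    Ideal.span (Set.range f) =
      Ideal.span (Set.range (Fin.init f)) ⊔ Ideal.span {f (Fin.last m)} := by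
  conv_lhs => rw [← Fin.snoc_init_self f]
  rw [TH130CI.range_snoc', Ideal.span_union]

theorem cap_full {a : Fin m → ℕ} {u : Mo m} : Cap (capOf m a) u ↔ ∀ i, u i < a i := by
  unfold Cap capOf
  constructor
  · intro h i
    have := h i
    rw [dif_pos i.2] at this
    exact_mod_cast this
  · intro h i
    rw [dif_pos i.2]
    exact_mod_cast h i

theorem cap_init {a : Fin (m + 1) → ℕ} {u : Mo (m + 1)} :
    Cap (capOf (m + 1) (Fin.init a)) u ↔ ∀ i : Fin m, u i.castSucc < a i.castSucc := by
  rw [capOf_succ le_rfl, ← Fin.snoc_init_self u, cap_snoc, cap_full]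
  simp [Fin.init]

theorem cap_iff_of_lt {a : Fin (m + 1) → ℕ} {u : Mo (m + 1)} (h : dg u < a (Fin.last m)) :
    Cap (capOf (m + 1) a) u ↔ Cap (capOf (m + 1) (Fin.init a)) u := by
  rw [cap_full, cap_init]
  constructor
  · intro h1 i
    exact h1 _
  · intro h1 i
    refine Fin.lastCases ?_ (fun j => h1 j) i
    have : u (Fin.last m) ≤ dg u := by
      unfold dg
      exact Finset.single_le_sum (f := u) (fun i _ => Nat.zero_le _) (Finset.mem_univ _)
    omega

theorem ini_congr {n q : ℕ} {c c' : Fin n → ℕ∞} (h : ∀ u : Mo n, dg u = q → (Cap c u ↔ Cap c' u))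
    {L : Finset (Mo n)} (hL : Ini c q L) : Ini c' q L where
  cap := fun u hu => (h u (hL.deg u hu)).mp (hL.cap u hu)
  deg := hL.deg
  ini := fun u hu v hv hd huv => hL.ini u hu v ((h v hd).mpr hv) hd huv

theorem up_congr {n q : ℕ} {c c' : Fin n → ℕ∞}
    (h : ∀ u : Mo n, dg u = q + 1 → (Cap c u ↔ Cap c' u)) {L : Finset (Mo n)}
    (hL : ∀ u ∈ L, dg u = q) : up c L = up c' L := by
  ext v
  rw [mem_up, mem_up]
  constructor
  · rintro ⟨hc, u, hu, i, rfl⟩
    exact ⟨(h _ (by rw [dg_add_ee, hL u hu])).mp hc, u, hu, i, rfl⟩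
  · rintro ⟨hc, u, hu, i, rfl⟩
    exact ⟨(h _ (by rw [dg_add_ee, hL u hu])).mpr hc, u, hu, i, rfl⟩

/-- below the last degree the last form plays no role -/
theorem growth_low {a : Fin (m + 1) → ℕ} {f : Fin (m + 1) → MvPolynomial (Fin (m + 1)) K}
    (hf : ∀ i, (f i).IsHomogeneous (a i))
    (hG : Growth (Ideal.span (Set.range (Fin.init f))) (capOf (m + 1) (Fin.init a)))
    {q : ℕ} (hq : q + 1 < a (Fin.last m)) {V U : Submodule K (MvPolynomial (Fin (m + 1)) K)}
    (h : Pair (Ideal.span (Set.range f)) q V U) {L : Finset (Mo (m + 1))}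
    (hL : Ini (capOf (m + 1) a) q L)
    (hLc : L.card + finrank K (gr (Ideal.span (Set.range f)) q) ≤ finrank K V) :
    (up (capOf (m + 1) a) L).card + finrank K (gr (Ideal.span (Set.range f)) (q + 1)) ≤
      finrank K U := by
  have hI : Homog (Ideal.span (Set.range (Fin.init f))) :=
    homog_span (by rintro _ ⟨j, rfl⟩; exact ⟨_, hf (Fin.castSucc j)⟩)
  have g1 : ∀ j, j < a (Fin.last m) → gr (Ideal.span (Set.range f)) j =
      gr (Ideal.span (Set.range (Fin.init f))) j := by
    intro j hj
    rw [span_eq_init f]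
    exact gr_low hI (hf (Fin.last m)) hj
  rw [g1 (q + 1) hq, up_congr (q := q) (fun u hu => cap_iff_of_lt (by omega)) hL.deg]
  rw [g1 q (by omega)] at hLc
  refine hG q V U ⟨h.hV, h.hU, h.hx, ?_, ?_⟩ L
    (ini_congr (fun u hu => cap_iff_of_lt (by omega)) hL) hLc
  · rw [← g1 q (by omega)]; exact h.hJV
  · rw [← g1 (q + 1) hq]; exact h.hJU

universe u

/-- adding a last form of large degree -/
theorem EGr.full {a : Fin (m + 1) → ℕ} (ha : ∀ i, 1 ≤ a i)
    (hlast : ∑ i : Fin m, (a i.castSucc - 1) < a (Fin.last m))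
    (h : EGr.{u} (m + 1) (Fin.init a)) : EGr.{u} (m + 1) a := by
  intro K _ f hf hreg q V U hp L hL hLc
  have hG : Growth (Ideal.span (Set.range (Fin.init f))) (capOf (m + 1) (Fin.init a)) :=
    h K (Fin.init f) (fun i => hf _) (reg_init hreg)
  by_cases hq : q + 1 < a (Fin.last m)
  · exact growth_low hf hG hq hp hL hLc
  · set s := ∑ i, (a i - 1) with hs
    have hsum : s = ∑ i : Fin m, (a i.castSucc - 1) + (a (Fin.last m) - 1) := by
      rw [hs, Fin.sum_univ_castSucc]
    have fU : FiniteDimensional K U := Submodule.finiteDimensional_of_le hp.hU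
    by_cases hqs : q < s
    · obtain ⟨φ, hφ, hJ⟩ := TH130CI.ci_gor' hf ha hreg
      let mm : Mo (m + 1) := fun i => a i - 1
      have hc : BoxCap (capOf (m + 1) a) mm := by
        intro u
        rw [cap_full]
        constructor
        · intro h1 i
          have := h1 i
          change u i ≤ a i - 1
          omega
        · intro h1 i
          have h2 : u i ≤ a i - 1 := h1 i
          have := ha i
          omega
      exact growth_dual hφ hJ hc rfl (finrank_hom_eq le_rfl hf hreg)
        (p := s - q - 1) (q := q) (by omega)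
        (fun V' U' hp' L' hL' hLc' => growth_low hf hG (by omega) hp' hL' hLc') hp hL hLc
    · have hup : up (capOf (m + 1) a) L = ∅ := by
        rw [Finset.eq_empty_iff_forall_notMem]
        intro v hv
        have h1 := hL.up.deg v hv
        have h2 := hL.up.cap v hv
        rw [cap_full] at h2
        have h3 : dg v ≤ s := by
          apply Finset.sum_le_sum
          intro i _
          have := h2 i
          omega
        omega
      rw [hup, Finset.card_empty, zero_add]
      exact Submodule.finrank_mono hp.hJU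

end Run7.H941.N
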