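import Pool.Agent.Run7.h941.NBc
import Pool.Agent.Run7.h941.NFull

/-!
The boundary case `a_n = ∑_{i < n} (a_i - 1)`.
-/

set_option autoImplicit false

namespace Run7.H941.N

open MvPolynomial Module
open H503R3.QCI (gr mem_gr NZD Reg Homog homog_span gr_low gr_high gr_dim)
open Pool.Agent.W515.SLP (AnnP Deg annP_of_homog annP_of_gt)
open TH130CI (gor mem_gor)

variable {K : Type*} [Field K]

/-- a space of forms generating an ideal with a nonzerodivisor contains a nonzerodivisor -/
theorem exists_nzd {n : ℕ} [Infinite K] {J : Ideal (MvPolynomial (Fin n) K)}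
    {V : Submodule K (MvPolynomial (Fin n) K)} {F : MvPolynomial (Fin n) K} (hF : NZD J F)
    (hFV : F ∈ J ⊔ Ideal.span (V : Set (MvPolynomial (Fin n) K))) : ∃ g ∈ V, NZD J g := by
  classical
  have hfin := associatedPrimes.finite (MvPolynomial (Fin n) K) (MvPolynomial (Fin n) K ⧸ J)
  have hun := biUnion_associatedPrimes_eq_zero_divisors (MvPolynomial (Fin n) K)
    (MvPolynomial (Fin n) K ⧸ J)
  let Vp : Ideal (MvPolynomial (Fin n) K) → Submodule K V :=
    fun p => (p.restrictScalars K).comap V.subtype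
  let s : Finset (Submodule K V) := hfin.toFinset.image Vp
  have hs : (⊤ : Submodule K V) ∉ s := by
    intro htop
    obtain ⟨p, hp, hpt⟩ := Finset.mem_image.mp htop
    rw [Set.Finite.mem_toFinset] at hp
    have hVp : ∀ v ∈ V, v ∈ p := by
      intro v hv
      have h1 : (⟨v, hv⟩ : V) ∈ Vp p := by rw [hpt]; exact Submodule.mem_top
      exact h1
    have hJp : J ≤ p := by
      have h1 := IsAssociatedPrime.annihilator_le hp
      intro x hx
      apply h1
      rw [Submodule.mem_annihilator]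
      rintro y -
      obtain ⟨z, rfl⟩ := Ideal.Quotient.mk_surjective y
      have h2 : Ideal.Quotient.mk J (x * z) = 0 :=
        Ideal.Quotient.eq_zero_iff_mem.mpr (J.mul_mem_right _ hx)
      exact h2
    have hFp : F ∈ p := by
      have h1 : J ⊔ Ideal.span (V : Set (MvPolynomial (Fin n) K)) ≤ p :=
        sup_le hJp (Ideal.span_le.mpr hVp)
      exact h1 hFV
    have h1 : F ∈ ⋃ p ∈ associatedPrimes (MvPolynomial (Fin n) K) (MvPolynomial (Fin n) K ⧸ J),
        (p : Set (MvPolynomial (Fin n) K)) := Set.mem_biUnion hp hFp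
    rw [hun] at h1
    obtain ⟨x, hx, hfx⟩ := h1
    obtain ⟨g, rfl⟩ := Ideal.Quotient.mk_surjective x
    apply hx
    rw [Ideal.Quotient.eq_zero_iff_mem]
    apply hF
    have h2 : Ideal.Quotient.mk J (F * g) = 0 := hfx
    exact Ideal.Quotient.eq_zero_iff_mem.mp h2
  have hne := Subspace.biUnion_ne_univ_of_top_notMem hs
  obtain ⟨g, hg⟩ := (Set.ne_univ_iff_exists_notMem _).mp hne
  refine ⟨g.1, g.2, ?_⟩
  intro w hw
  by_contra hwJ
  have h1 : (g : MvPolynomial (Fin n) K) ∈
      {r : MvPolynomial (Fin n) K | ∃ x : MvPolynomial (Fin n) K ⧸ J, x ≠ 0 ∧ r • x = 0} := by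
    refine ⟨Ideal.Quotient.mk J w, ?_, ?_⟩
    · rwa [Ne, Ideal.Quotient.eq_zero_iff_mem]
    · have h2 : Ideal.Quotient.mk J (g.1 * w) = 0 := Ideal.Quotient.eq_zero_iff_mem.mpr hw
      exact h2
  rw [← hun] at h1
  obtain ⟨p, hp, hqp⟩ := Set.mem_iUnion₂.mp h1
  apply hg
  refine Set.mem_biUnion (x := Vp p) ?_ hqp
  exact Finset.mem_coe.mpr (Finset.mem_image.mpr ⟨p, (Set.Finite.mem_toFinset _).mpr hp, rfl⟩)

/-- `S_1 V` -/
noncomputable def S1 {n : ℕ} (V : Submodule K (MvPolynomial (Fin n) K)) :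
    Submodule K (MvPolynomial (Fin n) K) := ⨆ i : Fin n, V.map (LinearMap.mulLeft K (X i))

theorem S1_le {n : ℕ} {V U : Submodule K (MvPolynomial (Fin n) K)}
    (h : ∀ p ∈ V, ∀ i, X i * p ∈ U) : S1 V ≤ U := by
  unfold S1
  rw [iSup_le_iff]
  rintro i _ ⟨p, hp, rfl⟩
  exact h p hp i

theorem mul_mem_S1 {n : ℕ} {V : Submodule K (MvPolynomial (Fin n) K)}
    {p : MvPolynomial (Fin n) K} (hp : p ∈ V) (i : Fin n) : X i * p ∈ S1 V :=
  Submodule.mem_iSup_of_mem i ⟨p, hp, rfl⟩

variable {k : ℕ}

theorem card_mons_one_ge {b : Fin (k + 2) → ℕ} (hb : ∀ i, 2 ≤ b i) :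
    k + 3 ≤ (mons (capOf (k + 3) b) 1).card := by
  classical
  have h : (Finset.univ : Finset (Fin (k + 3))).image ee ⊆ mons (capOf (k + 3) b) 1 := by
    intro u hu
    obtain ⟨i, _, rfl⟩ := Finset.mem_image.mp hu
    rw [mem_mons]
    refine ⟨fun j => ?_, dg_ee i⟩
    unfold capOf
    split_ifs with hj
    · have h1 := hb ⟨j.1, hj⟩
      have h2 : ee i j ≤ 1 := by
        rw [ee_apply]; split_ifs <;> omega
      exact_mod_cast (show ee i j < b ⟨j.1, hj⟩ by omega)
    · exact ENat.coe_lt_top _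
  have h1 := Finset.card_le_card h
  rw [Finset.card_image_of_injective] at h1
  · simpa using h1
  · intro i j hij
    by_contra hne
    have := congrFun hij i
    rw [ee_self, ee_ne hne] at this
    omega

theorem card_allM_zero (n : ℕ) : (allM n 0).card = 1 := by
  classical
  have h : allM n 0 = {0} := by
    ext u
    rw [mem_allM, Finset.mem_singleton]
    constructor
    · exact eq_zero_of_dg
    · rintro rfl; simp [dg]
  rw [h, Finset.card_singleton]

theorem card_mons_zero_pos {n : ℕ} {c : Fin n → ℕ∞} (hc : ∀ i, 1 ≤ c i) :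
    1 ≤ (mons c 0).card := by
  rw [Nat.one_le_iff_ne_zero, Finset.card_ne_zero]
  refine ⟨0, mem_mons.mpr ⟨fun i => ?_, by simp [dg]⟩⟩
  have := hc i
  simp only [Pi.zero_apply, Nat.cast_zero]
  exact lt_of_lt_of_le zero_lt_one this

theorem one_le_capOf {n r : ℕ} {a : Fin r → ℕ} (ha : ∀ i, 1 ≤ a i) (i : Fin n) :
    1 ≤ capOf n a i := by
  unfold capOf
  split_ifs with h
  · exact_mod_cast ha _
  · exact le_top

theorem hom_zero_map_le {n : ℕ} {g : MvPolynomial (Fin n) K}
    {V : Submodule K (MvPolynomial (Fin n) K)} (hg : g ∈ V) :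
    (homogeneousSubmodule (Fin n) K 0).map (LinearMap.mulLeft K g) ≤ V := by
  rintro _ ⟨p, hp, rfl⟩
  rw [SetLike.mem_coe, homogeneousSubmodule_zero, Submodule.mem_one] at hp
  obtain ⟨c, rfl⟩ := hp
  change g * C c ∈ V
  rw [mul_comm, ← smul_eq_C_mul]
  exact V.smul_mem _ hg

/-- the main estimate in the boundary case -/
theorem bound_core [Infinite K] {b : Fin (k + 2) → ℕ} (hb : ∀ i, 2 ≤ b i)
    {f : Fin (k + 2) → MvPolynomial (Fin (k + 3)) K} (hf : ∀ i, (f i).IsHomogeneous (b i))
    (hreg : Reg f) (hG : Growth (Ideal.span (Set.range f)) (capOf (k + 3) b)) {q : ℕ}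
    (hq : q + 1 = dg (bm b)) {F : MvPolynomial (Fin (k + 3)) K}
    (hFn : NZD (Ideal.span (Set.range f)) F)
    {V U : Submodule K (MvPolynomial (Fin (k + 3)) K)}
    (hp : Pair (Ideal.span (Set.range f)) q V U) (hFU : F ∈ U) {v : ℕ} (hv1 : 1 ≤ v)
    (hvV : finrank K V = v + finrank K (gr (Ideal.span (Set.range f)) q))
    (hvU : finrank K U ≤ v + 1 + finrank K (gr (Ideal.span (Set.range f)) (q + 1))) :
    (mons (capOf (k + 3) b) q).card + 2 ≤ v + b (Fin.last (k + 1)) := by
  classical
  set J := Ideal.span (Set.range f) with hJ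
  have hJh : Homog J := homog_span (by rintro _ ⟨j, rfl⟩; exact ⟨b j, hf j⟩)
  have hb1 : ∀ i, 1 ≤ b i := fun i => by have := hb i; omega
  have hcap : capOf (k + 3) b = Fin.snoc (capOf (k + 2) b) ⊤ := capOf_succ le_rfl b
  have hbox := boxCap_full hb1
  have hH := finrank_hom_eq (K := K) (show k + 2 ≤ k + 3 by omega) hf hreg
  rw [← hJ] at hH
  have fU : FiniteDimensional K U := Submodule.finiteDimensional_of_le hp.hU
  have fV : FiniteDimensional K V := Submodule.finiteDimensional_of_le hp.hV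
  have hq1 : 1 ≤ q := by
    have h1 := dg_split' (bm b)
    have h2 : bm b (Fin.last k).castSucc = b (Fin.last k).castSucc - 1 := rfl
    have h3 : bm b (Fin.last (k + 1)) = b (Fin.last (k + 1)) - 1 := rfl
    have := hb (Fin.last k).castSucc
    have := hb (Fin.last (k + 1))
    omega
  -- `U` is generated by `V`
  have hVle := finrank_le_hom hp.hV
  have hHq := hH q
  obtain ⟨L, hL, hLc⟩ := exists_ini (capOf (k + 3) b) q v (by omega)
  have hU1 : S1 V ⊔ gr J (q + 1) ≤ U := sup_le (S1_le hp.hx) hp.hJU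
  have hp1 : Pair J q V (S1 V ⊔ gr J (q + 1)) := by
    refine ⟨hp.hV, hU1.trans hp.hU, fun p hpp i => ?_, hp.hJV, le_sup_right⟩
    exact Submodule.mem_sup_left (mul_mem_S1 hpp i)
  have g1 := hG q _ _ hp1 L hL (by omega)
  have g2 : L.card + 1 ≤ (up (capOf (k + 3) b) L).card := by
    rw [hcap] at hL ⊢
    exact card_up_succ hb1 (by omega) hL (by rw [← Finset.card_pos]; omega)
  have hUeq : S1 V ⊔ gr J (q + 1) = U := by
    apply Submodule.eq_of_le_of_finrank_le hU1
    omega
  -- a nonzerodivisor in `V`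
  obtain ⟨g, hgV, hgn⟩ := exists_nzd hFn (V := V) (by
    rw [← hUeq] at hFU
    obtain ⟨x, hx, y, hy, hxy⟩ := Submodule.mem_sup.mp hFU
    rw [← hxy]
    refine add_mem (Ideal.mem_sup_right ?_) (Ideal.mem_sup_left (mem_gr.mp hy).1)
    have h1 : S1 V ≤ (Ideal.span (V : Set (MvPolynomial (Fin (k + 3)) K))).restrictScalars K :=
      S1_le fun p hpp i => Ideal.mul_mem_left _ _ (Ideal.subset_span hpp)
    exact h1 hx)
  have hgh : g.IsHomogeneous q := hp.hV hgV
  -- the Gorenstein ideal
  let f' : Fin (k + 3) → MvPolynomial (Fin (k + 3)) K := Fin.snoc f g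
  let a' : Fin (k + 3) → ℕ := Fin.snoc b q
  have hf' : ∀ i, (f' i).IsHomogeneous (a' i) := by
    intro i
    refine Fin.lastCases ?_ (fun j => ?_) i
    · simp only [f', a', Fin.snoc_last]; exact hgh
    · simp only [f', a', Fin.snoc_castSucc]; exact hf j
  have ha' : ∀ i, 1 ≤ a' i := by
    intro i
    refine Fin.lastCases ?_ (fun j => ?_) i
    · simp only [a', Fin.snoc_last]; exact hq1
    · simp only [a', Fin.snoc_castSucc]; exact hb1 j
  have hreg' : Reg f' := TH130CI.reg_snoc hreg hgn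
  have hspan : Ideal.span (Set.range f') = J ⊔ Ideal.span {g} := by
    rw [TH130CI.range_snoc', Ideal.span_union]
  obtain ⟨φ, hφ, hgor⟩ := TH130CI.ci_gor' hf' ha' hreg'
  have hs : ∑ i, (a' i - 1) = 2 * q := by
    rw [Fin.sum_univ_castSucc]
    simp only [a', Fin.snoc_castSucc, Fin.snoc_last]
    have : ∑ i, (b i - 1) = dg (bm b) := rfl
    omega
  rw [hs] at hφ
  rw [hspan] at hgor
  have e0 : gr (gor φ) q = gr J q ⊔ (homogeneousSubmodule (Fin (k + 3)) K 0).map
      (LinearMap.mulLeft K g) := by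
    rw [← hgor]
    exact gr_high (k := 0) hJh hgh
  have e1 : gr (gor φ) (q + 1) = gr J (q + 1) ⊔ (homogeneousSubmodule (Fin (k + 3)) K 1).map
      (LinearMap.mulLeft K g) := by
    rw [← hgor]
    exact gr_high (k := 1) hJh hgh
  have hpg : Pair (gor φ) q V U := by
    refine ⟨hp.hV, hp.hU, hp.hx, ?_, ?_⟩
    · rw [e0]
      exact sup_le hp.hJV (hom_zero_map_le hgV)
    · rw [e1]
      refine sup_le hp.hJU ?_
      rintro _ ⟨l, hl, rfl⟩
      rw [LinearMap.mulLeft_apply, mul_comm]
      exact hp.lin_mul hl hgV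
  have hd := hpg.dual (p := q - 1)
  rw [Nat.sub_add_cancel hq1] at hd
  have hle : ∀ e, gr J e ≤ gr (gor φ) e := by
    intro e x hx
    rw [← hgor]
    exact mem_gr.mpr ⟨Ideal.mem_sup_left (mem_gr.mp hx).1, (mem_gr.mp hx).2⟩
  have hdJ : Pair J (q - 1) (perp φ (q - 1) U) (perp φ q V) := by
    refine ⟨hd.hV, ?_, hd.hx, (hle _).trans hd.hJV, ?_⟩
    · exact hd.hU
    · rw [Nat.sub_add_cancel hq1]
      exact (hle _).trans (gr_le_perp q V)
  have E1 := finrank_perp hφ (show q + q = 2 * q by omega) hp.hV hpg.hJV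
  have E2 := finrank_perp hφ (show (q - 1) + (q + 1) = 2 * q by omega) hp.hU hpg.hJU
  have E3 := gr_dim (k := 0) hJh hgh hgn
  have E4 := gr_dim (k := 1) hJh hgh hgn
  rw [hgor, add_zero] at E3
  rw [hgor] at E4
  have E5 : finrank K (homogeneousSubmodule (Fin (k + 3)) K 0) = 1 := by
    rw [finrank_hom', card_allM_zero]
  have E6 := hH 1
  have E7 := card_mons_one_ge hb
  have E8 := hH (q - 1)
  have E9 : (mons (capOf (k + 3) b) q).card ≤ (mons (capOf (k + 3) b) (q - 1)).card + (k + 2) := by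
    have h1 := card_mons_succ (capOf (k + 2) b) (q - 1)
    rw [← hcap, Nat.sub_add_cancel hq1] at h1
    have h2 := card_mons_dual hbox (show q + 1 = dg (bm b) by omega)
    have h3 := card_mons_one (capOf (k + 2) b)
    omega
  have E10 := finrank_le_hom hd.hV
  have fW : FiniteDimensional K (perp φ (q - 1) U) := Submodule.finiteDimensional_of_le hd.hV
  have E11 : finrank K (gr J (q - 1)) ≤ finrank K (perp φ (q - 1) U) :=
    Submodule.finrank_mono hdJ.hJV
  obtain ⟨D, hD, hDc⟩ := exists_ini (capOf (k + 3) b) (q - 1)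
    (finrank K (perp φ (q - 1) U) - finrank K (gr J (q - 1))) (by omega)
  have g3 := hG (q - 1) _ _ hdJ D hD (by omega)
  rw [Nat.sub_add_cancel hq1] at g3
  by_contra hcon
  have g4 : D.card + 2 ≤ (up (capOf (k + 3) b) D).card := by
    rw [hcap] at hD ⊢
    exact card_up_two hb (by omega) hD (by omega)
  omega

universe u

theorem full_eq_inf {K : Type u} [Field K] [Infinite K] (hk : 1 ≤ k) {a : Fin (k + 3) → ℕ}
    (ha : ∀ i, 2 ≤ a i)
    (hlast : ∑ i : Fin (k + 2), (a i.castSucc - 1) = a (Fin.last (k + 2)))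
    (h : EGr.{u} (k + 3) (Fin.init a)) (f : Fin (k + 3) → MvPolynomial (Fin (k + 3)) K)
    (hf : ∀ i, (f i).IsHomogeneous (a i)) (hreg : Reg f) :
    Growth (Ideal.span (Set.range f)) (capOf (k + 3) a) := by
  classical
  intro q V U hp L hL hLc
  have ha1 : ∀ i, 1 ≤ a i := fun i => by have := ha i; omega
  have hf0 : ∀ i, (Fin.init f i).IsHomogeneous (Fin.init a i) := fun i => hf _
  have hreg0 : Reg (Fin.init f) := reg_init hreg
  have hG : Growth (Ideal.span (Set.range (Fin.init f))) (capOf (k + 3) (Fin.init a)) :=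
    h K (Fin.init f) hf0 hreg0
  set J := Ideal.span (Set.range f) with hJ
  set J0 := Ideal.span (Set.range (Fin.init f)) with hJ0
  set s := ∑ i, (a i - 1) with hs
  have hsum : s = a (Fin.last (k + 2)) + (a (Fin.last (k + 2)) - 1) := by
    rw [hs, Fin.sum_univ_castSucc, hlast]
  have fU : FiniteDimensional K U := Submodule.finiteDimensional_of_le hp.hU
  have fV : FiniteDimensional K V := Submodule.finiteDimensional_of_le hp.hV
  have hal := ha (Fin.last (k + 2))
  have hbox := boxCap_full ha1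
  have hH := finrank_hom_eq (K := K) (le_refl (k + 3)) hf hreg
  obtain ⟨φ, hφ, hgor⟩ := TH130CI.ci_gor' hf ha1 hreg
  rcases lt_trichotomy (q + 1) (a (Fin.last (k + 2))) with hq | hq | hq
  · exact growth_low hf hG hq hp hL hLc
  · -- the boundary degree
    have hb : ∀ i, 2 ≤ Fin.init a i := fun i => ha _
    have hb1 : ∀ i, 1 ≤ Fin.init a i := fun i => ha1 _
    have hqd : q + 1 = dg (bm (Fin.init a)) := by rw [hq, ← hlast]; rfl
    have hJ0h : Homog J0 := homog_span (by rintro _ ⟨j, rfl⟩; exact ⟨_, hf0 j⟩)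
    have hFn : NZD J0 (f (Fin.last (k + 2))) := by
      have h1 := hreg (Fin.last (k + 2))
      have h2 : f '' {j | j < Fin.last (k + 2)} = Set.range (Fin.init f) := by
        ext x
        constructor
        · rintro ⟨j, hj, rfl⟩
          obtain ⟨j', rfl⟩ := Fin.eq_castSucc_of_ne_last (ne_of_lt hj)
          exact ⟨j', rfl⟩
        · rintro ⟨j, rfl⟩
          exact ⟨Fin.castSucc j, Fin.castSucc_lt_last j, rfl⟩
      rw [h2] at h1
      exact h1
    have hFh : (f (Fin.last (k + 2))).IsHomogeneous (q + 1) := by rw [hq]; exact hf _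
    have hJJ : J = J0 ⊔ Ideal.span {f (Fin.last (k + 2))} := span_eq_init f
    have hle : ∀ e, gr J0 e ≤ gr J e := by
      intro e x hx
      rw [hJJ]
      exact mem_gr.mpr ⟨Ideal.mem_sup_left (mem_gr.mp hx).1, (mem_gr.mp hx).2⟩
    have g0 : gr J q = gr J0 q := by
      rw [hJJ]; exact gr_low hJ0h hFh (by omega)
    have hH0 := finrank_hom_eq (K := K) (show k + 2 ≤ k + 3 by omega) hf0 hreg0
    rw [← hJ0] at hH0
    rw [← hJ] at hH
    have A1 : finrank K (homogeneousSubmodule (Fin (k + 3)) K 0) = 1 := by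
      rw [finrank_hom', card_allM_zero]
    have A2 := hH0 0
    have A3 := card_mons_zero_pos (c := capOf (k + 3) (Fin.init a)) (one_le_capOf hb1)
    have A4 := gr_dim (k := 0) hJ0h hFh hFn
    rw [← hJJ, add_zero] at A4
    have hFJ : f (Fin.last (k + 2)) ∈ gr J (q + 1) :=
      mem_gr.mpr ⟨Ideal.subset_span ⟨_, rfl⟩, hFh⟩
    have hcap : capOf (k + 3) (Fin.init a) = Fin.snoc (capOf (k + 2) (Fin.init a)) ⊤ :=
      capOf_succ le_rfl _
    have hbox0 := boxCap_full hb1
    -- sizes of shadows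
    have hL0 : Ini (capOf (k + 3) (Fin.init a)) q L :=
      ini_congr (fun u hu => cap_iff_of_lt (by omega)) hL
    have B1 : (up (capOf (k + 3) a) L).card ≤ (up (capOf (k + 3) (Fin.init a)) L).card := by
      apply Finset.card_le_card
      intro v hv
      rw [mem_up] at hv ⊢
      refine ⟨?_, hv.2⟩
      rw [cap_init]
      intro i
      exact (cap_full.mp hv.1) _
    have M0 : (mons (capOf (k + 2) (Fin.init a)) (q + 1)).card ≤ 1 := by
      rw [card_mons_dual hbox0 (show (q + 1) + 0 = dg (bm (Fin.init a)) by omega)]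
      exact card_mons_zero _
    have B2 : (up (capOf (k + 3) (Fin.init a)) L).card ≤ 1 + L.card := by
      rw [hcap] at hL0 ⊢
      have h1 := card_up_le hL0
      have h2 := hL0.sli (Nat.zero_le q)
      rw [Nat.sub_zero] at h2
      have h3 := Finset.card_le_card h2.up.subset_mons
      omega
    have B3 : (mons (capOf (k + 3) (Fin.init a)) (q + 1)).card ≤
        (mons (capOf (k + 3) (Fin.init a)) q).card + 1 := by
      rw [hcap]
      have h1 := card_mons_succ (capOf (k + 2) (Fin.init a)) q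
      omega
    have B4 := two_mul_le_card hb hk hqd
    rw [← hcap] at B4
    have B5 := Finset.card_le_card hL.up.subset_mons
    by_contra hcon
    push Not at hcon
    rw [g0] at hLc
    obtain ⟨v, hv⟩ : ∃ v, finrank K V = v + finrank K (gr J0 q) :=
      ⟨finrank K V - finrank K (gr J0 q), by omega⟩
    have C1 : finrank K (gr J (q + 1)) ≤ finrank K U := Submodule.finrank_mono hp.hJU
    have hp0 : Pair J0 q V U :=
      ⟨hp.hV, hp.hU, hp.hx, (hle _).trans hp.hJV, (hle _).trans hp.hJU⟩
    have hv1 : 1 ≤ v := by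
      by_contra h0
      have h1 : L = ∅ := by rw [← Finset.card_eq_zero]; omega
      have h2 : up (capOf (k + 3) a) L = ∅ := by
        rw [h1, Finset.eq_empty_iff_forall_notMem]
        intro w hw
        obtain ⟨_, u, hu, _⟩ := mem_up.mp hw
        simp at hu
      rw [h2, Finset.card_empty] at hcon
      omega
    have c1 := bound_core hb hf0 hreg0 hG hqd hFn hp0 (hp.hJU hFJ) hv1 hv
      (by rw [← hJ0]; omega)
    -- exact size of `U`
    have D1 := finrank_le_hom hp.hV
    have D2 := hH0 q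
    obtain ⟨M, hM, hMc⟩ := exists_ini (capOf (k + 3) (Fin.init a)) q v (by omega)
    have D3 := hG q _ _ hp0 M hM (by omega)
    have D4 : M.card + 1 ≤ (up (capOf (k + 3) (Fin.init a)) M).card := by
      rw [hcap] at hM ⊢
      exact card_up_succ hb1 (by omega) hM (by rw [← Finset.card_pos]; omega)
    have D5 := finrank_le_hom hp.hU
    have D6 := hH0 (q + 1)
    have D7 := hH (q + 1)
    have hvN : v + 1 ≤ (mons (capOf (k + 3) (Fin.init a)) q).card := by
      by_contra h0
      omega
    -- the dual pair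
    have hgor' : J = gor φ := hgor
    rw [hgor'] at hp
    have hd := hp.dual (p := q)
    rw [← hgor'] at hp hd
    have F1 := finrank_perp hφ (show q + (q + 1) = s by omega) hp.hU (by rw [← hgor']; exact hp.hJU)
    have F2 := finrank_perp hφ (show (q + 1) + q = s by omega) hp.hV (by rw [← hgor']; exact hp.hJV)
    rw [← hgor'] at F1 F2
    rw [g0] at F2
    have hd0 : Pair J0 q (perp φ q U) (perp φ (q + 1) V) :=
      ⟨hd.hV, hd.hU, hd.hx, (hle _).trans hd.hJV, (hle _).trans hd.hJU⟩
    have c2 := bound_core hb hf0 hreg0 hG hqd hFn hd0 (hd.hJU hFJ)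
      (v := (mons (capOf (k + 3) (Fin.init a)) q).card - v) (by omega)
      (by rw [← hJ0]; omega) (by rw [← hJ0]; omega)
    omega
  · by_cases hqs : q < s
    · exact growth_dual hφ hgor hbox rfl (finrank_hom_eq le_rfl hf hreg)
        (p := s - q - 1) (q := q) (by omega)
        (fun V' U' hp' L' hL' hLc' => growth_low hf hG (by omega) hp' hL' hLc') hp hL hLc
    · have hup : up (capOf (k + 3) a) L = ∅ := by
        rw [Finset.eq_empty_iff_forall_notMem]
        intro v hv
        have h1 := hL.up.deg v hv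
        have h2 := hL.up.cap v hv
        rw [cap_full] at h2
        have h3 : dg v ≤ s := by
          apply Finset.sum_le_sum
          intro i _
          have := h2 i
          omega
        omega
      rw [hup, Finset.card_empty, zero_add]
      exact Submodule.finrank_mono hp.hJU

/-- the boundary case -/
theorem EGr.full_eq (hk : 1 ≤ k) {a : Fin (k + 3) → ℕ} (ha : ∀ i, 2 ≤ a i)
    (hlast : ∑ i : Fin (k + 2), (a i.castSucc - 1) = a (Fin.last (k + 2)))
    (h : EGr.{u} (k + 3) (Fin.init a)) : EGr.{u} (k + 3) a := by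
  intro K _ f hf hreg
  have : Infinite (AlgebraicClosure K) := IsAlgClosed.instInfinite
  apply growth_of_bc (L := AlgebraicClosure K)
  have h1 := full_eq_inf (K := AlgebraicClosure K) hk ha hlast h
    (fun i => map (algebraMap K (AlgebraicClosure K)) (f i)) (fun i => (hf i).map _)
    (TH130CI.reg_map hreg)
  rw [Ideal.map_span, ← Set.range_comp]
  exact h1

end Run7.H941.N
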