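import Pool.Agent.Run7.h941.NBase

/-!
Gorenstein duality: the growth inequality for full regular sequences whose last degree is large.
-/

set_option autoImplicit false

namespace Run7.H941.N

open MvPolynomial Module
open H503R3.QCI (gr mem_gr NZD Reg Homog homog_span gr_low)
open Pool.Agent.W515.SLP (AnnP Deg annP_of_homog annP_of_gt)
open TH130CI (gor mem_gor)

variable {K : Type*} [Field K] {n : ℕ}

/-! ### complement in a box -/

theorem lex_sub {m u v : Mo n} (hu : u ≤ m) (hv : v ≤ m) (h : toLex v < toLex u) :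
    toLex (m - u) < toLex (m - v) := by
  obtain ⟨i, h1, h2⟩ := lex_lt_iff.mp h
  refine lex_lt_iff.mpr ⟨i, fun j hj => ?_, ?_⟩
  · rw [Pi.sub_apply, Pi.sub_apply, h1 j hj]
  · rw [Pi.sub_apply, Pi.sub_apply]
    have e1 : u i ≤ m i := hu i
    have e2 : v i ≤ m i := hv i
    omega

theorem msub_le (m v : Mo n) : m - v ≤ m := fun _ => Nat.sub_le _ _

theorem dg_sub {m u : Mo n} (hu : u ≤ m) : dg (m - u) + dg u = dg m := by
  rw [← dg_add]
  congr 1
  funext i
  rw [Pi.add_apply, Pi.sub_apply]
  have e1 : u i ≤ m i := hu i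
  omega

theorem sub_sub_self' {m u : Mo n} (hu : u ≤ m) : m - (m - u) = u := by
  funext i
  rw [Pi.sub_apply, Pi.sub_apply]
  have e1 : u i ≤ m i := hu i
  omega

theorem dg_mono {u v : Mo n} (h : u ≤ v) : dg u ≤ dg v := Finset.sum_le_sum fun i _ => h i

/-- caps given by a box -/
def BoxCap (c : Fin n → ℕ∞) (m : Mo n) : Prop := ∀ u : Mo n, Cap c u ↔ u ≤ m

open Classical in
/-- complement of a set of monomials -/
noncomputable def dual (m : Mo n) (T : Finset (Mo n)) : Finset (Mo n) := T.image (fun u => m - u)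

theorem mem_dual {m : Mo n} {T : Finset (Mo n)} (hT : ∀ u ∈ T, u ≤ m) {v : Mo n} :
    v ∈ dual m T ↔ v ≤ m ∧ m - v ∈ T := by
  classical
  unfold dual
  rw [Finset.mem_image]
  constructor
  · rintro ⟨u, hu, rfl⟩
    refine ⟨fun i => Nat.sub_le _ _, ?_⟩
    rw [sub_sub_self' (hT u hu)]
    exact hu
  · rintro ⟨h1, h2⟩
    exact ⟨m - v, h2, sub_sub_self' h1⟩

theorem card_dual {m : Mo n} {T : Finset (Mo n)} (hT : ∀ u ∈ T, u ≤ m) :
    (dual m T).card = T.card := by
  classical
  unfold dual
  apply Finset.card_image_of_injOn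
  intro u hu v hv huv
  simp only at huv
  rw [← sub_sub_self' (hT u hu), ← sub_sub_self' (hT v hv), huv]

theorem card_mons_dual {c : Fin n → ℕ∞} {m : Mo n} (hc : BoxCap c m) {p q : ℕ}
    (hpq : p + q = dg m) : (mons c p).card = (mons c q).card := by
  classical
  have hT : ∀ u ∈ mons c p, u ≤ m := fun u hu => (hc u).mp (mem_mons.mp hu).1
  rw [← card_dual hT]
  congr 1
  ext v
  rw [mem_dual hT, mem_mons, mem_mons, hc, hc]
  constructor
  · rintro ⟨h1, h2, h3⟩
    refine ⟨h1, ?_⟩
    have := dg_sub h1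
    omega
  · rintro ⟨h1, h2⟩
    refine ⟨h1, fun i => Nat.sub_le _ _, ?_⟩
    have := dg_sub h1
    omega

/-- the combinatorial part of the duality argument -/
theorem dual_argument {c : Fin n → ℕ∞} {m : Mo n} (hc : BoxCap c m) {p q : ℕ}
    (hpq : p + (q + 1) = dg m) {L : Finset (Mo n)} (hL : Ini c q L)
    {b e : ℕ} (hb : b ≤ (mons c p).card)
    (hgrow : ∀ D, Ini c p D → D.card ≤ b → (up c D).card ≤ e)
    (he : e + L.card ≤ (mons c q).card) : (up c L).card + b ≤ (mons c (q + 1)).card := by
  classical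
  by_contra hcon
  push Not at hcon
  have hUL := hL.up
  set T := mons c (q + 1) \ up c L with hTdef
  have hT : ∀ u ∈ T, u ≤ m := fun u hu =>
    (hc u).mp (mem_mons.mp (Finset.mem_sdiff.mp hu).1).1
  have hTcard : T.card + (up c L).card = (mons c (q + 1)).card :=
    Finset.card_sdiff_add_card_eq_card hUL.subset_mons
  have hD0 : Ini c p (dual m T) := by
    refine ⟨?_, ?_, ?_⟩
    · intro u hu
      exact (hc u).mpr ((mem_dual hT).mp hu).1
    · intro u hu
      obtain ⟨h1, h2⟩ := (mem_dual hT).mp hu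
      have h3 := (mem_mons.mp (Finset.mem_sdiff.mp h2).1).2
      have := dg_sub h1
      omega
    · intro u hu v hv hdv huv
      obtain ⟨h1, h2⟩ := (mem_dual hT).mp hu
      have hvm := (hc v).mp hv
      rw [mem_dual hT]
      refine ⟨hvm, ?_⟩
      have hmv : m - v ∈ mons c (q + 1) := by
        rw [mem_mons, hc]
        refine ⟨fun i => Nat.sub_le _ _, ?_⟩
        have := dg_sub hvm
        omega
      rw [hTdef, Finset.mem_sdiff]
      refine ⟨hmv, fun hmem => ?_⟩
      obtain ⟨h3, h4⟩ := Finset.mem_sdiff.mp h2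
      apply h4
      rcases lt_or_eq_of_le huv with h5 | h5
      · exact hUL.ini _ hmem _ (mem_mons.mp h3).1 (mem_mons.mp h3).2 (lex_sub hvm h1 h5).le
      · rw [toLex.injective h5]; exact hmem
  have hD0c : (dual m T).card = T.card := card_dual hT
  obtain ⟨w, hw1, hw2, hw3, hw4⟩ := hD0.insert (by omega)
  have hg := hgrow _ hw4 (by rw [Finset.card_insert_of_notMem hw1]; omega)
  have hwm := (hc w).mp hw2
  have hmw : m - w ∈ up c L := by
    by_contra hne
    apply hw1
    rw [mem_dual hT]
    refine ⟨hwm, Finset.mem_sdiff.mpr ⟨?_, hne⟩⟩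
    rw [mem_mons, hc]
    refine ⟨fun i => Nat.sub_le _ _, ?_⟩
    have := dg_sub hwm
    omega
  obtain ⟨_, u, hu, i, hui⟩ := mem_up.mp hmw
  have hum : u ≤ m := (hc u).mp (hL.cap u hu)
  have huw : m - u = w + ee i := by
    funext j
    have h1 := congrFun hui j
    rw [Pi.sub_apply, Pi.add_apply] at h1
    rw [Pi.sub_apply, Pi.add_apply]
    have e1 : w j ≤ m j := hwm j
    have e2 : u j ≤ m j := hum j
    omega
  have hmem : m - u ∈ up c (insert w (dual m T)) := by
    rw [mem_up]
    refine ⟨(hc _).mpr fun i => Nat.sub_le _ _, w, Finset.mem_insert_self _ _, i, huw⟩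
  -- everything outside `L` is smaller than `u`
  have hS : ∀ x ∈ insert u (mons c q \ L), x ≤ m := by
    intro x hx
    rcases Finset.mem_insert.mp hx with rfl | hx
    · exact hum
    · exact (hc x).mp (mem_mons.mp (Finset.mem_sdiff.mp hx).1).1
  have hsub : dual m (insert u (mons c q \ L)) ⊆ up c (insert w (dual m T)) := by
    intro v hv
    obtain ⟨h1, h2⟩ := (mem_dual hS).mp hv
    have hIup := hw4.up
    rcases Finset.mem_insert.mp h2 with h3 | h3
    · rw [← h3, sub_sub_self' h1] at hmem
      exact hmem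
    · obtain ⟨h4, h5⟩ := Finset.mem_sdiff.mp h3
      apply hIup.ini _ hmem v ((hc v).mpr h1)
      · have := dg_sub h1
        have := (mem_mons.mp h4).2
        omega
      · have h6 : toLex (m - v) < toLex u := by
          by_contra hcc
          exact h5 (hL.ini u hu _ (mem_mons.mp h4).1 (mem_mons.mp h4).2 (not_lt.mp hcc))
        have h7 := lex_sub hum (msub_le m v) h6
        rw [sub_sub_self' h1] at h7
        exact h7.le
  have h1 := Finset.card_le_card hsub
  rw [card_dual hS, Finset.card_insert_of_notMem (by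
    rw [Finset.mem_sdiff]; exact fun h => h.2 hu)] at h1
  have h2 := Finset.card_sdiff_add_card_eq_card hL.subset_mons
  omega

/-! ### orthogonal spaces -/

/-- the orthogonal space in degree `p` -/
def perp (φ : MvPolynomial (Fin n) K →ₗ[K] K) (p : ℕ)
    (V : Submodule K (MvPolynomial (Fin n) K)) : Submodule K (MvPolynomial (Fin n) K) where
  carrier := {h | h.IsHomogeneous p ∧ ∀ v ∈ V, φ (v * h) = 0}
  add_mem' := by
    rintro a b ⟨ha1, ha2⟩ ⟨hb1, hb2⟩
    refine ⟨ha1.add hb1, fun v hv => ?_⟩
    rw [mul_add, map_add, ha2 v hv, hb2 v hv, add_zero]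
  zero_mem' := ⟨isHomogeneous_zero _ _ _, fun v _ => by rw [mul_zero, map_zero]⟩
  smul_mem' := by
    rintro c a ⟨ha1, ha2⟩
    refine ⟨Submodule.smul_mem (homogeneousSubmodule (Fin n) K p) c ha1, fun v hv => ?_⟩
    rw [mul_smul_comm, map_smul, ha2 v hv, smul_zero]

theorem mem_perp {φ : MvPolynomial (Fin n) K →ₗ[K] K} {p : ℕ}
    {V : Submodule K (MvPolynomial (Fin n) K)} {h : MvPolynomial (Fin n) K} :
    h ∈ perp φ p V ↔ h.IsHomogeneous p ∧ ∀ v ∈ V, φ (v * h) = 0 := Iff.rfl

theorem finrank_perp {φ : MvPolynomial (Fin n) K →ₗ[K] K} {s : ℕ} (hφ : Deg φ s) {p q : ℕ}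
    (hpq : p + q = s) {V : Submodule K (MvPolynomial (Fin n) K)}
    (hV : V ≤ homogeneousSubmodule (Fin n) K q) (hJ : gr (gor φ) q ≤ V) :
    finrank K (perp φ p V) + finrank K V =
      finrank K (homogeneousSubmodule (Fin n) K p) + finrank K (gr (gor φ) q) := by
  have fV : FiniteDimensional K V := Submodule.finiteDimensional_of_le hV
  let T : MvPolynomial (Fin n) K →ₗ[K] Dual K (homogeneousSubmodule (Fin n) K p) :=
    LinearMap.mk₂ K (fun g u => φ (g * (u : MvPolynomial (Fin n) K)))
      (by intro a b c; simp [add_mul])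
      (by intro a b c; simp)
      (by intro a b c; simp [mul_add])
      (by intro a b c; simp)
  have h1 := finrank_map_add T V
  have h2 : V ⊓ LinearMap.ker T = gr (gor φ) q := by
    apply le_antisymm
    · rintro v ⟨hv1, hv2⟩
      refine mem_gr.mpr ⟨?_, hV hv1⟩
      apply annP_of_homog hφ (by omega : q ≤ s) (hV hv1)
      intro w hw
      have h3 : s - q = p := by omega
      rw [h3] at hw
      exact LinearMap.congr_fun hv2 ⟨w, hw⟩
    · intro v hv
      refine ⟨hJ hv, ?_⟩
      change T v = 0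
      ext w
      exact (mem_gr.mp hv).1 _
  rw [h2] at h1
  have h3 := Subspace.finrank_add_finrank_dualCoannihilator_eq (V.map T)
  have h4 : (V.map T).dualCoannihilator.map (homogeneousSubmodule (Fin n) K p).subtype =
      perp φ p V := by
    ext h
    rw [Submodule.mem_map, mem_perp]
    constructor
    · rintro ⟨w, hw, rfl⟩
      refine ⟨w.2, fun v hv => ?_⟩
      exact (Submodule.mem_dualCoannihilator _).mp hw (T v) (Submodule.mem_map_of_mem hv)
    · rintro ⟨hh1, hh2⟩
      refine ⟨⟨h, hh1⟩, ?_, rfl⟩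
      rw [Submodule.mem_dualCoannihilator]
      rintro _ ⟨v, hv, rfl⟩
      exact hh2 v hv
  have h5 : finrank K (perp φ p V) = finrank K (V.map T).dualCoannihilator := by
    rw [← h4]
    exact (Submodule.equivMapOfInjective _ (Submodule.injective_subtype _) _).finrank_eq.symm
  omega

theorem gr_le_perp {φ : MvPolynomial (Fin n) K →ₗ[K] K} (p : ℕ)
    (V : Submodule K (MvPolynomial (Fin n) K)) : gr (gor φ) p ≤ perp φ p V := by
  intro h hh
  obtain ⟨h1, h2⟩ := mem_gr.mp hh
  refine mem_perp.mpr ⟨h2, fun v _ => ?_⟩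
  rw [mul_comm]
  exact h1 v

/-- the dual pair -/
theorem Pair.dual {φ : MvPolynomial (Fin n) K →ₗ[K] K} {p q : ℕ}
    {V U : Submodule K (MvPolynomial (Fin n) K)} (h : Pair (gor φ) q V U) :
    Pair (gor φ) p (perp φ p U) (perp φ (p + 1) V) where
  hV := fun _ hx => hx.1
  hU := fun _ hx => hx.1
  hx := by
    intro g hg i
    refine mem_perp.mpr ⟨?_, fun v hv => ?_⟩
    · have := (isHomogeneous_X K i).mul hg.1
      rwa [add_comm] at this
    · have h1 : v * (X i * g) = X i * v * g := by ring
      rw [h1]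
      exact hg.2 _ (h.hx v hv i)
  hJV := gr_le_perp p U
  hJU := gr_le_perp (p + 1) V

/-- growth by duality -/
theorem growth_dual {J : Ideal (MvPolynomial (Fin n) K)} {φ : MvPolynomial (Fin n) K →ₗ[K] K}
    {s : ℕ} (hφ : Deg φ s) (hJ : J = gor φ) {c : Fin n → ℕ∞} {m : Mo n} (hc : BoxCap c m)
    (hm : dg m = s)
    (hH : ∀ q, finrank K (homogeneousSubmodule (Fin n) K q) =
      finrank K (gr J q) + (mons c q).card) {p q : ℕ} (hpq : p + (q + 1) = s)
    (hG : ∀ (V U : Submodule K (MvPolynomial (Fin n) K)), Pair J p V U →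
      ∀ L, Ini c p L → L.card + finrank K (gr J p) ≤ finrank K V →
      (up c L).card + finrank K (gr J (p + 1)) ≤ finrank K U)
    {V U : Submodule K (MvPolynomial (Fin n) K)} (h : Pair J q V U) {L : Finset (Mo n)}
    (hL : Ini c q L) (hLc : L.card + finrank K (gr J q) ≤ finrank K V) :
    (up c L).card + finrank K (gr J (q + 1)) ≤ finrank K U := by
  subst hJ
  have hd := h.dual (p := p)
  have e1 := finrank_perp hφ (show (p + 1) + q = s by omega) h.hV h.hJV
  have e2 := finrank_perp hφ (show p + (q + 1) = s by omega) h.hU h.hJU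
  have e3 := card_mons_dual hc (show (p + 1) + q = dg m by omega)
  have e4 := card_mons_dual hc (show p + (q + 1) = dg m by omega)
  have e5 := finrank_le_hom hd.hV
  have fd : FiniteDimensional K (perp φ p U) := Submodule.finiteDimensional_of_le hd.hV
  have e6 : finrank K (gr (gor φ) p) ≤ finrank K (perp φ p U) := Submodule.finrank_mono hd.hJV
  have fU : FiniteDimensional K U := Submodule.finiteDimensional_of_le h.hU
  have hp := hH p
  have hp1 := hH (p + 1)
  have hq := hH q
  have hq1 := hH (q + 1)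
  have e7 := finrank_le_hom h.hV
  have e8 := finrank_le_hom h.hU
  have fd' : FiniteDimensional K (perp φ (p + 1) V) := Submodule.finiteDimensional_of_le hd.hU
  have e9 : finrank K (gr (gor φ) (p + 1)) ≤ finrank K (perp φ (p + 1) V) :=
    Submodule.finrank_mono hd.hJU
  have key := dual_argument hc (by omega : p + (q + 1) = dg m) hL
    (b := finrank K (perp φ p U) - finrank K (gr (gor φ) p))
    (e := finrank K (perp φ (p + 1) V) - finrank K (gr (gor φ) (p + 1))) (by omega)
    (by
      intro D hD hDc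
      have := hG _ _ hd D hD (by omega)
      omega)
    (by omega)
  omega

end Run7.H941.N
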