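import Pool.Agent.Run7.h941.NRed

/-!
Monomial spaces and the Hilbert function of a complete intersection.
-/

set_option autoImplicit false

namespace Run7.H941.N

open MvPolynomial Module
open H503R3.QCI (gr mem_gr NZD Reg Homog homog_span HS HS_seq)

variable {K : Type*} [Field K] {n : ℕ}

/-- exponent vector as a finitely supported function -/
noncomputable def fs (u : Mo n) : Fin n →₀ ℕ := Finsupp.equivFunOnFinite.symm u

@[simp] theorem fs_apply (u : Mo n) (i : Fin n) : fs u i = u i := rfl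

theorem fs_coe (u : Fin n →₀ ℕ) : fs (⇑u) = u := by ext i; rfl

theorem fs_inj {u v : Mo n} (h : fs u = fs v) : u = v := by
  funext i
  have := DFunLike.congr_fun h i
  simpa using this

theorem degree_fs (u : Mo n) : (fs u).degree = dg u := by
  rw [Finsupp.degree_eq_sum]; rfl

theorem dg_coe (u : Fin n →₀ ℕ) : dg (⇑u) = u.degree := by
  rw [Finsupp.degree_eq_sum]; rfl

theorem finrank_restrictSupport' (s : Set (Fin n →₀ ℕ)) :
    finrank K (restrictSupport K s) = s.ncard := by
  rw [Module.finrank_eq_nat_card_basis (basisRestrictSupport K s)]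
  rfl

theorem finrank_mono {s : Set (Fin n →₀ ℕ)} {T : Finset (Mo n)} (h : ∀ u, fs u ∈ s ↔ u ∈ T) :
    finrank K (restrictSupport K s) = T.card := by
  have h1 : s = fs '' (T : Set (Mo n)) := by
    ext u
    constructor
    · intro hu
      refine ⟨⇑u, ?_, fs_coe u⟩
      rw [Finset.mem_coe, ← h, fs_coe]
      exact hu
    · rintro ⟨v, hv, rfl⟩
      exact (h v).mpr hv
  rw [finrank_restrictSupport', h1, Set.ncard_image_of_injective _ (fun a b hab => fs_inj hab),
    Set.ncard_coe_finset]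

theorem hom_eq (q : ℕ) : homogeneousSubmodule (Fin n) K q = restrictSupport K {d | d.degree = q} :=
  homogeneousSubmodule_eq_finsupp_supported _ _ _

/-- all monomials of degree `q` -/
noncomputable def allM (n q : ℕ) : Finset (Mo n) := mons (fun _ => ⊤) q

theorem mem_allM {q : ℕ} {u : Mo n} : u ∈ allM n q ↔ dg u = q := by
  unfold allM
  rw [mem_mons]
  constructor
  · exact fun h => h.2
  · intro h
    exact ⟨fun i => by simp, h⟩

theorem finrank_hom' (q : ℕ) : finrank K (homogeneousSubmodule (Fin n) K q) = (allM n q).card := by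
  rw [hom_eq]
  apply finrank_mono
  intro u
  rw [mem_allM, Set.mem_ofPred_eq, degree_fs]

theorem gr_of_mono {I : Ideal (MvPolynomial (Fin n) K)} {s : Set (Fin n →₀ ℕ)}
    (h : ∀ p, p ∈ I ↔ ∀ u ∈ p.support, u ∈ s) (q : ℕ) :
    gr I q = restrictSupport K {u | u ∈ s ∧ u.degree = q} := by
  ext p
  rw [mem_gr, mem_restrictSupport_iff, h]
  constructor
  · rintro ⟨h1, h2⟩ u hu
    refine ⟨h1 u hu, ?_⟩
    by_contra hc
    exact (mem_support_iff.mp hu) (h2.coeff_eq_zero hc)
  · intro h1
    refine ⟨fun u hu => (h1 hu).1, ?_⟩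
    have h2 : p ∈ homogeneousSubmodule (Fin n) K q := by
      rw [hom_eq, mem_restrictSupport_iff]
      exact fun u hu => (h1 hu).2
    exact h2

/-- the caps of a degree sequence -/
noncomputable def capOf {r : ℕ} (n : ℕ) (a : Fin r → ℕ) : Fin n → ℕ∞ :=
  fun i => if h : i.1 < r then (a ⟨i.1, h⟩ : ℕ∞) else ⊤

/-- the ideal of pure powers -/
noncomputable def PI (K : Type*) [Field K] {n r : ℕ} (hr : r ≤ n) (a : Fin r → ℕ) :
    Ideal (MvPolynomial (Fin n) K) :=
  Ideal.span (Set.range fun i : Fin r => (X (Fin.castLE hr i) : MvPolynomial (Fin n) K) ^ a i)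

theorem not_cap_iff {r : ℕ} (hr : r ≤ n) {a : Fin r → ℕ} {u : Mo n} :
    ¬ Cap (capOf n a) u ↔ ∃ i : Fin r, a i ≤ u (Fin.castLE hr i) := by
  unfold Cap capOf
  push Not
  constructor
  · rintro ⟨i, hi⟩
    by_cases h : i.1 < r
    · rw [dif_pos h] at hi
      exact ⟨⟨i.1, h⟩, by exact_mod_cast hi⟩
    · rw [dif_neg h] at hi
      simp at hi
  · rintro ⟨i, hi⟩
    refine ⟨Fin.castLE hr i, ?_⟩
    rw [dif_pos (show (Fin.castLE hr i).1 < r from i.2)]
    exact_mod_cast hi

theorem range_eq_image {r : ℕ} (hr : r ≤ n) (a : Fin r → ℕ) (S : Set (Fin r)) :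
    (fun i : Fin r => (X (Fin.castLE hr i) : MvPolynomial (Fin n) K) ^ a i) '' S =
      (fun s => monomial s (1 : K)) '' ((fun i => Finsupp.single (Fin.castLE hr i) (a i)) '' S) := by
  rw [Set.image_image]
  apply Set.image_congr
  intro i _
  exact X_pow_eq_monomial

theorem mem_PI {r : ℕ} (hr : r ≤ n) {a : Fin r → ℕ} {p : MvPolynomial (Fin n) K} :
    p ∈ PI K hr a ↔ ∀ u ∈ p.support, ¬ Cap (capOf n a) (⇑u) := by
  unfold PI
  rw [← Set.image_univ, range_eq_image, mem_ideal_span_monomial_image]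
  apply forall₂_congr
  intro u _
  rw [not_cap_iff hr]
  constructor
  · rintro ⟨_, ⟨i, _, rfl⟩, hi⟩
    refine ⟨i, ?_⟩
    have := hi (Fin.castLE hr i)
    simpa using this
  · rintro ⟨i, hi⟩
    refine ⟨_, ⟨i, Set.mem_univ _, rfl⟩, ?_⟩
    rw [Finsupp.single_le_iff]
    exact hi

theorem reg_PI {r : ℕ} (hr : r ≤ n) (a : Fin r → ℕ) :
    Reg (fun i : Fin r => (X (Fin.castLE hr i) : MvPolynomial (Fin n) K) ^ a i) := by
  intro i h hh
  rw [range_eq_image, mem_ideal_span_monomial_image] at hh ⊢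
  intro m hm
  have h1 : Finsupp.single (Fin.castLE hr i) (a i) + m ∈
      ((X (Fin.castLE hr i) : MvPolynomial (Fin n) K) ^ a i * h).support := by
    rw [X_pow_eq_monomial, MvPolynomial.mem_support_iff, coeff_monomial_mul, one_mul]
    exact MvPolynomial.mem_support_iff.mp hm
  obtain ⟨_, ⟨j, hj, rfl⟩, hj2⟩ := hh _ h1
  refine ⟨_, ⟨j, hj, rfl⟩, ?_⟩
  rw [Finsupp.single_le_iff] at hj2 ⊢
  have hne : Fin.castLE hr i ≠ Fin.castLE hr j := by
    intro h'
    have h2 : i = j := Fin.castLE_injective hr h'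
    subst h2
    exact lt_irrefl i hj
  rwa [Finsupp.add_apply, Finsupp.single_eq_of_ne hne.symm, zero_add] at hj2

open Classical in
/-- the monomials of degree `q` which are not capped -/
noncomputable def ncap (c : Fin n → ℕ∞) (q : ℕ) : Finset (Mo n) :=
  (allM n q).filter (fun u => ¬ Cap c u)

theorem mem_ncap {c : Fin n → ℕ∞} {q : ℕ} {u : Mo n} :
    u ∈ ncap c q ↔ dg u = q ∧ ¬ Cap c u := by
  classical
  unfold ncap
  rw [Finset.mem_filter, mem_allM]

theorem card_allM (c : Fin n → ℕ∞) (q : ℕ) : (allM n q).card = (ncap c q).card + (mons c q).card := by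
  classical
  have h1 : (allM n q).filter (fun u => Cap c u) = mons c q := by
    ext u
    rw [Finset.mem_filter, mem_allM, mem_mons]
    exact and_comm
  have h2 := Finset.card_filter_add_card_filter_not (s := allM n q) (Cap c)
  rw [h1] at h2
  unfold ncap
  omega

theorem finrank_gr_PI {r : ℕ} (hr : r ≤ n) (a : Fin r → ℕ) (q : ℕ) :
    finrank K (gr (PI K hr a) q) = (ncap (capOf n a) q).card := by
  rw [gr_of_mono (s := {u | ¬ Cap (capOf n a) (⇑u)}) (fun p => mem_PI hr) q]
  apply finrank_mono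
  intro u
  rw [mem_ncap, Set.mem_ofPred_eq, Set.mem_ofPred_eq, degree_fs]
  exact and_comm

/-- the Hilbert function of a complete intersection -/
theorem finrank_gr {r : ℕ} (hr : r ≤ n) {a : Fin r → ℕ} {f : Fin r → MvPolynomial (Fin n) K}
    (hf : ∀ i, (f i).IsHomogeneous (a i)) (hreg : Reg f) (q : ℕ) :
    finrank K (gr (Ideal.span (Set.range f)) q) = (ncap (capOf n a) q).card := by
  rw [← finrank_gr_PI (K := K) hr a q]
  have h1 := HS_seq f a hf hreg
  have h2 := HS_seq (fun i : Fin r => (X (Fin.castLE hr i) : MvPolynomial (Fin n) K) ^ a i) a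
    (fun i => isHomogeneous_X_pow _ _) (reg_PI hr a)
  rw [← h2] at h1
  have h3 := congrArg (PowerSeries.coeff q) h1
  simp only [HS, PowerSeries.coeff_mk] at h3
  have h4 : (finrank K (gr (Ideal.span (Set.range f)) q) : ℤ) =
      finrank K (gr (PI K hr a) q) := by
    unfold PI
    omega
  exact_mod_cast h4

theorem finrank_hom_eq {r : ℕ} (hr : r ≤ n) {a : Fin r → ℕ} {f : Fin r → MvPolynomial (Fin n) K}
    (hf : ∀ i, (f i).IsHomogeneous (a i)) (hreg : Reg f) (q : ℕ) :
    finrank K (homogeneousSubmodule (Fin n) K q) =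
      finrank K (gr (Ideal.span (Set.range f)) q) + (mons (capOf n a) q).card := by
  rw [finrank_hom', finrank_gr hr hf hreg, card_allM (capOf n a)]

theorem capOf_succ {r : ℕ} (hr : r ≤ n) (a : Fin r → ℕ) :
    capOf (n + 1) a = Fin.snoc (capOf n a) ⊤ := by
  funext i
  refine Fin.lastCases ?_ (fun j => ?_) i
  · rw [Fin.snoc_last]
    unfold capOf
    rw [dif_neg (by simp; omega)]
  · rw [Fin.snoc_castSucc]
    rfl

end Run7.H941.N
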