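import Mathlib

/-!
Lexicographic segments of capped monomials in any number of variables.
-/

set_option autoImplicit false

namespace Run7.H941.N

open Finset

/-- exponent vectors -/
abbrev Mo (n : ℕ) := Fin n → ℕ

variable {n : ℕ}

/-- degree -/
def dg (u : Mo n) : ℕ := ∑ i, u i

/-- the unit vector -/
def ee (i : Fin n) : Mo n := Pi.single i 1

theorem ee_self (i : Fin n) : ee i i = 1 := by simp [ee]

theorem ee_ne {i j : Fin n} (h : j ≠ i) : ee i j = 0 := by simp [ee, h]

theorem ee_apply (i j : Fin n) : ee i j = if j = i then 1 else 0 := by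
  by_cases h : j = i
  · subst h; simp [ee_self]
  · rw [ee_ne h, if_neg h]

theorem dg_add (u v : Mo n) : dg (u + v) = dg u + dg v := by
  simp [dg, Finset.sum_add_distrib]

theorem dg_ee (i : Fin n) : dg (ee i) = 1 := by
  simp [dg, ee]

theorem dg_add_ee (u : Mo n) (i : Fin n) : dg (u + ee i) = dg u + 1 := by
  rw [dg_add, dg_ee]

/-- capped exponent vectors -/
def Cap (c : Fin n → ℕ∞) (u : Mo n) : Prop := ∀ i, (u i : ℕ∞) < c i

theorem Cap.mono {c : Fin n → ℕ∞} {u v : Mo n} (h : Cap c v) (huv : u ≤ v) : Cap c u :=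
  fun i => lt_of_le_of_lt (by exact_mod_cast huv i) (h i)

theorem lex_lt_iff {u v : Mo n} :
    toLex u < toLex v ↔ ∃ i, (∀ j, j < i → u j = v j) ∧ u i < v i := Iff.rfl

theorem lex_lt_add_ee (u : Mo n) (i : Fin n) : toLex u < toLex (u + ee i) := by
  rw [lex_lt_iff]
  refine ⟨i, fun j hj => ?_, ?_⟩
  · rw [Pi.add_apply, ee_ne (ne_of_lt hj), add_zero]
  · rw [Pi.add_apply, ee_self]; omega

theorem lex_add_right {u v : Mo n} (h : toLex u < toLex v) (w : Mo n) :
    toLex (u + w) < toLex (v + w) := by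
  rw [lex_lt_iff] at h ⊢
  obtain ⟨i, h1, h2⟩ := h
  refine ⟨i, fun j hj => ?_, ?_⟩
  · rw [Pi.add_apply, Pi.add_apply, h1 j hj]
  · rw [Pi.add_apply, Pi.add_apply]; omega

/-- `i` is the last letter of `u` -/
def Lst (u : Mo n) (i : Fin n) : Prop := 0 < u i ∧ ∀ j, i < j → u j = 0

theorem exists_lst {u : Mo n} (h : 0 < dg u) : ∃ i, Lst u i := by
  classical
  have hne : (univ.filter (fun i => 0 < u i)).Nonempty := by
    by_contra hcon
    rw [Finset.not_nonempty_iff_eq_empty, Finset.filter_eq_empty_iff] at hcon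
    have : dg u = 0 := by
      unfold dg
      apply Finset.sum_eq_zero
      intro i hi
      have := hcon hi
      omega
    omega
  refine ⟨(univ.filter (fun i => 0 < u i)).max' hne, ?_, ?_⟩
  · have := Finset.max'_mem _ hne
    exact (Finset.mem_filter.mp this).2
  · intro j hj
    by_contra hc
    have h1 : j ≤ (univ.filter (fun i => 0 < u i)).max' hne :=
      Finset.le_max' _ _ (by simp; omega)
    exact absurd hj (not_lt.mpr h1)

theorem sub_add_ee {u : Mo n} {i : Fin n} (h : 0 < u i) : u - ee i + ee i = u := by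
  funext j
  rw [Pi.add_apply, Pi.sub_apply]
  by_cases hj : j = i
  · subst hj; rw [ee_self]; omega
  · rw [ee_ne hj]; omega

theorem dg_sub_ee {u : Mo n} {i : Fin n} (h : 0 < u i) : dg (u - ee i) + 1 = dg u := by
  rw [← dg_add_ee, sub_add_ee h]

theorem Cap.sub {c : Fin n → ℕ∞} {u : Mo n} (h : Cap c u) (w : Mo n) : Cap c (u - w) :=
  h.mono (fun i => Nat.sub_le _ _)

/-- the key lemma: removing the last letter -/
theorem lex_lst {u w : Mo n} {i : Fin n} (hi : Lst u i) (hlt : toLex w < toLex u)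
    (hdg : dg w < dg u) : toLex w ≤ toLex (u - ee i) := by
  obtain ⟨p, h1, h2⟩ := lex_lt_iff.mp hlt
  have hpi : p ≤ i := by
    by_contra hc
    have := hi.2 p (not_le.mp hc)
    omega
  rcases lt_or_eq_of_le hpi with hpi | hpi
  · apply le_of_lt
    refine lex_lt_iff.mpr ⟨p, fun j hj => ?_, ?_⟩
    · rw [Pi.sub_apply, ee_ne (ne_of_lt (hj.trans hpi)), h1 j hj, Nat.sub_zero]
    · rw [Pi.sub_apply, ee_ne (ne_of_lt hpi)]; omega
  · subst hpi
    rcases lt_or_ge (w p) (u p - 1) with h3 | h3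
    · apply le_of_lt
      refine lex_lt_iff.mpr ⟨p, fun j hj => ?_, ?_⟩
      · rw [Pi.sub_apply, ee_ne (ne_of_lt hj), h1 j hj, Nat.sub_zero]
      · rw [Pi.sub_apply, ee_self]; omega
    · apply le_of_eq
      have h4 : ∀ j, (u - ee p) j ≤ w j := by
        intro j
        rw [Pi.sub_apply]
        rcases lt_trichotomy j p with hj | hj | hj
        · rw [h1 j hj]; omega
        · subst hj; rw [ee_self]; omega
        · rw [hi.2 j hj]; omega
      have h5 : dg (u - ee p) = dg w := by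
        have e1 := dg_sub_ee hi.1
        have e2 : dg (u - ee p) ≤ dg w := Finset.sum_le_sum fun j _ => h4 j
        omega
      have h6 : w = u - ee p := by
        funext j
        have := (Finset.sum_eq_sum_iff_of_le (fun j _ => h4 j)).mp h5 j (Finset.mem_univ j)
        exact this.symm
      rw [← h6]

/-- initial segment of the capped monomials of degree `q` -/
structure Ini (c : Fin n → ℕ∞) (q : ℕ) (L : Finset (Mo n)) : Prop where
  cap : ∀ u ∈ L, Cap c u
  deg : ∀ u ∈ L, dg u = q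
  ini : ∀ u ∈ L, ∀ v, Cap c v → dg v = q → toLex u ≤ toLex v → v ∈ L

open Classical in
/-- upper shadow -/
noncomputable def up (c : Fin n → ℕ∞) (L : Finset (Mo n)) : Finset (Mo n) :=
  ((L ×ˢ (univ : Finset (Fin n))).image (fun p => p.1 + ee p.2)).filter (Cap c)

theorem mem_up {c : Fin n → ℕ∞} {L : Finset (Mo n)} {v : Mo n} :
    v ∈ up c L ↔ Cap c v ∧ ∃ u ∈ L, ∃ i, v = u + ee i := by
  classical
  unfold up
  rw [Finset.mem_filter, Finset.mem_image]
  constructor
  · rintro ⟨⟨⟨u, i⟩, hp, rfl⟩, hc⟩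
    exact ⟨hc, u, (Finset.mem_product.mp hp).1, i, rfl⟩
  · rintro ⟨hc, u, hu, i, rfl⟩
    exact ⟨⟨(u, i), Finset.mem_product.mpr ⟨hu, Finset.mem_univ _⟩, rfl⟩, hc⟩

theorem up_mono {c : Fin n → ℕ∞} {L M : Finset (Mo n)} (h : L ⊆ M) : up c L ⊆ up c M := by
  intro v hv
  rw [mem_up] at hv ⊢
  obtain ⟨hc, u, hu, i, rfl⟩ := hv
  exact ⟨hc, u, h hu, i, rfl⟩

theorem Ini.up {c : Fin n → ℕ∞} {q : ℕ} {L : Finset (Mo n)} (h : Ini c q L) :
    Ini c (q + 1) (up c L) := by
  refine ⟨fun u hu => (mem_up.mp hu).1, ?_, ?_⟩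
  · intro u hu
    obtain ⟨_, y, hy, i, rfl⟩ := mem_up.mp hu
    rw [dg_add_ee, h.deg y hy]
  · intro u hu v hv hdv huv
    obtain ⟨_, y, hy, j, rfl⟩ := mem_up.mp hu
    obtain ⟨i, hi⟩ := exists_lst (u := v) (by omega)
    have h1 : toLex y < toLex v := lt_of_lt_of_le (lex_lt_add_ee y j) huv
    have h2 := lex_lst hi h1 (by rw [h.deg y hy]; omega)
    have h3 : v - ee i ∈ L := by
      apply h.ini y hy _ (hv.sub _) _ h2
      have := dg_sub_ee hi.1
      omega
    rw [mem_up]
    exact ⟨hv, _, h3, i, (sub_add_ee hi.1).symm⟩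

open Classical in
/-- all capped monomials of degree `q` -/
noncomputable def mons (c : Fin n → ℕ∞) (q : ℕ) : Finset (Mo n) :=
  (Finset.piAntidiag univ q).filter (Cap c)

theorem mem_mons {c : Fin n → ℕ∞} {q : ℕ} {u : Mo n} : u ∈ mons c q ↔ Cap c u ∧ dg u = q := by
  classical
  unfold mons
  rw [Finset.mem_filter, Finset.mem_piAntidiag]
  unfold dg
  constructor
  · rintro ⟨⟨h1, _⟩, h2⟩
    exact ⟨h2, h1⟩
  · rintro ⟨h1, h2⟩
    exact ⟨⟨h2, fun i _ => Finset.mem_univ i⟩, h1⟩

theorem Ini.subset_mons {c : Fin n → ℕ∞} {q : ℕ} {L : Finset (Mo n)} (h : Ini c q L) :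
    L ⊆ mons c q := fun u hu => mem_mons.mpr ⟨h.cap u hu, h.deg u hu⟩

theorem ini_empty (c : Fin n → ℕ∞) (q : ℕ) : Ini c q ∅ :=
  ⟨by simp, by simp, by simp⟩

theorem ini_mons (c : Fin n → ℕ∞) (q : ℕ) : Ini c q (mons c q) :=
  ⟨fun u hu => (mem_mons.mp hu).1, fun u hu => (mem_mons.mp hu).2,
    fun _ _ v hv hd _ => mem_mons.mpr ⟨hv, hd⟩⟩

theorem Ini.subset_or {c : Fin n → ℕ∞} {q : ℕ} {L M : Finset (Mo n)} (hL : Ini c q L)
    (hM : Ini c q M) : L ⊆ M ∨ M ⊆ L := by
  by_contra hcon
  push Not at hcon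
  obtain ⟨h1, h2⟩ := hcon
  obtain ⟨u, hu, hu'⟩ := Finset.not_subset.mp h1
  obtain ⟨v, hv, hv'⟩ := Finset.not_subset.mp h2
  rcases le_total (toLex u) (toLex v) with h | h
  · exact hv' (hL.ini u hu v (hM.cap v hv) (hM.deg v hv) h)
  · exact hu' (hM.ini v hv u (hL.cap u hu) (hL.deg u hu) h)

theorem Ini.subset_of_card {c : Fin n → ℕ∞} {q : ℕ} {L M : Finset (Mo n)} (hL : Ini c q L)
    (hM : Ini c q M) (h : L.card ≤ M.card) : L ⊆ M := by
  rcases hL.subset_or hM with h1 | h1
  · exact h1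
  · rw [Finset.eq_of_subset_of_card_le h1 h]

/-- adding the next element -/
theorem Ini.insert {c : Fin n → ℕ∞} {q : ℕ} {L : Finset (Mo n)} (hL : Ini c q L)
    (h : L.card < (mons c q).card) : ∃ w, w ∉ L ∧ Cap c w ∧ dg w = q ∧
      Ini c q (insert w L) := by
  classical
  have hne : (mons c q \ L).Nonempty := by
    rw [Finset.sdiff_nonempty]
    intro hsub
    have := Finset.card_le_card hsub
    omega
  obtain ⟨w, hw, hmax⟩ := Finset.exists_max_image (mons c q \ L) toLex hne
  rw [Finset.mem_sdiff, mem_mons] at hw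
  refine ⟨w, hw.2, hw.1.1, hw.1.2, ?_, ?_, ?_⟩
  · intro u hu
    rcases Finset.mem_insert.mp hu with rfl | hu
    · exact hw.1.1
    · exact hL.cap u hu
  · intro u hu
    rcases Finset.mem_insert.mp hu with rfl | hu
    · exact hw.1.2
    · exact hL.deg u hu
  · intro u hu v hv hd huv
    rw [Finset.mem_insert]
    by_cases hvL : v ∈ L
    · exact Or.inr hvL
    · left
      rcases Finset.mem_insert.mp hu with rfl | hu
      · have h1 := hmax v (Finset.mem_sdiff.mpr ⟨mem_mons.mpr ⟨hv, hd⟩, hvL⟩)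
        exact toLex.injective (le_antisymm h1 huv)
      · exact absurd (hL.ini u hu v hv hd huv) hvL

theorem exists_ini (c : Fin n → ℕ∞) (q : ℕ) : ∀ k ≤ (mons c q).card,
    ∃ L, Ini c q L ∧ L.card = k := by
  classical
  intro k
  induction k with
  | zero => intro _; exact ⟨∅, ini_empty c q, rfl⟩
  | succ k ih =>
    intro hk
    obtain ⟨L, hL, hc⟩ := ih (by omega)
    obtain ⟨w, hw, _, _, hI⟩ := hL.insert (by omega)
    exact ⟨_, hI, by rw [Finset.card_insert_of_notMem hw, hc]⟩

/-! ### slices -/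

open Classical in
/-- the slice at exponent `t` of the last variable -/
noncomputable def sli (L : Finset (Mo (n + 1))) (t : ℕ) : Finset (Mo n) :=
  (L.filter (fun u => u (Fin.last n) = t)).image Fin.init

theorem mem_sli {L : Finset (Mo (n + 1))} {t : ℕ} {u : Mo n} :
    u ∈ sli L t ↔ (Fin.snoc u t : Mo (n + 1)) ∈ L := by
  classical
  unfold sli
  rw [Finset.mem_image]
  constructor
  · rintro ⟨v, hv, rfl⟩
    obtain ⟨h1, h2⟩ := Finset.mem_filter.mp hv
    rw [← h2, Fin.snoc_init_self]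
    exact h1
  · intro h
    refine ⟨Fin.snoc u t, Finset.mem_filter.mpr ⟨h, by simp⟩, by simp⟩

theorem dg_snoc (u : Mo n) (t : ℕ) : dg (Fin.snoc u t : Mo (n + 1)) = dg u + t := by
  unfold dg
  rw [Fin.sum_univ_castSucc]
  simp

theorem cap_snoc {c : Fin n → ℕ∞} {d : ℕ∞} {u : Mo n} {t : ℕ} :
    Cap (Fin.snoc c d : Fin (n + 1) → ℕ∞) (Fin.snoc u t : Mo (n + 1)) ↔ Cap c u ∧ (t : ℕ∞) < d := by
  unfold Cap
  constructor
  · intro h
    refine ⟨fun i => ?_, ?_⟩
    · have := h (Fin.castSucc i)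
      simpa using this
    · have := h (Fin.last n)
      simpa using this
  · rintro ⟨h1, h2⟩ i
    refine Fin.lastCases ?_ (fun j => ?_) i
    · simpa using h2
    · simpa using h1 j

theorem lex_snoc_lt {u v : Mo n} {s t : ℕ} (h : toLex u < toLex v) :
    toLex (Fin.snoc u s : Mo (n + 1)) < toLex (Fin.snoc v t : Mo (n + 1)) := by
  obtain ⟨i, h1, h2⟩ := lex_lt_iff.mp h
  rw [lex_lt_iff]
  refine ⟨Fin.castSucc i, fun j hj => ?_, ?_⟩
  · have hj' : j ≠ Fin.last n := by
      rintro rfl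
      exact absurd hj (not_lt.mpr (Fin.le_last _))
    obtain ⟨j', rfl⟩ := Fin.eq_castSucc_of_ne_last hj'
    simp only [Fin.snoc_castSucc]
    exact h1 j' (Fin.castSucc_lt_castSucc_iff.mp hj)
  · simp only [Fin.snoc_castSucc]
    exact h2

theorem Ini.sli {c : Fin n → ℕ∞} {q : ℕ} {L : Finset (Mo (n + 1))}
    (h : Ini (Fin.snoc c ⊤) q L) {t : ℕ} (ht : t ≤ q) : Ini c (q - t) (sli L t) := by
  refine ⟨?_, ?_, ?_⟩
  · intro u hu
    exact (cap_snoc.mp (h.cap _ (mem_sli.mp hu))).1
  · intro u hu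
    have := h.deg _ (mem_sli.mp hu)
    rw [dg_snoc] at this
    omega
  · intro u hu v hv hd huv
    rw [mem_sli] at hu ⊢
    apply h.ini _ hu
    · exact cap_snoc.mpr ⟨hv, by simp⟩
    · rw [dg_snoc]; omega
    · rcases lt_or_eq_of_le huv with h1 | h1
      · exact (lex_snoc_lt h1).le
      · rw [toLex.injective h1]

theorem card_eq_sum_sli {L : Finset (Mo (n + 1))} {N : ℕ}
    (h : ∀ u ∈ L, u (Fin.last n) < N) : L.card = ∑ t ∈ Finset.range N, (sli L t).card := by
  classical
  rw [Finset.card_eq_sum_card_fiberwise (f := fun u => u (Fin.last n)) (t := Finset.range N)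
    (fun u hu => by simpa using h u hu)]
  apply Finset.sum_congr rfl
  intro t _
  unfold sli
  rw [Finset.card_image_of_injOn]
  intro u hu v hv huv
  simp only [Finset.coe_filter, Set.mem_ofPred_eq] at hu hv
  rw [← Fin.snoc_init_self u, ← Fin.snoc_init_self v, huv, hu.2, hv.2]

theorem Ini.last_le {c : Fin (n + 1) → ℕ∞} {q : ℕ} {L : Finset (Mo (n + 1))} (h : Ini c q L) :
    ∀ u ∈ L, u (Fin.last n) < q + 1 := by
  intro u hu
  have h1 := h.deg u hu
  have h2 : u (Fin.last n) ≤ dg u := by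
    unfold dg
    exact Finset.single_le_sum (f := u) (fun i _ => Nat.zero_le _) (Finset.mem_univ _)
  omega

/-- growth of an initial segment when the last variable is not capped -/
theorem card_up_le {c : Fin n → ℕ∞} {q : ℕ} {L : Finset (Mo (n + 1))}
    (h : Ini (Fin.snoc c ⊤) q L) :
    (up (Fin.snoc c ⊤) L).card ≤ (up c (sli L 0)).card + L.card := by
  classical
  have hsub : up (Fin.snoc c ⊤) L ⊆ (up c (sli L 0)).image (fun u => (Fin.snoc u 0 : Mo (n + 1))) ∪
      L.image (fun u => u + ee (Fin.last n)) := by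
    intro v hv
    rw [Finset.mem_union, Finset.mem_image, Finset.mem_image]
    obtain ⟨hc, u, hu, j, rfl⟩ := mem_up.mp hv
    by_cases hz : (u + ee j) (Fin.last n) = 0
    · left
      have hj : j ≠ Fin.last n := by
        rintro rfl
        rw [Pi.add_apply, ee_self] at hz
        omega
      obtain ⟨j', rfl⟩ := Fin.eq_castSucc_of_ne_last hj
      have hu0 : u (Fin.last n) = 0 := by
        rw [Pi.add_apply] at hz; omega
      have hue : u = Fin.snoc (Fin.init u) 0 := by
        rw [← hu0, Fin.snoc_init_self]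
      have hve : u + ee (Fin.castSucc j') = Fin.snoc (Fin.init u + ee j') 0 := by
        funext i
        refine Fin.lastCases ?_ (fun i => ?_) i
        · rw [hz]; simp
        · rw [Pi.add_apply, Fin.snoc_castSucc, Pi.add_apply]
          congr 1
          rw [ee_apply, ee_apply]
          simp [Fin.castSucc_inj]
      refine ⟨Fin.init u + ee j', ?_, hve.symm⟩
      rw [mem_up]
      refine ⟨?_, Fin.init u, ?_, j', rfl⟩
      · rw [hve] at hc
        exact (cap_snoc.mp hc).1
      · rw [mem_sli, ← hue]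
        exact hu
    · right
      refine ⟨u + ee j - ee (Fin.last n), ?_, sub_add_ee (by omega)⟩
      have hdeg : dg (u + ee j - ee (Fin.last n)) = q := by
        have h1 := dg_sub_ee (u := u + ee j) (i := Fin.last n) (by omega)
        rw [dg_add_ee, h.deg u hu] at h1
        omega
      apply h.ini u hu _ (hc.sub _) hdeg
      by_cases hj : j = Fin.last n
      · subst hj
        apply le_of_eq
        congr 1
        funext i
        rw [Pi.sub_apply, Pi.add_apply]
        omega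
      · apply le_of_lt
        have hjl : j < Fin.last n := lt_of_le_of_ne (Fin.le_last j) hj
        refine lex_lt_iff.mpr ⟨j, fun i hi => ?_, ?_⟩
        · rw [Pi.sub_apply, Pi.add_apply, ee_ne (ne_of_lt hi), ee_ne (ne_of_lt (hi.trans hjl))]
          omega
        · rw [Pi.sub_apply, Pi.add_apply, ee_self, ee_ne (ne_of_lt hjl)]
          omega
  calc (up (Fin.snoc c ⊤) L).card ≤ _ := Finset.card_le_card hsub
    _ ≤ _ := Finset.card_union_le _ _
    _ ≤ _ := Nat.add_le_add Finset.card_image_le Finset.card_image_le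

/-- iterated shadows of a segment containing `w` -/
theorem mem_iter_up {c : Fin n → ℕ∞} {p : ℕ} {M : Finset (Mo n)} (hM : Ini c p M) {w : Mo n}
    (hw : w ∈ M) : ∀ s (v : Mo n), Cap c v → dg v = p + s → toLex w ≤ toLex v →
      v ∈ (up c)^[s] M := by
  intro s
  induction s with
  | zero =>
    intro v hv hd hwv
    exact hM.ini w hw v hv (by omega) hwv
  | succ s ih =>
    intro v hv hd hwv
    have hne : w ≠ v := by
      rintro rfl
      have := hM.deg w hw
      omega
    have hlt : toLex w < toLex v := lt_of_le_of_ne hwv (fun h => hne (toLex.injective h))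
    obtain ⟨i, hi⟩ := exists_lst (u := v) (by omega)
    have h1 := lex_lst hi hlt (by rw [hM.deg w hw]; omega)
    have h2 := ih (v - ee i) (hv.sub _) (by have := dg_sub_ee hi.1; omega) h1
    rw [Function.iterate_succ_apply', mem_up]
    exact ⟨hv, _, h2, i, (sub_add_ee hi.1).symm⟩

/-- if a slice can be enlarged, its iterated shadow covers the bottom slice -/
theorem sli_zero_subset {c : Fin n → ℕ∞} {q : ℕ} {L : Finset (Mo (n + 1))}
    (h : Ini (Fin.snoc c ⊤) q L) {t : ℕ} (ht : t ≤ q) {w : Mo n}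
    {M : Finset (Mo n)} (hM : Ini c (q - t) M) (hw : w ∈ M) (hwL : w ∉ sli L t) :
    sli L 0 ⊆ (up c)^[t] M := by
  intro u hu
  have hI := h.sli (Nat.zero_le q)
  have hdu := hI.deg u hu
  have hdw := hM.deg w hw
  apply mem_iter_up hM hw t u (hI.cap u hu) (by omega)
  by_contra hcon
  push Not at hcon
  apply hwL
  rw [mem_sli]
  rw [mem_sli] at hu
  apply h.ini _ hu
  · exact cap_snoc.mpr ⟨hM.cap w hw, by simp⟩
  · rw [dg_snoc]; omega
  · exact (lex_snoc_lt hcon).le

end Run7.H941.N
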