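import Pool.Agent.Run7.h941.NThree

/-!
The Eisenbud-Green-Harris conjecture for degree sequences growing fast from the fourth term on.
-/

set_option autoImplicit false

namespace Run7.H941.N

open MvPolynomial Module
open H503R3.QCI (gr mem_gr NZD Reg Homog homog_span)

universe u

theorem EGr.zero (a : Fin 0 → ℕ) : EGr.{u} 0 a := by
  intro K _ f hf hreg q V U h L hL hLc
  have hup : up (capOf 0 a) L = ∅ := by
    rw [Finset.eq_empty_iff_forall_notMem]
    intro v hv
    obtain ⟨_, _, _, i, _⟩ := mem_up.mp hv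
    exact i.elim0
  have fU : FiniteDimensional K U := Submodule.finiteDimensional_of_le h.hU
  rw [hup, Finset.card_empty, zero_add]
  exact Submodule.finrank_mono h.hJU

theorem EGr.of_le {r : ℕ} {a : Fin r → ℕ} (ha : ∀ i, 1 ≤ a i) (h : EGr.{u} r a) {n : ℕ}
    (hn : r ≤ n) : EGr.{u} n a := by
  induction n, hn using Nat.le_induction with
  | base => exact h
  | succ n hn ih => exact ih.succ hn ha

/-- fast growing from the fourth term on -/
def Fast {r : ℕ} (a : Fin r → ℕ) : Prop := ∀ i : Fin r, 3 ≤ i.val → ∑ j ∈ Finset.Iio i, (a j - 1) < a i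

theorem sum_Iio_castSucc {m : ℕ} (a : Fin (m + 1) → ℕ) (i : Fin m) :
    ∑ j ∈ Finset.Iio i.castSucc, (a j - 1) = ∑ j ∈ Finset.Iio i, (Fin.init a j - 1) := by
  rw [Fin.Iio_castSucc, Finset.sum_map]
  rfl

theorem sum_Iio_last {m : ℕ} (a : Fin (m + 1) → ℕ) :
    ∑ j ∈ Finset.Iio (Fin.last m), (a j - 1) = ∑ j : Fin m, (a j.castSucc - 1) := by
  have h : Finset.Iio (Fin.last m) = (Finset.univ : Finset (Fin m)).map Fin.castSuccEmb := by
    ext j
    simp only [Finset.mem_Iio, Finset.mem_map, Finset.mem_univ, true_and, Fin.coe_castSuccEmb]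
    constructor
    · intro hj
      obtain ⟨k, rfl⟩ := Fin.eq_castSucc_of_ne_last (ne_of_lt hj)
      exact ⟨k, rfl⟩
    · rintro ⟨k, rfl⟩
      exact Fin.castSucc_lt_last k
  rw [h, Finset.sum_map]
  rfl

theorem Fast.init {m : ℕ} {a : Fin (m + 1) → ℕ} (h : Fast a) : Fast (Fin.init a) := by
  intro i hi
  have := h i.castSucc hi
  rw [sum_Iio_castSucc] at this
  exact this

theorem egr_full : ∀ {r : ℕ} {a : Fin r → ℕ}, (∀ i, 1 ≤ a i) → Monotone a → Fast a →
    EGr.{u} r a := by
  intro r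
  induction r with
  | zero => intro a _ _ _; exact EGr.zero a
  | succ m ih =>
    intro a ha hm hF
    by_cases h3 : m = 2
    · subst h3
      exact EGr.three ha hm
    · have h1 : EGr.{u} m (Fin.init a) :=
        ih (fun i => ha _) (fun i j hij => hm (Fin.castSucc_le_castSucc_iff.mpr hij)) hF.init
      have h2 : EGr.{u} (m + 1) (Fin.init a) := h1.succ le_rfl (fun i => ha _)
      apply EGr.full ha _ h2
      rw [← sum_Iio_last]
      rcases Nat.lt_or_ge m 3 with hlt | hge
      · have hcases : m = 0 ∨ m = 1 := by omega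
        rcases hcases with rfl | rfl
        · have h4 : ∑ j ∈ Finset.Iio (Fin.last 0), (a j - 1) = 0 := by
            rw [sum_Iio_last]; simp
          have := ha (Fin.last 0)
          omega
        · rw [sum_Iio_last]
          have h5 : a (Fin.castSucc (0 : Fin 1)) ≤ a (Fin.last 1) := hm (Fin.le_last _)
          have := ha (Fin.castSucc (0 : Fin 1))
          rw [Fin.sum_univ_one]
          omega
      · exact hF (Fin.last m) hge

/-- The Eisenbud-Green-Harris growth inequality. -/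
theorem egr_main {n r : ℕ} (hr : r ≤ n) {a : Fin r → ℕ} (ha : ∀ i, 1 ≤ a i) (hm : Monotone a)
    (hF : Fast a) : EGr.{u} n a := (egr_full ha hm hF).of_le ha hr

variable {K : Type u} [Field K]

/-- The Eisenbud-Green-Harris conjecture, ideal form. -/
theorem egh_main {n r : ℕ} (hr : r ≤ n) {a : Fin r → ℕ} (ha : ∀ i, 1 ≤ a i) (hm : Monotone a)
    (hF : Fast a) {f : Fin r → MvPolynomial (Fin n) K} (hf : ∀ i, (f i).IsHomogeneous (a i))
    (hreg : RingTheory.Sequence.IsRegular (MvPolynomial (Fin n) K) (List.ofFn f))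
    {I : Ideal (MvPolynomial (Fin n) K)} (hfI : ∀ i, f i ∈ I) :
    ∃ S : Set (Mo n), UpC S ∧ (∀ u v, dg u = dg v → toLex v ≤ toLex u → v ∈ S → u ∈ S) ∧
      ∀ e, finrank K (gr (MI K S ⊔ PI K hr a) e) = finrank K (gr I e) := by
  have hR : Reg f := H503R3.QCI.reg_of_isWeaklyRegular hreg.toIsWeaklyRegular
  obtain ⟨L, hL1, hL2⟩ := exists_lex hr hf hR (egr_main hr ha hm hF K f hf hR) hfI
  exact ⟨_, LS_upC hL1, fun u v hd huv hv => LS_lex hd huv hv, hL2⟩

theorem monomial_mem_MI {n : ℕ} {S : Set (Mo n)} (h : UpC S) {u : Fin n →₀ ℕ} :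
    monomial u (1 : K) ∈ MI K S ↔ (⇑u : Mo n) ∈ S := by
  classical
  rw [mem_MI h, support_monomial, if_neg one_ne_zero]
  simp

end Run7.H941.N
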