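import Pool.Agent.Run7.h941.NMain
import Pool.Agent.Run7.h941.NBound

/-!
The Eisenbud-Green-Harris conjecture when `a_i ≥ (a_1 - 1) + … + (a_{i-1} - 1)` from the fourth
term on.
-/

set_option autoImplicit false

namespace Run7.H941.N

open MvPolynomial Module
open H503R3.QCI (gr mem_gr NZD Reg Homog homog_span)

universe u

/-- weakly fast growing from the fourth term on -/
def FastW {r : ℕ} (a : Fin r → ℕ) : Prop :=
  ∀ i : Fin r, 3 ≤ i.val → ∑ j ∈ Finset.Iio i, (a j - 1) ≤ a i

theorem FastW.init {m : ℕ} {a : Fin (m + 1) → ℕ} (h : FastW a) : FastW (Fin.init a) := by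
  intro i hi
  have := h i.castSucc hi
  rw [sum_Iio_castSucc] at this
  exact this

theorem egrw_full : ∀ {r : ℕ} {a : Fin r → ℕ}, (∀ i, 2 ≤ a i) → Monotone a → FastW a →
    EGr.{u} r a := by
  intro r
  induction r with
  | zero => intro a _ _ _; exact EGr.zero a
  | succ m ih =>
    intro a ha2 hm hF
    have ha : ∀ i, 1 ≤ a i := fun i => by have := ha2 i; omega
    rcases Nat.lt_or_ge m 3 with hlt | hge
    · exact egr_full ha hm (fun i hi => absurd i.isLt (by omega))
    · obtain ⟨k, rfl⟩ : ∃ k, m = k + 2 := ⟨m - 2, by omega⟩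
      have h1 : EGr.{u} (k + 2) (Fin.init a) :=
        ih (fun i => ha2 _) (fun i j hij => hm (Fin.castSucc_le_castSucc_iff.mpr hij)) hF.init
      have h2 : EGr.{u} (k + 3) (Fin.init a) := h1.succ le_rfl (fun i => ha _)
      have h3 := hF (Fin.last (k + 2)) (by simpa using hge)
      rw [sum_Iio_last] at h3
      rcases Nat.lt_or_ge (∑ j : Fin (k + 2), (a j.castSucc - 1)) (a (Fin.last (k + 2)))
        with h4 | h4
      · exact EGr.full ha h4 h2
      · exact EGr.full_eq (by omega) ha2 (le_antisymm h3 h4) h2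

/-- The Eisenbud-Green-Harris growth inequality. -/
theorem egrw_main {n r : ℕ} (hr : r ≤ n) {a : Fin r → ℕ} (ha : ∀ i, 2 ≤ a i) (hm : Monotone a)
    (hF : FastW a) : EGr.{u} n a :=
  (egrw_full ha hm hF).of_le (fun i => by have := ha i; omega) hr

variable {K : Type u} [Field K]

/-- The Eisenbud-Green-Harris conjecture, ideal form. -/
theorem eghw_main {n r : ℕ} (hr : r ≤ n) {a : Fin r → ℕ} (ha : ∀ i, 2 ≤ a i) (hm : Monotone a)
    (hF : FastW a) {f : Fin r → MvPolynomial (Fin n) K} (hf : ∀ i, (f i).IsHomogeneous (a i))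
    (hreg : RingTheory.Sequence.IsRegular (MvPolynomial (Fin n) K) (List.ofFn f))
    {I : Ideal (MvPolynomial (Fin n) K)} (hfI : ∀ i, f i ∈ I) :
    ∃ S : Set (Mo n), UpC S ∧ (∀ u v, dg u = dg v → toLex v ≤ toLex u → v ∈ S → u ∈ S) ∧
      ∀ e, finrank K (gr (MI K S ⊔ PI K hr a) e) = finrank K (gr I e) := by
  have hR : Reg f := H503R3.QCI.reg_of_isWeaklyRegular hreg.toIsWeaklyRegular
  obtain ⟨L, hL1, hL2⟩ := exists_lex hr hf hR (egrw_main hr ha hm hF K f hf hR) hfI
  exact ⟨_, LS_upC hL1, fun u v hd huv hv => LS_lex hd huv hv, hL2⟩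

end Run7.H941.N
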