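import Pool.Agent.Run7.h941.NStab
import Pool.Agent.TH130.CI.Dep

/-!
Reduction modulo the first variable.
-/

set_option autoImplicit false

namespace Run7.H941.N

open MvPolynomial Module
open H503R3.QCI (gr mem_gr NZD Reg Homog homog_span finrank_map_of_inj)

variable {K : Type*} [Field K] {n : ℕ}

/-- coefficients with respect to the first variable -/
noncomputable def co : MvPolynomial (Fin (n + 1)) K →ₗ[K] BB n K where
  toFun := fun p t => (finSuccEquiv K n p).coeff t
  map_add' := by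
    intro a b
    funext t
    rw [map_add, Polynomial.coeff_add, Pi.add_apply]
  map_smul' := by
    intro c a
    funext t
    rw [map_smul, Polynomial.coeff_smul, Pi.smul_apply, RingHom.id_apply]

theorem co_apply (p : MvPolynomial (Fin (n + 1)) K) (t : ℕ) :
    co p t = (finSuccEquiv K n p).coeff t := rfl

theorem co_injective : Function.Injective (co (K := K) (n := n)) := by
  intro a b hab
  apply (finSuccEquiv K n).injective
  ext1 t
  exact congrFun hab t

theorem co_X0_mul (p : MvPolynomial (Fin (n + 1)) K) : co (X 0 * p) = shf (co p) := by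
  funext t
  rw [co_apply, map_mul, finSuccEquiv_X_zero]
  cases t with
  | zero => rw [Polynomial.coeff_X_mul_zero]; rfl
  | succ t => rw [Polynomial.coeff_X_mul]; rfl

theorem co_Xs_mul (i : Fin n) (p : MvPolynomial (Fin (n + 1)) K) :
    co (X i.succ * p) = mlv i (co p) := by
  funext t
  rw [co_apply, map_mul, finSuccEquiv_X_succ, Polynomial.coeff_C_mul]
  rfl

theorem co_mem_HB {q : ℕ} {p : MvPolynomial (Fin (n + 1)) K} (hp : p.IsHomogeneous q) :
    co p ∈ HB n K q := by
  intro t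
  refine ⟨fun ht => hp.finSuccEquiv_coeff_isHomogeneous t (q - t) (by omega), fun ht => ?_⟩
  apply Polynomial.coeff_eq_zero_of_natDegree_lt
  have h1 : (finSuccEquiv K n p).natDegree = degreeOf 0 p := natDegree_finSuccEquiv p
  exact lt_of_le_of_lt (h1.le.trans ((degreeOf_le_totalDegree _ _).trans hp.totalDegree_le)) ht

/-- setting the first variable to zero -/
noncomputable def pi0 : MvPolynomial (Fin (n + 1)) K →+* MvPolynomial (Fin n) K :=
  Polynomial.constantCoeff.comp (finSuccEquiv K n : MvPolynomial (Fin (n + 1)) K →+* _)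

theorem pi0_apply (p : MvPolynomial (Fin (n + 1)) K) : pi0 p = co p 0 := rfl

theorem pi0_surjective : Function.Surjective (pi0 (K := K) (n := n)) := by
  intro p
  obtain ⟨g, hg⟩ := (finSuccEquiv K n).surjective (Polynomial.C p)
  refine ⟨g, ?_⟩
  rw [pi0_apply, co_apply, hg, Polynomial.coeff_C_zero]

theorem exists_X0_pow {t : ℕ} {p : MvPolynomial (Fin (n + 1)) K} (h : ∀ u < t, co p u = 0) :
    ∃ g, p = X 0 ^ t * g := by
  obtain ⟨G, hG⟩ := Polynomial.X_pow_dvd_iff.mpr h
  obtain ⟨g, hg⟩ := (finSuccEquiv K n).surjective G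
  refine ⟨g, ?_⟩
  apply (finSuccEquiv K n).injective
  rw [map_mul, map_pow, finSuccEquiv_X_zero, hg]
  exact hG

theorem co_X0_pow_mul (t : ℕ) (p : MvPolynomial (Fin (n + 1)) K) :
    (∀ u < t, co (X 0 ^ t * p) u = 0) ∧ co (X 0 ^ t * p) t = pi0 p := by
  induction t with
  | zero =>
    rw [pow_zero, one_mul]
    exact ⟨fun u hu => by omega, rfl⟩
  | succ t ih =>
    rw [pow_succ', mul_assoc, co_X0_mul]
    refine ⟨fun u hu => ?_, ?_⟩
    · cases u with
      | zero => rfl
      | succ u => exact ih.1 u (by omega)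
    · exact ih.2

theorem pi0_hom {e : ℕ} {p : MvPolynomial (Fin (n + 1)) K} (hp : p.IsHomogeneous e) :
    (pi0 p).IsHomogeneous e := by
  have := (co_mem_HB hp 0).1 (Nat.zero_le e)
  rwa [Nat.sub_zero] at this

theorem pi0_hc (e : ℕ) (p : MvPolynomial (Fin (n + 1)) K) :
    pi0 (homogeneousComponent e p) = homogeneousComponent e (pi0 p) := by
  conv_rhs => rw [← sum_homogeneousComponent p, map_sum, map_sum]
  have h1 : ∀ i ∈ Finset.range (p.totalDegree + 1),
      homogeneousComponent e (pi0 (homogeneousComponent i p)) =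
        if i = e then pi0 (homogeneousComponent e p) else 0 := by
    intro i _
    rw [homogeneousComponent_of_mem (pi0_hom (homogeneousComponent_isHomogeneous i p))]
    by_cases h : i = e
    · subst h; simp
    · rw [if_neg (fun h' => h h'.symm), if_neg h]
  rw [Finset.sum_congr rfl h1, Finset.sum_ite_eq']
  split_ifs with h
  · rfl
  · rw [homogeneousComponent_eq_zero e p (by simpa using h), map_zero]

theorem exists_lift {J : Ideal (MvPolynomial (Fin (n + 1)) K)} (hJ : Homog J) {e : ℕ}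
    {p : MvPolynomial (Fin n) K} (hp : p ∈ gr (J.map pi0) e) :
    ∃ g ∈ gr J e, pi0 g = p := by
  obtain ⟨h1, h2⟩ := mem_gr.mp hp
  rw [Ideal.mem_map_iff_of_surjective _ pi0_surjective] at h1
  obtain ⟨g, hg, rfl⟩ := h1
  refine ⟨homogeneousComponent e g, mem_gr.mpr ⟨hJ g hg e,
    homogeneousComponent_isHomogeneous e g⟩, ?_⟩
  rw [pi0_hc, homogeneousComponent_of_mem h2, if_pos rfl]

theorem gr_le_sl_co {J : Ideal (MvPolynomial (Fin (n + 1)) K)} (hJ : Homog J) {q : ℕ}
    {V : Submodule K (MvPolynomial (Fin (n + 1)) K)} (hV : gr J q ≤ V) :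
    ∀ t ≤ q, gr (J.map pi0) (q - t) ≤ sl (V.map co) t := by
  intro t ht p hp
  obtain ⟨g, hg, rfl⟩ := exists_lift hJ hp
  obtain ⟨h1, h2⟩ := mem_gr.mp hg
  rw [mem_sl]
  obtain ⟨h3, h4⟩ := co_X0_pow_mul t g
  refine ⟨co (X 0 ^ t * g), Submodule.mem_map_of_mem (hV ?_), h3, h4⟩
  rw [mem_gr]
  refine ⟨Ideal.mul_mem_left _ _ h1, ?_⟩
  have := ((isHomogeneous_X K (0 : Fin (n + 1))).pow t).mul h2
  rwa [show 1 * t + (q - t) = q by omega] at this

theorem nzd_pow {J : Ideal (MvPolynomial (Fin (n + 1)) K)} (hz : NZD J (X 0)) (t : ℕ)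
    {g : MvPolynomial (Fin (n + 1)) K} (h : X 0 ^ t * g ∈ J) : g ∈ J := by
  induction t with
  | zero => rwa [pow_zero, one_mul] at h
  | succ t ih =>
    rw [pow_succ', mul_assoc] at h
    exact ih (hz _ h)

theorem sl_gr {J : Ideal (MvPolynomial (Fin (n + 1)) K)} (hJ : Homog J) (hz : NZD J (X 0))
    {q t : ℕ} (ht : t ≤ q) : sl ((gr J q).map co) t = gr (J.map pi0) (q - t) := by
  apply le_antisymm
  · intro p hp
    obtain ⟨_, ⟨v, hv, rfl⟩, h1, rfl⟩ := mem_sl.mp hp
    obtain ⟨g, rfl⟩ := exists_X0_pow h1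
    obtain ⟨h2, h3⟩ := mem_gr.mp hv
    refine mem_gr.mpr ⟨?_, (co_mem_HB h3 t).1 ht⟩
    rw [(co_X0_pow_mul t g).2]
    exact Ideal.mem_map_of_mem _ (nzd_pow hz t h2)
  · exact gr_le_sl_co hJ le_rfl t ht

theorem map_co_le {q : ℕ} {V : Submodule K (MvPolynomial (Fin (n + 1)) K)}
    (hV : V ≤ homogeneousSubmodule (Fin (n + 1)) K q) : V.map co ≤ HB n K q := by
  rintro _ ⟨p, hp, rfl⟩
  exact co_mem_HB (hV hp)

theorem finrank_map_co (V : Submodule K (MvPolynomial (Fin (n + 1)) K)) :
    finrank K (V.map co) = finrank K V := finrank_map_of_inj _ co_injective V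

theorem finrank_gr_eq {J : Ideal (MvPolynomial (Fin (n + 1)) K)} (hJ : Homog J)
    (hz : NZD J (X 0)) (q : ℕ) : finrank K (gr J q) =
      ∑ t ∈ Finset.range (q + 1), finrank K (gr (J.map pi0) (q - t)) := by
  have h0 : (gr J q).map co ≤ HB n K q := map_co_le inf_le_right
  rw [← finrank_map_co, finrank_eq_of_HB h0]
  apply Finset.sum_congr rfl
  intro t ht
  rw [sl_gr hJ hz (by rw [Finset.mem_range] at ht; omega)]

/-- the growth property lifts along a hyperplane section -/
theorem growth_of_X0 {J : Ideal (MvPolynomial (Fin (n + 1)) K)} {c : Fin n → ℕ∞}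
    (hJ : Homog J) (hz : NZD J (X 0)) (hG : Growth (J.map pi0) c)
    (hH : ∀ q, finrank K (homogeneousSubmodule (Fin n) K q) =
      finrank K (gr (J.map pi0) q) + (mons c q).card) :
    Growth J (Fin.snoc c ⊤) := by
  intro q V U h L hL hc
  have hB : BPair q (V.map co) (U.map co) := by
    refine ⟨map_co_le h.hV, map_co_le h.hU, ?_, ?_⟩
    · rintro _ ⟨p, hp, rfl⟩
      rw [← co_X0_mul]
      exact Submodule.mem_map_of_mem (h.hx p hp 0)
    · rintro _ ⟨p, hp, rfl⟩ i
      rw [← co_Xs_mul]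
      exact Submodule.mem_map_of_mem (h.hx p hp i.succ)
  have hGP := hB.slices (gr_le_sl_co hJ h.hJV) (gr_le_sl_co hJ h.hJU)
  have h1 := hGP.growth hG hH hL (by
    rw [← finrank_eq_of_HB hB.hV, finrank_map_co, ← finrank_gr_eq hJ hz]
    exact hc)
  have h2 : ∑ t ∈ Finset.range (q + 2), finrank K (sl (U.map co) t) = finrank K U := by
    rw [← finrank_eq_of_HB hB.hU, finrank_map_co]
  rw [h2, ← finrank_gr_eq hJ hz (q + 1)] at h1
  exact h1

/-! ### regular sequences -/

theorem ker_pi0 : RingHom.ker (pi0 (K := K) (n := n)) = Ideal.span {X 0} := by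
  ext p
  rw [RingHom.mem_ker, Ideal.mem_span_singleton']
  constructor
  · intro h
    obtain ⟨g, hg⟩ := exists_X0_pow (t := 1) (p := p) (by
      intro u hu
      obtain rfl : u = 0 := by omega
      exact h)
    exact ⟨g, by rw [hg, pow_one, mul_comm]⟩
  · rintro ⟨g, rfl⟩
    rw [map_mul]
    have : pi0 (X 0 : MvPolynomial (Fin (n + 1)) K) = 0 := by
      rw [pi0_apply, co_apply, finSuccEquiv_X_zero, Polynomial.coeff_X_zero]
    rw [this, mul_zero]

theorem map_span_pi0 (s : Set (MvPolynomial (Fin (n + 1)) K)) :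
    (Ideal.span s).map pi0 = Ideal.span (pi0 '' s) := Ideal.map_span _ _

theorem reg_pi0 {r : ℕ} {f : Fin r → MvPolynomial (Fin (n + 1)) K} {d : Fin r → ℕ}
    (hf : ∀ i, (f i).IsHomogeneous (d i)) (hd : ∀ i, 1 ≤ d i) (hreg : Reg f)
    (hz : NZD (Ideal.span (Set.range f)) (X 0)) : Reg (fun i => pi0 (f i)) := by
  classical
  have h1 := TH130CI.sreg_of_reg hf hd hreg
  have h2 := (TH130CI.sreg_ext hf hd h1 (isHomogeneous_X K (0 : Fin (n + 1)))
    (by rw [Finset.coe_univ, Set.image_univ]; exact hz)).2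
  intro i p hp
  obtain ⟨g, rfl⟩ := pi0_surjective p
  have e1 : (fun i => pi0 (f i)) '' {j | j < i} = pi0 '' (f '' {j | j < i}) := by
    rw [Set.image_image]
  rw [e1, ← map_span_pi0] at hp ⊢
  have h3 := h2 (Finset.univ.filter (fun j => j < i)) (Finset.filter_subset _ _) i
    (Finset.mem_univ _) (by simp)
  have e2 : ((Finset.univ.filter (fun j => j < i) : Finset (Fin r)) : Set (Fin r)) =
      {j | j < i} := by
    ext j; simp
  rw [e2] at h3
  have key : ∀ g, pi0 g ∈ (Ideal.span (f '' {j | j < i})).map pi0 ↔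
      g ∈ Ideal.span (f '' {j | j < i}) ⊔ Ideal.span {X 0} := by
    intro g
    rw [← Ideal.mem_comap, Ideal.comap_map_of_surjective _ pi0_surjective]
    have e3 : Ideal.comap (pi0 (K := K) (n := n)) ⊥ = Ideal.span {X 0} := ker_pi0
    rw [e3]
  rw [key]
  rw [← map_mul, key] at hp
  exact h3 g hp

end Run7.H941.N
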