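import Pool.Agent.Run7.h941.NLex
import Pool.Agent.H503R3.QCI.Hilb

/-!
Slices of spaces of polynomials in one more variable, and the elementary shear.
-/

set_option autoImplicit false

namespace Run7.H941.N

open MvPolynomial Module
open H503R3.QCI (gr mem_gr)

theorem finrank_map_add {K E E' : Type*} [Field K] [AddCommGroup E] [Module K E]
    [AddCommGroup E'] [Module K E'] (f : E →ₗ[K] E') (W : Submodule K E)
    [FiniteDimensional K W] :
    finrank K (W.map f) + finrank K ↥(W ⊓ LinearMap.ker f) = finrank K W := by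
  have h1 := LinearMap.finrank_range_add_finrank_ker (f.domRestrict W)
  have h2 : LinearMap.range (f.domRestrict W) = W.map f := LinearMap.range_domRestrict _ _
  have h3 : finrank K (LinearMap.ker (f.domRestrict W)) = finrank K ↥(W ⊓ LinearMap.ker f) := by
    rw [LinearMap.ker_domRestrict]
    have h4 : (Submodule.comap W.subtype (LinearMap.ker f)).map W.subtype =
        W ⊓ LinearMap.ker f := by
      rw [Submodule.map_comap_eq, Submodule.range_subtype]
    rw [← h4]
    exact (Submodule.equivMapOfInjective W.subtype W.injective_subtype _).finrank_eq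
  rw [h2, h3] at h1
  exact h1

variable {K : Type*} [Field K] {n : ℕ}

/-- sequences of polynomials -/
abbrev BB (n : ℕ) (K : Type*) [Field K] := ℕ → MvPolynomial (Fin n) K

/-- sequences starting at `t` -/
def FF (n : ℕ) (K : Type*) [Field K] (t : ℕ) : Submodule K (BB n K) where
  carrier := {v | ∀ u < t, v u = 0}
  add_mem' := by
    intro a b ha hb u hu
    rw [Pi.add_apply, ha u hu, hb u hu, add_zero]
  zero_mem' := by intro u _; rfl
  smul_mem' := by
    intro c a ha u hu
    rw [Pi.smul_apply, ha u hu, smul_zero]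

theorem mem_FF {t : ℕ} {v : BB n K} : v ∈ FF n K t ↔ ∀ u < t, v u = 0 := Iff.rfl

/-- the space of leading coefficients -/
noncomputable def sl (W : Submodule K (BB n K)) (t : ℕ) : Submodule K (MvPolynomial (Fin n) K) :=
  (W ⊓ FF n K t).map (LinearMap.proj t)

theorem mem_sl {W : Submodule K (BB n K)} {t : ℕ} {p : MvPolynomial (Fin n) K} :
    p ∈ sl W t ↔ ∃ v ∈ W, (∀ u < t, v u = 0) ∧ v t = p := by
  unfold sl
  rw [Submodule.mem_map]
  constructor
  · rintro ⟨v, ⟨h1, h2⟩, rfl⟩
    exact ⟨v, h1, h2, rfl⟩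
  · rintro ⟨v, h1, h2, rfl⟩
    exact ⟨v, ⟨h1, h2⟩, rfl⟩

theorem finrank_eq_sum_sl (W : Submodule K (BB n K)) [FiniteDimensional K W] (N : ℕ)
    (hN : ∀ w ∈ W, ∀ t, N ≤ t → w t = 0) :
    finrank K W = ∑ t ∈ Finset.range N, finrank K (sl W t) := by
  have key : ∀ m, m ≤ N → finrank K W =
      (∑ t ∈ Finset.range m, finrank K (sl W t)) + finrank K ↥(W ⊓ FF n K m) := by
    intro m
    induction m with
    | zero =>
      intro _
      have h0 : W ⊓ FF n K 0 = W := by
        rw [inf_eq_left]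
        intro w _ u hu
        omega
      rw [h0]
      simp
    | succ m ih =>
      intro hm
      rw [ih (by omega), Finset.sum_range_succ]
      have hfd : FiniteDimensional K ↥(W ⊓ FF n K m) := Submodule.finiteDimensional_inf_left _ _
      have h1 : finrank K (sl W m) + finrank K ↥(W ⊓ FF n K m ⊓ LinearMap.ker
          (LinearMap.proj (R := K) (φ := fun _ : ℕ => MvPolynomial (Fin n) K) m)) =
          finrank K ↥(W ⊓ FF n K m) := finrank_map_add _ (W ⊓ FF n K m)
      have h2 : W ⊓ FF n K m ⊓ LinearMap.ker (LinearMap.proj (R := K) (φ := fun _ : ℕ =>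
          MvPolynomial (Fin n) K) m) = W ⊓ FF n K (m + 1) := by
        ext w
        constructor
        · rintro ⟨⟨hw1, hw2⟩, hw3⟩
          refine ⟨hw1, fun u hu => ?_⟩
          rcases Nat.lt_succ_iff_lt_or_eq.mp hu with h | rfl
          · exact hw2 u h
          · exact hw3
        · rintro ⟨hw1, hw2⟩
          exact ⟨⟨hw1, fun u hu => hw2 u (by omega)⟩, hw2 m (by omega)⟩
      rw [h2] at h1
      omega
  have h1 := key N le_rfl
  have h2 : W ⊓ FF n K N = ⊥ := by
    rw [eq_bot_iff]
    rintro w ⟨hw1, hw2⟩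
    rw [Submodule.mem_bot]
    funext t
    rcases lt_or_ge t N with h | h
    · exact hw2 t h
    · exact hN w hw1 t h
  rw [h2, finrank_bot, add_zero] at h1
  exact h1

/-- the space with given slices -/
noncomputable def fam (G : ℕ → Submodule K (MvPolynomial (Fin n) K)) : Submodule K (BB n K) :=
  Submodule.pi Set.univ G

theorem mem_fam {G : ℕ → Submodule K (MvPolynomial (Fin n) K)} {v : BB n K} :
    v ∈ fam G ↔ ∀ t, v t ∈ G t := by
  unfold fam
  rw [Submodule.mem_pi]
  simp

theorem single_mem_fam {G : ℕ → Submodule K (MvPolynomial (Fin n) K)} {t : ℕ}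
    {p : MvPolynomial (Fin n) K} (hp : p ∈ G t) : (Pi.single t p : BB n K) ∈ fam G := by
  rw [mem_fam]
  intro u
  by_cases h : u = t
  · subst h; rw [Pi.single_eq_same]; exact hp
  · rw [Pi.single_eq_of_ne h]; exact zero_mem _

theorem sl_fam (G : ℕ → Submodule K (MvPolynomial (Fin n) K)) (t : ℕ) : sl (fam G) t = G t := by
  ext p
  rw [mem_sl]
  constructor
  · rintro ⟨v, hv, _, rfl⟩
    exact mem_fam.mp hv t
  · intro hp
    refine ⟨Pi.single t p, single_mem_fam hp, fun u hu => Pi.single_eq_of_ne (ne_of_lt hu) _,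
      Pi.single_eq_same _ _⟩

/-- homogeneous sequences of degree `q` -/
def HB (n : ℕ) (K : Type*) [Field K] (q : ℕ) : Submodule K (BB n K) where
  carrier := {v | ∀ t, (t ≤ q → (v t).IsHomogeneous (q - t)) ∧ (q < t → v t = 0)}
  add_mem' := by
    intro a b ha hb t
    refine ⟨fun h => ((ha t).1 h).add ((hb t).1 h), fun h => ?_⟩
    rw [Pi.add_apply, (ha t).2 h, (hb t).2 h, add_zero]
  zero_mem' := by
    intro t
    exact ⟨fun _ => isHomogeneous_zero _ _ _, fun _ => rfl⟩
  smul_mem' := by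
    intro c a ha t
    refine ⟨fun h => ?_, fun h => ?_⟩
    · exact Submodule.smul_mem (homogeneousSubmodule (Fin n) K (q - t)) c ((ha t).1 h)
    · rw [Pi.smul_apply, (ha t).2 h, smul_zero]

theorem mem_HB {q : ℕ} {v : BB n K} :
    v ∈ HB n K q ↔ ∀ t, (t ≤ q → (v t).IsHomogeneous (q - t)) ∧ (q < t → v t = 0) := Iff.rfl

instance finite_HB (q : ℕ) : FiniteDimensional K (HB n K q) := by
  let f : HB n K q →ₗ[K] (∀ t : Fin (q + 1), homogeneousSubmodule (Fin n) K (q - t)) :=
    { toFun := fun v t => ⟨v.1 t.1, (v.2 t.1).1 (by omega)⟩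
      map_add' := by intro a b; rfl
      map_smul' := by intro c a; rfl }
  have : ∀ t : Fin (q + 1), FiniteDimensional K (homogeneousSubmodule (Fin n) K (q - t)) :=
    fun t => inferInstance
  apply Module.Finite.of_injective f
  intro a b hab
  apply Subtype.ext
  funext t
  rcases le_or_gt t q with h | h
  · have := congrFun hab ⟨t, by omega⟩
    exact congrArg Subtype.val this
  · rw [(a.2 t).2 h, (b.2 t).2 h]

theorem finite_of_le_HB {q : ℕ} {W : Submodule K (BB n K)} (h : W ≤ HB n K q) :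
    FiniteDimensional K W := Submodule.finiteDimensional_of_le h

theorem finrank_eq_of_HB {q : ℕ} {W : Submodule K (BB n K)} (h : W ≤ HB n K q) :
    finrank K W = ∑ t ∈ Finset.range (q + 1), finrank K (sl W t) := by
  have := finite_of_le_HB h
  exact finrank_eq_sum_sl W (q + 1) (fun w hw t ht => ((h hw) t).2 (by omega))

theorem sl_le {q : ℕ} {W : Submodule K (BB n K)} (h : W ≤ HB n K q) {t : ℕ} (ht : t ≤ q) :
    sl W t ≤ homogeneousSubmodule (Fin n) K (q - t) := by
  intro p hp
  obtain ⟨v, hv, _, rfl⟩ := mem_sl.mp hp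
  exact ((h hv) t).1 ht

theorem sl_eq_bot {q : ℕ} {W : Submodule K (BB n K)} (h : W ≤ HB n K q) {t : ℕ} (ht : q < t) :
    sl W t = ⊥ := by
  rw [eq_bot_iff]
  intro p hp
  obtain ⟨v, hv, _, rfl⟩ := mem_sl.mp hp
  rw [Submodule.mem_bot]
  exact ((h hv) t).2 ht

/-- multiplication by the new variable -/
noncomputable def shf (v : BB n K) : BB n K := fun t => match t with
  | 0 => 0
  | t + 1 => v t

@[simp] theorem shf_zero (v : BB n K) : shf v 0 = 0 := rfl
@[simp] theorem shf_succ (v : BB n K) (t : ℕ) : shf v (t + 1) = v t := rfl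

/-- multiplication by an old variable -/
noncomputable def mlv (i : Fin n) (v : BB n K) : BB n K := fun t => X i * v t

@[simp] theorem mlv_apply (i : Fin n) (v : BB n K) (t : ℕ) : mlv i v t = X i * v t := rfl

/-- a pair of spaces of sequences in consecutive degrees -/
structure BPair (q : ℕ) (V U : Submodule K (BB n K)) : Prop where
  hV : V ≤ HB n K q
  hU : U ≤ HB n K (q + 1)
  hs : ∀ v ∈ V, shf v ∈ U
  hx : ∀ v ∈ V, ∀ i, mlv i v ∈ U

/-- a pair of families of slices -/
structure GPair (J : Ideal (MvPolynomial (Fin n) K)) (q : ℕ)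
    (V U : ℕ → Submodule K (MvPolynomial (Fin n) K)) : Prop where
  hV : ∀ t ≤ q, V t ≤ homogeneousSubmodule (Fin n) K (q - t)
  hV0 : ∀ t, q < t → V t = ⊥
  hU : ∀ t ≤ q + 1, U t ≤ homogeneousSubmodule (Fin n) K (q + 1 - t)
  hU0 : ∀ t, q + 1 < t → U t = ⊥
  hs : ∀ t, V t ≤ U (t + 1)
  hx : ∀ t, ∀ p ∈ V t, ∀ i, X i * p ∈ U t
  hJV : ∀ t ≤ q, gr J (q - t) ≤ V t
  hJU : ∀ t ≤ q + 1, gr J (q + 1 - t) ≤ U t

theorem BPair.slices {q : ℕ} {V U : Submodule K (BB n K)} (h : BPair q V U)
    {J : Ideal (MvPolynomial (Fin n) K)}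
    (hJV : ∀ t ≤ q, gr J (q - t) ≤ sl V t) (hJU : ∀ t ≤ q + 1, gr J (q + 1 - t) ≤ sl U t) :
    GPair J q (sl V) (sl U) where
  hV := fun t ht => sl_le h.hV ht
  hV0 := fun t ht => sl_eq_bot h.hV ht
  hU := fun t ht => sl_le h.hU ht
  hU0 := fun t ht => sl_eq_bot h.hU ht
  hs := by
    intro t p hp
    obtain ⟨v, hv, h1, rfl⟩ := mem_sl.mp hp
    rw [mem_sl]
    refine ⟨shf v, h.hs v hv, ?_, rfl⟩
    intro u hu
    cases u with
    | zero => rfl
    | succ u => exact h1 u (by omega)
  hx := by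
    intro t p hp i
    obtain ⟨v, hv, h1, rfl⟩ := mem_sl.mp hp
    rw [mem_sl]
    refine ⟨mlv i v, h.hx v hv i, ?_, rfl⟩
    intro u hu
    rw [mlv_apply, h1 u hu, mul_zero]
  hJV := hJV
  hJU := hJU

theorem fam_le_HB {q : ℕ} {V : ℕ → Submodule K (MvPolynomial (Fin n) K)}
    (h1 : ∀ t ≤ q, V t ≤ homogeneousSubmodule (Fin n) K (q - t)) (h2 : ∀ t, q < t → V t = ⊥) :
    fam V ≤ HB n K q := by
  intro v hv t
  have h := mem_fam.mp hv t
  refine ⟨fun ht => h1 t ht h, fun ht => ?_⟩
  rw [h2 t ht, Submodule.mem_bot] at h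
  exact h

/-- the shear `z^t ↦ z^t` for `t ≤ s` and `z^t ↦ z^t - x_j z^(t-1)` for `t > s` -/
noncomputable def Th (s : ℕ) (j : Fin n) : BB n K →ₗ[K] BB n K where
  toFun := fun v t => if t < s then v t else v t - X j * v (t + 1)
  map_add' := by
    intro a b
    funext t
    simp only [Pi.add_apply]
    split_ifs
    · rfl
    · ring
  map_smul' := by
    intro c a
    funext t
    simp only [Pi.smul_apply, RingHom.id_apply]
    split_ifs
    · rfl
    · rw [smul_sub, mul_smul_comm]

theorem Th_lt {s : ℕ} {j : Fin n} {v : BB n K} {t : ℕ} (h : t < s) : Th s j v t = v t := by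
  change (if t < s then v t else v t - X j * v (t + 1)) = _
  rw [if_pos h]

theorem Th_ge {s : ℕ} {j : Fin n} {v : BB n K} {t : ℕ} (h : s ≤ t) :
    Th s j v t = v t - X j * v (t + 1) := by
  change (if t < s then v t else v t - X j * v (t + 1)) = _
  rw [if_neg (by omega)]

theorem Th_mem_HB {s : ℕ} {j : Fin n} {q : ℕ} {v : BB n K} (h : v ∈ HB n K q) :
    Th s j v ∈ HB n K q := by
  intro t
  rcases lt_or_ge t s with hts | hts
  · rw [Th_lt hts]; exact h t
  · rw [Th_ge hts]
    refine ⟨fun ht => ?_, fun ht => ?_⟩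
    · rcases lt_or_eq_of_le ht with h1 | h1
      · apply ((h t).1 ht).sub
        have h2 := (isHomogeneous_X K j).mul ((h (t + 1)).1 (by omega))
        rwa [show 1 + (q - (t + 1)) = q - t by omega] at h2
      · rw [(h (t + 1)).2 (by omega), mul_zero, sub_zero]
        exact (h t).1 ht
    · rw [(h t).2 ht, (h (t + 1)).2 (by omega), mul_zero, sub_zero]

theorem Th_injOn {s : ℕ} {j : Fin n} {q : ℕ} {v : BB n K} (h : v ∈ HB n K q)
    (h0 : Th s j v = 0) : v = 0 := by
  have key : ∀ m, ∀ t, q + 1 ≤ t + m → v t = 0 := by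
    intro m
    induction m with
    | zero =>
      intro t ht
      exact (h t).2 (by omega)
    | succ m ih =>
      intro t ht
      have h1 := congrFun h0 t
      rcases lt_or_ge t s with hts | hts
      · rw [Th_lt hts] at h1; exact h1
      · rw [Th_ge hts, ih (t + 1) (by omega), mul_zero, sub_zero] at h1
        exact h1
  funext t
  exact key (q + 1) t (by omega)

theorem finrank_map_Th {s : ℕ} {j : Fin n} {q : ℕ} {W : Submodule K (BB n K)}
    (h : W ≤ HB n K q) : finrank K (W.map (Th s j)) = finrank K W := by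
  have := finite_of_le_HB h
  have h1 := finrank_map_add (Th s j) W
  have h2 : W ⊓ LinearMap.ker (Th s j) = ⊥ := by
    rw [eq_bot_iff]
    rintro w ⟨hw1, hw2⟩
    rw [Submodule.mem_bot]
    exact Th_injOn (h hw1) hw2
  rw [h2, finrank_bot, add_zero] at h1
  exact h1

theorem Th_mlv (s : ℕ) (j i : Fin n) (v : BB n K) : Th s j (mlv i v) = mlv i (Th s j v) := by
  funext t
  rcases lt_or_ge t s with hts | hts
  · rw [Th_lt hts, mlv_apply, mlv_apply, Th_lt hts]
  · rw [Th_ge hts, mlv_apply, mlv_apply, mlv_apply, Th_ge hts]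
    ring

theorem Th_single_of_le {s : ℕ} {j : Fin n} {t : ℕ} (h : t ≤ s) (p : MvPolynomial (Fin n) K) :
    Th s j (Pi.single t p : BB n K) = Pi.single t p := by
  funext u
  rcases lt_or_ge u s with hus | hus
  · rw [Th_lt hus]
  · rw [Th_ge hus, Pi.single_eq_of_ne (show u + 1 ≠ t by omega), mul_zero, sub_zero]

theorem shf_Th (s : ℕ) (j : Fin n) (v : BB n K) :
    shf (Th s j v) = Th s j (shf v + Pi.single s (X j * v s)) := by
  rw [map_add, Th_single_of_le le_rfl]
  funext t
  rw [Pi.add_apply]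
  rcases lt_or_ge t s with hts | hts
  · rw [Th_lt hts, Pi.single_eq_of_ne (ne_of_lt hts), add_zero]
    cases t with
    | zero => rfl
    | succ t => rw [shf_succ, shf_succ, Th_lt (by omega)]
  · rw [Th_ge hts, shf_succ]
    rcases eq_or_lt_of_le hts with h | h
    · subst h
      rw [Pi.single_eq_same, sub_add_cancel]
      cases s with
      | zero => rfl
      | succ s => rw [shf_succ, shf_succ, Th_lt (by omega)]
    · rw [Pi.single_eq_of_ne (ne_of_gt h), add_zero]
      obtain ⟨t, rfl⟩ : ∃ t', t = t' + 1 := ⟨t - 1, by omega⟩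
      rw [shf_succ, shf_succ, Th_ge (by omega)]

/-- the shear of a graded pair -/
theorem GPair.shear {J : Ideal (MvPolynomial (Fin n) K)} {q : ℕ}
    {V U : ℕ → Submodule K (MvPolynomial (Fin n) K)} (h : GPair J q V U) (s : ℕ) (j : Fin n) :
    BPair q ((fam V).map (Th s j)) ((fam U).map (Th s j)) where
  hV := by
    rintro _ ⟨v, hv, rfl⟩
    exact Th_mem_HB (fam_le_HB h.hV h.hV0 hv)
  hU := by
    rintro _ ⟨v, hv, rfl⟩
    exact Th_mem_HB (fam_le_HB h.hU h.hU0 hv)
  hs := by
    rintro _ ⟨v, hv, rfl⟩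
    rw [shf_Th]
    refine Submodule.mem_map_of_mem (add_mem ?_ ?_)
    · rw [mem_fam]
      intro t
      cases t with
      | zero => exact zero_mem _
      | succ t => exact h.hs t (mem_fam.mp hv t)
    · exact single_mem_fam (h.hx s _ (mem_fam.mp hv s) j)
  hx := by
    rintro _ ⟨v, hv, rfl⟩ i
    rw [← Th_mlv]
    refine Submodule.mem_map_of_mem ?_
    rw [mem_fam]
    intro t
    exact h.hx t _ (mem_fam.mp hv t) i

/-- the ideal stays inside the slices of the shear -/
theorem gr_le_sl_Th {J : Ideal (MvPolynomial (Fin n) K)} {q : ℕ}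
    {V : ℕ → Submodule K (MvPolynomial (Fin n) K)} (hJ : ∀ t ≤ q, gr J (q - t) ≤ V t)
    (s : ℕ) (j : Fin n) : ∀ t ≤ q, gr J (q - t) ≤ sl ((fam V).map (Th s j)) t := by
  intro t ht p hp
  rw [mem_sl]
  -- the preimage
  let w : BB n K := fun u => if s ≤ u ∧ u ≤ t then X j ^ (t - u) * p else
    if u = t then p else 0
  have hw : ∀ u, w u ∈ V u := by
    intro u
    change (if s ≤ u ∧ u ≤ t then X j ^ (t - u) * p else if u = t then p else 0) ∈ V u
    split_ifs with h1 h2
    · apply hJ u (by omega)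
      obtain ⟨h3, h4⟩ := mem_gr.mp hp
      rw [mem_gr]
      refine ⟨Ideal.mul_mem_left _ _ h3, ?_⟩
      have h5 := ((isHomogeneous_X K j).pow (t - u)).mul h4
      rwa [show 1 * (t - u) + (q - t) = q - u by omega] at h5
    · subst h2
      exact hJ u ht hp
    · exact zero_mem _
  refine ⟨Th s j w, Submodule.mem_map_of_mem (mem_fam.mpr hw), ?_, ?_⟩
  · intro u hu
    rcases lt_or_ge u s with hus | hus
    · rw [Th_lt hus]
      change (if s ≤ u ∧ u ≤ t then X j ^ (t - u) * p else if u = t then p else 0) = 0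
      rw [if_neg (by omega), if_neg (by omega)]
    · rw [Th_ge hus]
      change (if s ≤ u ∧ u ≤ t then X j ^ (t - u) * p else if u = t then p else 0) -
        X j * (if s ≤ u + 1 ∧ u + 1 ≤ t then X j ^ (t - (u + 1)) * p else
          if u + 1 = t then p else 0) = 0
      rw [if_pos ⟨hus, hu.le⟩, if_pos ⟨by omega, by omega⟩,
        show t - u = (t - (u + 1)) + 1 by omega, pow_succ]
      ring
  · rcases lt_or_ge t s with hts | hts
    · rw [Th_lt hts]
      change (if s ≤ t ∧ t ≤ t then X j ^ (t - t) * p else if t = t then p else 0) = p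
      rw [if_neg (by omega), if_pos rfl]
    · rw [Th_ge hts]
      change (if s ≤ t ∧ t ≤ t then X j ^ (t - t) * p else if t = t then p else 0) -
        X j * (if s ≤ t + 1 ∧ t + 1 ≤ t then X j ^ (t - (t + 1)) * p else
          if t + 1 = t then p else 0) = p
      rw [if_pos ⟨hts, le_rfl⟩, if_neg (by omega), if_neg (by omega)]
      simp

theorem le_sl_Th {V : ℕ → Submodule K (MvPolynomial (Fin n) K)} {s t : ℕ} (j : Fin n)
    (hts : t ≤ s) : V t ≤ sl ((fam V).map (Th s j)) t := by
  intro p hp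
  rw [mem_sl]
  have h1 : Th s j (Pi.single t p) ∈ (fam V).map (Th s j) :=
    Submodule.mem_map_of_mem (single_mem_fam hp)
  rw [Th_single_of_le hts p] at h1
  exact ⟨Pi.single t p, h1, fun u hu => Pi.single_eq_of_ne (ne_of_lt hu) _,
    Pi.single_eq_same _ _⟩

theorem mul_mem_sl_Th {V : ℕ → Submodule K (MvPolynomial (Fin n) K)} {s : ℕ} {j : Fin n}
    {p : MvPolynomial (Fin n) K} (hp : p ∈ V (s + 1)) :
    X j * p ∈ sl ((fam V).map (Th s j)) s := by
  have h1 : Th s j (Pi.single (s + 1) p) ∈ (fam V).map (Th s j) :=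
    Submodule.mem_map_of_mem (single_mem_fam hp)
  rw [mem_sl]
  refine ⟨-(Th s j (Pi.single (s + 1) p)), neg_mem h1, ?_, ?_⟩
  · intro u hu
    have h2 : Th s j (Pi.single (s + 1) p : BB n K) u = 0 := by
      rw [Th_lt hu]
      exact Pi.single_eq_of_ne (show u ≠ s + 1 by omega) _
    rw [Pi.neg_apply, h2, neg_zero]
  · have h2 : Th s j (Pi.single (s + 1) p : BB n K) s = -(X j * p) := by
      rw [Th_ge le_rfl]
      have h3 : (Pi.single (s + 1) p : BB n K) s = 0 :=
        Pi.single_eq_of_ne (show s ≠ s + 1 by omega) _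
      have h4 : (Pi.single (s + 1) p : BB n K) (s + 1) = p := Pi.single_eq_same _ _
      rw [h3, h4, zero_sub]
    rw [Pi.neg_apply, h2, neg_neg]

end Run7.H941.N
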