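import Pool.Agent.Run7.h941.NSlice

/-!
Stabilisation: the growth inequality for graded families of slices.
-/

set_option autoImplicit false

namespace Run7.H941.N

open MvPolynomial Module
open H503R3.QCI (gr mem_gr)

variable {K : Type*} [Field K] {n : ℕ}

/-- a pair of spaces of forms in consecutive degrees -/
structure Pair (J : Ideal (MvPolynomial (Fin n) K)) (q : ℕ)
    (V U : Submodule K (MvPolynomial (Fin n) K)) : Prop where
  hV : V ≤ homogeneousSubmodule (Fin n) K q
  hU : U ≤ homogeneousSubmodule (Fin n) K (q + 1)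
  hx : ∀ p ∈ V, ∀ i, X i * p ∈ U
  hJV : gr J q ≤ V
  hJU : gr J (q + 1) ≤ U

/-- the growth property -/
def Growth (J : Ideal (MvPolynomial (Fin n) K)) (c : Fin n → ℕ∞) : Prop :=
  ∀ (q : ℕ) (V U : Submodule K (MvPolynomial (Fin n) K)), Pair J q V U →
    ∀ L, Ini c q L → L.card + finrank K (gr J q) ≤ finrank K V →
      (up c L).card + finrank K (gr J (q + 1)) ≤ finrank K U

theorem lexnum {q s m : ℕ} (hs : s ≤ q) (v v' : ℕ → ℕ) (h1 : ∀ t < s, v t ≤ v' t)
    (h2 : v s < v' s) (hm : ∑ t ∈ Finset.range (q + 1), v t ≤ m) :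
    ∑ t ∈ Finset.range (q + 1), v t * (m + 1) ^ (q - t) <
      ∑ t ∈ Finset.range (q + 1), v' t * (m + 1) ^ (q - t) := by
  have split : ∀ w : ℕ → ℕ, ∑ t ∈ Finset.range (q + 1), w t =
      (∑ t ∈ Finset.range s, w t) + w s + ∑ t ∈ Finset.Ico (s + 1) (q + 1), w t := by
    intro w
    rw [← Finset.sum_range_succ, Finset.range_eq_Ico, Finset.range_eq_Ico,
      Finset.sum_Ico_consecutive _ (by omega) (by omega)]
  rw [split, split]
  have e1 : ∑ t ∈ Finset.range s, v t * (m + 1) ^ (q - t) ≤
      ∑ t ∈ Finset.range s, v' t * (m + 1) ^ (q - t) :=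
    Finset.sum_le_sum fun t ht => Nat.mul_le_mul_right _ (h1 t (Finset.mem_range.mp ht))
  have e2 : v s * (m + 1) ^ (q - s) + (m + 1) ^ (q - s) ≤ v' s * (m + 1) ^ (q - s) := by
    have := Nat.mul_le_mul_right ((m + 1) ^ (q - s)) h2
    rw [Nat.succ_mul] at this
    exact this
  have e3 : ∑ t ∈ Finset.Ico (s + 1) (q + 1), v t * (m + 1) ^ (q - t) < (m + 1) ^ (q - s) := by
    rcases eq_or_lt_of_le hs with h | h
    · subst h
      simp
    · have e4 : ∑ t ∈ Finset.Ico (s + 1) (q + 1), v t * (m + 1) ^ (q - t) ≤
          ∑ t ∈ Finset.Ico (s + 1) (q + 1), v t * (m + 1) ^ (q - s - 1) := by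
        apply Finset.sum_le_sum
        intro t ht
        rw [Finset.mem_Ico] at ht
        exact Nat.mul_le_mul_left _ (Nat.pow_le_pow_right (by omega) (by omega))
      rw [← Finset.sum_mul] at e4
      have e5 : ∑ t ∈ Finset.Ico (s + 1) (q + 1), v t ≤ m := by
        have := split v
        omega
      have e6 : (m + 1) ^ (q - s) = (m + 1) ^ (q - s - 1) * (m + 1) := by
        rw [← pow_succ]
        congr 1
        omega
      have e7 : 0 < (m + 1) ^ (q - s - 1) := by positivity
      calc _ ≤ _ := e4
        _ ≤ m * (m + 1) ^ (q - s - 1) := Nat.mul_le_mul_right _ e5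
        _ < _ := by rw [e6]; nlinarith
  omega

theorem finrank_le_hom {q : ℕ} {V : Submodule K (MvPolynomial (Fin n) K)}
    (h : V ≤ homogeneousSubmodule (Fin n) K q) :
    finrank K V ≤ finrank K (homogeneousSubmodule (Fin n) K q) :=
  Submodule.finrank_mono h

/-- the stable case -/
theorem GPair.growth_stable {J : Ideal (MvPolynomial (Fin n) K)} {c : Fin n → ℕ∞}
    (hG : Growth J c)
    (hH : ∀ q, finrank K (homogeneousSubmodule (Fin n) K q) =
      finrank K (gr J q) + (mons c q).card) {q : ℕ}
    {V U : ℕ → Submodule K (MvPolynomial (Fin n) K)} (h : GPair J q V U)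
    (hst : ∀ t, ∀ p ∈ V (t + 1), ∀ j, X j * p ∈ V t)
    {L : Finset (Mo (n + 1))} (hL : Ini (Fin.snoc c ⊤) q L)
    (hc : L.card + ∑ t ∈ Finset.range (q + 1), finrank K (gr J (q - t)) ≤
      ∑ t ∈ Finset.range (q + 1), finrank K (V t)) :
    (up (Fin.snoc c ⊤) L).card + ∑ t ∈ Finset.range (q + 2), finrank K (gr J (q + 1 - t)) ≤
      ∑ t ∈ Finset.range (q + 2), finrank K (U t) := by
  classical
  have hcard := card_eq_sum_sli hL.last_le
  -- iterated growth
  have iter : ∀ t ≤ q, ∀ M, Ini c (q - t) M → M.card + finrank K (gr J (q - t)) ≤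
      finrank K (V t) → ∀ i ≤ t, Ini c (q - (t - i)) ((up c)^[i] M) ∧
        ((up c)^[i] M).card + finrank K (gr J (q - (t - i))) ≤ finrank K (V (t - i)) := by
    intro t ht M hM hMc i
    induction i with
    | zero => intro _; exact ⟨hM, hMc⟩
    | succ i ih =>
      intro hi
      obtain ⟨ih1, ih2⟩ := ih (by omega)
      rw [Function.iterate_succ_apply']
      have e1 : q - (t - (i + 1)) = q - (t - i) + 1 := by omega
      have e2 : t - i = (t - (i + 1)) + 1 := by omega
      refine ⟨by rw [e1]; exact ih1.up, ?_⟩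
      have hp : Pair J (q - (t - i)) (V (t - i)) (V (t - (i + 1))) := by
        refine ⟨h.hV _ (by omega), ?_, ?_, h.hJV _ (by omega), ?_⟩
        · rw [← e1]; exact h.hV _ (by omega)
        · intro p hp j
          apply hst
          rw [← e2]; exact hp
        · rw [← e1]; exact h.hJV _ (by omega)
      have := hG _ _ _ hp _ ih1 ih2
      rw [e1]
      exact this
  -- the bottom slice
  have hbot : (sli L 0).card + finrank K (gr J q) ≤ finrank K (V 0) := by
    by_contra hcon
    push Not at hcon
    have hex : ∃ t ∈ Finset.range (q + 1),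
        (sli L t).card + finrank K (gr J (q - t)) < finrank K (V t) := by
      by_contra hne
      push Not at hne
      have h1 : ∑ t ∈ Finset.range (q + 1), finrank K (V t) <
          ∑ t ∈ Finset.range (q + 1), ((sli L t).card + finrank K (gr J (q - t))) :=
        Finset.sum_lt_sum hne ⟨0, by simp, hcon⟩
      rw [Finset.sum_add_distrib] at h1
      omega
    obtain ⟨t, ht, htlt⟩ := hex
    have htq : t ≤ q := by rw [Finset.mem_range] at ht; omega
    have hI := hL.sli htq
    have h1 := finrank_le_hom (h.hV t htq)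
    rw [hH] at h1
    obtain ⟨w, hw1, hw2, hw3, hw4⟩ := hI.insert (by omega)
    have h2 := iter t htq _ hw4 (by rw [Finset.card_insert_of_notMem hw1]; omega) t le_rfl
    rw [Nat.sub_self, Nat.sub_zero] at h2
    have h3 := sli_zero_subset hL htq hw4 (Finset.mem_insert_self _ _) hw1
    have h4 := Finset.card_le_card h3
    omega
  have hp : Pair J q (V 0) (U 0) := by
    refine ⟨?_, ?_, h.hx 0, ?_, ?_⟩
    · simpa using h.hV 0 (by omega)
    · simpa using h.hU 0 (by omega)
    · simpa using h.hJV 0 (by omega)
    · simpa using h.hJU 0 (by omega)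
  have h0 := hG q _ _ hp _ (by simpa using hL.sli (Nat.zero_le q)) hbot
  have h1 := card_up_le hL
  have h2 : ∑ t ∈ Finset.range (q + 1), finrank K (V t) ≤
      ∑ t ∈ Finset.range (q + 1), finrank K (U (t + 1)) := by
    apply Finset.sum_le_sum
    intro t ht
    rw [Finset.mem_range] at ht
    have := h.hU (t + 1) (by omega)
    have : FiniteDimensional K (U (t + 1)) := Submodule.finiteDimensional_of_le this
    exact Submodule.finrank_mono (h.hs t)
  rw [Finset.sum_range_succ' (fun t => finrank K (gr J (q + 1 - t))),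
    Finset.sum_range_succ' (fun t => finrank K (U t))]
  have h3 : ∑ t ∈ Finset.range (q + 1), finrank K (gr J (q + 1 - (t + 1))) =
      ∑ t ∈ Finset.range (q + 1), finrank K (gr J (q - t)) :=
    Finset.sum_congr rfl fun t _ => by rw [show q + 1 - (t + 1) = q - t by omega]
  rw [h3, Nat.sub_zero]
  omega

/-- the general case, by stabilisation -/
theorem GPair.growth {J : Ideal (MvPolynomial (Fin n) K)} {c : Fin n → ℕ∞}
    (hG : Growth J c)
    (hH : ∀ q, finrank K (homogeneousSubmodule (Fin n) K q) =
      finrank K (gr J q) + (mons c q).card) {q : ℕ}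
    {V U : ℕ → Submodule K (MvPolynomial (Fin n) K)} (h : GPair J q V U)
    {L : Finset (Mo (n + 1))} (hL : Ini (Fin.snoc c ⊤) q L)
    (hc : L.card + ∑ t ∈ Finset.range (q + 1), finrank K (gr J (q - t)) ≤
      ∑ t ∈ Finset.range (q + 1), finrank K (V t)) :
    (up (Fin.snoc c ⊤) L).card + ∑ t ∈ Finset.range (q + 2), finrank K (gr J (q + 1 - t)) ≤
      ∑ t ∈ Finset.range (q + 2), finrank K (U t) := by
  classical
  obtain ⟨m, hm⟩ : ∃ m, ∑ t ∈ Finset.range (q + 1), finrank K (V t) = m := ⟨_, rfl⟩
  obtain ⟨k, hk⟩ : ∃ k, m * (m + 1) ^ q ≤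
      ∑ t ∈ Finset.range (q + 1), finrank K (V t) * (m + 1) ^ (q - t) + k :=
    ⟨m * (m + 1) ^ q, Nat.le_add_left _ _⟩
  induction k using Nat.strong_induction_on generalizing V U with
  | _ k ih =>
    by_cases hst : ∀ t, ∀ p ∈ V (t + 1), ∀ j, X j * p ∈ V t
    · exact h.growth_stable hG hH hst hL hc
    · push Not at hst
      obtain ⟨s, p, hp, j, hpj⟩ := hst
      have hsq : s + 1 ≤ q := by
        by_contra hcon
        rw [h.hV0 (s + 1) (by omega), Submodule.mem_bot] at hp
        subst hp
        apply hpj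
        rw [mul_zero]
        exact zero_mem _
      have hVle := fam_le_HB h.hV h.hV0
      have hUle := fam_le_HB h.hU h.hU0
      have hB := h.shear s j
      have hG' : GPair J q (sl ((fam V).map (Th s j))) (sl ((fam U).map (Th s j))) :=
        hB.slices (gr_le_sl_Th h.hJV s j) (gr_le_sl_Th h.hJU s j)
      have hsV : ∑ t ∈ Finset.range (q + 1), finrank K (sl ((fam V).map (Th s j)) t) =
          ∑ t ∈ Finset.range (q + 1), finrank K (V t) := by
        rw [← finrank_eq_of_HB hB.hV, finrank_map_Th hVle, finrank_eq_of_HB hVle]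
        apply Finset.sum_congr rfl
        intro t _
        rw [sl_fam]
      have hsU : ∑ t ∈ Finset.range (q + 2), finrank K (sl ((fam U).map (Th s j)) t) =
          ∑ t ∈ Finset.range (q + 2), finrank K (U t) := by
        rw [← finrank_eq_of_HB hB.hU, finrank_map_Th hUle, finrank_eq_of_HB hUle]
        apply Finset.sum_congr rfl
        intro t _
        rw [sl_fam]
      have hfin : ∀ t, FiniteDimensional K (sl ((fam V).map (Th s j)) t) := by
        intro t
        rcases le_or_gt t q with ht | ht
        · exact Submodule.finiteDimensional_of_le (sl_le hB.hV ht)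
        · rw [sl_eq_bot hB.hV ht]; infer_instance
      have hlt : ∑ t ∈ Finset.range (q + 1), finrank K (V t) * (m + 1) ^ (q - t) <
          ∑ t ∈ Finset.range (q + 1),
            finrank K (sl ((fam V).map (Th s j)) t) * (m + 1) ^ (q - t) := by
        apply lexnum (s := s) (by omega) (fun t => finrank K (V t))
          (fun t => finrank K (sl ((fam V).map (Th s j)) t))
        · intro t ht
          have := hfin t
          exact Submodule.finrank_mono (le_sl_Th j ht.le)
        · have := hfin s
          apply Submodule.finrank_lt_finrank_of_lt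
          refine lt_of_le_of_ne (le_sl_Th j le_rfl) ?_
          intro heq
          apply hpj
          rw [heq]
          exact mul_mem_sl_Th hp
        · exact hm.le
      have hle : ∑ t ∈ Finset.range (q + 1),
            finrank K (sl ((fam V).map (Th s j)) t) * (m + 1) ^ (q - t) ≤ m * (m + 1) ^ q := by
        rw [← hm, ← hsV, Finset.sum_mul]
        apply Finset.sum_le_sum
        intro t _
        rw [hsV, hm]
        exact Nat.mul_le_mul_left _ (Nat.pow_le_pow_right (by omega) (by omega))
      have h1 := ih (m * (m + 1) ^ q - ∑ t ∈ Finset.range (q + 1),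
            finrank K (sl ((fam V).map (Th s j)) t) * (m + 1) ^ (q - t)) (by omega) hG'
        (by rw [hsV]; exact hc) (by rw [hsV]; exact hm) (by omega)
      rw [hsU] at h1
      exact h1

end Run7.H941.N
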