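import Pool.Agent.Run7.h941.NAsm
import Pool.Agent.Run7.h941.Final

/-!
From the ideal form of the conjecture to the growth form, and the case of three variables.
-/

set_option autoImplicit false

namespace Run7.H941.N

open MvPolynomial Module
open H503R3.QCI (gr mem_gr NZD Reg Homog homog_span comp_mul)

variable {K : Type*} [Field K] {n : ℕ}

/-- the ideal of a graded family of spaces of forms -/
noncomputable def GI (W : ℕ → Submodule K (MvPolynomial (Fin n) K))
    (hW : ∀ e, ∀ p ∈ W e, ∀ i, X i * p ∈ W (e + 1)) : Ideal (MvPolynomial (Fin n) K) where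
  carrier := {p | ∀ e, homogeneousComponent e p ∈ W e}
  add_mem' := by
    intro a b ha hb e
    rw [map_add]
    exact add_mem (ha e) (hb e)
  zero_mem' := by
    intro e
    rw [map_zero]
    exact zero_mem _
  smul_mem' := by
    intro c p hp
    change ∀ e, homogeneousComponent e (c * p) ∈ W e
    induction c using MvPolynomial.induction_on with
    | C c =>
      intro e
      rw [← smul_eq_C_mul, map_smul]
      exact (W e).smul_mem _ (hp e)
    | add a b ha hb =>
      intro e
      rw [add_mul, map_add]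
      exact add_mem (ha e) (hb e)
    | mul_X a i ih =>
      intro e
      rw [mul_comm a, mul_assoc]
      cases e with
      | zero =>
        rw [H503R3.QCI.comp_mul_of_lt (isHomogeneous_X K i) (by omega)]
        exact zero_mem _
      | succ e =>
        rw [add_comm, comp_mul (isHomogeneous_X K i), add_comm]
        exact hW e _ (ih e) i

theorem mem_GI {W : ℕ → Submodule K (MvPolynomial (Fin n) K)}
    {hW : ∀ e, ∀ p ∈ W e, ∀ i, X i * p ∈ W (e + 1)} {p : MvPolynomial (Fin n) K} :
    p ∈ GI W hW ↔ ∀ e, homogeneousComponent e p ∈ W e := Iff.rfl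

theorem mem_GI_of_hom {W : ℕ → Submodule K (MvPolynomial (Fin n) K)}
    {hW : ∀ e, ∀ p ∈ W e, ∀ i, X i * p ∈ W (e + 1)} {p : MvPolynomial (Fin n) K} {e : ℕ}
    (hp : p.IsHomogeneous e) : p ∈ GI W hW ↔ p ∈ W e := by
  rw [mem_GI]
  constructor
  · intro h
    have := h e
    rwa [homogeneousComponent_of_mem hp, if_pos rfl] at this
  · intro h e'
    rw [homogeneousComponent_of_mem hp]
    split_ifs with h1
    · subst h1; exact h
    · exact zero_mem _

theorem gr_GI {W : ℕ → Submodule K (MvPolynomial (Fin n) K)}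
    {hW : ∀ e, ∀ p ∈ W e, ∀ i, X i * p ∈ W (e + 1)} {e : ℕ}
    (h : W e ≤ homogeneousSubmodule (Fin n) K e) : gr (GI W hW) e = W e := by
  ext p
  rw [mem_gr]
  constructor
  · rintro ⟨h1, h2⟩
    exact (mem_GI_of_hom h2).mp h1
  · intro hp
    exact ⟨(mem_GI_of_hom (h hp)).mpr hp, h hp⟩

/-- from ideals to growth -/
theorem growth_of_ideal {r : ℕ} (hr : r ≤ n) {a : Fin r → ℕ}
    {f : Fin r → MvPolynomial (Fin n) K}
    (hf : ∀ i, (f i).IsHomogeneous (a i)) (hreg : Reg f)
    (H : ∀ I : Ideal (MvPolynomial (Fin n) K), (∀ i, f i ∈ I) → ∃ S : Set (Mo n), UpC S ∧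
      (∀ u v, dg u = dg v → toLex v < toLex u → v ∈ S → u ∈ S) ∧
      ∀ e, finrank K (gr (MI K S ⊔ PI K hr a) e) = finrank K (gr I e)) :
    Growth (Ideal.span (Set.range f)) (capOf n a) := by
  classical
  intro q V U h M hM hMc
  set J := Ideal.span (Set.range f) with hJ
  let W : ℕ → Submodule K (MvPolynomial (Fin n) K) := fun e =>
    if e < q then gr J e else if e = q then V else if e = q + 1 then U else
      homogeneousSubmodule (Fin n) K e
  have W1 : ∀ e, e < q → W e = gr J e := fun e he => if_pos he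
  have W2 : W q = V := by
    change (if q < q then _ else if q = q then V else _) = V
    rw [if_neg (lt_irrefl _), if_pos rfl]
  have W3 : W (q + 1) = U := by
    change (if q + 1 < q then _ else if q + 1 = q then V else if q + 1 = q + 1 then U else _) = U
    rw [if_neg (by omega), if_neg (by omega), if_pos rfl]
  have W4 : ∀ e, q + 1 < e → W e = homogeneousSubmodule (Fin n) K e := by
    intro e he
    change (if e < q then _ else if e = q then V else if e = q + 1 then U else _) = _
    rw [if_neg (by omega), if_neg (by omega), if_neg (by omega)]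
  have Wh : ∀ e, W e ≤ homogeneousSubmodule (Fin n) K e := by
    intro e
    rcases lt_trichotomy e q with he | he | he
    · rw [W1 e he]; exact inf_le_right
    · subst he; rw [W2]; exact h.hV
    · rcases eq_or_lt_of_le (Nat.succ_le_of_lt he) with he' | he'
      · subst he'; rw [W3]; exact h.hU
      · rw [W4 e he']
  have hJW : ∀ e, gr J e ≤ W e := by
    intro e
    rcases lt_trichotomy e q with he | he | he
    · rw [W1 e he]
    · subst he; rw [W2]; exact h.hJV
    · rcases eq_or_lt_of_le (Nat.succ_le_of_lt he) with he' | he'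
      · subst he'; rw [W3]; exact h.hJU
      · rw [W4 e he']; exact inf_le_right
  have hW : ∀ e, ∀ p ∈ W e, ∀ i, X i * p ∈ W (e + 1) := by
    intro e p hp i
    have hhom : (X i * p).IsHomogeneous (e + 1) := by
      have := (isHomogeneous_X K i).mul (show p.IsHomogeneous e from Wh e hp)
      rwa [add_comm] at this
    rcases lt_trichotomy e q with he | he | he
    · rw [W1 e he] at hp
      apply hJW
      exact mem_gr.mpr ⟨J.mul_mem_left _ (mem_gr.mp hp).1, hhom⟩
    · subst he
      rw [W2] at hp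
      rw [W3]
      exact h.hx p hp i
    · rw [W4 (e + 1) (by omega)]
      exact hhom
  obtain ⟨S, hS1, hS2, hS3⟩ := H (GI W hW) (by
    intro i
    rw [mem_GI_of_hom (hf i)]
    exact hJW _ (mem_gr.mpr ⟨Ideal.subset_span ⟨i, rfl⟩, hf i⟩))
  -- the capped part of `S`
  let Λ : ℕ → Finset (Mo n) := fun e => (mons (capOf n a) e).filter (fun u => u ∈ S)
  have hΛ : ∀ e u, u ∈ Λ e ↔ (Cap (capOf n a) u ∧ dg u = e) ∧ u ∈ S := by
    intro e u
    rw [Finset.mem_filter, mem_mons]
  have hΛi : ∀ e, Ini (capOf n a) e (Λ e) := by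
    intro e
    refine ⟨fun u hu => ((hΛ e u).mp hu).1.1, fun u hu => ((hΛ e u).mp hu).1.2, ?_⟩
    intro u hu v hv hd huv
    rw [hΛ] at hu ⊢
    refine ⟨⟨hv, hd⟩, ?_⟩
    rcases lt_or_eq_of_le huv with h1 | h1
    · exact hS2 v u (by omega) h1 hu.2
    · rw [← toLex.injective h1]; exact hu.2
  have hΛu : ∀ e, up (capOf n a) (Λ e) ⊆ Λ (e + 1) := by
    intro e v hv
    obtain ⟨hc, u, hu, i, rfl⟩ := mem_up.mp hv
    rw [hΛ] at hu ⊢
    exact ⟨⟨hc, by rw [dg_add_ee, hu.1.2]⟩, hS1 _ hu.2 i⟩
  have hdim : ∀ e, finrank K (W e) = (ncap (capOf n a) e).card + (Λ e).card := by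
    intro e
    rw [← gr_GI (hW := hW) (Wh e), ← hS3 e, PI_eq, MI_union]
    have hdis : Disjoint (ncap (capOf n a) e) (Λ e) := by
      rw [Finset.disjoint_left]
      intro u hu hu2
      exact (mem_ncap.mp hu).2 ((hΛi e).cap u hu2)
    rw [← Finset.card_union_of_disjoint hdis]
    apply finrank_gr_MI (upC_union hS1 (upC_ncap _))
    intro u
    rw [Finset.mem_union, mem_ncap, hΛ]
    constructor
    · rintro (⟨h1, h2⟩ | ⟨⟨h1, h2⟩, h3⟩)
      · exact ⟨Or.inr h2, h1⟩
      · exact ⟨Or.inl h3, h2⟩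
    · rintro ⟨h1 | h1, h2⟩
      · by_cases hc : Cap (capOf n a) u
        · exact Or.inr ⟨⟨hc, h2⟩, h1⟩
        · exact Or.inl ⟨h2, hc⟩
      · exact Or.inl ⟨h2, h1⟩
  have e1 := hdim q
  have e2 := hdim (q + 1)
  rw [W2] at e1
  rw [W3] at e2
  rw [finrank_gr hr hf hreg] at hMc
  have hsub := hM.subset_of_card (hΛi q) (by omega)
  have h3 := Finset.card_le_card ((up_mono hsub).trans (hΛu q))
  rw [finrank_gr hr hf hreg, e2]
  omega

theorem MI_of_span {L : Ideal (MvPolynomial (Fin n) K)} {M : Set (Fin n →₀ ℕ)}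
    (h : L = Ideal.span ((fun s => monomial s (1 : K)) '' M)) :
    MI K {v : Mo n | monomial (fs v) (1 : K) ∈ L} = L := by
  apply le_antisymm
  · unfold MI
    rw [Ideal.span_le]
    rintro _ ⟨_, ⟨v, hv, rfl⟩, rfl⟩
    exact hv
  · conv_lhs => rw [h]
    rw [Ideal.span_le]
    rintro _ ⟨u, hu, rfl⟩
    apply Ideal.subset_span
    refine ⟨u, ⟨⇑u, ?_, fs_coe u⟩, rfl⟩
    change monomial (fs (⇑u)) (1 : K) ∈ L
    rw [fs_coe, h]
    exact Ideal.subset_span ⟨u, hu, rfl⟩

theorem fs_add_ee (v : Mo n) (i : Fin n) : fs (v + ee i) = Finsupp.single i 1 + fs v := by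
  ext j
  rw [fs_apply, Pi.add_apply, Finsupp.add_apply, fs_apply, ee_apply, Finsupp.single_apply,
    add_comm]
  by_cases h : j = i
  · subst h; simp
  · rw [if_neg h, if_neg (fun h' => h h'.symm)]

theorem upC_of_ideal (L : Ideal (MvPolynomial (Fin n) K)) :
    UpC {v : Mo n | monomial (fs v) (1 : K) ∈ L} := by
  intro v hv i
  change monomial (fs (v + ee i)) (1 : K) ∈ L
  rw [fs_add_ee]
  have h1 : monomial (Finsupp.single i 1 + fs v) (1 : K) = X i * monomial (fs v) (1 : K) := by
    rw [X, monomial_mul, one_mul]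
  rw [h1]
  exact L.mul_mem_left _ hv

theorem isRegular_of_reg {r : ℕ} {a : Fin r → ℕ} {f : Fin r → MvPolynomial (Fin n) K}
    (hf : ∀ i, (f i).IsHomogeneous (a i)) (ha : ∀ i, 1 ≤ a i) (hreg : Reg f) :
    RingTheory.Sequence.IsRegular (MvPolynomial (Fin n) K) (List.ofFn f) := by
  refine ⟨H503R3.QCI.isWeaklyRegular_of_reg hreg, ?_⟩
  intro htop
  have h1 : (1 : MvPolynomial (Fin n) K) ∈ Ideal.span (Set.range f) := by
    have h2 : Ideal.ofList (List.ofFn f) • (⊤ : Submodule (MvPolynomial (Fin n) K)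
        (MvPolynomial (Fin n) K)) = Ideal.span (Set.range f) := by
      rw [smul_eq_mul, Ideal.mul_top, Ideal.ofList]
      congr 1
      ext x
      simp [List.mem_ofFn]
    rw [← h2, ← htop]
    exact Submodule.mem_top
  have h3 : ∀ x ∈ Ideal.span (Set.range f), constantCoeff x = 0 := by
    intro x hx
    have h4 : Ideal.span (Set.range f) ≤ RingHom.ker (constantCoeff (R := K) (σ := Fin n)) := by
      rw [Ideal.span_le]
      rintro _ ⟨i, rfl⟩
      rw [SetLike.mem_coe, RingHom.mem_ker, constantCoeff_eq]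
      apply (hf i).coeff_eq_zero
      have := ha i
      simp only [map_zero]
      omega
    exact h4 hx
  have h5 := h3 1 h1
  rw [map_one] at h5
  exact one_ne_zero h5

universe u

/-- three variables -/
theorem EGr.three {a : Fin 3 → ℕ} (ha : ∀ i, 1 ≤ a i) (hm : Monotone a) : EGr.{u} 3 a := by
  intro K _ f hf hreg
  apply growth_of_ideal le_rfl hf hreg
  intro I hfI
  have G := exists_growthData 3 le_rfl a ha hm I ⟨f, hfI, hf, isRegular_of_reg hf ha hreg⟩
  obtain ⟨h1, h2, _⟩ := lpp_of_growth G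
  refine ⟨{v | monomial (fs v) (1 : K) ∈ LL I (Pm 3 le_rfl a)}, upC_of_ideal _, ?_, ?_⟩
  · intro u v hd huv hv
    refine h1 (fs u) (fs v) hd ?_ hv
    obtain ⟨i, h3, h4⟩ := lex_lt_iff.mp huv
    exact ⟨i, h3, h4⟩
  · intro e
    rw [MI_of_span (L := LL I (Pm 3 le_rfl a)) (M := Lset I (Pm 3 le_rfl a)) rfl]
    exact h2 e

end Run7.H941.N
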