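import Pool.Agent.Run7.h941.Comb

/-!
Pairs of consecutive graded pieces and the growth inequality for ideals containing a
regular sequence of length two.
-/

set_option autoImplicit false

open MvPolynomial Module

namespace Run7.H941

variable {k : Type*} [Field k]

/-- `V` in degree `d` and `U` in degree `d+1` behave like consecutive pieces of an ideal
containing `J`. -/
structure PairAt (J : Ideal (P3 k)) (d : ℕ) (V U : Submodule k (P3 k)) : Prop where
  hV : V ≤ Sd k d
  hU : U ≤ Sd k (d + 1)
  hup : up V ≤ U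
  hJV : idg J d ≤ V
  hJU : idg J (d + 1) ≤ U

theorem PairAt.finV {J : Ideal (P3 k)} {d : ℕ} {V U : Submodule k (P3 k)} (h : PairAt J d V U) :
    FiniteDimensional k V := finite_of_le h.hV

theorem PairAt.finU {J : Ideal (P3 k)} {d : ℕ} {V U : Submodule k (P3 k)} (h : PairAt J d V U) :
    FiniteDimensional k U := finite_of_le h.hU

theorem PairAt.right {J : Ideal (P3 k)} {d : ℕ} {V U : Submodule k (P3 k)} (h : PairAt J d V U) :
    PairAt J (d + 1) U (up U ⊔ idg J (d + 2)) :=
  ⟨h.hU, sup_le (up_le_Sd h.hU) (idg_le_Sd _ _), le_sup_left, h.hJU, le_sup_right⟩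

theorem dn_le_Sd {d : ℕ} {V : Submodule k (P3 k)} (h : V ≤ Sd k (d + 1)) : dn V ≤ Sd k d := by
  intro p hp
  have h1 := h (mem_dn.mp hp).1
  have h2 : (p * X 0 : P3 k).IsHomogeneous (d + 1) := by
    rw [mul_comm]; exact h1
  have h3 := isHomogeneous_of_mul (isHomogeneous_X k (0 : Fin 3)) (X_ne_zero _) h2
  unfold Sdm at h3
  rw [if_pos (by omega)] at h3
  exact h3

theorem dn_Sd_zero {V : Submodule k (P3 k)} (h : V ≤ Sd k 0) : dn V = ⊥ := by
  rw [eq_bot_iff]
  intro p hp
  have h1 := h (mem_dn.mp hp).1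
  have h2 : (p * X 0 : P3 k).IsHomogeneous 0 := by
    rw [mul_comm]; exact h1
  have h3 := isHomogeneous_of_mul (isHomogeneous_X k (0 : Fin 3)) (X_ne_zero _) h2
  unfold Sdm at h3
  rw [if_neg (by omega)] at h3
  exact h3

theorem PairAt.left {J : Ideal (P3 k)} {d : ℕ} {V U : Submodule k (P3 k)}
    (h : PairAt J (d + 1) V U) : PairAt J d (dn V) V :=
  ⟨dn_le_Sd h.hV, h.hV, up_le_iff_le_dn.mpr le_rfl,
    up_le_iff_le_dn.mp ((up_idg_le J d).trans h.hJV), h.hJV⟩

/-- A homogeneous regular sequence of length two. -/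
structure RegPair (f g : P3 k) (a b : ℕ) : Prop where
  hf : f.IsHomogeneous a
  hg : g.IsHomogeneous b
  hf0 : f ≠ 0
  hg0 : g ≠ 0
  hreg : ∀ p, g * p ∈ Ideal.span {f} → p ∈ Ideal.span {f}
  ha : 1 ≤ a
  hab : a ≤ b

variable {f g : P3 k} {a b : ℕ}

theorem RegPair.dim (h : RegPair f g a b) (m : ℕ) :
    finrank k (idg (Ideal.span {f, g}) m) = (Pout a b m).card :=
  finrank_idg_eq_card_Pout h.hf h.hg h.hf0 h.hg0 h.hreg m

theorem Sdm_succ_mul_mem {f : P3 k} {J : Ideal (P3 k)} (hf : f.IsHomogeneous a)
    (hfJ : f ∈ J) {m : ℕ} {α : P3 k} (hα : α ∈ Sdm k (m + 1) a) :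
    α * f ∈ up (idg J m) ⊔ (if m + 1 = a then Submodule.span k {f} else ⊥) := by
  unfold Sdm at hα
  by_cases h : a ≤ m + 1
  · rw [if_pos h] at hα
    by_cases h' : m + 1 = a
    · rw [if_pos h']
      apply Submodule.mem_sup_right
      have e : m + 1 - a = 0 := by omega
      rw [e] at hα
      have hα' : α ∈ homogeneousSubmodule (Fin 3) k 0 := hα
      rw [homogeneousSubmodule_zero, Submodule.mem_one] at hα'
      obtain ⟨c, rfl⟩ := hα'
      rw [← Algebra.smul_def]
      exact Submodule.smul_mem _ c (Submodule.mem_span_singleton_self f)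
    · rw [if_neg h', sup_bot_eq]
      have e : m + 1 - a = (m - a) + 1 := by omega
      rw [e, ← up_Sd] at hα
      obtain ⟨x, hx, y, hy, z, hz, rfl⟩ := mem_up.mp hα
      have hmem : ∀ w ∈ Sd k (m - a), w * f ∈ idg J m := by
        intro w hw
        refine ⟨J.mul_mem_left _ hfJ, ?_⟩
        have := IsHomogeneous.mul (hw : IsHomogeneous w _) hf
        rwa [Nat.sub_add_cancel (by omega)] at this
      rw [mem_up]
      exact ⟨x * f, hmem x hx, y * f, hmem y hy, z * f, hmem z hz, by ring⟩
  · rw [if_neg h, Submodule.mem_bot] at hα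
    rw [hα, zero_mul]
    exact Submodule.zero_mem _

theorem finrank_span_singleton_le' (f : P3 k) :
    finrank k (Submodule.span k {f}) ≤ 1 := by
  have h := finrank_span_finset_le_card (R := k) ({f} : Finset (P3 k))
  rw [Finset.coe_singleton, Finset.card_singleton] at h
  exact h

theorem finrank_ite_span_le (P : Prop) [Decidable P] (f : P3 k) :
    finrank k (↥(if P then Submodule.span k {f} else ⊥ : Submodule k (P3 k))) ≤
      if P then 1 else 0 := by
  by_cases h : P
  · rw [if_pos h, if_pos h]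
    exact finrank_span_singleton_le' f
  · rw [if_neg h, if_neg h, finrank_bot]

instance ite_span_finite (P : Prop) [Decidable P] (f : P3 k) :
    FiniteDimensional k (↥(if P then Submodule.span k {f} else ⊥ : Submodule k (P3 k))) := by
  by_cases h : P
  · rw [if_pos h]
    exact FiniteDimensional.span_of_finite k (Set.finite_singleton f)
  · rw [if_neg h]
    infer_instance

theorem RegPair.newgen (h : RegPair f g a b) (m : ℕ) :
    idg (Ideal.span {f, g}) (m + 1) ≤ up (idg (Ideal.span {f, g}) m) ⊔
      (if m + 1 = a then Submodule.span k {f} else ⊥) ⊔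
      (if m + 1 = b then Submodule.span k {g} else ⊥) := by
  intro p hp
  obtain ⟨α, hα, β, hβ, rfl⟩ := (mem_idg_span_pair h.hf h.hg).mp hp
  have hfJ : f ∈ Ideal.span {f, g} := Ideal.subset_span (by simp)
  have hgJ : g ∈ Ideal.span {f, g} := Ideal.subset_span (by simp)
  have h1 := Sdm_succ_mul_mem h.hf hfJ hα
  have h2 := Sdm_succ_mul_mem h.hg hgJ hβ
  refine add_mem ?_ ?_
  · exact Submodule.mem_sup_left h1
  · have hle : up (idg (Ideal.span {f, g}) m) ⊔ (if m + 1 = b then Submodule.span k {g} else ⊥) ≤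
        up (idg (Ideal.span {f, g}) m) ⊔ (if m + 1 = a then Submodule.span k {f} else ⊥) ⊔
      (if m + 1 = b then Submodule.span k {g} else ⊥) :=
      sup_le_sup_right le_sup_left _
    exact hle h2

theorem finrank_sup_le (V W : Submodule k (P3 k)) [FiniteDimensional k V]
    [FiniteDimensional k W] : finrank k (V ⊔ W : Submodule k (P3 k)) ≤
      finrank k V + finrank k W := by
  have := Submodule.finrank_sup_add_finrank_inf_eq V W
  omega

theorem RegPair.right_dim (h : RegPair f g a b) {d : ℕ} {V U : Submodule k (P3 k)}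
    (hp : PairAt (Ideal.span {f, g}) d V U) :
    finrank k (up U ⊔ idg (Ideal.span {f, g}) (d + 2) : Submodule k (P3 k)) ≤
      finrank k (up U) + (if d + 2 = a then 1 else 0) + (if d + 2 = b then 1 else 0) := by
  have := hp.finU
  have h1 : up U ⊔ idg (Ideal.span {f, g}) (d + 2) ≤ up U ⊔
      (if d + 2 = a then Submodule.span k {f} else ⊥) ⊔
      (if d + 2 = b then Submodule.span k {g} else ⊥) := by
    apply sup_le
    · exact le_sup_left.trans le_sup_left
    · refine (h.newgen (d + 1)).trans ?_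
      exact sup_le_sup_right (sup_le_sup_right (up_mono hp.hJU) _) _
  have h2 := finrank_ite_span_le (d + 2 = a) f
  have h3 := finrank_ite_span_le (d + 2 = b) g
  calc finrank k (up U ⊔ idg (Ideal.span {f, g}) (d + 2) : Submodule k (P3 k)) ≤ _ :=
        Submodule.finrank_mono h1
    _ ≤ finrank k (up U ⊔ (if d + 2 = a then Submodule.span k {f} else ⊥) :
          Submodule k (P3 k)) + finrank k (↥(if d + 2 = b then Submodule.span k {g} else ⊥ :
          Submodule k (P3 k))) := finrank_sup_le _ _
    _ ≤ finrank k (up U) + finrank k (↥(if d + 2 = a then Submodule.span k {f} else ⊥ :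
          Submodule k (P3 k))) + finrank k (↥(if d + 2 = b then Submodule.span k {g} else ⊥ :
          Submodule k (P3 k))) := by gcongr; exact finrank_sup_le _ _
    _ ≤ _ := by gcongr

/-- count of the monomials of degree `m` outside of the box -/
def cP (a b m : ℕ) : ℤ := ((Pout a b m).card : ℤ)

theorem cP_third (a b m : ℕ) :
    cP a b (m + 3) - 3 * cP a b (m + 2) + 3 * cP a b (m + 1) - cP a b m =
      (if m + 3 = a then 1 else 0) + (if m + 3 = b then 1 else 0) -
      (if m + 3 = a + b then 1 else 0) := by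
  have e : ∀ m, cP a b m = (cT m a : ℤ) + cT m b - cT m (a + b) := by
    intro m
    have := card_Pout a b m
    unfold cP
    omega
  rw [e, e, e, e]
  have h1 := cT_third m a
  have h2 := cT_third m b
  have h3 := cT_third m (a + b)
  linarith

theorem cP_third0 (a b : ℕ) :
    cP a b 2 - 3 * cP a b 1 + 3 * cP a b 0 =
      (if a = 2 then 1 else 0) + (if b = 2 then 1 else 0) -
      (if a + b = 2 then 1 else 0) := by
  have e : ∀ m, cP a b m = (cT m a : ℤ) + cT m b - cT m (a + b) := by
    intro m
    have := card_Pout a b m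
    unfold cP
    omega
  rw [e, e, e]
  have h1 := cT_third0 a
  have h2 := cT_third0 b
  have h3 := cT_third0 (a + b)
  linarith

/-- relative Koszul inequality -/
theorem RegPair.koszul (h : RegPair f g a b) {d : ℕ} {V U : Submodule k (P3 k)}
    (hp : PairAt (Ideal.span {f, g}) (d + 1) V U) :
    ((finrank k (up U ⊔ idg (Ideal.span {f, g}) (d + 3) : Submodule k (P3 k)) : ℤ) -
      cP a b (d + 3)) + 3 * ((finrank k V : ℤ) - cP a b (d + 1)) ≤
    3 * ((finrank k U : ℤ) - cP a b (d + 2)) + ((finrank k (dn V) : ℤ) - cP a b d) +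
      (if d + 3 = a + b then 1 else 0) := by
  have := hp.finU
  have := hp.finV
  have h1 := koszul_ineq V U hp.hup
  have h2 := h.right_dim hp
  have h3 := cP_third a b d
  have h2' : ((finrank k (up U ⊔ idg (Ideal.span {f, g}) (d + 1 + 2) : Submodule k (P3 k)) : ℤ)) ≤
      (finrank k (up U) : ℤ) + (if d + 3 = a then 1 else 0) + (if d + 3 = b then 1 else 0) := by
    exact_mod_cast h2
  have e : d + 1 + 2 = d + 3 := by omega
  rw [e] at h2'
  have h1' : ((finrank k (up U) : ℤ)) + 3 * finrank k V ≤ 3 * finrank k U + finrank k (dn V) := by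
    exact_mod_cast h1
  linarith

theorem RegPair.koszul0 (h : RegPair f g a b) {V U : Submodule k (P3 k)}
    (hp : PairAt (Ideal.span {f, g}) 0 V U) :
    ((finrank k (up U ⊔ idg (Ideal.span {f, g}) 2 : Submodule k (P3 k)) : ℤ) -
      cP a b 2) + 3 * ((finrank k V : ℤ) - cP a b 0) ≤
    3 * ((finrank k U : ℤ) - cP a b 1) + (if a + b = 2 then 1 else 0) := by
  have := hp.finU
  have := hp.finV
  have h1 := koszul_ineq V U hp.hup
  have h2 := h.right_dim hp
  have h3 := cP_third0 a b
  rw [dn_Sd_zero hp.hV, finrank_bot] at h1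
  have h2' : ((finrank k (up U ⊔ idg (Ideal.span {f, g}) (0 + 2) : Submodule k (P3 k)) : ℤ)) ≤
      (finrank k (up U) : ℤ) + (if a = 2 then 1 else 0) + (if b = 2 then 1 else 0) := by
    have h2'' : ((finrank k (up U ⊔ idg (Ideal.span {f, g}) (0 + 2) : Submodule k (P3 k)) : ℤ)) ≤
      (finrank k (up U) : ℤ) + (if 0 + 2 = a then 1 else 0) + (if 0 + 2 = b then 1 else 0) := by
      exact_mod_cast h2
    have e1 : (if 0 + 2 = a then (1 : ℤ) else 0) = if a = 2 then 1 else 0 := by
      congr 1; simp [eq_comm]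
    have e2 : (if 0 + 2 = b then (1 : ℤ) else 0) = if b = 2 then 1 else 0 := by
      congr 1; simp [eq_comm]
    rw [e1, e2] at h2''
    exact h2''
  rw [zero_add] at h2'
  have h1' : ((finrank k (up U) : ℤ)) + 3 * finrank k V ≤ 3 * finrank k U := by
    exact_mod_cast h1
  linarith

theorem RegPair.v_nonneg (h : RegPair f g a b) {d : ℕ} {V U : Submodule k (P3 k)}
    (hp : PairAt (Ideal.span {f, g}) d V U) : cP a b d ≤ finrank k V := by
  have := hp.finV
  unfold cP
  rw [← h.dim]
  exact_mod_cast Submodule.finrank_mono hp.hJV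

theorem RegPair.u_nonneg (h : RegPair f g a b) {d : ℕ} {V U : Submodule k (P3 k)}
    (hp : PairAt (Ideal.span {f, g}) d V U) : cP a b (d + 1) ≤ finrank k U := by
  have := hp.finU
  unfold cP
  rw [← h.dim]
  exact_mod_cast Submodule.finrank_mono hp.hJU

theorem cP_eq (a b m : ℕ) : cP a b m = (T m).card - (Bx a b m).card := by
  have := card_Pout_add_Bx a b m
  unfold cP
  omega

theorem v_le {J : Ideal (P3 k)} {d : ℕ} {V U : Submodule k (P3 k)}
    (hp : PairAt J d V U) (a b : ℕ) : (finrank k V : ℤ) - cP a b d ≤ (Bx a b d).card := by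
  have h1 : finrank k V ≤ (T d).card := by
    rw [← finrank_Sd (k := k)]
    exact Submodule.finrank_mono hp.hV
  rw [cP_eq]
  have : (finrank k V : ℤ) ≤ (T d).card := by exact_mod_cast h1
  linarith

/-- the growth of a pair, relative to the box, is nonnegative -/
theorem RegPair.growth_nonneg (h : RegPair f g a b) {d : ℕ} {V U : Submodule k (P3 k)}
    (hp : PairAt (Ideal.span {f, g}) d V U) :
    (finrank k V : ℤ) - cP a b d ≤ (finrank k U : ℤ) - cP a b (d + 1) := by
  classical
  by_contra hcon
  push Not at hcon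
  -- the set of deficits
  let X : ℕ → Prop := fun n => ∃ (d : ℕ) (V U : Submodule k (P3 k)),
    PairAt (Ideal.span {f, g}) d V U ∧
    (finrank k V : ℤ) - cP a b d = (finrank k U : ℤ) - cP a b (d + 1) + n
  have hbound : ∀ n, X n → n ≤ a * b := by
    rintro n ⟨d, V, U, hp, he⟩
    have h1 := v_le hp a b
    have h2 := h.u_nonneg hp
    have h3 := card_Bx_le a b d
    have h3' : ((Bx a b d).card : ℤ) ≤ ((a * b : ℕ) : ℤ) := by exact_mod_cast h3
    have : (n : ℤ) ≤ ((a * b : ℕ) : ℤ) := by linarith
    exact_mod_cast this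
  obtain ⟨n1, hn1⟩ : ∃ n1 : ℕ, (finrank k V : ℤ) - cP a b d =
      (finrank k U : ℤ) - cP a b (d + 1) + n1 := by
    refine ⟨((finrank k V : ℤ) - cP a b d - ((finrank k U : ℤ) - cP a b (d + 1))).toNat, ?_⟩
    rw [Int.toNat_of_nonneg (by linarith)]
    ring
  have hX1 : X n1 := ⟨d, V, U, hp, hn1⟩
  have hn1pos : 0 < n1 := by
    by_contra h0
    have : n1 = 0 := by omega
    rw [this] at hn1
    push_cast at hn1
    linarith
  set n0 := Nat.findGreatest X (a * b) with hn0
  have hXn0 : X n0 := Nat.findGreatest_spec (hbound n1 hX1) hX1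
  have hn0pos : 0 < n0 := lt_of_lt_of_le hn1pos (Nat.le_findGreatest (hbound n1 hX1) hX1)
  have hmax : ∀ {d : ℕ} {V U : Submodule k (P3 k)}, PairAt (Ideal.span {f, g}) d V U →
      (finrank k V : ℤ) - cP a b d ≤ (finrank k U : ℤ) - cP a b (d + 1) + n0 := by
    intro d V U hp
    by_contra hc
    push Not at hc
    obtain ⟨n2, hn2⟩ : ∃ n2 : ℕ, (finrank k V : ℤ) - cP a b d =
        (finrank k U : ℤ) - cP a b (d + 1) + n2 := by
      refine ⟨((finrank k V : ℤ) - cP a b d - ((finrank k U : ℤ) - cP a b (d + 1))).toNat, ?_⟩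
      rw [Int.toNat_of_nonneg (by linarith)]
      ring
    have hX2 : X n2 := ⟨d, V, U, hp, hn2⟩
    have h1 : n2 ≤ n0 := Nat.le_findGreatest (hbound n2 hX2) hX2
    have : (n2 : ℤ) ≤ n0 := by exact_mod_cast h1
    linarith
  have hn0' : (1 : ℤ) ≤ n0 := by exact_mod_cast hn0pos
  -- extremal pairs
  let E : ℕ → Submodule k (P3 k) → Submodule k (P3 k) → Prop := fun d V U =>
    PairAt (Ideal.span {f, g}) d V U ∧
    (finrank k V : ℤ) - cP a b d = (finrank k U : ℤ) - cP a b (d + 1) + n0
  have hE0 : ∀ V U, E 0 V U → a + b ≠ 2 → False := by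
    rintro V U ⟨hp, he⟩ hne
    have h1 := h.koszul0 hp
    rw [if_neg hne] at h1
    have h2 := hmax hp.right
    have h3 := h.v_nonneg hp
    simp only [zero_add, Nat.reduceAdd] at *
    linarith
  have hEs : ∀ d V U, E (d + 1) V U → d + 3 ≠ a + b →
      E d (dn V) V ∧ E (d + 2) U (up U ⊔ idg (Ideal.span {f, g}) (d + 3)) := by
    rintro d V U ⟨hp, he⟩ hne
    have h1 := h.koszul hp
    rw [if_neg hne] at h1
    have h2 := hmax hp.right
    have h3 := hmax hp.left
    have e1 : d + 1 + 1 = d + 2 := by omega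
    have e2 : d + 1 + 2 = d + 3 := by omega
    have e3 : d + 2 + 1 = d + 3 := by omega
    have hr := hp.right
    rw [e1, e2] at h2 hr
    rw [e1] at he
    rw [e3] at h2
    refine ⟨⟨hp.left, ?_⟩, ⟨hr, ?_⟩⟩
    · linarith
    · rw [e3]; linarith
  -- no extremal pair in low degrees
  have hlow : ∀ d, d + 2 < a + b → ∀ V U, E d V U → False := by
    intro d
    induction d with
    | zero =>
      intro hd V U hE
      exact hE0 V U hE (by omega)
    | succ d ih =>
      intro hd V U hE
      exact ih (by omega) _ _ (hEs d V U hE (by omega)).1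
  -- extremal pairs in high degrees propagate to the right
  have hhigh : ∀ d, a + b < d + 2 → ∀ V U, E d V U → False := by
    intro d hd V U hE
    have key : ∀ n, ∃ V' U', E (d + n) V' U' ∧
        (finrank k V' : ℤ) - cP a b (d + n) = (finrank k V : ℤ) - cP a b d - n * n0 := by
      intro n
      induction n with
      | zero => exact ⟨V, U, hE, by simp⟩
      | succ n ihn =>
        obtain ⟨V', U', hE', he'⟩ := ihn
        obtain ⟨c, hc⟩ : ∃ c, d + n = c + 1 := ⟨d + n - 1, by have := h.ha; have := h.hab; omega⟩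
        have hE'' := hE'
        rw [hc] at hE''
        have h4 := (hEs c V' U' hE'' (by omega)).2
        have e : c + 2 = d + (n + 1) := by omega
        rw [e] at h4
        refine ⟨_, _, h4, ?_⟩
        have h5 := hE'.2
        have e2 : d + n + 1 = d + (n + 1) := by omega
        rw [e2] at h5
        push_cast
        linarith
    obtain ⟨V', U', hE', he'⟩ := key (a * b + 1)
    have h1 := h.v_nonneg hE'.1
    have h2 := v_le hE.1 a b
    have h3 := card_Bx_le a b d
    have h3' : ((Bx a b d).card : ℤ) ≤ ((a * b : ℕ) : ℤ) := by exact_mod_cast h3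
    have h4 : ((a * b + 1 : ℕ) : ℤ) * 1 ≤ ((a * b + 1 : ℕ) : ℤ) * n0 :=
      mul_le_mul_of_nonneg_left hn0' (by positivity)
    push_cast at *
    linarith
  obtain ⟨d, V, U, hp, he⟩ := hXn0
  have hE : E d V U := ⟨hp, he⟩
  rcases lt_trichotomy (d + 2) (a + b) with hd | hd | hd
  · exact hlow d hd V U hE
  · -- the middle case
    have hright : ¬ E (d + 1) U (up U ⊔ idg (Ideal.span {f, g}) (d + 2)) :=
      fun hE' => hhigh (d + 1) (by omega) _ _ hE'
    have h2 := hmax hp.right
    have h2' : (finrank k U : ℤ) - cP a b (d + 1) + 1 ≤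
        (finrank k (up U ⊔ idg (Ideal.span {f, g}) (d + 2) : Submodule k (P3 k)) : ℤ) -
          cP a b (d + 1 + 1) + n0 := by
      by_contra hc
      push Not at hc
      exact hright ⟨hp.right, by linarith⟩
    rcases d with _ | d
    · have h1 := h.koszul0 hp
      rw [if_pos (by omega)] at h1
      have h3 := h.v_nonneg hp
      simp only [zero_add, Nat.reduceAdd] at *
      linarith
    · have h1 := h.koszul hp
      rw [if_pos (by omega)] at h1
      have hleft : ¬ E d (dn V) V := fun hE' => hlow d (by omega) _ _ hE'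
      have h3 := hmax hp.left
      have h3' : (finrank k (dn V) : ℤ) - cP a b d + 1 ≤
          (finrank k V : ℤ) - cP a b (d + 1) + n0 := by
        by_contra hc
        push Not at hc
        exact hleft ⟨hp.left, by linarith⟩
      have e1 : d + 1 + 1 = d + 2 := by omega
      have e2 : d + 1 + 2 = d + 3 := by omega
      have e3 : d + 2 + 1 = d + 3 := by omega
      rw [e1] at he
      rw [e1, e2, e3] at h2'
      linarith
  · exact hhigh d hd V U hE

end Run7.H941
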