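import Pool.Agent.Run7.h941.GrowthTwo

/-!
Koszul chase for a regular sequence `f, g, z` with `z` a variable.
-/

set_option autoImplicit false

open MvPolynomial Module

namespace Run7.H941

variable {k : Type*} [Field k]

theorem X0_dvd_of {A B : P3 k} (h : X 1 * A = X 0 * B) : ∃ C, A = X 0 * C := by
  have hp : Prime (X 0 : P3 k) := X_prime
  have h1 : (X 0 : P3 k) ∣ X 1 * A := ⟨B, h⟩
  rcases hp.dvd_or_dvd h1 with h2 | h2
  · exfalso
    rw [X_dvd_X] at h2
    exact absurd h2 (by decide)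
  · obtain ⟨C, hC⟩ := h2
    exact ⟨C, hC⟩

theorem kos3 {A B C : P3 k} (h : X 0 * A + X 1 * B + X 2 * C = 0) :
    ∃ u v w : P3 k, A = X 1 * w - X 2 * v ∧ B = X 2 * u - X 0 * w ∧ C = X 0 * v - X 1 * u := by
  classical
  have h1 : X 2 * C ∈ Ideal.span ((X : Fin 3 → P3 k) '' {0, 1}) := by
    have e : X 2 * C = (-A) * X 0 + (-B) * X 1 := by linear_combination h
    rw [e]
    apply add_mem
    · exact Ideal.mul_mem_left _ _ (Ideal.subset_span ⟨0, by simp, rfl⟩)
    · exact Ideal.mul_mem_left _ _ (Ideal.subset_span ⟨1, by simp, rfl⟩)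
  have h2 : C ∈ Ideal.span ((X : Fin 3 → P3 k) '' {0, 1}) := by
    rw [mem_ideal_span_X_image] at h1 ⊢
    intro m hm
    have h3 : Finsupp.single 2 1 + m ∈ (X 2 * C : P3 k).support := by
      rw [MvPolynomial.mem_support_iff, coeff_X_mul]
      exact MvPolynomial.mem_support_iff.mp hm
    obtain ⟨i, hi, hne⟩ := h1 _ h3
    refine ⟨i, hi, ?_⟩
    have h2i : (Finsupp.single (2 : Fin 3) 1 : Fin 3 →₀ ℕ) i = 0 := by
      rw [Finsupp.single_apply, if_neg]
      rintro rfl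
      simp at hi
    rw [Finsupp.add_apply, h2i, zero_add] at hne
    exact hne
  have h3 : C ∈ Ideal.span {(X 0 : P3 k), X 1} := by
    have e : ((X : Fin 3 → P3 k) '' {0, 1}) = {X 0, X 1} := by
      rw [Set.image_insert_eq, Set.image_singleton]
    rwa [e] at h2
  obtain ⟨v, u', hvu⟩ := Ideal.mem_span_pair.mp h3
  -- C = X 0 v - X 1 u
  let u := -u'
  have hC : C = X 0 * v - X 1 * u := by
    rw [← hvu]; simp only [u]; ring
  have h4 : X 1 * (B - X 2 * u) = X 0 * (-(A + X 2 * v)) := by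
    rw [hC] at h
    linear_combination h
  obtain ⟨w', hw'⟩ := X0_dvd_of h4
  refine ⟨u, v, -w', ?_, ?_, hC⟩
  · have h5 : X 0 * (A - (X 1 * -w' - X 2 * v)) = 0 := by
      rw [hw'] at h4
      linear_combination h4
    rcases mul_eq_zero.mp h5 with h6 | h6
    · exact absurd h6 (X_ne_zero 0)
    · exact sub_eq_zero.mp h6
  · linear_combination hw'

/-- an element of degree `< b` divisible by `g` of degree `b` vanishes -/
theorem zero_of_div {g A ρ : P3 k} {b n m a : ℕ} (hg : g.IsHomogeneous b) (hg0 : g ≠ 0)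
    (hA : A ∈ Sdm k m a) (h : A = ρ * g) (hn : m < a + b) (_ : n = n) : A = 0 := by
  have h1 := Sdm_Sdm hA hg0 hg h
  unfold Sdm at h1
  rw [if_neg (by omega), Submodule.mem_bot] at h1
  rw [h, h1, zero_mul]

/-- The socle statement. -/
theorem RegPair.soc_aux {f g : P3 k} {a b : ℕ} (h : RegPair f g a b)
    (hz : ∀ p, X 2 * p ∈ Ideal.span {f, g} → p ∈ Ideal.span {f, g}) {m : ℕ}
    (hm : m + 3 ≤ a + b) {p q1 q2 : P3 k} (hp : p.IsHomogeneous m) (hq1 : q1.IsHomogeneous m)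
    (hq2 : q2.IsHomogeneous m) (h1 : X 0 * p - X 2 * q1 ∈ Ideal.span {f, g})
    (h2 : X 1 * p - X 2 * q2 ∈ Ideal.span {f, g}) :
    ∃ s t τ : P3 k, p = X 2 * τ + s * f + t * g := by
  have hX : ∀ (i : Fin 3) (r : P3 k), r.IsHomogeneous m → (X i * r).IsHomogeneous (m + 1) := by
    intro i r hr
    have := (isHomogeneous_X k i).mul hr
    rwa [add_comm] at this
  have hX' : ∀ (i : Fin 3) {r : P3 k} {c : ℕ}, r ∈ Sdm k (m + 1) c →
      X i * r ∈ Sdm k (m + 2) c := by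
    intro i r c hr
    unfold Sdm at hr ⊢
    split_ifs at hr with hc
    · rw [if_pos (by omega)]
      have := (isHomogeneous_X k i).mul hr
      have e : m + 2 - c = 1 + (m + 1 - c) := by omega
      rw [e]
      exact this
    · rw [Submodule.mem_bot] at hr
      rw [hr, mul_zero]
      exact Submodule.zero_mem _
  obtain ⟨α, hα, β, hβ, e1⟩ := (mem_idg_span_pair h.hf h.hg (m := m + 1)).mp
    ⟨h1, (hX 0 p hp).sub (hX 2 q1 hq1)⟩
  obtain ⟨γ, hγ, δ, hδ, e2⟩ := (mem_idg_span_pair h.hf h.hg (m := m + 1)).mp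
    ⟨h2, (hX 1 p hp).sub (hX 2 q2 hq2)⟩
  have hC : X 1 * q1 - X 0 * q2 ∈ Ideal.span {f, g} := by
    apply hz
    have e : X 2 * (X 1 * q1 - X 0 * q2) = (X 0 * γ - X 1 * α) * f + (X 0 * δ - X 1 * β) * g := by
      linear_combination (-X 1) * e1 + X 0 * e2
    rw [e]
    exact Ideal.mem_span_pair.mpr ⟨_, _, rfl⟩
  obtain ⟨μ, hμ, ν, hν, e3⟩ := (mem_idg_span_pair h.hf h.hg (m := m + 1)).mp
    ⟨hC, (hX 1 q1 hq1).sub (hX 0 q2 hq2)⟩
  have hrel : (X 1 * α - X 0 * γ + X 2 * μ) * f + (X 1 * β - X 0 * δ + X 2 * ν) * g = 0 := by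
    linear_combination (-X 1) * e1 + X 0 * e2 - X 2 * e3
  have hB' : X 1 * β - X 0 * δ + X 2 * ν ∈ Ideal.span {f} := by
    apply h.hreg
    rw [Ideal.mem_span_singleton']
    exact ⟨-(X 1 * α - X 0 * γ + X 2 * μ), by linear_combination -hrel⟩
  obtain ⟨ρ, hρ⟩ := Ideal.mem_span_singleton'.mp hB'
  have hA'eq : X 1 * α - X 0 * γ + X 2 * μ = (-ρ) * g := by
    have h5 : f * ((X 1 * α - X 0 * γ + X 2 * μ) - (-ρ) * g) = 0 := by
      rw [← hρ] at hrel
      linear_combination hrel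
    rcases mul_eq_zero.mp h5 with h6 | h6
    · exact absurd h6 h.hf0
    · exact sub_eq_zero.mp h6
  have hA'mem : X 1 * α - X 0 * γ + X 2 * μ ∈ Sdm k (m + 2) a :=
    add_mem (sub_mem (hX' 1 hα) (hX' 0 hγ)) (hX' 2 hμ)
  have hA' : X 1 * α - X 0 * γ + X 2 * μ = 0 :=
    zero_of_div (n := 0) h.hg h.hg0 hA'mem hA'eq (by omega) rfl
  have hB'0 : X 1 * β - X 0 * δ + X 2 * ν = 0 := by
    rw [hA', zero_mul, zero_add] at hrel
    rcases mul_eq_zero.mp hrel with h6 | h6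
    · exact h6
    · exact absurd h6 h.hg0
  obtain ⟨u, v, w, ha1, ha2, ha3⟩ := kos3 (A := -γ) (B := α) (C := μ)
    (by linear_combination hA')
  obtain ⟨u', v', w', hb1, hb2, hb3⟩ := kos3 (A := -δ) (B := β) (C := ν)
    (by linear_combination hB'0)
  have hdiv : X 1 * (q1 + u * f + u' * g) = X 0 * (q2 + v * f + v' * g) := by
    rw [ha3, hb3] at e3
    linear_combination e3
  obtain ⟨τ, hτ⟩ := X0_dvd_of hdiv
  refine ⟨-w, -w', τ, ?_⟩
  have h7 : X 0 * (p - (X 2 * τ + -w * f + -w' * g)) = 0 := by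
    have hq1' : q1 = X 0 * τ - u * f - u' * g := by linear_combination hτ
    rw [ha2, hb2, hq1'] at e1
    linear_combination e1
  rcases mul_eq_zero.mp h7 with h8 | h8
  · exact absurd h8 (X_ne_zero 0)
  · exact sub_eq_zero.mp h8

end Run7.H941
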