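import Pool.Agent.Run7.h941.Aff
import Pool.Agent.Run7.h941.Count

/-!
Affine systems: the filtered algebra attached to a regular sequence of length two.
-/

set_option autoImplicit false

open Module

namespace Run7.H941

/-- number of elements of the box of degree `m` -/
def dg (a b m : ℕ) : ℕ := (topS a b m (0, 0)).card

theorem Bq_card_succ (a b m : ℕ) : (Bq a b (m + 1)).card = (Bq a b m).card + dg a b m := by
  unfold dg
  rw [← Finset.card_union_of_disjoint]
  · congr 1
    ext p
    simp only [Finset.mem_union, mem_Bq, mem_topS]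
    unfold lx
    simp only
    omega
  · rw [Finset.disjoint_left]
    intro p hp hq
    rw [mem_Bq] at hp
    rw [mem_topS] at hq
    omega

theorem Bq_zero (a b : ℕ) : (Bq a b 0).card = 0 := by
  rw [Finset.card_eq_zero, Finset.eq_empty_iff_forall_notMem]
  intro p hp
  rw [mem_Bq] at hp
  omega

theorem dg_small {a b m : ℕ} (h : m < a) (hab : a ≤ b) : dg a b m = m + 1 := by
  unfold dg
  rw [← card_AD m]
  congr 1
  ext p
  rw [mem_topS, mem_AD]
  unfold lx
  simp only
  omega

theorem dg_le_succ (a b m : ℕ) : dg a b m ≤ dg a b (m + 1) + 1 := topS_succ_ge a b m (0, 0)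

theorem dg_large {a b m : ℕ} (h : b ≤ m + 1) (hab : a ≤ b) : a + b ≤ m + 1 + dg a b m := by
  have : (Finset.range (a + b - 1 - m)).card ≤ dg a b m := by
    unfold dg
    apply Finset.card_le_card_of_injOn (fun i => (a - 1 - i, m - (a - 1 - i)))
    · intro i hi
      simp only [Finset.coe_range, Set.mem_Iio] at hi
      rw [Finset.mem_coe, mem_topS]
      unfold lx
      simp only
      omega
    · intro i hi j hj hij
      simp only [Finset.coe_range, Set.mem_Iio] at hi hj
      simp only [Prod.mk.injEq] at hij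
      omega
  rw [Finset.card_range] at this
  omega

variable {k Λ : Type*} [Field k] [CommRing Λ] [Algebra k Λ] [FiniteDimensional k Λ]

/-- Affine system. -/
structure AffSys (x y h : Λ) (a b c : ℕ) (E : ℕ → Submodule k Λ) : Prop where
  ha : 1 ≤ a
  hab : a ≤ b
  hbc : b ≤ c
  E1 : E 1 = Submodule.span k {1}
  Es : ∀ m, E (m + 2) = nx x y (E (m + 1))
  dE : ∀ m, finrank k (E m) = (Bq a b m).card
  soc : ∀ m n, m + 3 ≤ a + b → n ∈ E (m + 1) → x * n ∈ E (m + 1) → y * n ∈ E (m + 1) → n ∈ E m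
  hE : ∀ m, ∀ n ∈ E m, h * n ∈ E (m + c)
  hu : IsUnit h

variable {x y h : Λ} {a b c : ℕ} {E : ℕ → Submodule k Λ}

theorem AffSys.E0 (S : AffSys x y h a b c E) : E 0 = ⊥ := by
  apply Submodule.finrank_eq_zero.mp
  rw [S.dE, Bq_zero]

theorem AffSys.mono (S : AffSys x y h a b c E) (m : ℕ) : E m ≤ E (m + 1) := by
  rcases m with _ | m
  · rw [S.E0]; exact bot_le
  · rw [S.Es]; exact le_nx _

theorem AffSys.nxE (S : AffSys x y h a b c E) (m : ℕ) : nx x y (E m) ≤ E (m + 1) := by
  rcases m with _ | m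
  · rw [S.E0, nx_le]
    refine ⟨bot_le, ?_⟩
    intro n hn
    rw [Submodule.mem_bot] at hn
    subst hn
    simp
  · rw [S.Es]

theorem AffSys.xE (S : AffSys x y h a b c E) {m : ℕ} {n : Λ} (hn : n ∈ E m) :
    x * n ∈ E (m + 1) := S.nxE m (x_mem_nx hn)

theorem AffSys.yE (S : AffSys x y h a b c E) {m : ℕ} {n : Λ} (hn : n ∈ E m) :
    y * n ∈ E (m + 1) := S.nxE m (y_mem_nx hn)

theorem nx_decomp {W : Submodule k Λ} {w : Λ} (hw : w ∈ nx x y W) :
    ∃ w0 ∈ W, ∃ p ∈ W, ∃ q ∈ W, w = w0 + x * p + y * q := by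
  obtain ⟨w1, hw1, _, ⟨q, hq, rfl⟩, rfl⟩ := Submodule.mem_sup.mp hw
  obtain ⟨w2, hw2, _, ⟨p, hp, rfl⟩, rfl⟩ := Submodule.mem_sup.mp hw1
  exact ⟨w2, hw2, p, hp, q, hq, rfl⟩

/-- proper growth in low degrees -/
theorem AffSys.L1 (S : AffSys x y h a b c E) : ∀ m, m + 2 ≤ a → ∀ W : Submodule k Λ,
    E m ≤ W → W ≤ E (m + 1) → W ≠ E m →
    finrank k W + finrank k (E (m + 1)) + 1 ≤
      finrank k (E (m + 1) ⊔ nx x y W : Submodule k Λ) + finrank k (E m) := by
  intro m
  induction m with
  | zero =>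
    intro hm W h1 h2 hne
    have hab := S.hab
    have hW : W = E (0 + 1) := by
      apply Submodule.eq_of_le_of_finrank_le h2
      rw [S.dE, Bq_card_succ, Bq_zero, dg_small (by omega) hab]
      rw [Nat.succ_le_iff, Nat.pos_iff_ne_zero]
      intro h0
      apply hne
      rw [S.E0]
      exact Submodule.finrank_eq_zero.mp h0
    have h3 : (E (0 + 1) ⊔ nx x y W : Submodule k Λ) = E (0 + 2) := by
      rw [hW, S.Es 0, sup_eq_right]
      exact le_nx _
    rw [h3, hW, S.dE, S.dE, S.dE, Bq_card_succ a b 1, Bq_card_succ a b 0, Bq_zero,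
      dg_small (by omega) hab, dg_small (by omega) hab]
  | succ m ih =>
    intro hm W h1 h2 hne
    have hab := S.hab
    -- the lower space
    let W' : Submodule k Λ := E (m + 1) ⊓ W.comap (LinearMap.mulLeft k x) ⊓
      W.comap (LinearMap.mulLeft k y)
    have key := cx_ineq x y (E (m + 1)) W (E (m + 1 + 1)) (E (m + 1 + 1) ⊔ nx x y W)
      (E (m + 1 + 1 + 1)) (fun n hn => ⟨S.xE hn, S.yE hn⟩) h2
      (fun n hn => ⟨Submodule.mem_sup_right (x_mem_nx hn), Submodule.mem_sup_right (y_mem_nx hn)⟩)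
      (sup_le (S.mono _) ((nx_mono h2).trans (S.nxE _)))
      (by
        intro w hw
        have hw' : w ∈ nx x y (E (m + 1 + 1)) := by
          have := S.Es (m + 1)
          rw [← this]; exact hw
        obtain ⟨w0, hw0, p, hp, q, hq, rfl⟩ := nx_decomp hw'
        refine ⟨p, hp, q, hq, Submodule.mem_sup_left ?_⟩
        have : w0 + x * p + y * q - (x * p + y * q) = w0 := by ring
        rw [this]
        exact hw0)
      (fun n hn => ⟨S.xE hn, S.yE hn⟩)
    have hW'1 : E m ≤ W' := by
      intro n hn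
      refine ⟨⟨S.mono m hn, h1 (S.xE hn)⟩, h1 (S.yE hn)⟩
    have hW'2 : W' ≤ E (m + 1) := fun n hn => hn.1.1
    have hW'3 : E (m + 1) ⊔ nx x y W' ≤ W := by
      apply sup_le h1
      rw [nx_le]
      exact ⟨hW'2.trans h1, fun n hn => ⟨hn.1.2, hn.2⟩⟩
    have hle := Submodule.finrank_mono hW'3
    have e1 := S.dE (m + 1 + 1 + 1)
    have e2 := S.dE (m + 1 + 1)
    have e3 := S.dE (m + 1)
    have e4 := S.dE m
    rw [Bq_card_succ, dg_small (by omega) hab] at e1
    rw [Bq_card_succ, dg_small (by omega) hab] at e2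
    rw [Bq_card_succ, dg_small (by omega) hab] at e3
    rw [Bq_card_succ, dg_small (by omega) hab, Bq_card_succ, dg_small (by omega) hab] at e1
    rw [Bq_card_succ, dg_small (by omega) hab] at e2
    have hWlt : finrank k (E (m + 1)) + 1 ≤ finrank k W := by
      rw [Nat.succ_le_iff]
      apply Submodule.finrank_lt_finrank_of_lt
      exact lt_of_le_of_ne h1 (Ne.symm hne)
    change finrank k (E (m + 1 + 1 + 1)) + finrank k (E (m + 1)) + 2 * finrank k W ≤
      finrank k (E (m + 1 + 1) ⊔ nx x y W : Submodule k Λ) + 2 * finrank k (E (m + 1 + 1)) +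
        finrank k W' at key
    by_cases hne' : W' = E m
    · rw [hne'] at key
      omega
    · have := ih (by omega) W' hW'1 hW'2 hne'
      omega

/-- growth in high degrees -/
theorem AffSys.L2 (S : AffSys x y h a b c E) : ∀ s D, D + 2 + s = a + b → ∀ W : Submodule k Λ,
    E D ≤ W → W ≤ E (D + 1) → W ≠ E (D + 1) →
    finrank k W + finrank k (E (D + 1)) ≤
      finrank k (E (D + 1) ⊔ nx x y W : Submodule k Λ) + finrank k (E D) := by
  intro s
  induction s with
  | zero =>
    intro D hD W h1 h2 hne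
    have e1 := S.dE (D + 1)
    rw [Bq_card_succ] at e1
    have e2 := S.dE D
    have e3 : dg a b D ≤ 1 := by
      have := card_topS_le (a := a) (b := b) (D := D) (0, 0) (by omega)
      unfold dg
      omega
    have hlt : finrank k W < finrank k (E (D + 1)) :=
      Submodule.finrank_lt_finrank_of_lt (lt_of_le_of_ne h2 hne)
    have h3 : finrank k (E (D + 1)) ≤ finrank k (E (D + 1) ⊔ nx x y W : Submodule k Λ) :=
      Submodule.finrank_mono le_sup_left
    omega
  | succ s ih =>
    intro D hD W h1 h2 hne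
    let N1 : Submodule k Λ := E (D + 1) ⊔ nx x y W
    have hN1 : N1 ≤ E (D + 1 + 1) := sup_le (S.mono _) ((nx_mono h2).trans (S.nxE _))
    have key := cx_ineq x y W (E (D + 1)) N1 (E (D + 2)) (E (D + 2) ⊔ nx x y N1)
      (fun n hn => ⟨Submodule.mem_sup_right (x_mem_nx hn), Submodule.mem_sup_right (y_mem_nx hn)⟩)
      le_sup_left
      (fun n hn => ⟨S.xE hn, S.yE hn⟩)
      le_sup_left
      (by
        intro w hw
        obtain ⟨w1, hw1, w2, hw2, rfl⟩ := Submodule.mem_sup.mp hw
        obtain ⟨w0, hw0, p, hp, q, hq, rfl⟩ := nx_decomp hw2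
        refine ⟨p, hp, q, hq, ?_⟩
        have : w1 + (w0 + x * p + y * q) - (x * p + y * q) = w1 + w0 := by ring
        rw [this]
        exact add_mem hw1 (hN1 hw0))
      (fun n hn => ⟨Submodule.mem_sup_right (x_mem_nx hn), Submodule.mem_sup_right (y_mem_nx hn)⟩)
    have hsoc : (W ⊓ (E (D + 1)).comap (LinearMap.mulLeft k x) ⊓
        (E (D + 1)).comap (LinearMap.mulLeft k y) : Submodule k Λ) ≤ E D := by
      intro n hn
      exact S.soc D n (by omega) (h2 hn.1.1) hn.1.2 hn.2
    have hsoc' := Submodule.finrank_mono hsoc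
    have e1 := S.dE (D + 1 + 1)
    rw [Bq_card_succ] at e1
    have e2 := S.dE (D + 1)
    rw [e2.symm] at e1
    rw [Bq_card_succ] at e2
    have e3 := S.dE D
    have hd := dg_le_succ a b D
    have hlt : finrank k W < finrank k (E (D + 1)) :=
      Submodule.finrank_lt_finrank_of_lt (lt_of_le_of_ne h2 hne)
    change finrank k W + finrank k (E (D + 1)) ≤ finrank k N1 + finrank k (E D)
    by_cases hne' : N1 = E (D + 1 + 1)
    · rw [hne']
      omega
    · have := ih (D + 1) (by omega) N1 le_sup_left hN1 hne'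
      have e5 : D + 1 + 1 = D + 2 := rfl
      rw [e5] at this
      omega

end Run7.H941
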