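import Pool.Agent.Run7.h941.Macaulay

/-!
Hilbert function of an ideal generated by a homogeneous regular sequence of length two
in three variables.
-/

set_option autoImplicit false

open MvPolynomial Module

namespace Run7.H941

variable {k : Type*} [Field k]

section general

attribute [local instance] MvPolynomial.gradedAlgebra

theorem hc_mul_right {σ : Type*} (α f : MvPolynomial σ k) {a : ℕ} (hf : f.IsHomogeneous a)
    (m : ℕ) : homogeneousComponent m (α * f) =
      if a ≤ m then homogeneousComponent (m - a) α * f else 0 := by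
  classical
  have h1 : ∀ (φ : MvPolynomial σ k) (i : ℕ), ((DirectSum.decompose (homogeneousSubmodule σ k) φ) i :
      MvPolynomial σ k) = homogeneousComponent i φ := decomposition.decompose'_apply
  have hf' : f ∈ homogeneousSubmodule σ k a := hf
  rw [← h1]
  split_ifs with h
  · rw [DirectSum.coe_decompose_mul_of_right_mem_of_le (homogeneousSubmodule σ k) hf' h, h1]
  · rw [DirectSum.coe_decompose_mul_of_right_mem_of_not_le (homogeneousSubmodule σ k) hf' h]

end general

/-- degree `m` part of an ideal -/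
noncomputable def idg (I : Ideal (P3 k)) (m : ℕ) : Submodule k (P3 k) :=
  Submodule.restrictScalars k I ⊓ Sd k m

theorem mem_idg {I : Ideal (P3 k)} {m : ℕ} {p : P3 k} :
    p ∈ idg I m ↔ p ∈ I ∧ p.IsHomogeneous m := Iff.rfl

theorem idg_le_Sd (I : Ideal (P3 k)) (m : ℕ) : idg I m ≤ Sd k m := inf_le_right

instance idg_finite (I : Ideal (P3 k)) (m : ℕ) : FiniteDimensional k (idg I m) :=
  finite_of_le (idg_le_Sd I m)

theorem up_idg_le (I : Ideal (P3 k)) (m : ℕ) : up (idg I m) ≤ idg I (m + 1) := by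
  rw [up_le_iff]
  intro p hp i
  refine ⟨I.mul_mem_left _ hp.1, ?_⟩
  have h1 := (isHomogeneous_X k i).mul hp.2
  rw [add_comm] at h1
  exact h1

theorem idg_mono {I J : Ideal (P3 k)} (h : I ≤ J) (m : ℕ) : idg I m ≤ idg J m :=
  fun _ hp => ⟨h hp.1, hp.2⟩

/-- `Sd (m - a)` or zero if `m < a` -/
noncomputable def Sdm (k : Type*) [Field k] (m a : ℕ) : Submodule k (P3 k) :=
  if a ≤ m then Sd k (m - a) else ⊥

/-- number of monomials of degree `m - a`, or zero if `m < a` -/
def cT (m a : ℕ) : ℕ := if a ≤ m then (T (m - a)).card else 0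

theorem finrank_Sdm (m a : ℕ) : finrank k (Sdm k m a) = cT m a := by
  by_cases h : a ≤ m
  · rw [Sdm, if_pos h, cT, if_pos h]
    exact finrank_Sd _
  · rw [Sdm, if_neg h, cT, if_neg h]
    exact finrank_bot k _

instance Sdm_finite (m a : ℕ) : FiniteDimensional k (Sdm k m a) := by
  by_cases h : a ≤ m
  · rw [Sdm, if_pos h]
    infer_instance
  · rw [Sdm, if_neg h]
    infer_instance

theorem Sdm_mul_mem {m a : ℕ} {p f : P3 k} (hp : p ∈ Sdm k m a) (hf : f.IsHomogeneous a) :
    (p * f).IsHomogeneous m := by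
  unfold Sdm at hp
  split_ifs at hp with h
  · have := IsHomogeneous.mul hp hf
    rwa [Nat.sub_add_cancel h] at this
  · rw [Submodule.mem_bot] at hp
    rw [hp, zero_mul]
    exact isHomogeneous_zero _ _ _

theorem hc_mem_Sdm (m a : ℕ) (p : P3 k) :
    (if a ≤ m then homogeneousComponent (m - a) p else 0) ∈ Sdm k m a := by
  unfold Sdm
  split_ifs
  · exact homogeneousComponent_mem _ _
  · exact Submodule.zero_mem _

theorem hc_mul_right' (α f : P3 k) {a : ℕ} (hf : f.IsHomogeneous a)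
    (m : ℕ) : homogeneousComponent m (α * f) =
      (if a ≤ m then homogeneousComponent (m - a) α else 0) * f := by
  rw [hc_mul_right α f hf]
  split_ifs <;> simp

theorem mem_idg_span_pair {f g : P3 k} {a b : ℕ} (hf : f.IsHomogeneous a)
    (hg : g.IsHomogeneous b) {m : ℕ} {p : P3 k} :
    p ∈ idg (Ideal.span {f, g}) m ↔
      ∃ α ∈ Sdm k m a, ∃ β ∈ Sdm k m b, p = α * f + β * g := by
  constructor
  · rintro ⟨h1, h2⟩
    have h1' : p ∈ Ideal.span {f, g} := h1
    obtain ⟨α, β, hαβ⟩ := Ideal.mem_span_pair.mp h1'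
    have h3 : homogeneousComponent m p = p := homogeneousComponent_eq_self h2
    rw [← hαβ, map_add, hc_mul_right' α f hf, hc_mul_right' β g hg, hαβ] at h3
    exact ⟨_, hc_mem_Sdm m a α, _, hc_mem_Sdm m b β, h3.symm⟩
  · rintro ⟨α, hα, β, hβ, rfl⟩
    refine ⟨?_, (Sdm_mul_mem hα hf).add (Sdm_mul_mem hβ hg)⟩
    change α * f + β * g ∈ Ideal.span {f, g}
    exact Ideal.mem_span_pair.mpr ⟨α, β, rfl⟩

theorem isHomogeneous_of_mul {p q : P3 k} {m a : ℕ} (hq : q.IsHomogeneous a) (hq0 : q ≠ 0)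
    (h : (p * q).IsHomogeneous m) : p ∈ Sdm k m a := by
  have h3 : homogeneousComponent m (p * q) = p * q := homogeneousComponent_eq_self h
  rw [hc_mul_right' p q hq] at h3
  have h4 := mul_right_cancel₀ hq0 h3
  rw [← h4]
  exact hc_mem_Sdm m a p

theorem Sdm_Sdm {m a b : ℕ} {p q : P3 k} (hp : p ∈ Sdm k m a) (hq0 : q ≠ 0)
    (hq : q.IsHomogeneous b) {r : P3 k} (hr : p = r * q) : r ∈ Sdm k m (a + b) := by
  unfold Sdm at hp
  split_ifs at hp with h
  · rw [hr] at hp
    have h1 := isHomogeneous_of_mul hq hq0 hp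
    unfold Sdm at h1 ⊢
    by_cases h2 : b ≤ m - a
    · rw [if_pos h2] at h1
      rw [if_pos (by omega)]
      have e : m - (a + b) = m - a - b := by omega
      rw [e]
      exact h1
    · rw [if_neg h2] at h1
      rw [if_neg (by omega)]
      exact h1
  · rw [Submodule.mem_bot] at hp
    rw [hp] at hr
    have : r = 0 := by
      rcases mul_eq_zero.mp hr.symm with h | h
      · exact h
      · exact absurd h hq0
    rw [this]
    exact Submodule.zero_mem _

theorem finrank_idg_span_pair {f g : P3 k} {a b : ℕ} (hf : f.IsHomogeneous a)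
    (hg : g.IsHomogeneous b) (hf0 : f ≠ 0) (hg0 : g ≠ 0)
    (hreg : ∀ p, g * p ∈ Ideal.span {f} → p ∈ Ideal.span {f}) (m : ℕ) :
    finrank k (idg (Ideal.span {f, g}) m) + cT m (a + b) = cT m a + cT m b := by
  let φ : (Sdm k m a × Sdm k m b) →ₗ[k] P3 k :=
    ((LinearMap.mulRight k f).comp ((Sdm k m a).subtype.comp (LinearMap.fst k _ _))) +
    ((LinearMap.mulRight k g).comp ((Sdm k m b).subtype.comp (LinearMap.snd k _ _)))
  have hφ : ∀ α β, φ (α, β) = (α : P3 k) * f + (β : P3 k) * g := fun _ _ => rfl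
  have hrange : LinearMap.range φ = idg (Ideal.span {f, g}) m := by
    ext p
    rw [mem_idg_span_pair hf hg]
    constructor
    · rintro ⟨⟨α, β⟩, rfl⟩
      exact ⟨α, α.2, β, β.2, hφ α β⟩
    · rintro ⟨α, hα, β, hβ, rfl⟩
      exact ⟨(⟨α, hα⟩, ⟨β, hβ⟩), rfl⟩
  have hSm : ∀ γ ∈ Sdm k m (a + b), γ * g ∈ Sdm k m a := by
    intro γ hγ
    unfold Sdm at hγ ⊢
    split_ifs at hγ with h
    · rw [if_pos (by omega)]
      have h1 := IsHomogeneous.mul (hγ : IsHomogeneous γ _) hg
      have e : m - (a + b) + b = m - a := by omega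
      rw [e] at h1
      exact h1
    · rw [Submodule.mem_bot] at hγ
      rw [hγ, zero_mul]
      exact Submodule.zero_mem _
  have hSm' : ∀ γ ∈ Sdm k m (a + b), γ * f ∈ Sdm k m b := by
    intro γ hγ
    unfold Sdm at hγ ⊢
    split_ifs at hγ with h
    · rw [if_pos (by omega)]
      have h1 := IsHomogeneous.mul (hγ : IsHomogeneous γ _) hf
      have e : m - (a + b) + a = m - b := by omega
      rw [e] at h1
      exact h1
    · rw [Submodule.mem_bot] at hγ
      rw [hγ, zero_mul]
      exact Submodule.zero_mem _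
  let θ : Sdm k m (a + b) →ₗ[k] (Sdm k m a × Sdm k m b) :=
    LinearMap.prod ((LinearMap.mulRight k g).restrict hSm)
      (-((LinearMap.mulRight k f).restrict hSm'))
  have hθ1 : ∀ γ, (((θ γ).1 : Sdm k m a) : P3 k) = (γ : P3 k) * g := fun _ => rfl
  have hθ2 : ∀ γ, (((θ γ).2 : Sdm k m b) : P3 k) = -((γ : P3 k) * f) := fun _ => rfl
  have hker : LinearMap.range θ = LinearMap.ker φ := by
    ext ⟨α, β⟩
    constructor
    · rintro ⟨γ, hγ⟩
      rw [LinearMap.mem_ker, hφ]
      have e1 : (α : P3 k) = (γ : P3 k) * g := by rw [← hθ1, hγ]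
      have e2 : (β : P3 k) = -((γ : P3 k) * f) := by rw [← hθ2, hγ]
      rw [e1, e2]; ring
    · intro h
      rw [LinearMap.mem_ker, hφ] at h
      have h1 : g * (β : P3 k) ∈ Ideal.span {f} := by
        rw [Ideal.mem_span_singleton]
        exact ⟨-(α : P3 k), by linear_combination h⟩
      obtain ⟨γ, hγ⟩ := Ideal.mem_span_singleton.mp (hreg _ h1)
      -- β = f * γ
      have hα : (α : P3 k) = -γ * g := by
        apply mul_right_cancel₀ hf0
        rw [hγ] at h
        linear_combination h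
      have hγm : -γ ∈ Sdm k m (a + b) := Sdm_Sdm α.2 hg0 hg hα
      refine ⟨⟨-γ, hγm⟩, ?_⟩
      refine Prod.ext (Subtype.ext ?_) (Subtype.ext ?_)
      · rw [hθ1]; exact hα.symm
      · rw [hθ2, hγ]; ring
  have hinj : Function.Injective θ := by
    intro x y h
    apply Subtype.ext
    apply mul_right_cancel₀ hg0
    rw [← hθ1, ← hθ1, h]
  have h1 := LinearMap.finrank_range_add_finrank_ker φ
  rw [← hker, LinearMap.finrank_range_of_inj hinj, hrange, Module.finrank_prod,
    finrank_Sdm, finrank_Sdm, finrank_Sdm] at h1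
  exact h1

/-- pairs in `T m` outside the box `[0,a) × [0,b)` -/
def Pout (a b m : ℕ) : Finset (ℕ × ℕ) := (T m).filter (fun p => a ≤ p.1 ∨ b ≤ p.2)

/-- pairs in `T m` inside the box `[0,a) × [0,b)` -/
def Bx (a b m : ℕ) : Finset (ℕ × ℕ) := (T m).filter (fun p => p.1 < a ∧ p.2 < b)

theorem mem_Bx {a b m : ℕ} {p : ℕ × ℕ} :
    p ∈ Bx a b m ↔ p.1 + p.2 ≤ m ∧ p.1 < a ∧ p.2 < b := by
  simp [Bx, mem_T]

theorem mem_Pout {a b m : ℕ} {p : ℕ × ℕ} :
    p ∈ Pout a b m ↔ p.1 + p.2 ≤ m ∧ (a ≤ p.1 ∨ b ≤ p.2) := by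
  simp [Pout, mem_T]

theorem card_Pout_add_Bx (a b m : ℕ) : (Pout a b m).card + (Bx a b m).card = (T m).card := by
  rw [← Finset.card_union_of_disjoint]
  · congr 1
    ext p
    simp only [Finset.mem_union, mem_Pout, mem_Bx, mem_T]
    omega
  · rw [Finset.disjoint_left]
    intro p hp hq
    rw [mem_Pout] at hp
    rw [mem_Bx] at hq
    omega

theorem card_shift (m a b : ℕ) :
    ((T m).filter (fun p => a ≤ p.1 ∧ b ≤ p.2)).card = cT m (a + b) := by
  unfold cT
  split_ifs with h
  · have e : ((T m).filter (fun p => a ≤ p.1 ∧ b ≤ p.2)) =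
        (T (m - (a + b))).image (fun p => (p.1 + a, p.2 + b)) := by
      ext ⟨i, j⟩
      simp only [Finset.mem_filter, mem_T, Finset.mem_image, Prod.mk.injEq, Prod.exists]
      constructor
      · rintro ⟨h1, h2, h3⟩
        exact ⟨i - a, j - b, by omega, by omega, by omega⟩
      · rintro ⟨i', j', h1, rfl, rfl⟩
        omega
    rw [e, Finset.card_image_of_injective]
    rintro ⟨i, j⟩ ⟨i', j'⟩ h
    simp only [Prod.mk.injEq] at h ⊢
    omega
  · rw [Finset.card_eq_zero, Finset.filter_eq_empty_iff]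
    rintro ⟨i, j⟩ hp
    rw [mem_T] at hp
    simp only at hp ⊢
    omega

theorem card_Pout (a b m : ℕ) : (Pout a b m).card + cT m (a + b) = cT m a + cT m b := by
  have h1 := card_shift m a 0
  have h2 := card_shift m 0 b
  have h3 := card_shift m a b
  have e : Pout a b m = ((T m).filter (fun p => a ≤ p.1 ∧ 0 ≤ p.2)) ∪
      ((T m).filter (fun p => 0 ≤ p.1 ∧ b ≤ p.2)) := by
    ext p
    simp only [mem_Pout, Finset.mem_union, Finset.mem_filter, mem_T]
    omega
  have e' : ((T m).filter (fun p => a ≤ p.1 ∧ b ≤ p.2)) =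
      ((T m).filter (fun p => a ≤ p.1 ∧ 0 ≤ p.2)) ∩
      ((T m).filter (fun p => 0 ≤ p.1 ∧ b ≤ p.2)) := by
    ext p
    simp only [Finset.mem_inter, Finset.mem_filter, mem_T]
    omega
  rw [e']  at h3
  have h4 := Finset.card_union_add_card_inter ((T m).filter (fun p => a ≤ p.1 ∧ 0 ≤ p.2))
    ((T m).filter (fun p => 0 ≤ p.1 ∧ b ≤ p.2))
  rw [e]
  rw [add_zero] at h1
  rw [zero_add] at h2
  omega

/-- Hilbert function of a regular pair. -/
theorem finrank_idg_eq_card_Pout {f g : P3 k} {a b : ℕ} (hf : f.IsHomogeneous a)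
    (hg : g.IsHomogeneous b) (hf0 : f ≠ 0) (hg0 : g ≠ 0)
    (hreg : ∀ p, g * p ∈ Ideal.span {f} → p ∈ Ideal.span {f}) (m : ℕ) :
    finrank k (idg (Ideal.span {f, g}) m) = (Pout a b m).card := by
  have h1 := finrank_idg_span_pair hf hg hf0 hg0 hreg m
  have h2 := card_Pout a b m
  omega

end Run7.H941
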